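import Pool.Agent.Helper23.Pcf.Gen

set_option autoImplicit false

open Cardinal Ordinal Set Filter

universe u

namespace Helper23.Pcf

variable {ι ι' : Type u}

theorem lift_mk_le_of_inj {α : Type u} {β : Type (u+1)} (f : α → β) (hf : Function.Injective f) :
    Cardinal.lift.{u+1} #α ≤ #β := by
  have := Cardinal.lift_mk_le_lift_mk_of_injective hf
  rwa [Cardinal.lift_id'.{u, u+1}] at this

theorem mk_le_lift_of_inj {α : Type u} {β : Type (u+1)} (f : β → α) (hf : Function.Injective f) :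
    #β ≤ Cardinal.lift.{u+1} #α := by
  have := Cardinal.lift_mk_le_lift_mk_of_injective hf
  rwa [Cardinal.lift_id'.{u, u+1}] at this

theorem exists_equiv_of_mk_eq {α : Type u} {β : Type (u+1)} (h : #β = Cardinal.lift.{u+1} #α) :
    Nonempty (β ≃ α) := by
  rw [← Cardinal.lift_mk_eq'.{u+1, u}, Cardinal.lift_id'.{u, u+1}, h]

theorem HasCof.congr {D : Ultrafilter ι} {c c' : ι → Ordinal.{u}} {θ : Cardinal.{u}}
    (H : HasCof D c θ) (h : ∀ᶠ i in D, c i = c' i) : HasCof D c' θ := by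
  refine H.transfer id id ?_ ?_ ?_
  · intro f hf
    filter_upwards [hf, h] with i hi hi'
    rw [← hi']; exact hi
  · intro f hf
    filter_upwards [hf, h] with i hi hi'
    rw [hi']; exact hi
  · intro f h _ _ h'
    exact h'

theorem HasCof.map_injective {D : Ultrafilter ι} {y : ι → ι'} (hy : Function.Injective y)
    {c : ι' → Ordinal.{u}} {θ : Cardinal.{u}} :
    HasCof (D.map y) c θ ↔ HasCof D (fun i => c (y i)) θ := by
  have hev : ∀ p : ι' → Prop, (∀ᶠ j in (D.map y : Ultrafilter ι'), p j) ↔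
      ∀ᶠ i in D, p (y i) := fun p => Iff.rfl
  classical
  constructor
  · intro H
    refine H.transfer (fun h i => h (y i)) (fun f => Function.extend y f 0) ?_ ?_ ?_
    · intro h hh
      exact (hev _).1 hh
    · intro f hf
      refine (hev _).2 ?_
      filter_upwards [hf] with i hi
      rw [hy.extend_apply]; exact hi
    · intro f h _ _ hfh
      filter_upwards [(hev _).1 hfh] with i hi
      rw [hy.extend_apply] at hi; exact hi
  · intro H
    refine H.transfer (fun f => Function.extend y f 0) (fun h i => h (y i)) ?_ ?_ ?_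
    · intro f hf
      refine (hev _).2 ?_
      filter_upwards [hf] with i hi
      rw [hy.extend_apply]; exact hi
    · intro h hh
      exact (hev _).1 hh
    · intro f h _ _ hfh
      refine (hev _).2 ?_
      filter_upwards [hfh] with i hi
      rw [hy.extend_apply]; exact hi

/-- Possible cofinalities of (small) families of cardinals taken from `a`. -/
def pcfS (a : Set Cardinal.{u}) : Set Cardinal.{u} :=
  {κ | ∃ (ι : Type u) (c : ι → Cardinal.{u}) (D : Ultrafilter ι), Function.Injective c ∧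
    (∀ i, c i ∈ a) ∧ HasCof D (fun i => (c i).ord) κ}

theorem pcfS_mono {a b : Set Cardinal.{u}} (h : a ⊆ b) : pcfS a ⊆ pcfS b := by
  rintro κ ⟨ι, c, D, h1, h2, h3⟩
  exact ⟨ι, c, D, h1, fun i => h (h2 i), h3⟩

theorem self_subset_pcfS {a : Set Cardinal.{u}} (ha : ∀ κ ∈ a, κ.IsRegular) : a ⊆ pcfS a := by
  intro κ hκ
  refine ⟨PUnit, fun _ => κ, pure PUnit.unit, fun _ _ _ => rfl, fun _ => hκ, ?_⟩
  have hev : ∀ p : PUnit.{u+1} → Prop, (∀ᶠ j in (pure PUnit.unit : Ultrafilter PUnit.{u+1}), p j) ↔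
      p PUnit.unit := fun p => by
    exact Filter.eventually_pure
  have hreg := ha κ hκ
  refine hasCof_of_scale hreg (fun ξ _ => ξ) ?_ ?_ ?_
  · intro ξ hξ
    exact (hev _).2 hξ
  · intro ξ η h _
    exact (hev _).2 h
  · intro g hg
    have hg' := (hev _).1 hg
    have hlim : Order.IsSuccLimit κ.ord := Cardinal.isSuccLimit_ord hreg.1
    exact ⟨Order.succ (g PUnit.unit), hlim.succ_lt hg', (hev _).2 (Order.lt_succ _)⟩

theorem pcfS_union {a b : Set Cardinal.{u}} : pcfS (a ∪ b) = pcfS a ∪ pcfS b := by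
  apply subset_antisymm
  · rintro κ ⟨ι, c, D, h1, h2, h3⟩
    have key : ∀ s : Set Cardinal.{u}, {i | c i ∈ s} ∈ D → κ ∈ pcfS s := by
      intro s hs
      have hinj : Function.Injective (Subtype.val : {i // c i ∈ s} → ι) := Subtype.val_injective
      have hr : range (Subtype.val : {i // c i ∈ s} → ι) ∈ D := by
        rw [Subtype.range_coe_subtype]; exact hs
      refine ⟨{i // c i ∈ s}, fun i => c i.1, D.comap hinj hr,
        fun i j h => Subtype.ext (h1 h), fun i => i.2, ?_⟩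
      rw [← HasCof.map_injective (c := fun i => (c i).ord) hinj]
      have : (D.comap hinj hr).map Subtype.val = D := by
        apply Ultrafilter.coe_injective
        rw [Ultrafilter.coe_map, Ultrafilter.coe_comap, Filter.map_comap_of_mem hr]
      rw [this]; exact h3
    have hu : {i | c i ∈ a} ∪ {i | c i ∈ b} ∈ D := by
      have : {i | c i ∈ a} ∪ {i | c i ∈ b} = Set.univ := by
        ext i; simpa using h2 i
      rw [this]; exact Filter.univ_mem
    rcases Ultrafilter.union_mem_iff.1 hu with h | h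
    · exact Or.inl (key a h)
    · exact Or.inr (key b h)
  · exact union_subset (pcfS_mono subset_union_left) (pcfS_mono subset_union_right)

theorem pcfS_isRegular {a : Set Cardinal.{u}} {κ : Cardinal.{u}} (h : κ ∈ pcfS a) :
    κ.IsRegular := by
  obtain ⟨ι, c, D, _, _, h3⟩ := h
  exact h3.isRegular

theorem lt_of_mem_pcfS {a : Set Cardinal.{u}} (ha : ∀ κ ∈ a, κ.IsRegular) {μ : Cardinal.{u}}
    (hμ : ∀ κ ∈ a, μ < κ) {κ : Cardinal.{u}} (h : κ ∈ pcfS a) : μ < κ := by
  obtain ⟨ι, c, D, _, h2, h3⟩ := h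
  refine h3.lt_of_cof (Filter.Eventually.of_forall fun i => ?_)
  rw [(ha _ (h2 i)).cof_ord]
  exact hμ _ (h2 i)

theorem le_of_mem_pcfS {a : Set Cardinal.{u}} {ρ k : Cardinal.{u}}
    (hρ : ∀ κ ∈ a, κ ≤ ρ) (hk : #a ≤ Cardinal.lift.{u+1} k) (hρ0 : ρ ≠ 0)
    {κ : Cardinal.{u}} (h : κ ∈ pcfS a) : κ ≤ ρ ^ k := by
  obtain ⟨ι, c, D, h1, h2, h3⟩ := h
  refine (h3.le_power (ρ := ρ) (Filter.Eventually.of_forall fun i => Cardinal.ord_le_ord.2
    (hρ _ (h2 i)))).trans (Cardinal.power_le_power_left hρ0 ?_)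
  have : Cardinal.lift.{u+1} #ι ≤ #a :=
    lift_mk_le_of_inj (fun i : ι => (⟨c i, h2 i⟩ : a)) (fun i j h => h1 (congrArg Subtype.val h))
  exact Cardinal.lift_le.1 (this.trans hk)

/-- Idempotence of pcf. -/
theorem pcfS_pcfS {a b : Set Cardinal.{u}} {k : Cardinal.{u}} (ha : ∀ κ ∈ a, κ.IsRegular)
    [Small.{u} a] (hb : b ⊆ pcfS a) (hk : #b ≤ Cardinal.lift.{u+1} k) (hka : ∀ κ ∈ a, k < κ)
    : pcfS b ⊆ pcfS a := by
  rintro κ ⟨J, b', E, h1, h2, h3⟩
  have hJ : #J ≤ k := by
    have : Cardinal.lift.{u+1} #J ≤ #b :=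
      lift_mk_le_of_inj (fun i : J => (⟨b' i, h2 i⟩ : b)) (fun i j h => h1 (congrArg Subtype.val h))
    exact Cardinal.lift_le.1 (this.trans hk)
  -- index everything by `Shrink a`
  let c : Shrink.{u} a → Cardinal.{u} := fun i => ((equivShrink a).symm i).1
  have hc : Function.Injective c := fun i j h =>
    (equivShrink a).symm.injective (Subtype.ext h)
  have hcmem : ∀ i, c i ∈ a := fun i => ((equivShrink a).symm i).2
  have hD : ∀ j, ∃ D : Ultrafilter (Shrink.{u} a), HasCof D (fun i => (c i).ord) (b' j) := by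
    intro j
    obtain ⟨ι, c', D, g1, g2, g3⟩ := hb (h2 j)
    let y : ι → Shrink.{u} a := fun i => equivShrink a ⟨c' i, g2 i⟩
    have hcy : ∀ i, c (y i) = c' i := fun i => by simp [c, y]
    have hy : Function.Injective y := fun i j h => g1 (by rw [← hcy, ← hcy, h])
    refine ⟨D.map y, ?_⟩
    rw [HasCof.map_injective hy]
    simpa only [hcy] using g3
  choose Dj hDj using hD
  refine ⟨Shrink.{u} a, c, E.bind Dj, hc, hcmem, ?_⟩
  refine HasCof.bind (fun i => ?_) hDj h3
  rw [(ha _ (hcmem i)).cof_ord]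
  exact lt_of_le_of_lt hJ (hka _ (hcmem i))

/-- `|pcf a| ≤ 2 ^ |a|` when `2 ^ |a| < min a`. -/
theorem mk_pcfS_le {a : Set Cardinal.{u}} {k : Cardinal.{u}} (ha : ∀ κ ∈ a, κ.IsRegular)
    (hk : #a = Cardinal.lift.{u+1} k) (hka : ∀ κ ∈ a, 2 ^ k < κ) :
    #(pcfS a) ≤ Cardinal.lift.{u+1} (2 ^ k) := by
  obtain ⟨e⟩ := exists_equiv_of_mk_eq (α := k.out) (β := a) (by rw [Cardinal.mk_out]; exact hk)
  have hsmall : Small.{u} a := ⟨k.out, ⟨e⟩⟩
  let c : Shrink.{u} a → Cardinal.{u} := fun i => ((equivShrink a).symm i).1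
  have hc : Function.Injective c := fun i j h =>
    (equivShrink a).symm.injective (Subtype.ext h)
  have hcmem : ∀ i, c i ∈ a := fun i => ((equivShrink a).symm i).2
  have hcard : #(Shrink.{u} a) = k := by
    rw [← Cardinal.mk_out k]
    exact Cardinal.mk_congr ((equivShrink.{u} a).symm.trans e)
  have hcof : ∀ i, 2 ^ #(Shrink.{u} a) < ((c i).ord).cof := fun i => by
    rw [(ha _ (hcmem i)).cof_ord, hcard]
    exact hka _ (hcmem i)
  obtain ⟨Y, hY⟩ := exists_injOn hcof
  have hsub : pcfS a ⊆ {θ | ∃ D : Ultrafilter (Shrink.{u} a), HasCof D (fun i => (c i).ord) θ} := by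
    rintro κ ⟨ι, c', D, g1, g2, g3⟩
    let y : ι → Shrink.{u} a := fun i => equivShrink a ⟨c' i, g2 i⟩
    have hcy : ∀ i, c (y i) = c' i := fun i => by simp [c, y]
    have hy : Function.Injective y := fun i j h => g1 (by rw [← hcy, ← hcy, h])
    refine ⟨D.map y, ?_⟩
    rw [HasCof.map_injective hy]
    simpa only [hcy] using g3
  have := mk_le_lift_of_inj
    (fun κ : pcfS a => Y κ.1) (fun κ κ' h => Subtype.ext (hY (hsub κ.2) (hsub κ'.2) h))
  rw [Cardinal.mk_set, hcard] at this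
  exact this

end Helper23.Pcf
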