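import Pool.Agent.Helper23.Pcf.NoHole2
import Pool.Agent.Helper23.Pcf.Sets

set_option autoImplicit false

open Cardinal Ordinal Set Filter

universe u v

namespace Helper23.Pcf

/-- tails of `o` -/
def tailF {ι : Type u} (e : ι → Ordinal.{u}) (o : Ordinal.{u}) (ho : 0 < o) : Filter ι where
  sets := {s | ∃ x < o, ∀ i, x < e i → i ∈ s}
  univ_sets := ⟨0, ho, fun _ _ => trivial⟩
  sets_of_superset := fun {s t} ⟨x, h1, h2⟩ h => ⟨x, h1, fun i hi => h (h2 i hi)⟩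
  inter_sets := fun {s t} ⟨x, h1, h2⟩ ⟨y, h3, h4⟩ =>
    ⟨max x y, max_lt h1 h3, fun i hi => ⟨h2 i (lt_of_le_of_lt (le_max_left _ _) hi),
      h4 i (lt_of_le_of_lt (le_max_right _ _) hi)⟩⟩

theorem mem_tailF {ι : Type u} {e : ι → Ordinal.{u}} {o : Ordinal.{u}} {ho : 0 < o} {s : Set ι} :
    s ∈ tailF e o ho ↔ ∃ x < o, ∀ i, x < e i → i ∈ s := Iff.rfl

theorem ev_tailF {ι : Type u} {e : ι → Ordinal.{u}} {o : Ordinal.{u}} {ho : 0 < o} {p : ι → Prop} :
    (∀ᶠ i in tailF e o ho, p i) ↔ ∃ x < o, ∀ i, x < e i → p i := Iff.rfl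

theorem f5_core {o₀ o : Ordinal.{u}} (ho : Order.IsSuccLimit o) (hcof : ℵ₀ < o.cof)
    (hlt : o₀ < o) (hcard : o.card < ℵ_ o₀) {ι : Type u} (e : ι → Ordinal.{u})
    (he : ∀ i, o₀ < e i ∧ e i < o) (hι : #ι ≤ o.card) :
    ∃ E : Set Ordinal.{u}, ClubIn E o ∧ ∀ D : Ultrafilter ι, (∀ x < o, ∀ᶠ i in D, x < e i) →
      (∀ᶠ i in D, e i ∈ E) → HasCof D (fun i => (ℵ_ (e i + 1)).ord) (ℵ_ (o + 1)) := by
  classical
  set c : ι → Ordinal.{u} := fun i => (ℵ_ (e i + 1)).ord with hc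
  have hcofc : ∀ i, (c i).cof = ℵ_ (e i + 1) := fun i => (isRegular_aleph_add_one _).cof_ord
  have ho0 : 0 < o := pos_iff_ne_zero.2 (by rintro rfl; exact not_lt_bot hlt)
  set F := tailF e o ho0 with hF
  set ν := ℵ_ (o₀ + 1) with hν
  have hνreg : ν.IsRegular := isRegular_aleph_add_one _
  have hν0 : ℵ₀ < ν := by
    rw [← Cardinal.aleph_zero, hν, Cardinal.aleph_lt_aleph]
    exact lt_of_le_of_lt zero_le (Order.lt_add_one_iff.2 le_rfl)
  have hιν : #ι < ν := lt_of_le_of_lt hι (hcard.trans (Cardinal.aleph_lt_aleph.2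
    (Order.lt_add_one_iff.2 le_rfl)))
  have hνc : ∀ i, ν < (c i).cof := fun i => by
    rw [hcofc, hν, Cardinal.aleph_lt_aleph]
    exact Order.lt_add_one_iff.2 (Order.add_one_le_of_lt (he i).1)
  have hpos := pos_of_cof' hνc
  have hlimc : ∀ i, Order.IsSuccLimit (c i) := fun i =>
    Ordinal.one_lt_cof_iff.1 (lt_trans (one_lt_aleph0.trans hν0) (hνc i))
  set θ := ℵ_ (o + 1) with hθ
  have hθreg : θ.IsRegular := isRegular_aleph_add_one _
  have hsucc : θ = Order.succ (ℵ_ o) := by rw [hθ]; exact Cardinal.aleph_add_one o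
  have hsucc' : ∀ x, ℵ_ (x + 1) = Order.succ (ℵ_ x) := fun x => Cardinal.aleph_add_one x
  have hlimit : ∀ y : Ordinal.{u}, y < (ℵ_ o).ord → ∃ x < o, y < (ℵ_ x).ord := by
    intro y hy
    obtain ⟨x, hx, hx'⟩ := (Cardinal.isNormal_aleph.lt_iff_exists_lt ho).1 (Cardinal.lt_ord.1 hy)
    exact ⟨x, hx, Cardinal.lt_ord.2 hx'⟩
  have hdir : ∀ (K : Type u) (G : K → ι → Ordinal.{u}), #K < θ → (∀ k i, G k i < c i) →
      ∃ g : ι → Ordinal.{u}, (∀ i, g i < c i) ∧ ∀ k, fle F (G k) g := by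
    intro K G hK hG
    have hK' : #K ≤ #(ℵ_ o).ord.ToType := by
      rw [Cardinal.mk_ord_toType]; rw [hsucc] at hK; exact Order.lt_succ_iff.1 hK
    obtain ⟨r⟩ := hK'
    let r' : K → Ordinal.{u} := fun k => (Ordinal.ToType.mk.symm (r k)).1
    have hr' : Function.Injective r' := fun k k' h =>
      r.injective (Ordinal.ToType.mk.symm.injective (Subtype.ext h))
    refine ⟨fun i => ⨆ k : {k // r' k < (ℵ_ (e i)).ord}, G k.1 i, fun i => ?_, fun k => ?_⟩
    · refine Ordinal.iSup_lt_of_lt_cof ?_ fun k => hG k.1 i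
      rw [hcofc, hsucc', Order.lt_succ_iff]
      have h1 : #{k // r' k < (ℵ_ (e i)).ord} ≤ #(ℵ_ (e i)).ord.ToType :=
        Cardinal.mk_le_of_injective (f := fun k : {k // r' k < (ℵ_ (e i)).ord} =>
          Ordinal.ToType.mk ⟨r' k.1, k.2⟩) (fun k k' h => by
            have := Ordinal.ToType.mk.injective h
            exact Subtype.ext (hr' (Subtype.mk.inj this)))
      simpa using h1
    · obtain ⟨x, hx, hx'⟩ := hlimit (r' k) (Ordinal.ToType.mk.symm (r k)).2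
      refine ev_tailF.2 ⟨x, hx, fun i hi => ?_⟩
      exact Ordinal.le_iSup (fun k : {k // r' k < (ℵ_ (e i)).ord} => G k.1 i)
        ⟨k, hx'.trans (Cardinal.ord_lt_ord.2 (Cardinal.aleph_lt_aleph.2 hi))⟩
  obtain ⟨f, hf1, hf2, hf3⟩ := exists_ctrl F hpos hlimc θ hθreg.1 hdir
  have hBPP : ∀ x, o₀ ≤ x → x < o → BPP F f θ (ℵ_ (x + 1)) := by
    intro x hx hxo
    have hx3 : x + 1 + 1 + 1 < o := by
      have h1 := ho.succ_lt (ho.succ_lt (ho.succ_lt hxo))
      simpa only [Order.succ_eq_add_one] using h1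
    have hχ2 : Order.succ (Order.succ (ℵ_ (x + 1))) = ℵ_ (x + 1 + 1 + 1) := by
      rw [hsucc' (x + 1 + 1), hsucc' (x + 1)]
    refine bpp_of_club F (isRegular_aleph_add_one _) ?_ ?_ hθreg ?_ f hf2 ?_
    · rw [← Cardinal.aleph_zero, Cardinal.aleph_lt_aleph]
      exact lt_of_le_of_lt zero_le (Order.lt_add_one_iff.2 le_rfl)
    · refine lt_of_lt_of_le hιν (Cardinal.aleph_le_aleph.2 ?_)
      exact add_le_add_left hx 1
    · rw [hχ2, hθ, Cardinal.aleph_lt_aleph]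
      exact hx3.trans (Order.lt_add_one_iff.2 le_rfl)
    · intro δ hδ hcofδ
      have hlim : Order.IsSuccLimit δ := by
        rw [← Ordinal.one_lt_cof_iff, hcofδ, hχ2]
        exact one_lt_aleph0.trans_le (Cardinal.aleph0_le_aleph _)
      obtain ⟨E, hE, h, h1, h2⟩ := hf3 δ hδ hlim
      refine ⟨E, hE, δ, hδ, h, h1, ev_tailF.2 ⟨_, hx3, fun i hi => h2 i ?_⟩⟩
      rw [hcofδ, hcofc, hχ2, Cardinal.aleph_lt_aleph]
      exact hi.trans (Order.lt_add_one_iff.2 le_rfl)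
  have hνθ : ν < θ := by
    rw [hν, hθ, Cardinal.aleph_lt_aleph]
    exact Order.lt_add_one_iff.2 (Order.add_one_le_of_lt hlt)
  obtain ⟨g, hg1, hg2, hg3, hg4⟩ := exists_eub F hνreg hιν le_rfl hθreg hνθ f hf2
    (hBPP o₀ le_rfl hlt) c (fun ξ _ i => hf1 ξ i)
  have hcofg : ∀ x < o, ∃ y < o, ∀ i, y < e i → ℵ_ (x + 1) ≤ (g i).cof := by
    intro x hx
    have h1 := eub_cof F (Cardinal.aleph0_le_aleph _) f (hBPP (max o₀ x) (le_max_left _ _)
      (max_lt hlt hx)) c g (fun ξ _ i => hf1 ξ i) hg2 hg4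
    obtain ⟨y, hy, hy'⟩ := ev_tailF.1 h1
    refine ⟨y, hy, fun i hi => le_trans ?_ (hy' i hi)⟩
    exact Cardinal.aleph_le_aleph.2 (add_le_add_left (le_max_right _ _) 1)
  let p : Ordinal.{u} → Ordinal.{u} := fun x => sInf {y | y < o ∧ ∀ i, y < e i → ℵ_ (x + 1) ≤ (g i).cof}
  have hp : ∀ x < o, p x < o ∧ ∀ i, p x < e i → ℵ_ (x + 1) ≤ (g i).cof := fun x hx => by
    obtain ⟨y, hy⟩ := hcofg x hx
    exact csInf_mem (s := {y | y < o ∧ ∀ i, y < e i → ℵ_ (x + 1) ≤ (g i).cof}) ⟨y, hy⟩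
  have hpmono : ∀ x y, x ≤ y → y < o → p x ≤ p y := by
    intro x y hxy hy
    refine csInf_le' ⟨(hp y hy).1, fun i hi => le_trans ?_ ((hp y hy).2 i hi)⟩
    exact Cardinal.aleph_le_aleph.2 (add_le_add_left hxy 1)
  refine ⟨{ε | o₀ < ε ∧ ε < o ∧ Order.IsSuccLimit ε ∧ ∀ x < ε, p x < ε}, ⟨?_, ?_⟩, ?_⟩
  · intro x hx
    obtain ⟨z, hz, hxz, hz'⟩ := exists_iter hcof (fun w => max (Order.succ w) (Order.succ (p w)))
      (fun w hw => ⟨lt_of_lt_of_le (Order.lt_succ w) (le_max_left _ _),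
        max_lt (ho.succ_lt hw) (ho.succ_lt (hp w hw).1)⟩) (max x o₀) (max_lt hx hlt)
    refine ⟨z, ⟨lt_of_le_of_lt (le_max_right _ _) hxz, hz, ⟨?_, ?_⟩, ?_⟩,
      lt_of_le_of_lt (le_max_left _ _) hxz, hz⟩
    · rw [isMin_iff_eq_bot]
      exact (lt_of_le_of_lt zero_le hxz).ne'
    · intro w hw
      obtain ⟨y, hy1, hy2, _⟩ := hz' w hw.lt
      exact hw.2 hy2 hy1
    · intro w hw
      obtain ⟨y, hy1, hy2, hy3⟩ := hz' w hw
      refine lt_of_le_of_lt (hpmono w y hy2.le (hy1.trans hz)) ?_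
      exact lt_of_lt_of_le (Order.lt_succ _) ((le_max_right _ _).trans hy3.le)
  · intro δ hδ hδ0 hu
    refine ⟨?_, hδ, hu.isSuccLimit hδ0, ?_⟩
    · obtain ⟨y, hy, h1, h2⟩ := hu 0 hδ0
      exact hy.1.trans h2
    · intro x hx
      obtain ⟨y, hy, h1, h2⟩ := hu x hx
      exact (hy.2.2.2 x h1).trans h2
  · intro D hD hDE
    have heq : ∀ᶠ i in D, g i = c i := by
      filter_upwards [hDE] with i hi
      refine le_antisymm (hg1 i) ?_
      obtain ⟨h1, h2, h3, h4⟩ := hi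
      have h5 : ℵ_ (e i) ≤ (g i).cof := by
        by_contra hcon
        push Not at hcon
        obtain ⟨x, hx, hx'⟩ := (Cardinal.isNormal_aleph.lt_iff_exists_lt h3).1 hcon
        have h6 := (hp x (hx.trans h2)).2 i (h4 x hx)
        refine absurd (hx'.trans_le ((Cardinal.aleph_le_aleph.2 ?_).trans h6)) (lt_irrefl _)
        exact (Order.lt_add_one_iff.2 le_rfl).le
      have h6 : ℵ_ (e i) ≠ (g i).cof := by
        intro heq
        have hgi : Order.IsSuccLimit (g i) := by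
          rw [← Ordinal.one_lt_cof_iff, ← heq]; exact one_lt_aleph0.trans_le (Cardinal.aleph0_le_aleph _)
        have h7 : (ℵ_ (e i)).IsRegular := by rw [heq]; exact Cardinal.isRegular_cof hgi
        have h8 := h7.cof_ord
        rw [Cardinal.ord_aleph, Ordinal.cof_omega h3] at h8
        have h9 : (e i).cof < ℵ_ (e i) := by
          refine lt_of_le_of_lt ((Ordinal.cof_le_card _).trans (Ordinal.card_le_card h2.le)) ?_
          exact hcard.trans (Cardinal.aleph_lt_aleph.2 h1)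
        exact absurd h8 h9.ne
      have h7 : ℵ_ (e i + 1) ≤ (g i).cof := by
        rw [hsucc']
        exact Order.succ_le_of_lt (lt_of_le_of_ne h5 h6)
      have h8 := h7.trans (Ordinal.cof_le_card _)
      exact Cardinal.ord_le.2 h8
    have hDF : (D : Filter ι) ≤ F := by
      intro s hs
      obtain ⟨x, hx, hx'⟩ := hs
      filter_upwards [hD x hx] with i hi
      exact hx' i hi
    refine hasCof_of_scale hθreg f (fun ξ _ => dlt_of_forall (hf1 ξ))
      (fun ξ η h hη => hDF (hf2 ξ η h hη)) ?_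
    intro h hh
    have h0 : flt F (fun i => if h i < g i then h i else 0) g := by
      filter_upwards [hg2 0 hθreg.ord_pos] with i hi
      split_ifs with h'
      · exact h'
      · exact lt_of_le_of_lt zero_le hi
    obtain ⟨ξ, hξ, hξ'⟩ := hg3 _ h0
    refine ⟨ξ, hξ, ?_⟩
    have hξ'' : ∀ᶠ i in D, (if h i < g i then h i else 0) < f ξ i := hDF hξ'
    filter_upwards [hξ'', heq, hh] with i h1 h2 h3
    rw [h2, if_pos h3] at h1
    exact h1

theorem f5 {o₀ o : Ordinal.{u}} (ho : Order.IsSuccLimit o) (hcof : ℵ₀ < o.cof)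
    (hlt : o₀ < o) (hcard : o.card < ℵ_ o₀) :
    ∃ E : Set Ordinal.{u}, ClubIn E o ∧ (∀ ε ∈ E, o₀ < ε ∧ ε < o) ∧
      (∀ (J : Type u) (e : J → Ordinal.{u}) (D : Ultrafilter J), Function.Injective e →
        (∀ j, o₀ < e j ∧ e j < o) → (∀ x < o, ∀ᶠ j in D, x < e j) → (∀ᶠ j in D, e j ∈ E) →
          HasCof D (fun j => (ℵ_ (e j + 1)).ord) (ℵ_ (o + 1))) ∧
      (∀ (J : Type u) (e : J → Ordinal.{u}) (D : Ultrafilter J), Function.Injective e →
        (∀ j, e j ∈ E) → ∀ θ, HasCof D (fun j => (ℵ_ (e j + 1)).ord) θ → θ ≤ ℵ_ (o + 1)) := by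
  classical
  have ho0 : 0 < o := pos_iff_ne_zero.2 (by rintro rfl; exact not_lt_bot hlt)
  let T : Set Ordinal.{u} := Ioo o₀ o
  let ι := Shrink.{u} T
  let e : ι → Ordinal.{u} := fun i => ((equivShrink T).symm i).1
  have heinj : Function.Injective e := fun i j h => (equivShrink T).symm.injective (Subtype.ext h)
  have he : ∀ i, o₀ < e i ∧ e i < o := fun i => ((equivShrink T).symm i).2
  have hι : #ι ≤ o.card := by
    have : #ι ≤ #o.ToType := Cardinal.mk_le_of_injective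
      (f := fun i => Ordinal.ToType.mk ⟨e i, (he i).2⟩)
      (fun i j h => heinj (Subtype.mk.inj (Ordinal.ToType.mk.injective h)))
    simpa using this
  obtain ⟨E, hE, hE'⟩ := f5_core ho hcof hlt hcard e he hι
  set c : ι → Ordinal.{u} := fun i => (ℵ_ (e i + 1)).ord with hc
  have hcofc : ∀ i, (c i).cof = ℵ_ (e i + 1) := fun i => (isRegular_aleph_add_one _).cof_ord
  set ν := ℵ_ (o₀ + 1) with hν
  have hνreg : ν.IsRegular := isRegular_aleph_add_one _
  have hιν : #ι < ν := lt_of_le_of_lt hι (hcard.trans (Cardinal.aleph_lt_aleph.2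
    (Order.lt_add_one_iff.2 le_rfl)))
  have hνc : ∀ i, ν < (c i).cof := fun i => by
    rw [hcofc, hν, Cardinal.aleph_lt_aleph]
    exact Order.lt_add_one_iff.2 (Order.add_one_le_of_lt (he i).1)
  let FE : Filter ι := tailF e o ho0 ⊓ Filter.principal {i | e i ∈ E}
  let Fge : Filter ι := ⨆ D : Ge c (Order.succ (ℵ_ (o + 1))), (D.1 : Filter ι)
  have hFge : ∀ s : Set ι, s ∈ Fge ↔ ∀ D ∈ Ge c (Order.succ (ℵ_ (o + 1))), s ∈ D := by
    intro s
    simp only [Fge, Filter.mem_iSup, Subtype.forall, Ultrafilter.mem_coe]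
  have hbot : FE ⊓ Fge = ⊥ := by
    by_contra hcon
    have hne : (FE ⊓ Fge).NeBot := ⟨hcon⟩
    set D := Ultrafilter.of (FE ⊓ Fge) with hD
    have hD1 : (D : Filter ι) ≤ FE ⊓ Fge := Ultrafilter.of_le _
    have h1 : HasCof D c (ℵ_ (o + 1)) := by
      refine hE' D ?_ ?_
      · intro x hx
        exact (hD1.trans (inf_le_left.trans inf_le_left)) (mem_tailF.2 ⟨x, hx, fun i hi => hi⟩)
      · exact (hD1.trans (inf_le_left.trans inf_le_right)) (Filter.mem_principal_self _)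
    obtain ⟨Y, hY, hY'⟩ := exists_generator' hνreg hιν hνc h1
    have h2 : Yᶜ ∈ Fge := by
      rw [hFge]
      rintro D' ⟨θ', h3, h4⟩
      rw [Ultrafilter.compl_mem_iff_notMem]
      intro h5
      exact absurd (Order.succ_le_iff.1 (h3.trans (hY' D' h5 θ' h4))) (lt_irrefl _)
    have h3 : Yᶜ ∈ D := (hD1.trans inf_le_right) h2
    exact Ultrafilter.compl_mem_iff_notMem.1 h3 hY
  obtain ⟨U, hU, V, hV, hUV⟩ := Filter.inf_eq_bot_iff.1 hbot
  obtain ⟨x₀, hx₀, hU'⟩ := mem_tailF.1 (Filter.mem_inf_principal.1 hU)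
  have hmap : ∀ (J : Type u) (e' : J → Ordinal.{u}) (D : Ultrafilter J), Function.Injective e' →
      (∀ j, o₀ < e' j ∧ e' j < o) → ∃ y : J → ι, (∀ j, e (y j) = e' j) ∧
        ∀ θ, HasCof D (fun j => (ℵ_ (e' j + 1)).ord) θ ↔ HasCof (D.map y) c θ := by
    intro J e' D hinj hj
    let y : J → ι := fun j => equivShrink T ⟨e' j, hj j⟩
    have hy : ∀ j, e (y j) = e' j := fun j => by simp [e, y]
    have hyinj : Function.Injective y := fun j j' h => hinj (by rw [← hy, ← hy, h])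
    refine ⟨y, hy, fun θ => ?_⟩
    rw [HasCof.map_injective hyinj]
    simp only [hc, hy]
  refine ⟨{ε | ε ∈ E ∧ max o₀ x₀ < ε ∧ ε < o}, ⟨?_, ?_⟩, fun ε h =>
    ⟨lt_of_le_of_lt (le_max_left _ _) h.2.1, h.2.2⟩, ?_, ?_⟩
  · intro x hx
    obtain ⟨y, h1, h2, h3⟩ := hE.unb (max x (max o₀ x₀)) (max_lt hx (max_lt hlt hx₀))
    exact ⟨y, ⟨h1, lt_of_le_of_lt (le_max_right _ _) h2, h3⟩,
      lt_of_le_of_lt (le_max_left _ _) h2, h3⟩
  · intro δ hδ hδ0 hu
    refine ⟨hE.cl δ hδ hδ0 (hu.mono fun ε h => h.1), ?_, hδ⟩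
    obtain ⟨y, hy, h1, h2⟩ := hu 0 hδ0
    exact hy.2.1.trans h2
  · intro J e' D hinj hj hD hDE
    obtain ⟨y, hy, hθ⟩ := hmap J e' D hinj hj
    rw [hθ]
    refine hE' _ ?_ ?_
    · intro x hx
      show ∀ᶠ j in D, x < e (y j)
      simp only [hy]
      exact hD x hx
    · show ∀ᶠ j in D, e (y j) ∈ E
      simp only [hy]
      exact hDE.mono fun j hj => hj.1
  · intro J e' D hinj hj θ hH
    obtain ⟨y, hy, hθ⟩ := hmap J e' D hinj (fun j =>
      ⟨lt_of_le_of_lt (le_max_left _ _) (hj j).2.1, (hj j).2.2⟩)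
    rw [hθ] at hH
    by_contra hcon
    push Not at hcon
    have h1 : V ∈ D.map y := (hFge V).1 hV _ ⟨θ, Order.succ_le_of_lt hcon, hH⟩
    have h2 : U ∈ D.map y := by
      show ∀ᶠ j in D, y j ∈ U
      refine Filter.Eventually.of_forall fun j => hU' (y j) ?_ ?_
      · rw [hy]; exact lt_of_le_of_lt (le_max_right _ _) (hj j).2.1
      · show e (y j) ∈ E
        rw [hy]; exact (hj j).1
    have h3 : U ∩ V ∈ D.map y := Filter.inter_mem h2 h1
    rw [hUV] at h3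
    exact Ultrafilter.empty_notMem h3

end Helper23.Pcf
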