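import Pool.Agent.Helper23.Pcf.Run

set_option autoImplicit false

open Cardinal Ordinal Set Filter

universe u v

namespace Helper23.Pcf

/-- index of a small set of cardinals -/
theorem exists_index (A : Set Cardinal.{u}) [Small.{u} A] :
    ∃ (ι : Type u) (a : ι → Cardinal.{u}), Function.Injective a ∧ range a = A := by
  refine ⟨Shrink.{u} A, fun i => ((equivShrink A).symm i).1,
    fun i j h => (equivShrink A).symm.injective (Subtype.ext h), ?_⟩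
  ext κ
  constructor
  · rintro ⟨i, rfl⟩
    exact ((equivShrink A).symm i).2
  · intro h
    exact ⟨equivShrink A ⟨κ, h⟩, by simp⟩

/-- move an ultrafilter witnessing membership in `pcfS a` to an index set of a bigger set -/
theorem exists_uf_on {ι : Type u} {a : ι → Cardinal.{u}} (_ha : Function.Injective a)
    {s : Set Cardinal.{u}} (hs : s ⊆ range a) {lam : Cardinal.{u}} (h : lam ∈ pcfS s) :
    ∃ D : Ultrafilter ι, HasCof D (fun i => (a i).ord) lam ∧ {i | a i ∈ s} ∈ D := by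
  obtain ⟨ι', c', D', g1, g2, g3⟩ := h
  have hmem : ∀ i, ∃ j, a j = c' i := fun i => hs (g2 i)
  choose y hy using hmem
  have hyinj : Function.Injective y := fun i i' h => g1 (by rw [← hy, ← hy, h])
  refine ⟨D'.map y, ?_, ?_⟩
  · rw [HasCof.map_injective hyinj]
    simp only [hy]
    exact g3
  · show ∀ᶠ i in D', a (y i) ∈ s
    refine Filter.Eventually.of_forall fun i => ?_
    rw [hy]; exact g2 i

/-- The localization lemma. -/
theorem localize {A : Set Cardinal.{u}} [Small.{u} A] (hreg : ∀ κ ∈ A, κ.IsRegular)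
    (hcl : pcfS A ⊆ A) {ν : Cardinal.{u}} (hν : ν.IsRegular) (hν0 : ℵ₀ < ν)
    (hA : #A < Cardinal.lift.{u+1} ν) (hνA : ∀ κ ∈ A, Order.succ (Order.succ ν) < κ)
    {a : Set Cardinal.{u}} (ha : a ⊆ A) {lam : Cardinal.{u}} (hlam : lam ∈ pcfS a)
    {I : Type v} (Y : I → Set Cardinal.{u}) :
    ∃ F : I → Set Cardinal.{u}, (∀ i, (F i).Finite) ∧ (∀ i, F i ⊆ pcfS (Y i ∩ a)) ∧
      ∀ J : Set I, a ⊆ ⋃ i ∈ J, Y i → lam ∈ pcfS (⋃ i ∈ J, F i) := by
  classical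
  have hνpos : ∀ κ ∈ A, ν < κ := fun κ h =>
    ((Order.lt_succ ν).trans (Order.lt_succ _)).trans (hνA κ h)
  -- the first index set
  obtain ⟨ι, x, hx, hxA⟩ := exists_index A
  have hxmem : ∀ i, x i ∈ A := fun i => by rw [← hxA]; exact ⟨i, rfl⟩
  have hιν : ∀ (ι : Type u) (x : ι → Cardinal.{u}), Function.Injective x → (∀ i, x i ∈ A) →
      #ι < ν := by
    intro ι x hx hxm
    have : Cardinal.lift.{u+1} #ι ≤ #A :=
      lift_mk_le_of_inj (fun i : ι => (⟨x i, hxm i⟩ : A)) (fun i j h => hx (Subtype.mk.inj h))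
    exact Cardinal.lift_lt.1 (this.trans_lt hA)
  obtain ⟨b, hb1, hb2, hb3⟩ := exists_transitive (a := x) (fun i => hreg _ (hxmem i)) hν hν0
    (hιν ι x hx hxmem) (fun i => hνA _ (hxmem i))
  obtain ⟨D, hD1, hD2⟩ := exists_uf_on hx (ha.trans hxA.ge) hlam
  have hlamA : lam ∈ A := hcl (pcfS_mono ha hlam)
  obtain ⟨i₀, hi₀⟩ : ∃ i, x i = lam := by rw [← hxA] at hlamA; exact hlamA
  have hB0 : b i₀ ∈ D := hb1 i₀ D (by rw [hi₀]; exact hD1)
  -- the closed set below `lam`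
  set B : Set Cardinal.{u} := x '' b i₀ with hB
  have hBA : B ⊆ A := by rintro _ ⟨i, _, rfl⟩; exact hxmem i
  have hBsmall : Small.{u} B := small_subset hBA
  have hBle : ∀ θ ∈ pcfS B, θ ≤ lam := by
    intro θ hθ
    obtain ⟨E, hE1, hE2⟩ := exists_uf_on hx (hBA.trans hxA.ge) hθ
    have : b i₀ ∈ E := by
      refine Filter.mem_of_superset hE2 ?_
      rintro i ⟨j, hj, hji⟩
      rw [← hx hji]; exact hj
    have := hb2 i₀ E θ this hE1
    rwa [hi₀] at this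
  set A' : Set Cardinal.{u} := pcfS B with hA'
  have hA'A : A' ⊆ A := (pcfS_mono hBA).trans hcl
  have hBA' : B ⊆ A' := self_subset_pcfS fun κ h => hreg _ (hBA h)
  obtain ⟨k, hk⟩ : ∃ k : Cardinal.{u}, Cardinal.lift.{u+1} k = #A := Cardinal.mem_range_lift_of_le hA.le
  have hkν : k < ν := by rw [← hk] at hA; exact Cardinal.lift_lt.1 hA
  have hA'cl : pcfS A' ⊆ A' := by
    refine pcfS_pcfS (k := k) (fun κ h => hreg _ (hBA h)) subset_rfl ?_ ?_
    · rw [hk]; exact Cardinal.mk_le_mk_of_subset hA'A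
    · intro κ h; exact hkν.trans (hνpos _ (hBA h))
  have hA'small : Small.{u} A' := small_subset hA'A
  obtain ⟨ι', x', hx', hxA'⟩ := exists_index A'
  have hxmem' : ∀ i, x' i ∈ A' := fun i => by rw [← hxA']; exact ⟨i, rfl⟩
  obtain ⟨b', hb1', hb2', hb3'⟩ := exists_transitive (a := x') (fun i => hreg _ (hA'A (hxmem' i)))
    hν hν0 (hιν ι' x' hx' fun i => hA'A (hxmem' i)) (fun i => hνA _ (hA'A (hxmem' i)))
  -- every ultrafilter on `ι'` has its cofinality in `A'`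
  have hex : ∀ E : Ultrafilter ι', ∃ j, HasCof E (fun i => (x' i).ord) (x' j) := by
    intro E
    obtain ⟨θ, hθ⟩ := exists_hasCof E (fun i => (x' i).ord)
      (Filter.Eventually.of_forall fun i =>
        Cardinal.isSuccLimit_ord (hreg _ (hA'A (hxmem' i))).1)
    have h1 : θ ∈ A' := hA'cl ⟨ι', x', E, hx', hxmem', hθ⟩
    rw [← hxA'] at h1
    obtain ⟨j, rfl⟩ := h1
    exact ⟨j, hθ⟩
  -- the finite sets
  let Y' : I → Set ι' := fun i => {j | x' j ∈ Y i ∩ a ∩ B}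
  have hfin : ∀ i, ∃ t : Finset {j : ι' // x' j ∈ pcfS (Y i ∩ a)}, Y' i ⊆ ⋃ j ∈ t, b' j.1 := by
    intro i
    refine uf_compact (fun j : {j : ι' // x' j ∈ pcfS (Y i ∩ a)} => b' j.1) (Y' i) ?_
    intro E hE
    obtain ⟨j, hj⟩ := hex E
    refine ⟨⟨j, ?_⟩, hb1' j E hj⟩
    refine pcfS_of_mem hx' hj (Filter.mem_of_superset hE ?_)
    exact fun i h => h.1
  choose t ht using hfin
  refine ⟨fun i => (fun j : {j : ι' // x' j ∈ pcfS (Y i ∩ a)} => x' j.1) '' (t i),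
    fun i => (t i).finite_toSet.image _, ?_, ?_⟩
  · rintro i _ ⟨j, _, rfl⟩
    exact j.2
  intro J hJ
  set c : Set Cardinal.{u} := ⋃ i ∈ J, (fun j : {j : ι' // x' j ∈ pcfS (Y i ∩ a)} => x' j.1) '' (t i)
    with hc
  -- `D` on `ι'`
  have hlam' : lam ∈ pcfS (a ∩ B) := by
    refine pcfS_of_mem hx hD1 ?_
    filter_upwards [hD2, hB0] with i h1 h2
    exact ⟨h1, i, h2, rfl⟩
  obtain ⟨D', hD1', hD2'⟩ := exists_uf_on hx' ((inter_subset_right.trans hBA').trans hxA'.ge) hlam'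
  have hπ : ∀ j : ι', x' j ∈ a ∩ B → ∃ m : ι', j ∈ b' m ∧ x' m ∈ c := by
    intro j hj
    obtain ⟨i, hi, hi'⟩ := mem_iUnion₂.1 (hJ hj.1)
    have h1 : j ∈ Y' i := ⟨⟨hi', hj.1⟩, hj.2⟩
    obtain ⟨m, hm, hm'⟩ := mem_iUnion₂.1 (ht i h1)
    exact ⟨m.1, hm', mem_iUnion₂.2 ⟨i, hi, m, hm, rfl⟩⟩
  let π : ι' → ι' := fun j => if h : x' j ∈ a ∩ B then (hπ j h).choose else j
  have hπ1 : ∀ᶠ j in D', j ∈ b' (π j) ∧ x' (π j) ∈ c := by
    filter_upwards [hD2'] with j hj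
    simp only [π, dif_pos hj]
    exact (hπ j hj).choose_spec
  obtain ⟨m, hm⟩ := hex (D'.map π)
  have h1 : b' m ∈ D'.map π := hb1' m _ hm
  have h2 : ∀ᶠ j in D', π j ∈ b' m := h1
  have h3 : b' m ∈ D' := by
    filter_upwards [hπ1, h2] with j hj hj'
    exact hb3' m (π j) hj' hj.1
  have h4 : lam ≤ x' m := hb2' m D' lam h3 hD1'
  have h5 : x' m ≤ lam := hBle _ (hxmem' m)
  have h6 : x' m = lam := le_antisymm h5 h4
  rw [← h6]
  refine pcfS_of_mem hx' hm ?_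
  show ∀ᶠ j in D', x' (π j) ∈ c
  exact hπ1.mono fun j hj => hj.2

/-- Localization for intervals. -/
theorem localize_ival {α γ₀ : Ordinal.{u}} {κ : Cardinal.{u}} (h0 : ℵ₀ ≤ κ)
    (hκ : (α - γ₀).card ≤ κ) (hρ : succN κ 6 ≤ ℵ_ γ₀) (hγα : γ₀ < α)
    {lam : Cardinal.{u}} (hlam : lam ∈ pcfS (ival (ℵ_ γ₀) (ℵ_ α)))
    {I : Type v} (Y : I → Set Cardinal.{u}) :
    ∃ F : I → Set Cardinal.{u}, (∀ i, (F i).Finite) ∧
      (∀ i, F i ⊆ pcfS (Y i ∩ ival (ℵ_ γ₀) (ℵ_ α))) ∧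
      ∀ J : Set I, ival (ℵ_ γ₀) (ℵ_ α) ⊆ ⋃ i ∈ J, Y i → lam ∈ pcfS (⋃ i ∈ J, F i) := by
  set a := ival (ℵ_ γ₀) (ℵ_ α) with ha
  have hreg : ∀ κ ∈ a, κ.IsRegular := fun κ h => h.1
  have hasmall : Small.{u} a := small_subset (show a ⊆ Set.Iio (ℵ_ α) from fun κ h => h.2.2)
  have hle : #(pcfS a) ≤ Cardinal.lift.{u+1} (succN κ 3) := pcf_le h0 hκ hρ hγα
  have hκa : ∀ θ ∈ a, succN κ 3 < θ := fun θ h =>
    ((succN_mono κ (by norm_num : 3 ≤ 6)).trans hρ).trans_lt h.2.1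
  have hAsmall : Small.{u} (pcfS a) := Cardinal.small_iff_lift_mk_lt_univ.2 (by
    refine lt_of_le_of_lt ?_ (Cardinal.lift_lt_univ (succN κ 3))
    simpa using hle)
  refine localize (A := pcfS a) (fun κ h => pcfS_isRegular h)
    (pcfS_pcfS hreg subset_rfl hle hκa) (ν := succN κ 4) (succN_isRegular h0 3)
    ((h0.trans (le_succN κ 3)).trans_lt (succN_lt κ 3)) ?_ ?_ (self_subset_pcfS hreg) hlam Y
  · exact hle.trans_lt (Cardinal.lift_lt.2 (succN_lt κ 3))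
  · intro θ hθ
    exact lt_of_mem_pcfS hreg (fun κ' h => hρ.trans_lt h.2.1) hθ

end Helper23.Pcf
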