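import Pool.Agent.Helper23.Pcf.NoHole

set_option autoImplicit false

open Cardinal Ordinal Set Filter

universe u v

namespace Helper23.Pcf

/-- The product `∏ i, c i` of ordinals; its members are the functions `f` with `f i < c i` for
all `i`.  It is preordered by `f ≤ g ↔ {i | f i ≤ g i} ∈ D` (so `f < g ↔ {i | f i < g i} ∈ D`);
the quotient by `≤ ∧ ≥` is the ultraproduct `∏ c / D`. -/
def UProd {ι : Type v} (_D : Ultrafilter ι) (c : ι → Ordinal.{u}) : Type (max v (u + 1)) :=
  ∀ i, Set.Iio (c i)

instance {ι : Type v} (D : Ultrafilter ι) (c : ι → Ordinal.{u}) : Preorder (UProd D c) where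
  le f g := ∀ᶠ i in D, f i ≤ g i
  le_refl f := Filter.Eventually.of_forall fun _ => le_rfl
  le_trans f g h h1 h2 := by
    filter_upwards [h1, h2] with i a b using le_trans a b

/-- `pcf a` is the set of all cofinalities of ultraproducts `∏ a / D`, `D` an ultrafilter on `a`.
(Cardinals of sets of cardinals live one universe up, hence the `lift`.) -/
def pcf (a : Set Cardinal.{u}) : Set Cardinal.{u} :=
  {κ | ∃ D : Ultrafilter a,
    Order.cof (UProd D (fun x : a => x.1.ord)) = Cardinal.lift.{u + 1} κ}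

/-- `a_α = {κ regular : |α|⁺ ≤ κ < ℵ_α}`. -/
def aSet (α : Ordinal.{u}) : Set Cardinal.{u} :=
  {κ | κ.IsRegular ∧ Order.succ α.card ≤ κ ∧ κ < ℵ_ α}

section bridge

variable {a : Set Cardinal.{u}} [Small.{u} a]

theorem cof_uprod_eq (ha : ∀ κ ∈ a, κ.IsRegular) (D : Ultrafilter a) {θ : Cardinal.{u}}
    (H : HasCof (D.map (equivShrink.{u} a))
      (fun i => (((equivShrink.{u} a).symm i).1 : Cardinal.{u}).ord) θ) :
    Order.cof (UProd D (fun x : a => x.1.ord)) = Cardinal.lift.{u + 1} θ := by
  classical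
  have hev : ∀ p : Shrink.{u} a → Prop,
      (∀ᶠ j in (D.map (equivShrink.{u} a) : Ultrafilter (Shrink.{u} a)), p j) ↔
      ∀ᶠ i in D, p (equivShrink.{u} a i) := fun p => Iff.rfl
  have hpos : ∀ i : Shrink.{u} a,
      0 < (((equivShrink.{u} a).symm i).1 : Cardinal.{u}).ord := fun i =>
    (ha _ ((equivShrink.{u} a).symm i).2).ord_pos
  have hcg : ∀ (g : UProd D (fun x : a => x.1.ord)) (x : a),
      (g ((equivShrink.{u} a).symm (equivShrink.{u} a x))).1 = (g x).1 := by
    intro g x
    have : ∀ z, z = x → (g z).1 = (g x).1 := by rintro z rfl; rfl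
    exact this _ (Equiv.symm_apply_apply _ _)
  apply le_antisymm
  · obtain ⟨F, hF, hd⟩ := H.dom
    choose F' h1 h2 h3 using fun k => exists_trunc hpos _ (hF k)
    let G : θ.ord.ToType → UProd D (fun x : a => x.1.ord) := fun k x =>
      ⟨F' k (equivShrink.{u} a x), by
        have := h1 k (equivShrink.{u} a x)
        simpa using this⟩
    have hcof : IsCofinal (range G) := by
      intro g
      obtain ⟨k, hk⟩ := hd (fun i => (g ((equivShrink.{u} a).symm i)).1)
        (dlt_of_forall fun i => (g ((equivShrink.{u} a).symm i)).2)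
      refine ⟨G k, ⟨k, rfl⟩, ?_⟩
      have h4 := (hev _).1 (hk.trans_dle (h2 k)).le
      refine h4.mono fun x hx => ?_
      rw [← Subtype.coe_le_coe]
      exact (hcg g x).ge.trans hx
    refine (Order.cof_le hcof).trans ?_
    have := Cardinal.mk_range_le_lift (f := G)
    rw [Cardinal.lift_id'.{u, u+1}] at this
    simpa using this
  · rw [Order.le_cof_iff]
    intro s hs
    by_contra hlt
    push Not at hlt
    obtain ⟨k, hk⟩ := Cardinal.lt_lift_iff.1 hlt
    obtain ⟨e⟩ := exists_equiv_of_mk_eq (α := k.out) (β := s)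
      (by rw [Cardinal.mk_out]; exact hk.2.symm)
    obtain ⟨g, hg, hg'⟩ := H.bdd k.out
      (fun j i => ((e.symm j).1 ((equivShrink.{u} a).symm i)).1)
      (by rw [Cardinal.mk_out]; exact hk.1)
      (fun j => dlt_of_forall fun i => ((e.symm j).1 ((equivShrink.{u} a).symm i)).2)
    obtain ⟨g', h1, h2, _⟩ := exists_trunc hpos _ hg
    let G : UProd D (fun x : a => x.1.ord) := fun x =>
      ⟨g' (equivShrink.{u} a x), by
        have := h1 (equivShrink.{u} a x)
        simpa using this⟩
    obtain ⟨y, hy, hGy⟩ := hs G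
    have h3 := (hg' (e ⟨y, hy⟩)).trans_dle h2
    have h4 : dle (D.map (equivShrink.{u} a)) g'
        (fun i => ((e.symm (e ⟨y, hy⟩)).1 ((equivShrink.{u} a).symm i)).1) := by
      refine (hev _).2 (hGy.mono fun x hx => ?_)
      rw [← Subtype.coe_le_coe] at hx
      rw [Equiv.symm_apply_apply]
      exact le_trans hx (hcg y x).ge
    exact dlt_irrefl (h3.trans_dle h4)

theorem pcf_eq_pcfS (ha : ∀ κ ∈ a, κ.IsRegular) : pcf a = pcfS a := by
  classical
  have hc : Function.Injective (fun i : Shrink.{u} a => ((equivShrink.{u} a).symm i).1) :=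
    fun i j h => (equivShrink a).symm.injective (Subtype.ext h)
  ext κ
  constructor
  · rintro ⟨D, hD⟩
    obtain ⟨θ, hθ⟩ := exists_hasCof (D.map (equivShrink.{u} a))
      (fun i => (((equivShrink.{u} a).symm i).1 : Cardinal.{u}).ord)
      (Filter.Eventually.of_forall fun i => Cardinal.isSuccLimit_ord
        (ha _ ((equivShrink.{u} a).symm i).2).1)
    have h1 := cof_uprod_eq ha D hθ
    rw [hD, Cardinal.lift_inj] at h1
    rw [h1]
    exact ⟨Shrink.{u} a, _, _, hc, fun i => ((equivShrink.{u} a).symm i).2, hθ⟩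
  · rintro ⟨ι, c, D, g1, g2, g3⟩
    let y : ι → a := fun i => ⟨c i, g2 i⟩
    have hy : Function.Injective y := fun i j h => g1 (congrArg Subtype.val h)
    refine ⟨D.map y, cof_uprod_eq ha _ ?_⟩
    have hz : Function.Injective (fun i => equivShrink.{u} a (y i)) :=
      (equivShrink.{u} a).injective.comp hy
    have h1 : (D.map y).map (equivShrink.{u} a) = D.map (fun i => equivShrink.{u} a (y i)) :=
      Ultrafilter.map_map _ _ _
    rw [h1, HasCof.map_injective hz]
    simpa [y] using g3

end bridge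

instance (α : Ordinal.{u}) : Small.{u} (aSet α) := by
  have : aSet α ⊆ Set.Iio (ℵ_ α) := fun κ h => h.2.2
  exact small_subset this

theorem aSet_regular {α : Ordinal.{u}} : ∀ κ ∈ aSet α, κ.IsRegular := fun _ h => h.1

theorem pcf_aSet (α : Ordinal.{u}) : pcf (aSet α) = pcfS (aSet α) := pcf_eq_pcfS aSet_regular

end Helper23.Pcf
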