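import Pool.Agent.Helper23.Pcf.Final2
import Pool.Agent.Helper23.Pcf.Defs

set_option autoImplicit false

open Cardinal Ordinal Set Filter

universe u v

namespace Helper23.Pcf

theorem finite_ival (y : Ordinal.{u}) (n : ℕ) : (ival' (ℵ_ y) (ℵ_ (y + n))).Finite := by
  refine Set.Finite.subset (Set.finite_range (fun k : Fin (n + 1) => ℵ_ (y + (k : ℕ)))) ?_
  rintro κ ⟨h1, h2, h3⟩
  obtain ⟨z, rfl⟩ := Cardinal.mem_range_aleph_iff.2 h1.1
  rw [Cardinal.aleph_lt_aleph] at h2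
  rw [Cardinal.aleph_le_aleph] at h3
  have h4 : z - y ≤ n := Ordinal.sub_le.2 h3
  obtain ⟨m, hm⟩ := Ordinal.lt_omega0.1 (h4.trans_lt (Ordinal.natCast_lt_omega0 n))
  rw [hm, Nat.cast_le] at h4
  refine ⟨⟨m, Nat.lt_succ_of_le h4⟩, ?_⟩
  show ℵ_ (y + (m : Ordinal.{u})) = ℵ_ z
  rw [← hm, Ordinal.add_sub_cancel_of_le h2.le]

theorem ival_split {y x : Ordinal.{u}} {n : ℕ} (h : y + n < x) :
    ival (ℵ_ y) (ℵ_ x) = ival (ℵ_ (y + n)) (ℵ_ x) ∪ ival' (ℵ_ y) (ℵ_ (y + n)) := by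
  ext κ
  simp only [ival, ival', mem_ofPred_eq, mem_union]
  constructor
  · rintro ⟨g1, g2, g3⟩
    by_cases hκ : κ ≤ ℵ_ (y + n)
    · exact Or.inr ⟨g1, g2, hκ⟩
    · exact Or.inl ⟨g1, not_le.1 hκ, g3⟩
  · rintro (⟨g1, g2, g3⟩ | ⟨g1, g2, g3⟩)
    · exact ⟨g1, lt_of_le_of_lt (Cardinal.aleph_le_aleph.2 le_self_add) g2, g3⟩
    · exact ⟨g1, g2, g3.trans_lt (Cardinal.aleph_lt_aleph.2 h)⟩

theorem sub_isSuccLimit {x y : Ordinal.{u}} (hx : Order.IsSuccLimit x) (h : y < x) :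
    Order.IsSuccLimit (x - y) := Ordinal.isSuccLimit_sub hx.isSuccPrelimit h

/-- the number of regular cardinals in `(ℵ_ y, ℵ_ x)` -/
theorem mk_ival {x y : Ordinal.{u}} (hx : Order.IsSuccLimit x) (h : y < x) :
    #(ival (ℵ_ y) (ℵ_ x)) = Cardinal.lift.{u+1} (x - y).card := by
  apply le_antisymm
  · exact mk_le_card' fun κ h => ⟨h.2.1, h.2.2⟩
  · have hlim := sub_isSuccLimit hx h
    have hcard : #(Set.Iio (x - y)) = Cardinal.lift.{u+1} (x - y).card := by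
      rw [Cardinal.mk_Iio_ordinal]
    rw [← hcard]
    refine Cardinal.mk_le_of_injective (f := fun ξ : Set.Iio (x - y) =>
      (⟨ℵ_ (y + ξ.1 + 1), Cardinal.isRegular_aleph_add_one _, ?_, ?_⟩ : ival (ℵ_ y) (ℵ_ x))) ?_
    · rw [Cardinal.aleph_lt_aleph]
      exact lt_of_le_of_lt le_self_add (Order.lt_add_one_iff.2 le_rfl)
    · rw [Cardinal.aleph_lt_aleph, add_assoc]
      have h1 : ξ.1 + 1 < x - y := by
        have := hlim.succ_lt ξ.2
        rwa [Order.succ_eq_add_one] at this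
      exact Ordinal.lt_sub.1 h1
    · intro ξ ξ' h
      have h4 := Cardinal.aleph.injective (Subtype.mk.inj h)
      have h5 : y + ξ.1 = y + ξ'.1 :=
        Order.succ_injective (by rw [Order.succ_eq_add_one, Order.succ_eq_add_one]; exact h4)
      exact Subtype.ext (add_left_cancel h5)

theorem aSet_eq {α γ₀ : Ordinal.{u}} (hγ : α.card = ℵ_ γ₀) : aSet α = ival (ℵ_ γ₀) (ℵ_ α) := by
  ext κ
  simp only [aSet, ival, mem_ofPred_eq, Order.succ_le_iff, hγ]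

theorem succN_le_aleph {κ : Cardinal.{u}} {y : Ordinal.{u}} (h : κ ≤ ℵ_ y) (n : ℕ) :
    succN κ n ≤ ℵ_ (y + n) := by
  induction n with
  | zero => simpa [succN] using h
  | succ n ih =>
    rw [succN_succ, Nat.cast_succ, ← add_assoc, Cardinal.aleph_add_one]
    exact Order.succ_le_succ ih

theorem mk_union_finite {s t : Set Cardinal.{u}} {μ : Cardinal.{u+1}} (hμ : ℵ₀ ≤ μ)
    (ht : t.Finite) : #(s ∪ t : Set Cardinal.{u}) = μ ↔ #s = μ := by
  have ht' : #t < ℵ₀ := Cardinal.lt_aleph0_iff_set_finite.2 ht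
  constructor
  · intro h
    apply le_antisymm
    · rw [← h]; exact Cardinal.mk_le_mk_of_subset subset_union_left
    · by_contra hcon
      push Not at hcon
      have : #(s ∪ t : Set Cardinal.{u}) < μ := lt_of_le_of_lt (Cardinal.mk_union_le _ _)
        (Cardinal.add_lt_of_lt hμ hcon (ht'.trans_le hμ))
      exact this.ne h
  · intro h
    apply le_antisymm
    · exact (Cardinal.mk_union_le _ _).trans (Cardinal.add_le_of_le hμ h.le (ht'.le.trans hμ))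
    · rw [← h]; exact Cardinal.mk_le_mk_of_subset subset_union_left

/-- The run theorem. -/
theorem run_thm {α γ₀ : Ordinal.{u}} (hα : Order.IsSuccLimit α) (hγ : α.card = ℵ_ γ₀) (hlt : γ₀ < α) :
    #(aSet α) = Cardinal.lift.{u+1} (α - γ₀).card ∧
    ∃ μ : Cardinal.{u}, #(pcfS (aSet α)) = Cardinal.lift.{u+1} μ ∧ (α - γ₀).card ≤ μ ∧
      μ ≤ succN (α - γ₀).card 3 ∧ ((α - γ₀).card < μ →
        α < γ₀ + μ.ord ∧ Order.IsSuccLimit (γ₀ + μ.ord) ∧
        (∀ δ, Order.IsSuccLimit δ → α ≤ δ → δ ≤ γ₀ + μ.ord →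
          #(pcfS (aSet δ)) = Cardinal.lift.{u+1} μ) ∧
        (∀ δ, Order.IsSuccLimit δ → α ≤ δ → δ < γ₀ + μ.ord → #(aSet δ) < Cardinal.lift.{u+1} μ) ∧
        #(aSet (γ₀ + μ.ord)) = Cardinal.lift.{u+1} μ) := by
  classical
  have hA : aSet α = ival (ℵ_ γ₀) (ℵ_ α) := aSet_eq hγ
  have hδlim := sub_isSuccLimit hα hlt
  set κ := (α - γ₀).card with hκ
  have h0 : ℵ₀ ≤ κ := by
    rw [hκ, Ordinal.aleph0_le_card]
    exact Ordinal.omega0_le_of_isSuccLimit hδlim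
  have hκγ : κ ≤ ℵ_ γ₀ := by rw [← hγ]; exact Ordinal.card_le_card (Ordinal.sub_le_self _ _)
  have hAcard : #(aSet α) = Cardinal.lift.{u+1} κ := by rw [hA, mk_ival hα hlt]
  have hadd : ∀ (n : ℕ) (x : Ordinal.{u}), Order.IsSuccLimit x → γ₀ < x → γ₀ + n < x := by
    intro n x hx hx'
    have h1 : (n : Ordinal.{u}) < x - γ₀ :=
      (Ordinal.natCast_lt_omega0 n).trans_le
        (Ordinal.omega0_le_of_isSuccLimit (sub_isSuccLimit hx hx'))
    exact Ordinal.lt_sub.1 h1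
  have hreg : ∀ {a b : Cardinal.{u}}, ∀ κ ∈ ival a b, κ.IsRegular := fun κ h => h.1
  have hreg' : ∀ {a b : Cardinal.{u}}, ∀ κ ∈ ival' a b, κ.IsRegular := fun κ h => h.1
  set L := ival' (ℵ_ γ₀) (ℵ_ (γ₀ + (6 : ℕ))) with hL
  have hLfin : L.Finite := finite_ival γ₀ 6
  have hLpcf : pcfS L = L := pcfS_finite hLfin hreg'
  have hsplit : ∀ x, Order.IsSuccLimit x → γ₀ < x →
      ival (ℵ_ γ₀) (ℵ_ x) = ival (ℵ_ (γ₀ + (6 : ℕ))) (ℵ_ x) ∪ L := fun x hx hx' =>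
    ival_split (hadd 6 x hx hx')
  set B := ival (ℵ_ (γ₀ + (6 : ℕ))) (ℵ_ α) with hB
  have hpcfA : pcfS (aSet α) = pcfS B ∪ L := by
    rw [hA, hsplit α hα hlt, pcfS_union, hLpcf]
  have hBle : #(pcfS B) ≤ Cardinal.lift.{u+1} (succN κ 3) := by
    refine pcf_le h0 ?_ (succN_le_aleph hκγ 6) (hadd 6 α hα hlt)
    refine Ordinal.card_le_card ?_
    rw [Ordinal.sub_le]
    calc α ≤ γ₀ + (α - γ₀) := Ordinal.le_add_sub _ _
      _ ≤ γ₀ + (6 : ℕ) + (α - γ₀) := by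
          rw [add_assoc]
          exact add_le_add_right le_add_self _
  have h3inf : ℵ₀ ≤ succN κ 3 := h0.trans (le_succN κ 3)
  have hAle : #(pcfS (aSet α)) ≤ Cardinal.lift.{u+1} (succN κ 3) := by
    rw [hpcfA]
    refine (Cardinal.mk_union_le _ _).trans (Cardinal.add_le_of_le ?_ hBle ?_)
    · exact Cardinal.aleph0_le_lift.2 h3inf
    · exact (Cardinal.lt_aleph0_iff_set_finite.2 hLfin).le.trans (Cardinal.aleph0_le_lift.2 h3inf)
  refine ⟨hAcard, ?_⟩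
  obtain ⟨μ, hμ⟩ := Cardinal.mem_range_lift_of_le hAle
  have hμ3 : μ ≤ succN κ 3 := by rw [← hμ] at hAle; exact Cardinal.lift_le.1 hAle
  have hκμ : κ ≤ μ := by
    have : #(aSet α) ≤ #(pcfS (aSet α)) :=
      Cardinal.mk_le_mk_of_subset (self_subset_pcfS aSet_regular)
    rw [hAcard, ← hμ] at this
    exact Cardinal.lift_le.1 this
  refine ⟨μ, hμ.symm, hκμ, hμ3, fun hκltμ => ?_⟩
  have hμ0 : ℵ₀ ≤ μ := h0.trans hκμ
  have hμlift : ℵ₀ ≤ Cardinal.lift.{u+1} μ := Cardinal.aleph0_le_lift.2 hμ0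
  have hμlim : Order.IsSuccLimit μ.ord := Cardinal.isSuccLimit_ord hμ0
  set β := γ₀ + μ.ord with hβ
  have hβlim : Order.IsSuccLimit β := Ordinal.isSuccLimit_add _ hμlim
  have hαβ : α < β := by
    rw [hβ, ← Ordinal.sub_lt_of_le hlt.le]
    exact Cardinal.lt_ord.2 hκltμ
  have hγβ : γ₀ < β := hlt.trans hαβ
  have hμ3' : μ ≤ ℵ_ (γ₀ + (3 : ℕ)) := hμ3.trans (succN_le_aleph hκγ 3)
  have hcardδ : ∀ δ ≤ β, δ.card ≤ ℵ_ (γ₀ + (3 : ℕ)) := by
    intro δ hδ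
    refine (Ordinal.card_le_card hδ).trans ?_
    rw [hβ, Ordinal.card_add, Cardinal.card_ord]
    exact Cardinal.add_le_of_le (Cardinal.aleph0_le_aleph _)
      ((card_le_aleph γ₀).trans (Cardinal.aleph_le_aleph.2 le_self_add)) hμ3'
  -- everything regular below `ℵ_β` is in the pcf
  have hI : ival (ℵ_ γ₀) (ℵ_ β) ⊆ pcfS (aSet α) := by
    intro θ hθ
    by_contra hno
    obtain ⟨y, hy⟩ := Cardinal.mem_range_aleph_iff.2 hθ.1.1
    have hyβ : y < β := by rw [← Cardinal.aleph_lt_aleph, hy]; exact hθ.2.2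
    have hγy : γ₀ < y := by rw [← Cardinal.aleph_lt_aleph, hy]; exact hθ.2.1
    have h1 : #(pcfS (aSet α)) ≤ Cardinal.lift.{u+1} (y - γ₀).card := by
      refine mk_le_card' fun l hl => ⟨?_, ?_⟩
      · rw [hA] at hl
        exact lt_of_mem_pcfS hreg (fun κ h => h.2.1) hl
      · by_contra hle
        push Not at hle
        rw [hy] at hle
        refine hno ?_
        rw [hA] at hl ⊢
        refine nohole rfl ?_ (Cardinal.aleph0_le_aleph _) hl hθ.1 hθ.2.1 hle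
        rw [← hA, hAcard]
        exact Cardinal.lift_le.2 hκγ
    rw [← hμ] at h1
    have h2 := Cardinal.lift_le.1 h1
    have h3 : y - γ₀ < μ.ord := (Ordinal.sub_lt_of_le hγy.le).2 hyβ
    exact absurd (h2.trans_lt (Cardinal.lt_ord.1 h3)) (lt_irrefl _)
  set I' := ival (ℵ_ (γ₀ + (6 : ℕ))) (ℵ_ β) with hI'
  have hI'B : I' ⊆ pcfS B := by
    intro θ hθ
    have h1 : θ ∈ pcfS (aSet α) := hI ⟨hθ.1, lt_of_le_of_lt
      (Cardinal.aleph_le_aleph.2 le_self_add) hθ.2.1, hθ.2.2⟩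
    rw [hpcfA] at h1
    rcases h1 with h1 | h1
    · exact h1
    · exact absurd (hθ.2.1.trans_le h1.2.2) (lt_irrefl _)
  have hI'card : #I' ≤ Cardinal.lift.{u+1} μ := by
    rw [hμ]
    refine Cardinal.mk_le_mk_of_subset (hI'B.trans ?_)
    rw [hpcfA]; exact subset_union_left
  have hpcfI' : pcfS I' ⊆ pcfS B := by
    refine pcfS_pcfS hreg hI'B hI'card ?_
    intro κ hκ
    refine lt_of_le_of_lt hμ3' (lt_of_le_of_lt (Cardinal.aleph_le_aleph.2 ?_) hκ.2.1)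
    gcongr
    norm_num
  have hPB : #(pcfS B) = Cardinal.lift.{u+1} μ := by
    rw [← mk_union_finite hμlift hLfin (s := pcfS B), ← hpcfA, hμ]
  have hsub1 : ∀ δ, δ ≤ β → ival (ℵ_ (γ₀ + (6 : ℕ))) (ℵ_ δ) ⊆ aSet δ := by
    intro δ hδ κ hκ
    refine ⟨hκ.1, ?_, hκ.2.2⟩
    rw [Order.succ_le_iff]
    refine (hcardδ δ hδ).trans_lt (lt_of_le_of_lt (Cardinal.aleph_le_aleph.2 ?_) hκ.2.1)
    gcongr
    norm_num
  have hsub2 : ∀ δ, α ≤ δ → aSet δ ⊆ ival (ℵ_ γ₀) (ℵ_ δ) := by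
    intro δ hδ κ hκ
    refine ⟨hκ.1, ?_, hκ.2.2⟩
    rw [← hγ]
    exact lt_of_le_of_lt (Ordinal.card_le_card hδ) (Order.succ_le_iff.1 hκ.2.1)
  refine ⟨hαβ, hβlim, ?_, ?_, ?_⟩
  · intro δ hδlim hαδ hδβ
    apply le_antisymm
    · have h1 : pcfS (aSet δ) ⊆ pcfS B ∪ L := by
        refine (pcfS_mono (hsub2 δ hαδ)).trans ?_
        rw [hsplit δ hδlim (hlt.trans_le hαδ), pcfS_union, hLpcf]
        refine union_subset_union_left _ ((pcfS_mono ?_).trans hpcfI')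
        exact fun κ h => ⟨h.1, h.2.1, h.2.2.trans_le (Cardinal.aleph_le_aleph.2 hδβ)⟩
      refine (Cardinal.mk_le_mk_of_subset h1).trans ?_
      rw [← hpcfA, hμ]
    · rw [← hPB]
      refine Cardinal.mk_le_mk_of_subset (pcfS_mono ?_)
      refine Subset.trans ?_ (hsub1 δ hδβ)
      exact fun κ h => ⟨h.1, h.2.1, h.2.2.trans_le (Cardinal.aleph_le_aleph.2 hαδ)⟩
  · intro δ hδlim hαδ hδβ
    refine lt_of_le_of_lt (Cardinal.mk_le_mk_of_subset (hsub2 δ hαδ)) ?_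
    rw [mk_ival hδlim (hlt.trans_le hαδ), Cardinal.lift_lt]
    exact Cardinal.lt_ord.1 ((Ordinal.sub_lt_of_le (hlt.le.trans hαδ)).2 hδβ)
  · apply le_antisymm
    · refine (Cardinal.mk_le_mk_of_subset (hsub2 β hαβ.le)).trans ?_
      rw [mk_ival hβlim hγβ, hβ, Ordinal.add_sub_cancel, Cardinal.card_ord]
    · refine le_trans ?_ (Cardinal.mk_le_mk_of_subset (hsub1 β le_rfl))
      rw [mk_ival hβlim (hadd 6 β hβlim hγβ), hβ, Ordinal.add_sub_add_cancel, Cardinal.lift_le]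
      have h1 : (μ.ord : Ordinal.{u}) ≤ (6 : ℕ) + (μ.ord - (6 : ℕ)) := Ordinal.le_add_sub _ _
      have h2 := Ordinal.card_le_card h1
      rw [Cardinal.card_ord, Ordinal.card_add, Ordinal.card_nat] at h2
      by_contra hcon
      push Not at hcon
      exact absurd (h2.trans_lt (Cardinal.add_lt_of_lt hμ0 (Cardinal.natCast_lt_aleph0.trans_le hμ0) hcon))
        (lt_irrefl _)

end Helper23.Pcf
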