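import Pool.Agent.Helper23.Pcf.Defs

set_option autoImplicit false

open Cardinal Ordinal Set Filter

universe u v

namespace Helper23.Pcf

/-- the regular cardinals in `(ρ, σ)` -/
def ival (ρ σ : Cardinal.{u}) : Set Cardinal.{u} := {κ | κ.IsRegular ∧ ρ < κ ∧ κ < σ}

/-- the regular cardinals in `(ρ, σ]` -/
def ival' (ρ σ : Cardinal.{u}) : Set Cardinal.{u} := {κ | κ.IsRegular ∧ ρ < κ ∧ κ ≤ σ}

instance (ρ σ : Cardinal.{u}) : Small.{u} (ival ρ σ) := by
  have : ival ρ σ ⊆ Set.Iio σ := fun κ h => h.2.2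
  exact small_subset this

instance (ρ σ : Cardinal.{u}) : Small.{u} (ival' ρ σ) := by
  have : ival' ρ σ ⊆ Set.Iic σ := fun κ h => h.2.2
  exact small_subset this

theorem limit_part {α ε : Ordinal.{u}} (hα : Order.IsSuccLimit α) (h : α ≤ ε) :
    ∃ ε' : Ordinal.{u}, ∃ n : ℕ, Order.IsSuccLimit ε' ∧ α ≤ ε' ∧ ε = ε' + n := by
  obtain ⟨b, hb⟩ := Ordinal.isSuccPrelimit_iff_omega0_dvd.1 hα.isSuccPrelimit
  have hb' : b ≤ ε / ω := by
    rw [← Ordinal.mul_le_iff_le_div (Ordinal.omega0_ne_zero), ← hb]; exact h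
  have hle : α ≤ ω * (ε / ω) := by
    rw [hb]; exact mul_le_mul_right hb' ω
  obtain ⟨n, hn⟩ := Ordinal.lt_omega0.1 (Ordinal.mod_lt ε Ordinal.omega0_ne_zero)
  refine ⟨ω * (ε / ω), n, ?_, hle, ?_⟩
  · refine ⟨?_, Ordinal.isSuccPrelimit_iff_omega0_dvd.2 (dvd_mul_right _ _)⟩
    rw [isMin_iff_eq_bot]
    intro h0
    rw [h0] at hle
    exact absurd hα.bot_lt (not_lt.2 hle)
  · rw [← hn, Ordinal.div_add_mod]

theorem assembly {α : Ordinal.{u}} (hα : Order.IsSuccLimit α) {ρ : Cardinal.{u}}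
    (h1 : α.card ≤ ρ) (h2 : ρ < ℵ_ α)
    (P1 : #(pcfS (ival ρ (ℵ_ α))) ≤ Cardinal.lift.{u+1} ρ)
    (P2 : ∀ l ∈ pcfS (ival ρ (ℵ_ α)), ∀ θ : Cardinal.{u}, θ.IsRegular → ρ < θ → θ ≤ l →
      θ ∈ pcfS (ival ρ (ℵ_ α)))
    (P3 : pcfS (ival' α.card ρ) ⊆ ival' α.card ρ) :
    ∃ β, Order.IsSuccLimit β ∧ α ≤ β ∧ β.card ≤ ρ ∧ #(aSet β) = #(pcfS (aSet α)) ∧
      #(pcfS (aSet β)) = #(pcfS (aSet α)) ∧
      ∀ γ, Order.IsSuccLimit γ → α ≤ γ → γ < β →
        #(aSet γ) < #(pcfS (aSet α)) ∧ #(pcfS (aSet α)) ≤ #(pcfS (aSet γ)) := by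
  classical
  set A' := ival ρ (ℵ_ α) with hA'
  set L := ival' α.card ρ with hL
  set P := pcfS A' with hP
  have hαA : aSet α = L ∪ A' := by
    ext κ
    simp only [aSet, L, A', ival, ival', mem_ofPred_eq, mem_union, Order.succ_le_iff]
    constructor
    · rintro ⟨g1, g2, g3⟩
      by_cases h : κ ≤ ρ
      · exact Or.inl ⟨g1, g2, h⟩
      · exact Or.inr ⟨g1, not_le.1 h, g3⟩
    · rintro (⟨g1, g2, g3⟩ | ⟨g1, g2, g3⟩)
      · exact ⟨g1, g2, lt_of_le_of_lt g3 h2⟩
      · exact ⟨g1, lt_of_le_of_lt h1 g2, g3⟩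
  have hLreg : ∀ κ ∈ L, κ.IsRegular := fun κ h => h.1
  have hA'reg : ∀ κ ∈ A', κ.IsRegular := fun κ h => h.1
  have hPreg : ∀ κ ∈ P, κ.IsRegular := fun κ h => pcfS_isRegular h
  have hpcfL : pcfS L = L := subset_antisymm P3 (self_subset_pcfS hLreg)
  have hpcfα : pcfS (aSet α) = L ∪ P := by rw [hαA, pcfS_union, hpcfL]
  have hρ0 : ℵ₀ ≤ ρ := by
    refine le_trans ?_ h1
    rw [Ordinal.aleph0_le_card]
    exact Ordinal.omega0_le_of_isSuccLimit hα
  have hρP : ∀ κ ∈ P, ρ < κ := fun κ h => lt_of_mem_pcfS hA'reg (fun κ h => h.2.1) h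
  have hAP : A' ⊆ P := self_subset_pcfS hA'reg
  -- P is closed
  have hPP : pcfS P ⊆ P := pcfS_pcfS hA'reg subset_rfl P1 (fun κ h => h.2.1)
  -- size of L
  have hLcard : #L ≤ Cardinal.lift.{u+1} ρ := by
    have hcard : #(Set.Iic ρ.ord) = Cardinal.lift.{u+1} ρ := by
      have : Set.Iic ρ.ord = Set.Iio (ρ.ord + 1) := by
        ext x; simp
      rw [this, Cardinal.mk_Iio_ordinal, Ordinal.card_add_one, Cardinal.card_ord,
        Cardinal.add_one_eq hρ0]
    rw [← hcard]
    refine Cardinal.mk_le_of_injective (f := fun κ : L => (⟨κ.1.ord, Cardinal.ord_le_ord.2 κ.2.2.2⟩ :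
      Set.Iic ρ.ord)) ?_
    intro κ κ' h
    have := congrArg Subtype.val h
    exact Subtype.ext (Cardinal.ord_injective this)
  set l := #(pcfS (aSet α)) with hl
  have hlρ : l ≤ Cardinal.lift.{u+1} ρ := by
    rw [hl, hpcfα]
    refine (Cardinal.mk_union_le _ _).trans ((add_le_add hLcard P1).trans ?_)
    rw [← Cardinal.lift_add, Cardinal.add_eq_self hρ0]
  obtain ⟨l0, hl0⟩ := Cardinal.mem_range_lift_of_le hlρ
  have hl0ρ : l0 ≤ ρ := by rw [← hl0] at hlρ; exact Cardinal.lift_le.1 hlρ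
  -- l0 infinite
  have hinf : ℵ₀ ≤ l := by
    obtain ⟨γ, hγ⟩ := Cardinal.mem_range_aleph_iff.2 hρ0
    have hγα : γ < α := by rw [← Cardinal.aleph_lt_aleph, hγ]; exact h2
    have hstep : ∀ n : ℕ, γ + n + 1 < α := by
      intro n
      have h3 : ∀ n : ℕ, γ + n < α := by
        intro n
        induction n with
        | zero => simpa using hγα
        | succ n ih =>
          rw [Nat.cast_succ, ← add_assoc, ← Order.succ_eq_add_one]
          exact hα.succ_lt ih
      have := h3 (n + 1)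
      rwa [Nat.cast_succ, ← add_assoc] at this
    have hle : #(ULift.{u+1} ℕ) ≤ #A' := by
      refine Cardinal.mk_le_of_injective (f := fun n : ULift.{u+1} ℕ =>
        (⟨ℵ_ (γ + n.down + 1), Cardinal.isRegular_aleph_add_one _, ?_, ?_⟩ : A')) ?_
      · rw [← hγ, Cardinal.aleph_lt_aleph]
        exact lt_of_le_of_lt le_self_add (Order.lt_add_one_iff.2 le_rfl)
      · rw [Cardinal.aleph_lt_aleph]
        exact hstep _
      · intro n m h
        have h3 := Cardinal.aleph.injective (congrArg Subtype.val h)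
        have h4 : γ + (n.down : Ordinal.{u}) = γ + (m.down : Ordinal.{u}) :=
          Order.succ_injective (by rw [Order.succ_eq_add_one, Order.succ_eq_add_one]; exact h3)
        have h5 := add_left_cancel h4
        exact ULift.down_injective (Nat.cast_injective h5)
    refine le_trans ?_ (hle.trans ?_)
    · simp
    · rw [hl, hpcfα]
      exact Cardinal.mk_le_mk_of_subset (hAP.trans subset_union_right)
  have hl0inf : ℵ₀ ≤ l0 := by rw [← hl0] at hinf; exact Cardinal.aleph0_le_lift.1 hinf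
  -- the set of candidates
  let S : Set Ordinal.{u} := {γ | Order.IsSuccLimit γ ∧ α ≤ γ ∧ l ≤ #(aSet γ)}
  have hl0lim : Order.IsSuccLimit l0.ord := Cardinal.isSuccLimit_ord hl0inf
  have hβ0card : (α + l0.ord).card ≤ ρ := by
    rw [Ordinal.card_add, Cardinal.card_ord]
    exact Cardinal.add_le_of_le hρ0 h1 hl0ρ
  have hβ0 : α + l0.ord ∈ S := by
    refine ⟨Ordinal.isSuccLimit_add α hl0lim, le_self_add, ?_⟩
    rw [← hl0]
    have hcard : #(Set.Iio l0.ord) = Cardinal.lift.{u+1} l0 := by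
      rw [Cardinal.mk_Iio_ordinal, Cardinal.card_ord]
    rw [← hcard]
    refine Cardinal.mk_le_of_injective (f := fun ξ : Set.Iio l0.ord =>
      (⟨ℵ_ (α + ξ.1 + 1), ?_, ?_, ?_⟩ : aSet (α + l0.ord))) ?_
    · exact Cardinal.isRegular_aleph_add_one _
    · rw [Order.succ_le_iff]
      refine lt_of_le_of_lt hβ0card (h2.trans ?_)
      rw [Cardinal.aleph_lt_aleph]
      exact lt_of_le_of_lt le_self_add (Order.lt_add_one_iff.2 le_rfl)
    · rw [Cardinal.aleph_lt_aleph, add_assoc]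
      exact add_lt_add_right (by
        have := hl0lim.succ_lt ξ.2
        rwa [Order.succ_eq_add_one] at this) α
    · intro ξ ξ' h
      have h3 := congrArg Subtype.val h
      simp only at h3
      have h4 := (Cardinal.aleph.injective h3)
      have h5 : α + ξ.1 = α + ξ'.1 :=
        Order.succ_injective (by rw [Order.succ_eq_add_one, Order.succ_eq_add_one]; exact h4)
      exact Subtype.ext (add_left_cancel h5)
  set β := sInf S with hβ
  have hβS : β ∈ S := csInf_mem ⟨_, hβ0⟩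
  have hβle : β ≤ α + l0.ord := csInf_le' hβ0
  have hβcard : β.card ≤ ρ := (Ordinal.card_le_card hβle).trans hβ0card
  have hmin : ∀ γ, Order.IsSuccLimit γ → α ≤ γ → γ < β → #(aSet γ) < l := by
    intro γ g1 g2 g3
    by_contra hcon
    exact absurd (csInf_le' (s := S) ⟨g1, g2, not_lt.1 hcon⟩) (not_le.2 g3)
  have hPl : α < β → #P = l := by
    intro h
    have hα1 := hmin α hα le_rfl h
    have hL1 : #L < l := lt_of_le_of_lt (Cardinal.mk_le_mk_of_subset (by
      rw [hαA]; exact subset_union_left)) hα1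
    apply le_antisymm
    · rw [hl, hpcfα]; exact Cardinal.mk_le_mk_of_subset subset_union_right
    · by_contra hcon
      push Not at hcon
      have : l < l := by
        conv_lhs => rw [hl, hpcfα]
        exact lt_of_le_of_lt (Cardinal.mk_union_le _ _) (Cardinal.add_lt_of_lt hinf hL1 hcon)
      exact lt_irrefl _ this
  have hA'sub : ∀ γ, α ≤ γ → γ ≤ β → A' ⊆ aSet γ := by
    intro γ g1 g2 κ hκ
    refine ⟨hκ.1, ?_, lt_of_lt_of_le hκ.2.2 (Cardinal.aleph_le_aleph.2 g1)⟩
    rw [Order.succ_le_iff]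
    exact lt_of_le_of_lt ((Ordinal.card_le_card g2).trans hβcard) hκ.2.1
  have hsub : aSet β ⊆ L ∪ P := by
    rcases hβS.2.1.eq_or_lt with heq | hlt
    · rw [← heq, hαA]
      exact union_subset_union_right _ hAP
    · intro κ hκ
      by_cases hκρ : κ ≤ ρ
      · left
        exact ⟨hκ.1, lt_of_le_of_lt (Ordinal.card_le_card hβS.2.1) (Order.succ_le_iff.1 hκ.2.1), hκρ⟩
      · right
        push Not at hκρ
        by_contra hκP
        have hlt' : ∀ p ∈ P, p < κ := by
          intro p hp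
          by_contra hle
          exact hκP (P2 p hp κ hκ.1 hκρ (not_lt.1 hle))
        obtain ⟨ε, hε⟩ := Cardinal.mem_range_aleph_iff.2 (hρ0.trans hκρ.le)
        have hεβ : ε < β := by
          rw [← Cardinal.aleph_lt_aleph, hε]; exact hκ.2.2
        have hαε : α ≤ ε := by
          by_contra hcon
          push Not at hcon
          -- κ < ℵ_α, so κ ∈ A'
          have : κ ∈ A' := ⟨hκ.1, hκρ, by rw [← hε, Cardinal.aleph_lt_aleph]; exact hcon⟩
          exact hκP (hAP this)
        obtain ⟨ε', n, e1, e2, e3⟩ := limit_part hα hαε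
        have e4 : ε' < β := lt_of_le_of_lt (by rw [e3]; exact le_self_add) hεβ
        have e5 := hmin ε' e1 e2 e4
        have hPsub : P ⊆ aSet ε' ∪ range (fun m : Fin n => ℵ_ (ε' + (m : ℕ))) := by
          intro p hp
          by_cases hpe : p < ℵ_ ε'
          · left
            refine ⟨hPreg p hp, ?_, hpe⟩
            rw [Order.succ_le_iff]
            exact lt_of_le_of_lt ((Ordinal.card_le_card e4.le).trans hβcard) (hρP p hp)
          · right
            push Not at hpe
            obtain ⟨δ, hδ⟩ := Cardinal.mem_range_aleph_iff.2 (hρ0.trans (hρP p hp).le)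
            rw [← hδ, Cardinal.aleph_le_aleph] at hpe
            have hpk := hlt' p hp
            rw [← hδ, ← hε, Cardinal.aleph_lt_aleph, e3] at hpk
            obtain ⟨m, hm⟩ : ∃ m : ℕ, δ = ε' + m := by
              have h5 : δ - ε' < n := by
                rw [← add_lt_add_iff_left ε', Ordinal.add_sub_cancel_of_le hpe]; exact hpk
              obtain ⟨m, hm⟩ := Ordinal.lt_omega0.1 (h5.trans (Ordinal.natCast_lt_omega0 n))
              exact ⟨m, by rw [← hm, Ordinal.add_sub_cancel_of_le hpe]⟩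
            rw [hm, add_lt_add_iff_left, Nat.cast_lt] at hpk
            exact ⟨⟨m, hpk⟩, by rw [← hδ, hm]⟩
        have h6 : #P < l := by
          refine lt_of_le_of_lt (Cardinal.mk_le_mk_of_subset hPsub) ?_
          refine lt_of_le_of_lt (Cardinal.mk_union_le _ _) (Cardinal.add_lt_of_lt hinf e5 ?_)
          exact lt_of_lt_of_le (Cardinal.lt_aleph0_of_finite _) hinf
        exact absurd (hPl hlt) h6.ne
  have hβl : #(aSet β) = l := by
    apply le_antisymm _ hβS.2.2
    rw [hl, hpcfα]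
    exact Cardinal.mk_le_mk_of_subset hsub
  refine ⟨β, hβS.1, hβS.2.1, hβcard, hβl, ?_, ?_⟩
  · apply le_antisymm
    · rw [hl, hpcfα]
      apply Cardinal.mk_le_mk_of_subset
      refine (pcfS_mono hsub).trans ?_
      rw [pcfS_union, hpcfL]
      exact union_subset_union_right _ hPP
    · rw [← hβl]
      exact Cardinal.mk_le_mk_of_subset (self_subset_pcfS aSet_regular)
  · intro γ g1 g2 g3
    refine ⟨hmin γ g1 g2 g3, ?_⟩
    rw [← hPl (lt_of_le_of_lt g2 g3)]
    exact Cardinal.mk_le_mk_of_subset (pcfS_mono (hA'sub γ g2 g3.le))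

end Helper23.Pcf
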