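import Pool.Agent.Helper23.Pcf.OrdAux

set_option autoImplicit false

open Cardinal Ordinal Set Filter

universe u v

namespace Helper23.Pcf

/-- `C` is unbounded in `o`. -/
def UnbIn (C : Set Ordinal.{u}) (o : Ordinal.{u}) : Prop := ∀ x < o, ∃ y ∈ C, x < y ∧ y < o

/-- `C` is closed in `o`. -/
def ClosedIn (C : Set Ordinal.{u}) (o : Ordinal.{u}) : Prop :=
  ∀ δ < o, 0 < δ → UnbIn C δ → δ ∈ C

structure ClubIn (C : Set Ordinal.{u}) (o : Ordinal.{u}) : Prop where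
  unb : UnbIn C o
  cl : ClosedIn C o

theorem UnbIn.mono {C C' : Set Ordinal.{u}} {o : Ordinal.{u}} (h : UnbIn C o) (hs : C ⊆ C') :
    UnbIn C' o := fun x hx => by
  obtain ⟨y, h1, h2⟩ := h x hx
  exact ⟨y, hs h1, h2⟩

theorem UnbIn.isSuccLimit {C : Set Ordinal.{u}} {o : Ordinal.{u}} (h : UnbIn C o) (ho : 0 < o) :
    Order.IsSuccLimit o := by
  refine ⟨?_, ?_⟩
  · rw [isMin_iff_eq_bot]
    exact ho.ne'
  · intro x hx
    obtain ⟨y, _, h2, h3⟩ := h x hx.lt
    exact hx.2 h2 h3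

/-- Iterating an increasing function `ω` times. -/
theorem exists_iter {o : Ordinal.{u}} (ho : ℵ₀ < o.cof) (g : Ordinal.{u} → Ordinal.{u})
    (hg : ∀ x < o, x < g x ∧ g x < o) (x : Ordinal.{u}) (hx : x < o) :
    ∃ z < o, x < z ∧ ∀ w < z, ∃ y < z, w < y ∧ g y < z := by
  have h1 : ∀ n : ℕ, g^[n] x < o := by
    intro n
    induction n with
    | zero => exact hx
    | succ n ih => rw [Function.iterate_succ_apply']; exact (hg _ ih).2
  have h2 : ∀ n : ℕ, g^[n] x < g^[n+1] x := by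
    intro n
    rw [Function.iterate_succ_apply']
    exact (hg _ (h1 n)).1
  have hz : (⨆ n : ULift.{u} ℕ, g^[n.down] x) < o := by
    refine Ordinal.iSup_lt_of_lt_cof ?_ (fun n => h1 n.down)
    simpa using ho
  have hle : ∀ n : ℕ, g^[n] x ≤ ⨆ n : ULift.{u} ℕ, g^[n.down] x := fun n =>
    Ordinal.le_iSup (fun n : ULift.{u} ℕ => g^[n.down] x) ⟨n⟩
  have hlt : ∀ n : ℕ, g^[n] x < ⨆ n : ULift.{u} ℕ, g^[n.down] x := fun n =>
    lt_of_lt_of_le (h2 n) (hle (n+1))
  refine ⟨_, hz, hlt 0, fun w hw => ?_⟩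
  obtain ⟨n, hn⟩ := (Ordinal.lt_iSup_iff (f := fun n : ULift.{u} ℕ => g^[n.down] x)).1 hw
  refine ⟨g^[n.down] x, hlt _, hn, ?_⟩
  rw [← Function.iterate_succ_apply' g]
  exact hlt _

/-- Intersections of fewer than cofinality many clubs are clubs. -/
theorem club_iInter {o : Ordinal.{u}} (ho : ℵ₀ < o.cof) {I : Type u} (hI : #I < o.cof)
    (C : I → Set Ordinal.{u}) (hC : ∀ i, ClubIn (C i) o) : ClubIn (⋂ i, C i) o := by
  classical
  have hlim : Order.IsSuccLimit o := Ordinal.one_lt_cof_iff.1 (one_lt_aleph0.trans ho)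
  refine ⟨?_, ?_⟩
  · have hy : ∀ (x : Ordinal.{u}) (i : I), ∃ y, x < o → y ∈ C i ∧ x < y ∧ y < o := by
      intro x i
      by_cases hx : x < o
      · obtain ⟨y, h⟩ := (hC i).unb x hx
        exact ⟨y, fun _ => h⟩
      · exact ⟨0, fun h => absurd h hx⟩
    choose y hy using hy
    let g : Ordinal.{u} → Ordinal.{u} := fun x => Order.succ (max x (⨆ i, y x i))
    have hg : ∀ x < o, x < g x ∧ g x < o := by
      intro x hx
      refine ⟨lt_of_le_of_lt (le_max_left _ _) (Order.lt_succ _), hlim.succ_lt (max_lt hx ?_)⟩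
      exact Ordinal.iSup_lt_of_lt_cof hI (fun i => (hy x i hx).2.2)
    intro x hx
    obtain ⟨z, hz, hxz, hz'⟩ := exists_iter ho g hg x hx
    refine ⟨z, ?_, hxz, hz⟩
    rw [mem_iInter]
    intro i
    refine (hC i).cl z hz (lt_of_le_of_lt zero_le hxz) ?_
    intro w hw
    obtain ⟨v, hv, hwv, hgv⟩ := hz' w hw
    have h1 := hy v i (hv.trans hz)
    refine ⟨y v i, h1.1, hwv.trans h1.2.1, lt_of_le_of_lt ?_ hgv⟩
    exact ((Ordinal.le_iSup (y v) i).trans (le_max_right _ _)).trans (Order.le_succ _)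
  · intro δ hδ hδ0 hu
    rw [mem_iInter]
    intro i
    exact (hC i).cl δ hδ hδ0 (hu.mono (iInter_subset _ _))

theorem club_inter {o : Ordinal.{u}} (ho : ℵ₀ < o.cof) {C C' : Set Ordinal.{u}}
    (h : ClubIn C o) (h' : ClubIn C' o) : ClubIn (C ∩ C') o := by
  have := club_iInter ho (I := ULift.{u} Bool) (lt_of_lt_of_le (by simp) ho.le)
    (fun b => if b.down then C else C') (fun b => by
      by_cases hb : b.down <;> simp [hb, h, h'])
  convert this using 1
  ext x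
  simp only [mem_inter_iff, mem_iInter]
  constructor
  · rintro ⟨h1, h2⟩ ⟨b⟩
    cases b <;> simp [h1, h2]
  · intro hx
    exact ⟨by simpa using hx ⟨true⟩, by simpa using hx ⟨false⟩⟩

open Classical in
/-- `ξ` is the continuous increasing sequence built from the step function `Φ`. -/
def IsCont (Φ : Ordinal.{u} → (Ordinal.{u} → Ordinal.{u}) → Ordinal.{u})
    (ξ : Ordinal.{u} → Ordinal.{u}) : Prop :=
  ∀ i, ξ i =
      ⨆ j : Iio i, max (Order.succ (ξ j.1)) (Φ j.1 (fun k => if k ≤ j.1 then ξ k else 0))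

/-- Continuous increasing sequences built from a step function. -/
theorem exists_cont (Φ : Ordinal.{u} → (Ordinal.{u} → Ordinal.{u}) → Ordinal.{u}) :
    ∃ ξ : Ordinal.{u} → Ordinal.{u}, IsCont Φ ξ := by
  classical
  obtain ⟨ξ, hξ⟩ := exists_rec (X := Ordinal.{u}) (fun i ih =>
    ⨆ j : Iio i, max (Order.succ (ih j)) (Φ j.1 (fun k => if h : k ≤ j.1 then
      ih ⟨k, lt_of_le_of_lt h j.2⟩ else 0)))
  refine ⟨ξ, fun i => ?_⟩
  rw [hξ i]
  congr 1

section cont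
variable {Φ : Ordinal.{u} → (Ordinal.{u} → Ordinal.{u}) → Ordinal.{u}} {ξ : Ordinal.{u} → Ordinal.{u}}
  (hξ : IsCont Φ ξ)

open Classical in
include hξ in
theorem cont_lt {j i : Ordinal.{u}} (h : j < i) : ξ j < ξ i := by
  rw [hξ i]
  refine lt_of_lt_of_le (Order.lt_succ (ξ j)) ?_
  refine le_trans (le_max_left _ _) (Ordinal.le_iSup (fun j : Iio i =>
    max (Order.succ (ξ j.1)) (Φ j.1 (fun k => if k ≤ j.1 then ξ k else 0))) ⟨j, h⟩)

open Classical in
include hξ in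
theorem cont_le {j i : Ordinal.{u}} (h : j ≤ i) : ξ j ≤ ξ i := by
  rcases h.eq_or_lt with h | h
  · rw [h]
  · exact (cont_lt hξ h).le

open Classical in
include hξ in
theorem cont_step {j i : Ordinal.{u}} (h : j < i) :
    Φ j (fun k => if k ≤ j then ξ k else 0) ≤ ξ i := by
  rw [hξ i]
  exact le_trans (le_max_right _ _) (Ordinal.le_iSup (fun j : Iio i =>
    max (Order.succ (ξ j.1)) (Φ j.1 (fun k => if k ≤ j.1 then ξ k else 0))) ⟨j, h⟩)

open Classical in
include hξ in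
theorem cont_limit {i : Ordinal.{u}} (hi : Order.IsSuccPrelimit i) {x : Ordinal.{u}}
    (hx : x < ξ i) : ∃ j < i, x < ξ j := by
  rw [hξ i] at hx
  obtain ⟨j, hj⟩ := (Ordinal.lt_iSup_iff).1 hx
  have h1 : Order.succ j.1 < i := hi.succ_lt j.2
  refine ⟨Order.succ j.1, h1, lt_of_lt_of_le hj (max_le ?_ ?_)⟩
  · exact Order.succ_le_of_lt (cont_lt hξ (Order.lt_succ j.1))
  · exact cont_step hξ (Order.lt_succ j.1)

open Classical in
include hξ in
theorem cont_bound {μ θ : Ordinal.{u}} (hθ : Order.IsSuccLimit θ)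
    (hΦ : ∀ i < μ, ∀ ζ : Ordinal.{u} → Ordinal.{u}, (∀ k, ζ k < θ) → Φ i ζ < θ)
    (hμ : ∀ i < μ, i.card < θ.cof) :
    ∀ i < μ, ξ i < θ := by
  intro i
  induction i using WellFoundedLT.induction with
  | ind i ih =>
    intro hi
    rw [hξ i]
    refine iSup_Iio_lt (hμ i hi) ?_
    intro j
    refine max_lt (hθ.succ_lt (ih j.1 j.2 (lt_trans j.2 hi))) ?_
    refine hΦ _ (lt_trans j.2 hi) _ (fun k => ?_)
    split_ifs with hk
    · exact ih k (lt_of_le_of_lt hk j.2) (lt_trans (lt_of_le_of_lt hk j.2) hi)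
    · exact hθ.bot_lt

include hξ in
/-- Preimages of clubs under continuous increasing sequences are clubs. -/
theorem club_preimage {o : Ordinal.{u}} (ho : ℵ₀ < o.cof) {E : Set Ordinal.{u}}
    (hE : ClubIn E (ξ o)) : ClubIn {i | ξ i ∈ E} o := by
  classical
  have hlim : Order.IsSuccLimit o := Ordinal.one_lt_cof_iff.1 (one_lt_aleph0.trans ho)
  refine ⟨?_, ?_⟩
  · have hy : ∀ x, ∃ y, x < o → x < y ∧ y < o ∧ ∃ e ∈ E, ξ x < e ∧ e < ξ y := by
      intro x
      by_cases hx : x < o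
      · obtain ⟨e, h1, h2, h3⟩ := hE.unb (ξ x) (cont_lt hξ hx)
        obtain ⟨y, h4, h5⟩ := cont_limit hξ hlim.isSuccPrelimit h3
        refine ⟨y, fun _ => ⟨?_, h4, e, h1, h2, h5⟩⟩
        by_contra hcon
        exact absurd (h2.trans h5) (not_lt.2 (cont_le hξ (not_lt.1 hcon)))
      · exact ⟨0, fun h => absurd h hx⟩
    choose y hy using hy
    intro x hx
    obtain ⟨z, hz, hxz, hz'⟩ := exists_iter ho y (fun x hx => ⟨(hy x hx).1, (hy x hx).2.1⟩) x hx
    refine ⟨z, ?_, hxz, hz⟩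
    have hzlim : Order.IsSuccLimit z := by
      refine UnbIn.isSuccLimit (C := Set.univ) (fun w hw => ?_) (lt_of_le_of_lt zero_le hxz)
      obtain ⟨v, h1, h2, _⟩ := hz' w hw
      exact ⟨v, trivial, h2, h1⟩
    refine hE.cl (ξ z) (cont_lt hξ hz) (lt_of_le_of_lt zero_le (cont_lt hξ hxz)) ?_
    intro w hw
    obtain ⟨v, hv, hwv⟩ := cont_limit hξ hzlim.isSuccPrelimit hw
    obtain ⟨v', h1, h2, h3⟩ := hz' v hv
    obtain ⟨_, _, e, he, h4, h5⟩ := hy v' (h1.trans hz)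
    exact ⟨e, he, (hwv.trans (cont_lt hξ h2)).trans h4, h5.trans (cont_lt hξ h3)⟩
  · intro δ hδ hδ0 hu
    have hδlim := hu.isSuccLimit hδ0
    refine hE.cl (ξ δ) (cont_lt hξ hδ) (lt_of_le_of_lt zero_le (cont_lt hξ hδ0)) ?_
    intro w hw
    obtain ⟨v, hv, hwv⟩ := cont_limit hξ hδlim.isSuccPrelimit hw
    obtain ⟨y, hy, h1, h2⟩ := hu v hv
    exact ⟨ξ y, hy, hwv.trans (cont_lt hξ h1), cont_lt hξ h2⟩

include hξ in
theorem cont_cof {o : Ordinal.{u}} (ho : Order.IsSuccLimit o) : (ξ o).cof = o.cof := by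
  have hmono : StrictMono (fun i : Iio o => ξ i.1) := fun i j h => cont_lt hξ h
  have h1 : ⨆ i : Iio o, ξ i.1 = ξ o := by
    apply le_antisymm
    · exact Ordinal.iSup_le fun i => (cont_lt hξ i.2).le
    · apply le_of_forall_lt
      intro x hx
      obtain ⟨j, hj, hxj⟩ := cont_limit hξ ho.isSuccPrelimit hx
      exact lt_of_lt_of_le hxj (Ordinal.le_iSup (fun i : Iio o => ξ i.1) ⟨j, hj⟩)
  rw [← h1]
  exact Ordinal.cof_iSup_Iio hmono ho.isSuccPrelimit

end cont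

end Helper23.Pcf
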