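import Mathlib

/-!
Basic pcf theory for ultraproducts of ordinals, in the regime `2 ^ #ι < c i`.
-/

set_option autoImplicit false

open Cardinal Ordinal Set Filter

universe u

namespace Helper23.Pcf

variable {ι : Type u} {ι' : Type u}

/-- `f <_D g`. -/
def dlt (D : Ultrafilter ι) (f g : ι → Ordinal.{u}) : Prop := ∀ᶠ i in D, f i < g i

/-- `f ≤_D g`. -/
def dle (D : Ultrafilter ι) (f g : ι → Ordinal.{u}) : Prop := ∀ᶠ i in D, f i ≤ g i

section basic
variable {D : Ultrafilter ι} {f g h : ι → Ordinal.{u}}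

theorem dlt.le (H : dlt D f g) : dle D f g := H.mono fun _ h => le_of_lt h

theorem dlt.trans (H : dlt D f g) (H' : dlt D g h) : dlt D f h := by
  filter_upwards [H, H'] with i h1 h2 using h1.trans h2

theorem dle.trans (H : dle D f g) (H' : dle D g h) : dle D f h := by
  filter_upwards [H, H'] with i h1 h2 using le_trans h1 h2

theorem dle.trans_dlt (H : dle D f g) (H' : dlt D g h) : dlt D f h := by
  filter_upwards [H, H'] with i h1 h2 using lt_of_le_of_lt h1 h2

theorem dlt.trans_dle (H : dlt D f g) (H' : dle D g h) : dlt D f h := by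
  filter_upwards [H, H'] with i h1 h2 using lt_of_lt_of_le h1 h2

theorem dle.refl : dle D f f := Filter.Eventually.of_forall fun _ => le_rfl

theorem dle_of_forall (H : ∀ i, f i ≤ g i) : dle D f g := Filter.Eventually.of_forall H

theorem dlt_of_forall (H : ∀ i, f i < g i) : dlt D f g := Filter.Eventually.of_forall H

theorem dlt_irrefl : ¬ dlt D f f := by
  intro H
  obtain ⟨i, hi⟩ := H.exists
  exact lt_irrefl _ hi

theorem not_dlt : ¬ dlt D f g ↔ dle D g f := by
  unfold dlt dle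
  rw [← Ultrafilter.eventually_not]
  simp only [not_lt]

theorem not_dle : ¬ dle D f g ↔ dlt D g f := by
  rw [← not_dlt, not_not]

end basic

/-- `HasCof D c θ`: the ultraproduct `∏ c / D` has (infinite) cofinality `θ`: every family of fewer
than `θ` members has a strict upper bound, and there is a cofinal family of size `θ`. -/
structure HasCof (D : Ultrafilter ι) (c : ι → Ordinal.{u}) (θ : Cardinal.{u}) : Prop where
  inf : ℵ₀ ≤ θ
  dom : ∃ F : θ.ord.ToType → ι → Ordinal.{u}, (∀ k, dlt D (F k) c) ∧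
    ∀ g, dlt D g c → ∃ k, dlt D g (F k)
  bdd : ∀ (K : Type u) (F : K → ι → Ordinal.{u}), #K < θ → (∀ k, dlt D (F k) c) →
    ∃ g, dlt D g c ∧ ∀ k, dlt D (F k) g

section
variable {D : Ultrafilter ι} {D' : Ultrafilter ι'} {c : ι → Ordinal.{u}} {d : ι' → Ordinal.{u}}
  {θ θ' : Cardinal.{u}}

theorem HasCof.le_of_dom (H : HasCof D c θ) {K : Type u} (F : K → ι → Ordinal.{u})
    (hF : ∀ k, dlt D (F k) c) (hd : ∀ g, dlt D g c → ∃ k, dle D g (F k)) : θ ≤ #K := by
  by_contra hlt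
  push Not at hlt
  obtain ⟨g, hg, hg'⟩ := H.bdd K F hlt hF
  obtain ⟨k, hk⟩ := hd g hg
  exact dlt_irrefl (hk.trans_dlt (hg' k))

theorem HasCof.unique (H : HasCof D c θ) (H' : HasCof D c θ') : θ = θ' := by
  apply le_antisymm
  · obtain ⟨F, hF, hF'⟩ := H'.dom
    have := H.le_of_dom F hF (fun g hg => by
      obtain ⟨k, hk⟩ := hF' g hg
      exact ⟨k, hk.le⟩)
    simpa using this
  · obtain ⟨F, hF, hF'⟩ := H.dom
    have := H'.le_of_dom F hF (fun g hg => by
      obtain ⟨k, hk⟩ := hF' g hg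
      exact ⟨k, hk.le⟩)
    simpa using this

/-- Transfer of cofinality along a Tukey pair. -/
theorem HasCof.transfer (H : HasCof D' d θ) (φ : (ι' → Ordinal.{u}) → ι → Ordinal.{u})
    (ψ : (ι → Ordinal.{u}) → ι' → Ordinal.{u})
    (hφ : ∀ h, dlt D' h d → dlt D (φ h) c) (hψ : ∀ f, dlt D f c → dlt D' (ψ f) d)
    (hA : ∀ f h, dlt D f c → dlt D' h d → dlt D' (ψ f) h → dlt D f (φ h)) : HasCof D c θ := by
  refine ⟨H.inf, ?_, ?_⟩
  · obtain ⟨F, hF, hF'⟩ := H.dom
    refine ⟨fun k => φ (F k), fun k => hφ _ (hF k), fun g hg => ?_⟩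
    obtain ⟨k, hk⟩ := hF' _ (hψ g hg)
    exact ⟨k, hA _ _ hg (hF k) hk⟩
  · intro K F hK hF
    obtain ⟨g, hg, hg'⟩ := H.bdd K (fun k => ψ (F k)) hK (fun k => hψ _ (hF k))
    exact ⟨φ g, hφ _ hg, fun k => hA _ _ (hF k) hg (hg' k)⟩

/-- Existence of scales. -/
theorem HasCof.exists_scale (H : HasCof D c θ) :
    ∃ f : Ordinal.{u} → ι → Ordinal.{u}, (∀ ξ < θ.ord, dlt D (f ξ) c) ∧
      (∀ ξ η, ξ < η → η < θ.ord → dlt D (f ξ) (f η)) ∧
      ∀ g, dlt D g c → ∃ ξ < θ.ord, dlt D g (f ξ) := by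
  classical
  obtain ⟨F, hF, hF'⟩ := H.dom
  -- bound operator
  let e : (Iio θ.ord) ≃o θ.ord.ToType := Ordinal.ToType.mk
  have key : ∀ (η : Ordinal.{u}) (_ : η < θ.ord) (G : Iio η → ι → Ordinal.{u}),
      (∀ k, dlt D (G k) c) →
      ∃ g, dlt D g c ∧ (∀ k, dlt D (G k) g) ∧ ∀ hη : η < θ.ord, dlt D (F (e ⟨η, hη⟩)) g := by
    intro η hη G hG
    have hcard : #(Option η.ToType) < θ := by
      rw [mk_option]
      have h1 : #η.ToType < θ := by simpa using Cardinal.lt_ord.1 hη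
      exact Cardinal.add_lt_of_lt H.inf h1 (lt_of_lt_of_le one_lt_aleph0 H.inf)
    obtain ⟨g, hg, hg'⟩ := H.bdd (Option η.ToType)
      (fun o => o.elim (F (e ⟨η, hη⟩)) (fun x => G ((Ordinal.ToType.mk (o := η)).symm x))) hcard
      (by rintro (_ | x)
          · exact hF _
          · exact hG _)
    refine ⟨g, hg, fun k => ?_, fun _ => hg' none⟩
    have := hg' (some (Ordinal.ToType.mk k))
    simpa using this
  choose! B hB1 hB2 hB3 using key
  let f : Ordinal.{u} → ι → Ordinal.{u} :=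
    WellFounded.fix (C := fun _ => ι → Ordinal.{u}) Ordinal.lt_wf
      (fun η ih => B η (fun k => ih k.1 k.2))
  have hf : ∀ η, f η = B η (fun k : Iio η => f k.1) := by
    intro η
    exact WellFounded.fix_eq _ _ _
  have hlt : ∀ η < θ.ord, dlt D (f η) c := by
    intro η
    induction η using WellFoundedLT.induction with
    | ind η ih =>
      intro hη
      rw [hf]
      exact hB1 η hη _ (fun k => ih k.1 k.2 (lt_trans k.2 hη))
  refine ⟨f, hlt, ?_, ?_⟩
  · intro ξ η hξη hη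
    rw [hf η]
    exact hB2 η hη (fun k => f k.1) (fun k => hlt _ (lt_trans k.2 hη)) ⟨ξ, hξη⟩
  · intro g hg
    obtain ⟨k, hk⟩ := hF' g hg
    refine ⟨(e.symm k).1, (e.symm k).2, hk.trans ?_⟩
    rw [hf]
    have := hB3 (e.symm k).1 (e.symm k).2 (fun k => f k.1)
      (fun k' => hlt _ (lt_trans k'.2 (e.symm k).2)) (e.symm k).2
    simpa using this

theorem HasCof.isRegular (H : HasCof D c θ) : θ.IsRegular := by
  refine ⟨H.inf, ?_⟩
  obtain ⟨f, hf, hmono, hcof⟩ := H.exists_scale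
  -- cofinal subset of θ.ord.ToType
  obtain ⟨s, hs, hs'⟩ := Order.exists_cof_eq θ.ord.ToType
  rw [← Ordinal.cof_toType, ← hs']
  refine H.le_of_dom (K := s) (fun k => f (Ordinal.ToType.mk.symm k.1).1)
    (fun k => hf _ (Ordinal.ToType.mk.symm k.1).2) (fun g hg => ?_)
  obtain ⟨ξ, hξ, hgξ⟩ := hcof g hg
  obtain ⟨k, hk, hk'⟩ := hs (Ordinal.ToType.mk ⟨ξ, hξ⟩)
  refine ⟨⟨k, hk⟩, ?_⟩
  have h1 : ξ ≤ (Ordinal.ToType.mk.symm k).1 := by
    have := (Ordinal.ToType.mk (o := θ.ord)).symm.monotone hk'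
    rw [OrderIso.symm_apply_apply] at this
    exact this
  rcases h1.eq_or_lt with h2 | h2
  · rw [h2] at hgξ
    exact hgξ.le
  · exact (hgξ.trans (hmono _ _ h2 (Ordinal.ToType.mk.symm k).2)).le

/-- A strictly increasing unbounded (= cofinal) sequence of regular length computes the cofinality. -/
theorem hasCof_of_scale (hθ : θ.IsRegular) (f : Ordinal.{u} → ι → Ordinal.{u})
    (hf : ∀ ξ < θ.ord, dlt D (f ξ) c) (hmono : ∀ ξ η, ξ < η → η < θ.ord → dlt D (f ξ) (f η))
    (hcof : ∀ g, dlt D g c → ∃ ξ < θ.ord, dlt D g (f ξ)) : HasCof D c θ := by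
  refine ⟨hθ.1, ⟨fun k => f (Ordinal.ToType.mk.symm k).1,
    fun k => hf _ (Ordinal.ToType.mk.symm k).2, fun g hg => ?_⟩, ?_⟩
  · obtain ⟨ξ, hξ, h⟩ := hcof g hg
    exact ⟨Ordinal.ToType.mk ⟨ξ, hξ⟩, by simpa using h⟩
  · intro K F hK hF
    choose ξ hξ hFξ using fun k => hcof (F k) (hF k)
    have hsup : (⨆ k, ξ k) < θ.ord :=
      Ordinal.iSup_lt_of_lt_cof (by rwa [hθ.cof_ord]) hξ
    have hlim : Order.IsSuccLimit θ.ord := Cardinal.isSuccLimit_ord hθ.1
    have hsucc : Order.succ (⨆ k, ξ k) < θ.ord := hlim.succ_lt hsup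
    refine ⟨f (Order.succ (⨆ k, ξ k)), hf _ hsucc, fun k => (hFξ k).trans ?_⟩
    exact hmono _ _ (Order.lt_succ_of_le (Ordinal.le_iSup ξ k)) hsucc

/-- Every ultraproduct of limit ordinals has a cofinality. -/
theorem exists_hasCof (D : Ultrafilter ι) (c : ι → Ordinal.{u})
    (hc : ∀ᶠ i in D, Order.IsSuccLimit (c i)) : ∃ θ, HasCof D c θ := by
  classical
  let S : Set Cardinal.{u} := {θ | ∃ F : θ.ord.ToType → ι → Ordinal.{u}, (∀ k, dlt D (F k) c) ∧
    ∀ g, dlt D g c → ∃ k, dlt D g (F k)}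
  -- reindexing
  have hS : ∀ (K : Type u) (F : K → ι → Ordinal.{u}), (∀ k, dlt D (F k) c) →
      (∀ g, dlt D g c → ∃ k, dlt D g (F k)) → #K ∈ S := by
    intro K F hF hd
    have he : #((#K).ord.ToType) = #K := by simp
    obtain ⟨e⟩ := Cardinal.eq.1 he
    refine ⟨fun k => F (e k), fun k => hF _, fun g hg => ?_⟩
    obtain ⟨k, hk⟩ := hd g hg
    exact ⟨e.symm k, by simpa using hk⟩
  have hne : S.Nonempty := by
    refine ⟨_, hS {k : ∀ i, (Order.succ (c i)).ToType //
      ∀ᶠ i in D, ((Ordinal.ToType.mk.symm (k i)).1 : Ordinal.{u}) < c i}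
      (fun k i => (Ordinal.ToType.mk.symm (k.1 i)).1) (fun k => k.2) ?_⟩
    intro g hg
    let k : ∀ i, (Order.succ (c i)).ToType := fun i =>
      if h : g i + 1 < Order.succ (c i) then Ordinal.ToType.mk ⟨g i + 1, h⟩
      else Ordinal.ToType.mk ⟨0, lt_of_le_of_lt zero_le (Order.lt_succ (c i))⟩
    have hk : ∀ᶠ i in D, ((Ordinal.ToType.mk.symm (k i)).1 : Ordinal.{u}) = g i + 1 ∧
        g i + 1 < c i := by
      filter_upwards [hc, hg] with i hi hgi
      have h1 : g i + 1 < c i := by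
        rw [← Order.succ_eq_add_one]; exact hi.succ_lt hgi
      have h2 : g i + 1 < Order.succ (c i) := h1.trans (Order.lt_succ _)
      refine ⟨?_, h1⟩
      simp only [k, dif_pos h2, OrderIso.symm_apply_apply]
    refine ⟨⟨k, hk.mono fun i hi => by rw [hi.1]; exact hi.2⟩, ?_⟩
    refine hk.mono fun i hi => ?_
    show g i < ((Ordinal.ToType.mk.symm (k i)).1 : Ordinal.{u})
    rw [hi.1, ← Order.succ_eq_add_one]
    exact Order.lt_succ _
  have hmem : sInf S ∈ S := csInf_mem hne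
  have hbdd : ∀ (K : Type u) (F : K → ι → Ordinal.{u}), #K < sInf S → (∀ k, dlt D (F k) c) →
    ∃ g, dlt D g c ∧ ∀ k, dlt D (F k) g := by
    intro K F hK hF
    by_contra hcon
    push Not at hcon
    refine absurd (csInf_le' (hS K F hF ?_)) (not_le.2 hK)
    intro g hg
    have hg1 : dlt D (fun i => g i + 1) c := by
      filter_upwards [hc, hg] with i hi hgi
      rw [← Order.succ_eq_add_one]; exact hi.succ_lt hgi
    obtain ⟨k, hk⟩ := hcon _ hg1
    rw [not_dlt] at hk
    refine ⟨k, hk.mono fun i hi => lt_of_lt_of_le ?_ hi⟩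
    show g i < g i + 1
    rw [← Order.succ_eq_add_one]
    exact Order.lt_succ _
  refine ⟨sInf S, ?_, hmem, hbdd⟩
  by_contra hfin
  push Not at hfin
  obtain ⟨F, hF, hd⟩ := hmem
  have : Finite (sInf S).ord.ToType := by
    rw [← Cardinal.lt_aleph0_iff_finite]; simpa using hfin
  have := Fintype.ofFinite (sInf S).ord.ToType
  let g : ι → Ordinal.{u} := fun i =>
    (Finset.univ.filter (fun k => F k i < c i)).sup (fun k => F k i)
  have hg : dlt D g c := by
    filter_upwards [hc] with i hi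
    rw [Finset.sup_lt_iff]
    · intro k hk
      simpa using hk
    · exact hi.bot_lt
  obtain ⟨k, hk⟩ := hd g hg
  have h2 : dle D (F k) g := by
    filter_upwards [hF k] with i hi
    exact Finset.le_sup (f := fun k => F k i) (by simpa using hi)
  exact dlt_irrefl (hk.trans_dle h2)

theorem HasCof.lt_of_cof (H : HasCof D c θ) {μ : Cardinal.{u}}
    (hμ : ∀ᶠ i in D, μ < (c i).cof) : μ < θ := by
  classical
  by_contra hle
  push Not at hle
  obtain ⟨F, hF, hd⟩ := H.dom
  let g : ι → Ordinal.{u} := fun i => ⨆ k, if F k i < c i then F k i else 0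
  have hg : dlt D g c := by
    filter_upwards [hμ] with i hi
    refine Ordinal.iSup_lt_of_lt_cof ?_ ?_
    · simpa using lt_of_le_of_lt hle hi
    · intro k
      split_ifs with h
      · exact h
      · have : (c i).cof ≠ 0 := (lt_of_le_of_lt zero_le hi).ne'
        exact pos_iff_ne_zero.2 (fun h0 => this (Ordinal.cof_eq_zero.2 h0))
  obtain ⟨k, hk⟩ := hd g hg
  have h2 : dle D (F k) g := by
    filter_upwards [hF k] with i hi
    have := Ordinal.le_iSup (fun k => if F k i < c i then F k i else 0) k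
    simpa [g, hi] using this
  exact dlt_irrefl (hk.trans_dle h2)

theorem HasCof.le_power (H : HasCof D c θ) {ρ : Cardinal.{u}}
    (hρ : ∀ᶠ i in D, c i ≤ ρ.ord) : θ ≤ ρ ^ #ι := by
  classical
  have h0 : 0 < ρ.ord := by
    obtain ⟨F, hF, hd⟩ := H.dom
    have hne : Nonempty θ.ord.ToType := by
      rw [← Cardinal.mk_ne_zero_iff]
      have := H.inf
      simpa using (lt_of_lt_of_le aleph0_pos this).ne'
    obtain ⟨k⟩ := hne
    obtain ⟨i, hi, hi'⟩ := (((hF k).and hρ)).exists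
    exact lt_of_le_of_lt zero_le (lt_of_lt_of_le hi hi')
  have h1 : θ ≤ #{k : ι → ρ.ord.ToType //
      dlt D (fun i => ((Ordinal.ToType.mk.symm (k i)).1 : Ordinal.{u})) c} := by
    refine H.le_of_dom (fun k i => (Ordinal.ToType.mk.symm (k.1 i)).1) (fun k => k.2) ?_
    intro g hg
    let k : ι → ρ.ord.ToType := fun i =>
      if h : g i < ρ.ord then Ordinal.ToType.mk ⟨g i, h⟩ else Ordinal.ToType.mk ⟨0, h0⟩
    have hk : ∀ᶠ i in D, ((Ordinal.ToType.mk.symm (k i)).1 : Ordinal.{u}) = g i := by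
      filter_upwards [hg, hρ] with i hi hi'
      have h2 : g i < ρ.ord := lt_of_lt_of_le hi hi'
      simp only [k, dif_pos h2, OrderIso.symm_apply_apply]
    refine ⟨⟨k, ?_⟩, ?_⟩
    · filter_upwards [hk, hg] with i hi hi'
      rw [hi]; exact hi'
    · exact hk.mono fun i hi => hi.symm.le
  refine h1.trans ((Cardinal.mk_subtype_le _).trans ?_)
  simp

end

end Helper23.Pcf
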