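import Pool.Agent.Helper23.Pcf.Assembly

set_option autoImplicit false

open Cardinal Ordinal Set Filter

universe u v

namespace Helper23.Pcf

theorem elem_core {α : Ordinal.{u}} (hα : Order.IsSuccLimit α) (hne : (aSet α).Nonempty)
    (H : Cardinal.lift.{u+1} α.card ^ #(aSet α) < Cardinal.lift.{u+1} (ℵ_ α)) :
    ∃ β, Order.IsSuccLimit β ∧ α ≤ β ∧ Cardinal.lift.{u+1} β.card ≤
        Cardinal.lift.{u+1} α.card ^ #(aSet α) ∧ #(aSet β) = #(pcfS (aSet α)) ∧
      #(pcfS (aSet β)) = #(pcfS (aSet α)) ∧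
      ∀ γ, Order.IsSuccLimit γ → α ≤ γ → γ < β →
        #(aSet γ) < #(pcfS (aSet α)) ∧ #(pcfS (aSet α)) ≤ #(pcfS (aSet γ)) := by
  classical
  set k := #(Shrink.{u} (aSet α)) with hk
  have hlk : Cardinal.lift.{u+1} k = #(aSet α) := by
    apply le_antisymm
    · exact lift_mk_le_of_inj _ (equivShrink.{u} (aSet α)).symm.injective
    · exact mk_le_lift_of_inj _ (equivShrink.{u} (aSet α)).injective
  have hαω : ω ≤ α := Ordinal.omega0_le_of_isSuccLimit hα
  have hα0 : ℵ₀ ≤ α.card := by rwa [Ordinal.aleph0_le_card]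
  obtain ⟨κ₀, hκ₀⟩ := hne
  have hαcard : α.card < ℵ_ α := (Order.succ_le_iff.1 hκ₀.2.1).trans hκ₀.2.2
  have hkinf : ℵ₀ ≤ k := by
    obtain ⟨γ, hγ⟩ := Cardinal.mem_range_aleph_iff.2 hα0
    have hγα : γ < α := by rw [← Cardinal.aleph_lt_aleph, hγ]; exact hαcard
    have hstep : ∀ n : ℕ, γ + n + 1 < α := by
      intro n
      have h3 : ∀ n : ℕ, γ + n < α := by
        intro n
        induction n with
        | zero => simpa using hγα
        | succ n ih =>
          rw [Nat.cast_succ, ← add_assoc, ← Order.succ_eq_add_one]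
          exact hα.succ_lt ih
      have := h3 (n + 1)
      rwa [Nat.cast_succ, ← add_assoc] at this
    have hle : #(ULift.{u+1} ℕ) ≤ #(aSet α) := by
      refine Cardinal.mk_le_of_injective (f := fun n : ULift.{u+1} ℕ =>
        (⟨ℵ_ (γ + n.down + 1), Cardinal.isRegular_aleph_add_one _, ?_, ?_⟩ : aSet α)) ?_
      · rw [Order.succ_le_iff, ← hγ, Cardinal.aleph_lt_aleph]
        exact lt_of_le_of_lt le_self_add (Order.lt_add_one_iff.2 le_rfl)
      · rw [Cardinal.aleph_lt_aleph]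
        exact hstep _
      · intro n m h
        have h3 := Cardinal.aleph.injective (congrArg Subtype.val h)
        have h4 : γ + (n.down : Ordinal.{u}) = γ + (m.down : Ordinal.{u}) :=
          Order.succ_injective (by rw [Order.succ_eq_add_one, Order.succ_eq_add_one]; exact h3)
        have h5 := add_left_cancel h4
        exact ULift.down_injective (Nat.cast_injective h5)
    rw [← hlk] at hle
    have : ℵ₀ ≤ Cardinal.lift.{u+1} k := by simpa using hle
    exact Cardinal.aleph0_le_lift.1 this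
  set ρ := α.card ^ k with hρ
  have hρlift : Cardinal.lift.{u+1} ρ = Cardinal.lift.{u+1} α.card ^ #(aSet α) := by
    rw [hρ, Cardinal.lift_power, hlk]
  have hk0 : k ≠ 0 := (lt_of_lt_of_le aleph0_pos hkinf).ne'
  have h1 : α.card ≤ ρ := Cardinal.self_le_power _ (Cardinal.one_le_iff_ne_zero.2 hk0)
  have h2 : ρ < ℵ_ α := by rw [← hρlift] at H; exact Cardinal.lift_lt.1 H
  have hρ0 : ℵ₀ ≤ ρ := hα0.trans h1
  have hρk : ρ ^ k ≤ ρ := by
    rw [hρ, ← Cardinal.power_mul, Cardinal.mul_eq_self hkinf]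
  have h2k : 2 ^ k ≤ ρ := Cardinal.power_le_power_right ((Cardinal.natCast_lt_aleph0 (n := 2)).le.trans hα0)
  have hkρ : k ≤ ρ := (Cardinal.cantor k).le.trans h2k
  have hA'sub : ival ρ (ℵ_ α) ⊆ aSet α := fun κ h =>
    ⟨h.1, Order.succ_le_iff.2 (lt_of_le_of_lt h1 h.2.1), h.2.2⟩
  have hLsub : ival' α.card ρ ⊆ aSet α := fun κ h =>
    ⟨h.1, Order.succ_le_iff.2 h.2.1, lt_of_le_of_lt h.2.2 h2⟩
  have hA'k : #(ival ρ (ℵ_ α)) ≤ Cardinal.lift.{u+1} k := by
    rw [hlk]; exact Cardinal.mk_le_mk_of_subset hA'sub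
  have hLk : #(ival' α.card ρ) ≤ Cardinal.lift.{u+1} k := by
    rw [hlk]; exact Cardinal.mk_le_mk_of_subset hLsub
  have P1 : #(pcfS (ival ρ (ℵ_ α))) ≤ Cardinal.lift.{u+1} ρ := by
    obtain ⟨k', hk'⟩ := Cardinal.mem_range_lift_of_le hA'k
    have hk'k : k' ≤ k := by rw [← hk'] at hA'k; exact Cardinal.lift_le.1 hA'k
    have h3 : (2 : Cardinal.{u}) ^ k' ≤ ρ :=
      (Cardinal.power_le_power_left two_ne_zero hk'k).trans h2k
    refine (mk_pcfS_le (fun κ h => h.1) hk'.symm ?_).trans (Cardinal.lift_le.2 h3)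
    intro κ hκ
    exact lt_of_le_of_lt h3 hκ.2.1
  have P2 : ∀ l ∈ pcfS (ival ρ (ℵ_ α)), ∀ θ : Cardinal.{u}, θ.IsRegular → ρ < θ → θ ≤ l →
      θ ∈ pcfS (ival ρ (ℵ_ α)) := by
    intro l hl θ hθ hρθ hθl
    exact nohole_elem rfl hA'k hρ0 hρk hkρ hl hθ hρθ hθl
  have P3 : pcfS (ival' α.card ρ) ⊆ ival' α.card ρ := by
    intro κ hκ
    refine ⟨pcfS_isRegular hκ, lt_of_mem_pcfS (fun κ h => h.1) (fun κ h => h.2.1) hκ, ?_⟩
    exact (le_of_mem_pcfS (fun κ h => h.2.2) hLk (lt_of_lt_of_le aleph0_pos hρ0).ne' hκ).trans hρk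
  obtain ⟨β, b1, b2, b3, b4, b5, b6⟩ := assembly hα h1 h2 P1 P2 P3
  exact ⟨β, b1, b2, by rw [← hρlift]; exact Cardinal.lift_le.2 b3, b4, b5, b6⟩

end Helper23.Pcf
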