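import Pool.Agent.Helper23.Pcf.Guess

set_option autoImplicit false

open Cardinal Ordinal Set Filter

universe u v

namespace Helper23.Pcf

variable {ι : Type u}

def flt (F : Filter ι) (f g : ι → Ordinal.{u}) : Prop := ∀ᶠ i in F, f i < g i
def fle (F : Filter ι) (f g : ι → Ordinal.{u}) : Prop := ∀ᶠ i in F, f i ≤ g i

section
variable {F : Filter ι} {f g h : ι → Ordinal.{u}}

theorem flt.le (H : flt F f g) : fle F f g := H.mono fun _ h => le_of_lt h

theorem flt.trans (H : flt F f g) (H' : flt F g h) : flt F f h := by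
  filter_upwards [H, H'] with i h1 h2 using h1.trans h2

theorem fle.trans (H : fle F f g) (H' : fle F g h) : fle F f h := by
  filter_upwards [H, H'] with i h1 h2 using le_trans h1 h2

theorem fle.trans_flt (H : fle F f g) (H' : flt F g h) : flt F f h := by
  filter_upwards [H, H'] with i h1 h2 using lt_of_le_of_lt h1 h2

theorem flt.trans_fle (H : flt F f g) (H' : fle F g h) : flt F f h := by
  filter_upwards [H, H'] with i h1 h2 using lt_of_lt_of_le h1 h2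

end

/-- projection of `f` to `S` -/
noncomputable def proj (S : ι → Set Ordinal.{u}) (f : ι → Ordinal.{u}) : ι → Ordinal.{u} :=
  fun i => sInf {y | y ∈ S i ∧ f i ≤ y}

theorem proj_mem {S : ι → Set Ordinal.{u}} {f : ι → Ordinal.{u}} {i : ι}
    (h : ∃ y ∈ S i, f i ≤ y) : proj S f i ∈ S i ∧ f i ≤ proj S f i := by
  obtain ⟨y, hy, hy'⟩ := h
  exact csInf_mem (s := {y | y ∈ S i ∧ f i ≤ y}) ⟨y, hy, hy'⟩

theorem proj_le {S : ι → Set Ordinal.{u}} {f : ι → Ordinal.{u}} {i : ι} {y : Ordinal.{u}}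
    (hy : y ∈ S i) (hfy : f i ≤ y) : proj S f i ≤ y := csInf_le' ⟨hy, hfy⟩

/-- The bounding projection property. -/
def BPP (F : Filter ι) (f : Ordinal.{u} → ι → Ordinal.{u}) (θ χ : Cardinal.{u}) : Prop :=
  ∀ S : ι → Set Ordinal.{u}, (∀ i, #(S i) < Cardinal.lift.{u+1} χ) →
    (∀ ξ < θ.ord, ∀ i, ∃ y ∈ S i, f ξ i ≤ y) →
    ∃ ξ < θ.ord, ∀ η < θ.ord, fle F (f η) (proj S (f ξ))

theorem bpp_of_club (F : Filter ι) {χ θ : Cardinal.{u}} (hχ : χ.IsRegular) (hχ0 : ℵ₀ < χ)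
    (hι : #ι < χ) (hθ : θ.IsRegular) (hχθ : Order.succ (Order.succ χ) < θ)
    (f : Ordinal.{u} → ι → Ordinal.{u}) (hmono : ∀ ξ η, ξ < η → η < θ.ord → flt F (f ξ) (f η))
    (hH : ∀ δ < θ.ord, δ.cof = Order.succ (Order.succ χ) → ∃ E, ClubIn E δ ∧ ∃ δ' < θ.ord,
      ∃ h : ι → Ordinal.{u}, (∀ ξ ∈ E, ξ < δ → ∀ i, f ξ i ≤ h i) ∧ fle F h (f δ')) :
    BPP F f θ χ := by
  classical
  intro S hScard hS
  by_contra hcon
  push Not at hcon
  have hr : ∀ ξ : Ordinal.{u}, ∃ η < θ.ord, ξ < θ.ord → ¬ fle F (f η) (proj S (f ξ)) := by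
    intro ξ
    by_cases hξ : ξ < θ.ord
    · obtain ⟨η, h1, h2⟩ := hcon ξ hξ
      exact ⟨η, h1, fun _ => h2⟩
    · exact ⟨0, hθ.ord_pos, fun h => absurd h hξ⟩
  choose r hr1 hr2 using hr
  set lam := Order.succ (Order.succ χ) with hlam
  have hlamreg : lam.IsRegular := Cardinal.isRegular_succ (hχ.1.trans (Order.le_succ χ))
  obtain ⟨C, hC1, hC2⟩ := club_guessing hχ hχ0 hlamreg (Order.lt_succ (Order.succ χ))
  have hθlim : Order.IsSuccLimit θ.ord := Cardinal.isSuccLimit_ord hθ.1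
  have hlamlim : Order.IsSuccLimit lam.ord := Cardinal.isSuccLimit_ord hlamreg.1
  have hσ : ∀ (α j : Ordinal.{u}) (ζ : Ordinal.{u} → Ordinal.{u}), ∃ σ < θ.ord,
      (∃ σ' < θ.ord, ∃ h : ι → Ordinal.{u}, (∀ k ∈ C α, k ≤ j → ∀ i, f (ζ k) i ≤ h i) ∧
        fle F h (f σ')) → ∃ h : ι → Ordinal.{u}, (∀ k ∈ C α, k ≤ j → ∀ i, f (ζ k) i ≤ h i) ∧
        fle F h (f σ) := by
    intro α j ζ
    by_cases hex : (∃ σ' < θ.ord, ∃ h : ι → Ordinal.{u}, (∀ k ∈ C α, k ≤ j → ∀ i, f (ζ k) i ≤ h i) ∧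
        fle F h (f σ'))
    · obtain ⟨σ', h1, h2⟩ := hex
      exact ⟨σ', h1, fun _ => h2⟩
    · exact ⟨0, hθ.ord_pos, fun h => absurd h hex⟩
  choose σ hσ1 hσ2 using hσ
  let x : Ordinal.{u} → (Ordinal.{u} → Ordinal.{u}) → Ordinal.{u} := fun j ζ =>
    Order.succ (max (ζ j) (⨆ α : Iio lam.ord, σ α.1 j ζ))
  have hx : ∀ j ζ, (∀ k, ζ k < θ.ord) → x j ζ < θ.ord := by
    intro j ζ hζ
    refine hθlim.succ_lt (max_lt (hζ j) (iSup_Iio_lt ?_ (fun α => hσ1 _ _ _)))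
    rw [Cardinal.card_ord, hθ.cof_ord]
    exact hχθ
  obtain ⟨ξ, hξ⟩ := exists_cont (fun j ζ => Order.succ (max (x j ζ) (r (x j ζ))))
  have hb : ∀ i < Order.succ lam.ord, ξ i < θ.ord := by
    refine cont_bound hξ hθlim ?_ ?_
    · intro i _ ζ hζ
      exact hθlim.succ_lt (max_lt (hx _ _ hζ) (hr1 _))
    · intro i hi
      rw [hθ.cof_ord]
      refine lt_of_le_of_lt (Ordinal.card_le_card (Order.le_of_lt_succ hi)) ?_
      rw [Cardinal.card_ord]
      exact hχθ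
  set δ := ξ lam.ord with hδ
  have hδθ : δ < θ.ord := hb _ (Order.lt_succ _)
  have hδcof : δ.cof = lam := by rw [hδ, cont_cof hξ hlamlim, hlamreg.cof_ord]
  obtain ⟨E, hE, δ', hδ', h, hh1, hh2⟩ := hH δ hδθ hδcof
  have hE' : ClubIn {i | ξ i ∈ E} lam.ord := club_preimage hξ (by
    rw [hlamreg.cof_ord]
    exact hχ0.trans ((Order.lt_succ χ).trans (Order.lt_succ _))) hE
  obtain ⟨α, hα, hαcof, hCα, hCsub⟩ := hC2 _ hE'
  have hαlim : Order.IsSuccLimit α := by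
    rw [← Ordinal.one_lt_cof_iff, hαcof]; exact one_lt_aleph0.trans hχ0
  -- the sequences at `α`
  let ζ : Ordinal.{u} → Ordinal.{u} → Ordinal.{u} := fun j k => if k ≤ j then ξ k else 0
  let X : Ordinal.{u} → Ordinal.{u} := fun j => x j (ζ j)
  have hζb : ∀ j < lam.ord, ∀ k, ζ j k < θ.ord := by
    intro j hj k
    by_cases hk : k ≤ j
    · simp only [ζ, if_pos hk]
      exact hb k (lt_of_le_of_lt hk (hj.trans (Order.lt_succ _)))
    · simp only [ζ, if_neg hk]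
      exact hθ.ord_pos
  have hXb : ∀ j < lam.ord, X j < θ.ord := fun j hj => hx _ _ (hζb j hj)
  have hstep : ∀ j i, j < i → X j < ξ i ∧ r (X j) < ξ i := by
    intro j i hji
    have h1 := cont_step hξ hji
    have h2 : Order.succ (max (X j) (r (X j))) ≤ ξ i := h1
    have h3 := lt_of_lt_of_le (Order.lt_succ _) h2
    exact ⟨lt_of_le_of_lt (le_max_left _ _) h3, lt_of_le_of_lt (le_max_right _ _) h3⟩
  have hξX : ∀ j, ξ j < X j := by
    intro j
    have : ζ j j = ξ j := by simp [ζ]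
    refine lt_of_le_of_lt ?_ (Order.lt_succ _)
    rw [← this]
    exact le_max_left _ _
  have hCα' : ∀ j ∈ C α, j < α := fun j hj => hC1 α hj
  have hq : ∀ j ∈ C α, ∃ h : ι → Ordinal.{u}, (∀ k ∈ C α, k ≤ j → ∀ i, f (ξ k) i ≤ h i) ∧
      flt F h (f (X j)) := by
    intro j hj
    have hjlam : j < lam.ord := (hCα' j hj).trans hα
    have hex : ∀ k ∈ C α, k ≤ j → ∀ i, f (ζ j k) i ≤ h i := by
      intro k hk hkj i
      simp only [ζ, if_pos hkj]
      refine hh1 _ (hCsub hk) ?_ i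
      exact cont_lt hξ ((hCα' k hk).trans hα)
    obtain ⟨h', h1, h2⟩ := hσ2 α j (ζ j) ⟨δ', hδ', h, hex, hh2⟩
    refine ⟨h', fun k hk hkj i => ?_, ?_⟩
    · have := h1 k hk hkj i
      simpa only [ζ, if_pos hkj] using this
    · refine h2.trans_flt (hmono _ _ ?_ (hXb j hjlam))
      refine lt_of_le_of_lt ?_ (Order.lt_succ _)
      exact le_trans (Ordinal.le_iSup (fun α : Iio lam.ord => σ α.1 j (ζ j)) ⟨α, hα⟩)
        (le_max_right _ _)
  choose! hq hq1 hq2 using hq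
  -- successor in `C α`
  have hnx : ∀ j < α, ∃ k ∈ C α, j < k ∧ k < α ∧ ∀ m ∈ C α, j < m → k ≤ m := by
    intro j hj
    obtain ⟨y, h1, h2, h3⟩ := hCα.unb j hj
    have hmem := csInf_mem (s := {m | m ∈ C α ∧ j < m}) ⟨y, h1, h2⟩
    exact ⟨_, hmem.1, hmem.2, hC1 α hmem.1, fun m hm hjm => csInf_le' ⟨hm, hjm⟩⟩
  choose! nx hnx1 hnx2 hnx3 hnx4 using hnx
  have hZ : ∀ j ∈ C α, ∀ᶠ i in F, hq j i < f (X j) i ∧ f (X j) i < f (ξ (nx j)) i := by
    intro j hj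
    have hjα := hCα' j hj
    refine (hq2 j hj).and (hmono _ _ (hstep j _ (hnx2 j hjα)).1 ?_)
    exact hb _ ((hnx3 j hjα).trans (hα.trans (Order.lt_succ _)))
  have hpt : ∀ j ∈ C α, ∃ i, (hq j i < f (X j) i ∧ f (X j) i < f (ξ (nx j)) i) ∧
      (hq (nx j) i < f (X (nx j)) i ∧ f (X (nx j)) i < f (ξ (nx (nx j))) i) ∧
      proj S (f (X j)) i < f (X (nx j)) i := by
    intro j hj
    have hjα := hCα' j hj
    by_contra hcon'
    push Not at hcon'
    have hjlam : j < lam.ord := hjα.trans hα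
    apply hr2 (X j) (hXb j hjlam)
    have h1 : flt F (f (r (X j))) (f (X (nx j))) := by
      refine hmono _ _ ((hstep j _ (hnx2 j hjα)).2.trans (hξX _)) (hXb _ ((hnx3 j hjα).trans hα))
    filter_upwards [hZ j hj, hZ (nx j) (hnx1 j hjα), h1] with i h2 h3 h4
    exact h4.le.trans (hcon' i h2 h3)
  have hne : Nonempty ι := by
    obtain ⟨y, hy, _⟩ := hCα.unb 0 hαlim.bot_lt
    obtain ⟨i, _⟩ := hpt y hy
    exact ⟨i⟩
  choose! a ha1 ha2 ha3 using hpt
  -- pigeonhole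
  have hpig : ∃ a₀, UnbIn {j | j ∈ C α ∧ a j = a₀} α := by
    by_contra hno
    push Not at hno
    have : ∀ b : ι, ∃ u < α, ∀ j ∈ C α, a j = b → u < j → α ≤ j := by
      intro b
      have := hno b
      simp only [UnbIn, not_forall, not_exists, not_and, not_lt] at this
      obtain ⟨u, hu, h⟩ := this
      exact ⟨u, hu, fun j hj hab huj => h j ⟨hj, hab⟩ huj⟩
    choose w hw1 hw2 using this
    have hsup : (⨆ b, w b) < α := Ordinal.iSup_lt_of_lt_cof (by rw [hαcof]; exact hι) hw1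
    obtain ⟨j, hj, h1, h2⟩ := hCα.unb _ hsup
    exact absurd (hw2 (a j) j hj rfl (lt_of_le_of_lt (Ordinal.le_iSup w (a j)) h1)) (not_le.2 h2)
  obtain ⟨a₀, ha₀⟩ := hpig
  set T := {j | j ∈ C α ∧ a j = a₀} with hT
  have hincr : ∀ j ∈ T, ∀ k ∈ T, j < k → proj S (f (X j)) a₀ < proj S (f (X k)) a₀ := by
    intro j hj k hk hjk
    have hjα := hCα' j hj.1
    have hkα := hCα' k hk.1
    have h1 : proj S (f (X j)) a₀ < f (X (nx j)) a₀ := by rw [← hj.2]; exact ha3 j hj.1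
    have h2 : nx j ≤ k := hnx4 j hjα k hk.1 hjk
    have h3 : f (X (nx j)) a₀ ≤ f (X k) a₀ := by
      rcases h2.eq_or_lt with h4 | h4
      · rw [h4]
      · have h5 : f (X (nx j)) a₀ < f (ξ (nx (nx j))) a₀ := by
          rw [← hj.2]; exact (ha2 j hj.1).2
        have h6 : nx (nx j) ≤ k := hnx4 (nx j) (hnx3 j hjα) k hk.1 h4
        have h7 : f (ξ (nx (nx j))) a₀ ≤ hq k a₀ :=
          hq1 k hk.1 _ (hnx1 _ (hnx3 j hjα)) h6 a₀
        have h8 : hq k a₀ < f (X k) a₀ := by rw [← hk.2]; exact (ha1 k hk.1).1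
        exact (h5.trans (lt_of_le_of_lt h7 h8)).le
    refine lt_of_lt_of_le h1 (h3.trans ?_)
    exact (proj_mem (hS _ (hXb k (hkα.trans hα)) a₀)).2
  have hTcard : #T ≤ #(S a₀) := by
    refine Cardinal.mk_le_of_injective (f := fun j : T => (⟨proj S (f (X j.1)) a₀,
      (proj_mem (hS _ (hXb j.1 ((hCα' j.1 j.2.1).trans hα)) a₀)).1⟩ : S a₀)) ?_
    intro j k hjk
    have h1 := congrArg Subtype.val hjk
    simp only at h1
    apply Subtype.ext
    rcases lt_trichotomy j.1 k.1 with h2 | h2 | h2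
    · exact absurd h1 (hincr _ j.2 _ k.2 h2).ne
    · exact h2
    · exact absurd h1.symm (hincr _ k.2 _ j.2 h2).ne
  have hTlt : #T < (Ordinal.lift.{u+1} α).cof := by
    rw [← Ordinal.lift_cof, hαcof]
    exact lt_of_le_of_lt hTcard (hScard a₀)
  have hsup : sSup T < α := Ordinal.sSup_lt_of_lt_cof hTlt (fun j hj => hCα' j hj.1)
  obtain ⟨j, hj, h1, h2⟩ := ha₀ _ hsup
  have hbdd : BddAbove T := ⟨α, fun j hj => (hCα' j hj.1).le⟩
  exact absurd (le_csSup hbdd hj) (not_le.2 h1)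

end Helper23.Pcf
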