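import Pool.Agent.Helper23.Pcf.Eub

set_option autoImplicit false

open Cardinal Ordinal Set Filter

universe u v

namespace Helper23.Pcf

variable {ι : Type u}

/-- stabilization of pointwise decreasing families of ordinal functions -/
theorem stabilise_fun {ν : Cardinal.{u}} (hν : ν.IsRegular) (hι : #ι < ν)
    (p : Ordinal.{u} → ι → Ordinal.{u})
    (hp : ∀ α β, α ≤ β → β < ν.ord → ∀ i, p β i ≤ p α i) :
    ∃ α < ν.ord, ∀ i, p α i = p (Order.succ α) i := by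
  have hlim : Order.IsSuccLimit ν.ord := Cardinal.isSuccLimit_ord hν.1
  have h1 : ∀ i, ∃ α < ν.ord, ∀ β < ν.ord, p α i ≤ p β i := by
    intro i
    obtain ⟨α, hα, h⟩ := csInf_mem (s := {x | ∃ α < ν.ord, p α i = x}) ⟨_, 0, hν.ord_pos, rfl⟩
    refine ⟨α, hα, fun β hβ => ?_⟩
    rw [h]
    exact csInf_le' ⟨β, hβ, rfl⟩
  choose α hα hmin using h1
  have hsup : (⨆ i, α i) < ν.ord := Ordinal.iSup_lt_of_lt_cof (by rwa [hν.cof_ord]) hα
  refine ⟨_, hsup, fun i => le_antisymm ?_ ?_⟩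
  · exact (hp _ _ (Ordinal.le_iSup α i) hsup i).trans (hmin i _ (hlim.succ_lt hsup))
  · exact hp _ _ (Order.le_succ _) (hlim.succ_lt hsup) i

/-- Existence of exact upper bounds. -/
theorem exists_eub (F : Filter ι) {ν χ θ : Cardinal.{u}} (hν : ν.IsRegular) (hι : #ι < ν)
    (hνχ : ν ≤ χ) (hθ : θ.IsRegular) (hνθ : ν < θ) (f : Ordinal.{u} → ι → Ordinal.{u})
    (hmono : ∀ ξ η, ξ < η → η < θ.ord → flt F (f ξ) (f η)) (hB : BPP F f θ χ)
    (c0 : ι → Ordinal.{u}) (hc0 : ∀ ξ < θ.ord, ∀ i, f ξ i < c0 i) :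
    ∃ g : ι → Ordinal.{u}, (∀ i, g i ≤ c0 i) ∧ (∀ ξ < θ.ord, flt F (f ξ) g) ∧
      (∀ h, flt F h g → ∃ ξ < θ.ord, flt F h (f ξ)) ∧
      ∀ u : ι → Ordinal.{u}, (∀ η < θ.ord, fle F (f η) u) → (∀ i, u i ≤ g i) → fle F g u := by
  classical
  have hθlim : Order.IsSuccLimit θ.ord := Cardinal.isSuccLimit_ord hθ.1
  have hχ0 : ℵ₀ ≤ χ := hν.1.trans hνχ
  have hmono' : ∀ ξ η, ξ ≤ η → η < θ.ord → fle F (f ξ) (f η) := by
    intro ξ η h hη
    rcases h.eq_or_lt with h1 | h1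
    · rw [h1]; exact Filter.Eventually.of_forall fun _ => le_rfl
    · exact (hmono _ _ h1 hη).le
  let UB : (ι → Ordinal.{u}) → Prop := fun h => ∀ η < θ.ord, fle F (f η) h
  -- existence of a least upper bound
  have hlub : ∃ g : ι → Ordinal.{u}, (∀ i, g i ≤ c0 i) ∧ UB g ∧
      ∀ u : ι → Ordinal.{u}, UB u → (∀ i, u i ≤ g i) → fle F g u := by
    by_contra hcon
    push Not at hcon
    have hU : ∀ h : ι → Ordinal.{u}, ∃ u : ι → Ordinal.{u}, (∀ i, h i ≤ c0 i) → UB h →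
        UB u ∧ ¬ fle F h u := by
      intro h
      by_cases hh : (∀ i, h i ≤ c0 i) ∧ UB h
      · obtain ⟨u, h1, h2, h3⟩ := hcon h hh.1 hh.2
        exact ⟨u, fun _ _ => ⟨h1, h3⟩⟩
      · exact ⟨h, fun h1 h2 => absurd ⟨h1, h2⟩ hh⟩
    choose U hU using hU
    have hξ : ∀ S : ι → Set Ordinal.{u}, ∃ ξ < θ.ord,
        (∃ ξ < θ.ord, ∀ η < θ.ord, fle F (f η) (proj S (f ξ))) →
        ∀ η < θ.ord, fle F (f η) (proj S (f ξ)) := by
      intro S
      by_cases h : (∃ ξ < θ.ord, ∀ η < θ.ord, fle F (f η) (proj S (f ξ)))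
      · obtain ⟨ξ, h1, h2⟩ := h
        exact ⟨ξ, h1, fun _ => h2⟩
      · exact ⟨0, hθ.ord_pos, fun h' => absurd h' h⟩
    choose Ξ hΞ1 hΞ2 using hξ
    obtain ⟨w, hw⟩ := exists_rec (X := ι → Ordinal.{u}) (fun α ih =>
      U (proj (fun i => insert (c0 i) (range fun β : Iio α => ih β i))
        (f (Ξ (fun i => insert (c0 i) (range fun β : Iio α => ih β i))))))
    let S : Ordinal.{u} → ι → Set Ordinal.{u} := fun α i =>
      insert (c0 i) (range fun β : Iio α => w β.1 i)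
    have hw' : ∀ α, w α = U (proj (S α) (f (Ξ (S α)))) := fun α => hw α
    have hSmem : ∀ α i, c0 i ∈ S α i := fun α i => mem_insert _ _
    have hSmono : ∀ α β, α ≤ β → ∀ i, S α i ⊆ S β i := by
      intro α β h i
      apply insert_subset_insert
      rintro _ ⟨γ, rfl⟩
      exact ⟨⟨γ.1, lt_of_lt_of_le γ.2 h⟩, rfl⟩
    have hScard : ∀ α < ν.ord, ∀ i, #(S α i) < Cardinal.lift.{u+1} χ := by
      intro α hα i
      refine lt_of_le_of_lt Cardinal.mk_insert_le ?_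
      have h1 : #(range fun β : Iio α => w β.1 i) ≤ Cardinal.lift.{u+1} α.card := by
        refine Cardinal.mk_range_le.trans ?_
        rw [Cardinal.mk_Iio_ordinal]
      refine lt_of_le_of_lt (add_le_add h1 le_rfl) ?_
      refine Cardinal.add_lt_of_lt (by simpa using hχ0) ?_ ?_
      · exact Cardinal.lift_lt.2 (lt_of_lt_of_le (Cardinal.lt_ord.1 hα) hνχ)
      · refine lt_of_lt_of_le one_lt_aleph0 (by simpa using hχ0)
    have hex : ∀ α, ∀ ξ < θ.ord, ∀ i, ∃ y ∈ S α i, f ξ i ≤ y := fun α ξ hξ i =>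
      ⟨c0 i, hSmem α i, (hc0 ξ hξ i).le⟩
    let hh : Ordinal.{u} → ι → Ordinal.{u} := fun α => proj (S α) (f (Ξ (S α)))
    have hhUB : ∀ α < ν.ord, UB (hh α) := fun α hα =>
      hΞ2 _ (hB (S α) (hScard α hα) (hex α))
    have hhc : ∀ α i, hh α i ≤ c0 i := fun α i =>
      proj_le (hSmem α i) (hc0 _ (hΞ1 _) i).le
    let ξs : Ordinal.{u} := ⨆ α : Iio ν.ord, Ξ (S α.1)
    have hξs : ξs < θ.ord := by
      refine iSup_Iio_lt ?_ (fun α => hΞ1 _)
      rw [Cardinal.card_ord, hθ.cof_ord]; exact hνθ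
    let p : Ordinal.{u} → ι → Ordinal.{u} := fun α => proj (S α) (f ξs)
    obtain ⟨α, hα, hst⟩ := stabilise_fun hν hι p (fun α β h _ i =>
      proj_le (hSmono α β h i (proj_mem (hex α ξs hξs i)).1) (proj_mem (hex α ξs hξs i)).2)
    -- p α = hh α a.e.
    have h1 : fle F (hh α) (p α) := by
      have h2 : fle F (f (Ξ (S α))) (f ξs) :=
        hmono' _ _ (Ordinal.le_iSup (fun α : Iio ν.ord => Ξ (S α.1)) ⟨α, hα⟩) hξs
      filter_upwards [h2] with i hi
      exact proj_le (proj_mem (hex α ξs hξs i)).1 (hi.trans (proj_mem (hex α ξs hξs i)).2)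
    have h3 := hU (hh α) (hhc α) (hhUB α hα)
    have h4 : w α = U (hh α) := hw' α
    rw [← h4] at h3
    apply h3.2
    have h5 : fle F (p (Order.succ α)) (w α) := by
      filter_upwards [h3.1 ξs hξs] with i hi
      refine proj_le ?_ hi
      exact mem_insert_of_mem _ ⟨⟨α, Order.lt_succ α⟩, rfl⟩
    refine h1.trans ?_
    filter_upwards [h5] with i hi
    rw [hst i]; exact hi
  obtain ⟨g, hg1, hg2, hg3⟩ := hlub
  refine ⟨g, hg1, ?_, ?_, hg3⟩
  · intro ξ hξ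
    exact (hmono ξ _ (Order.lt_succ ξ) (hθlim.succ_lt hξ)).trans_fle (hg2 _ (hθlim.succ_lt hξ))
  · intro h hhg
    by_contra hcon
    push Not at hcon
    obtain ⟨ξ, hξ, hUB⟩ := hB (fun i => {h i, g i, c0 i}) (by
      intro i
      refine lt_of_lt_of_le ?_ (by simpa using hχ0 : ℵ₀ ≤ Cardinal.lift.{u+1} χ)
      have : ({h i, g i, c0 i} : Set Ordinal.{u}).Finite := by
        exact Set.toFinite _
      exact Cardinal.lt_aleph0_iff_set_finite.2 this) (by
      intro ξ hξ i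
      exact ⟨c0 i, by simp, (hc0 ξ hξ i).le⟩)
    set p := proj (fun i => {h i, g i, c0 i}) (f ξ) with hp
    have h1 : fle F g (fun i => min (p i) (g i)) := by
      refine hg3 _ (fun η hη => ?_) (fun i => min_le_right _ _)
      filter_upwards [hUB η hη, hg2 η hη] with i h2 h3
      exact le_min h2 h3
    apply hcon ξ hξ
    filter_upwards [h1, hhg] with i h2 h3
    by_contra hcon'
    push Not at hcon'
    have h4 : p i ≤ h i := proj_le (by simp) hcon'
    have h5 : g i ≤ p i := h2.trans (min_le_left _ _)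
    exact absurd (h5.trans h4) (not_le.2 h3)

/-- Cofinalities of exact upper bounds are large. -/
theorem eub_cof (F : Filter ι) {χ θ : Cardinal.{u}} (hχ : ℵ₀ ≤ χ)
    (f : Ordinal.{u} → ι → Ordinal.{u}) (hB : BPP F f θ χ) (c0 g : ι → Ordinal.{u})
    (hc0 : ∀ ξ < θ.ord, ∀ i, f ξ i < c0 i)
    (hg : ∀ ξ < θ.ord, flt F (f ξ) g)
    (hlub : ∀ u : ι → Ordinal.{u}, (∀ η < θ.ord, fle F (f η) u) → (∀ i, u i ≤ g i) → fle F g u) :
    ∀ᶠ i in F, χ ≤ (g i).cof := by
  classical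
  have hC : ∀ i, ∃ C : Set Ordinal.{u}, #C ≤ Cardinal.lift.{u+1} (g i).cof ∧
      (∀ y ∈ C, y < g i) ∧ ∀ x < g i, ∃ y ∈ C, x ≤ y := by
    intro i
    obtain ⟨e, he⟩ := Ordinal.exists_isFundamentalSeq (o := g i) rfl
    refine ⟨range (fun k => (e k).1), ?_, ?_, ?_⟩
    · refine Cardinal.mk_range_le.trans ?_
      rw [Cardinal.mk_Iio_ordinal, Cardinal.card_ord]
    · rintro _ ⟨k, rfl⟩
      exact (e k).2
    · intro x hx
      obtain ⟨_, ⟨k, rfl⟩, hk⟩ := he.isCofinal_range ⟨x, hx⟩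
      exact ⟨_, ⟨k, rfl⟩, hk⟩
  choose C hC1 hC2 hC3 using hC
  let S : ι → Set Ordinal.{u} := fun i => if (g i).cof < χ then insert (c0 i) (C i) else {c0 i}
  have hχ' : ℵ₀ ≤ Cardinal.lift.{u+1} χ := by simpa using hχ
  have hScard : ∀ i, #(S i) < Cardinal.lift.{u+1} χ := by
    intro i
    by_cases h : (g i).cof < χ
    · simp only [S, if_pos h]
      refine lt_of_le_of_lt Cardinal.mk_insert_le ?_
      refine Cardinal.add_lt_of_lt hχ' (lt_of_le_of_lt (hC1 i) (Cardinal.lift_lt.2 h)) ?_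
      exact lt_of_lt_of_le one_lt_aleph0 hχ'
    · simp only [S, if_neg h]
      refine lt_of_lt_of_le ?_ hχ'
      simp
  have hSmem : ∀ i, c0 i ∈ S i := by
    intro i
    by_cases h : (g i).cof < χ
    · simp only [S, if_pos h]; exact mem_insert _ _
    · simp only [S, if_neg h]; exact mem_singleton _
  obtain ⟨ξ, hξ, hUB⟩ := hB S hScard (fun ξ hξ i => ⟨c0 i, hSmem i, (hc0 ξ hξ i).le⟩)
  set p := proj S (f ξ) with hp
  have h1 : fle F g (fun i => min (p i) (g i)) := by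
    refine hlub _ (fun η hη => ?_) (fun i => min_le_right _ _)
    filter_upwards [hUB η hη, (hg η hη).le] with i h2 h3
    exact le_min h2 h3
  filter_upwards [h1, hg ξ hξ] with i h2 h3
  by_contra hcon
  push Not at hcon
  obtain ⟨y, hy, hfy⟩ := hC3 i _ h3
  have h4 : p i ≤ y := proj_le (by simp only [S, if_pos hcon]; exact mem_insert_of_mem _ hy) hfy
  have h5 : g i ≤ p i := h2.trans (min_le_left _ _)
  exact absurd (h5.trans h4) (not_le.2 (hC2 i y hy))

end Helper23.Pcf
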