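import Pool.Agent.Helper23.Pcf.Elem

set_option autoImplicit false

open Cardinal Ordinal Set Filter

universe u v

namespace Helper23.Pcf

theorem power_aleph0_le {μ : Cardinal.{u}} (hμ : μ.IsStrongLimit) (h : ℵ₀ < μ.ord.cof) :
    μ ^ ℵ₀ ≤ μ := by
  have hinf : ℵ₀ ≤ μ := h.le.trans (Ordinal.cof_ord_le μ)
  have h1 : #(ULift.{u} ℕ × μ.ord.ToType) = μ := by
    rw [Cardinal.mk_prod]
    simp [Cardinal.aleph0_mul_eq hinf]
  have h2 := Cardinal.mk_subset_mk_lt_cof (α := ULift.{u} ℕ × μ.ord.ToType)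
    (by rw [h1]; exact hμ.isStrongPrelimit)
  rw [h1] at h2
  have h3 : #(ULift.{u} ℕ → μ.ord.ToType) ≤
      #{s : Set (ULift.{u} ℕ × μ.ord.ToType) // #s < μ.ord.cof} := by
    refine Cardinal.mk_le_of_injective (f := fun f => ⟨{p | f p.1 = p.2}, ?_⟩) ?_
    · refine lt_of_le_of_lt ?_ h
      have : #({p : ULift.{u} ℕ × μ.ord.ToType | f p.1 = p.2}) ≤ #(ULift.{u} ℕ) := by
        refine Cardinal.mk_le_of_injective (f := fun p => p.1.1) ?_
        rintro ⟨⟨n, x⟩, hx⟩ ⟨⟨m, y⟩, hy⟩ h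
        simp only [mem_ofPred_eq] at hx hy h
        subst h
        simp only [Subtype.mk.injEq, Prod.mk.injEq, true_and]
        rw [← hx, ← hy]
      simpa using this
    · intro f g h
      have h4 : {p : ULift.{u} ℕ × μ.ord.ToType | f p.1 = p.2} =
        {p : ULift.{u} ℕ × μ.ord.ToType | g p.1 = p.2} := congrArg Subtype.val h
      funext n
      have h5 : ((n, f n) : ULift.{u} ℕ × μ.ord.ToType) ∈ {p | g p.1 = p.2} := by
        rw [← h4]; rfl
      exact h5.symm
  rw [h2] at h3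
  simpa using h3

/-- Arbitrarily large ordinals of the form `μ + ω`, `μ = ℵ_μ` a strong limit of uncountable
cofinality. -/
theorem exists_good (γ : Ordinal.{u}) : ∃ α, γ < α ∧ Order.IsSuccLimit α ∧ (aSet α).Nonempty ∧
    Cardinal.lift.{u+1} α.card ^ #(aSet α) < Cardinal.lift.{u+1} (ℵ_ α) := by
  let f : Ordinal.{u} → Ordinal.{u} := fun o => (ℶ_ o).ord
  have hf : Order.IsNormal f := Cardinal.isNormal_ord.comp Cardinal.isNormal_beth
  let o := Ordinal.deriv f (γ + ω₁)
  have hfix : (ℶ_ o).ord = o := Ordinal.deriv_fp hf _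
  have hω₁ : Order.IsSuccLimit (ω₁ : Ordinal.{u}) := Cardinal.isSuccLimit_omega _
  have hlim : Order.IsSuccLimit (γ + ω₁) := Ordinal.isSuccLimit_add γ hω₁
  have hcof : o.cof = ℵ₁ := by
    have h1 : o.cof = (γ + ω₁).cof := Ordinal.cof_map_of_isNormal (Ordinal.isNormal_deriv f) hlim
    rw [h1, Ordinal.cof_add _ hω₁.bot_lt.ne', Cardinal.cof_omega_one]
  have holim : Order.IsSuccLimit o := (Ordinal.isNormal_deriv f).map_isSuccLimit hlim
  have hγo : γ < o := lt_of_lt_of_le (lt_add_of_pos_right γ hω₁.bot_lt)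
    (Ordinal.isNormal_deriv f).strictMono.le_apply
  set μ := ℶ_ o with hμ
  have hoμ : o.card = μ := by rw [← hfix, Cardinal.card_ord]
  have hℵ : ℵ_ o = μ := le_antisymm (Cardinal.aleph_le_beth o) (by
    rw [← hoμ]; exact Ordinal.card_le_aleph o)
  have hstrong : μ.IsStrongLimit := Cardinal.isStrongLimit_beth.2 holim.isSuccPrelimit
  have hpow : μ ^ ℵ₀ ≤ μ := by
    refine power_aleph0_le hstrong ?_
    rw [hfix, hcof]; exact Cardinal.aleph0_lt_aleph_one
  have hinf : ℵ₀ ≤ μ := Cardinal.aleph0_le_beth o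
  have hcard : (o + ω).card = μ := by
    rw [Ordinal.card_add, hoμ, Ordinal.card_omega0, Cardinal.add_eq_left hinf hinf]
  have hcount : #(aSet (o + ω)) ≤ ℵ₀ := by
    have hsub : aSet (o + ω) ⊆ range (fun n : ℕ => ℵ_ (o + n)) := by
      intro κ hκ
      have h1 : μ < κ := by
        have := Order.succ_le_iff.1 hκ.2.1
        rwa [hcard] at this
      obtain ⟨δ, hδ⟩ := Cardinal.mem_range_aleph_iff.2 (hinf.trans h1.le)
      rw [← hδ, ← hℵ, Cardinal.aleph_lt_aleph] at h1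
      have h2 := hκ.2.2
      rw [← hδ, Cardinal.aleph_lt_aleph] at h2
      have h5 : δ - o < ω := by
        rw [← add_lt_add_iff_left o, Ordinal.add_sub_cancel_of_le h1.le]; exact h2
      obtain ⟨m, hm⟩ := Ordinal.lt_omega0.1 h5
      exact ⟨m, by rw [← hδ]; simp only; rw [← hm, Ordinal.add_sub_cancel_of_le h1.le]⟩
    refine (Cardinal.mk_le_mk_of_subset hsub).trans ?_
    rw [Cardinal.le_aleph0_iff_set_countable]
    exact countable_range _
  refine ⟨o + ω, lt_of_lt_of_le hγo le_self_add, Ordinal.isSuccLimit_add o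
    Ordinal.isSuccLimit_omega0, ⟨ℵ_ (o + 1), Cardinal.isRegular_aleph_add_one _, ?_, ?_⟩, ?_⟩
  · rw [Order.succ_le_iff, hcard, ← hℵ, Cardinal.aleph_lt_aleph]
    exact Order.lt_add_one_iff.2 le_rfl
  · rw [Cardinal.aleph_lt_aleph]
    exact add_lt_add_right (Ordinal.one_lt_omega0) o
  · rw [hcard]
    refine lt_of_le_of_lt (Cardinal.power_le_power_left ?_ hcount) ?_
    · simpa using (lt_of_lt_of_le aleph0_pos hinf).ne'
    · have h6 : Cardinal.lift.{u+1} μ ^ ℵ₀ = Cardinal.lift.{u+1} (μ ^ ℵ₀) := by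
        rw [Cardinal.lift_power, Cardinal.lift_aleph0]
      rw [h6, Cardinal.lift_lt]
      refine lt_of_le_of_lt hpow ?_
      rw [← hℵ, Cardinal.aleph_lt_aleph]
      exact lt_add_of_pos_right o Ordinal.omega0_pos

end Helper23.Pcf
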