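import Pool.Agent.Helper23.Pcf.NoHole2
import Pool.Agent.Helper23.Pcf.Sets

set_option autoImplicit false

open Cardinal Ordinal Set Filter

universe u v

namespace Helper23.Pcf

theorem hasCof_const {ι : Type u} [Subsingleton ι] (D : Ultrafilter ι) {μ : Cardinal.{u}}
    (hμ : μ.IsRegular) : HasCof D (fun _ => μ.ord) μ := by
  refine hasCof_of_scale hμ (fun ξ _ => ξ) ?_ ?_ ?_
  · intro ξ hξ
    exact dlt_of_forall fun _ => hξ
  · intro ξ η h _
    exact dlt_of_forall fun _ => h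
  · intro g hg
    obtain ⟨i, hi⟩ := hg.exists
    have hlim := Cardinal.isSuccLimit_ord hμ.1
    refine ⟨Order.succ (g i), hlim.succ_lt hi, dlt_of_forall fun j => ?_⟩
    rw [Subsingleton.elim j i]
    exact Order.lt_succ _

theorem pcfS_singleton {μ : Cardinal.{u}} (hμ : μ.IsRegular) : pcfS {μ} = {μ} := by
  apply subset_antisymm
  · rintro κ ⟨ι, c, D, h1, h2, h3⟩
    have : Subsingleton ι := ⟨fun i j => h1 ((h2 i).trans (h2 j).symm)⟩
    have h4 : HasCof D (fun i => (c i).ord) μ := by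
      refine (hasCof_const D hμ).congr (Filter.Eventually.of_forall fun i => ?_)
      rw [show c i = μ from h2 i]
    exact h3.unique h4
  · exact self_subset_pcfS (by rintro κ rfl; exact hμ)

theorem pcfS_empty : pcfS (∅ : Set Cardinal.{u}) = ∅ := by
  ext κ
  constructor
  · rintro ⟨ι, c, D, h1, h2, h3⟩
    obtain ⟨i, _⟩ := (Filter.Eventually.of_forall (f := (D : Filter ι)) (p := fun _ => True)
      fun _ => trivial).exists
    exact (h2 i).elim
  · exact fun h => h.elim

theorem pcfS_finite {s : Set Cardinal.{u}} (hs : s.Finite) (h : ∀ κ ∈ s, κ.IsRegular) :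
    pcfS s = s := by
  induction s, hs using Set.Finite.induction_on with
  | empty => exact pcfS_empty
  | @insert a s _ _ ih =>
    rw [Set.insert_eq, pcfS_union, pcfS_singleton (h a (mem_insert _ _)),
      ih (fun κ hκ => h κ (mem_insert_of_mem _ hκ))]

/-- no holes in the pcf of an interval of regular cardinals (progressive) -/
theorem nohole {a : Set Cardinal.{u}} [Small.{u} a] {ρ σ l θ : Cardinal.{u}}
    (ha : a = {κ | κ.IsRegular ∧ ρ < κ ∧ κ < σ}) (hk : #a ≤ Cardinal.lift.{u+1} ρ)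
    (hρ0 : ℵ₀ ≤ ρ) (hl : l ∈ pcfS a) (hθ : θ.IsRegular)
    (hρθ : ρ < θ) (hθl : θ ≤ l) : θ ∈ pcfS a := by
  classical
  have hareg : ∀ κ ∈ a, κ.IsRegular := by rw [ha]; exact fun κ h => h.1
  by_cases hθσ : θ < σ
  · apply self_subset_pcfS hareg
    rw [ha]; exact ⟨hθ, hρθ, hθσ⟩
  push Not at hθσ
  rcases hθl.eq_or_lt with h | hθl
  · rw [h]; exact hl
  set χ := Order.succ ρ with hχ
  have hχreg : χ.IsRegular := Cardinal.isRegular_succ hρ0
  have hχ0 : ℵ₀ < χ := lt_of_le_of_lt hρ0 (Order.lt_succ _)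
  set χ2 := Order.succ (Order.succ χ) with hχ2
  have hsplit : a = (a ∩ Iic χ2) ∪ (a ∩ Ioi χ2) := by
    rw [← Set.inter_union_distrib_left, Set.Iic_union_Ioi, Set.inter_univ]
  have hfin : (a ∩ Iic χ2).Finite := by
    refine Set.Finite.subset (s := {χ, Order.succ χ, χ2}) (by simp) ?_
    rintro κ ⟨h1, h2⟩
    rw [ha] at h1
    have h3 : χ ≤ κ := Order.succ_le_of_lt h1.2.1
    rcases h3.eq_or_lt with h | h
    · exact Or.inl h.symm
    have h4 : Order.succ χ ≤ κ := Order.succ_le_of_lt h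
    rcases h4.eq_or_lt with h | h
    · exact Or.inr (Or.inl h.symm)
    exact Or.inr (Or.inr (le_antisymm h2 (Order.succ_le_of_lt h)))
  have hl' : l ∈ pcfS (a ∩ Ioi χ2) := by
    rw [hsplit, pcfS_union] at hl
    rcases hl with h | h
    · rw [pcfS_finite hfin (fun κ h => hareg κ h.1)] at h
      have h1 := h.1
      rw [ha] at h1
      exact absurd (h1.2.2.trans_le (hθσ.trans hθl.le)) (lt_irrefl _)
    · exact h
  obtain ⟨ι, c, D, g1, g2, H⟩ := hl'
  have hι : #ι ≤ ρ := Cardinal.lift_le.1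
    ((lift_mk_le_of_inj (fun i : ι => (⟨c i, (g2 i).1⟩ : a))
      (fun i j h => g1 (congrArg Subtype.val h))).trans hk)
  have hcofc : ∀ i, (c i).ord.cof = c i := fun i => (hareg _ (g2 i).1).cof_ord
  obtain ⟨i00, _⟩ := (Filter.Eventually.of_forall (f := (D : Filter ι)) (p := fun _ => True)
      fun _ => trivial).exists
  have hχσ : χ2 < θ := by
    have h1 := (g2 i00).1
    rw [ha] at h1
    exact ((g2 i00).2 : χ2 < c i00).trans (h1.2.2.trans_le hθσ)
  obtain ⟨c1, hc1, hc2, H1⟩ := exists_mid H hχreg hχ0 (lt_of_le_of_lt hι (Order.lt_succ _))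
    (fun i => by rw [hcofc]; exact (g2 i).2) hθ hχσ hθl
  have H2 := H1.cof_values
  have hbig : ∀ᶠ i in D, ρ < (c1 i).cof ∧ c1 i < (c i).ord := by
    filter_upwards [hc1, hc2] with i h1 h2
    exact ⟨lt_of_lt_of_le (Order.lt_succ _) h2, h1⟩
  have hmem : ∀ i, (ρ < (c1 i).cof ∧ c1 i < (c i).ord) → (c1 i).cof ∈ a := by
    rintro i ⟨hi, hi'⟩
    have h1 : ℵ₀ ≤ (c1 i).cof := hρ0.trans hi.le
    have h2 : (c1 i).cof ≤ c i := by
      refine (Ordinal.cof_le_card _).trans ?_
      have := Ordinal.card_le_card hi'.le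
      simpa using this
    have h3 : c i < σ := by
      have := (g2 i).1
      rw [ha] at this
      exact this.2.2
    rw [ha]
    exact ⟨Cardinal.isRegular_cof (Ordinal.one_lt_cof_iff.1 (Ordinal.aleph0_le_cof_iff.1 h1)), hi, lt_of_le_of_lt h2 h3⟩
  obtain ⟨i0, hi0⟩ := hbig.exists
  let c' : Shrink.{u} a → Cardinal.{u} := fun i => ((equivShrink a).symm i).1
  have hc' : Function.Injective c' := fun i j h =>
    (equivShrink a).symm.injective (Subtype.ext h)
  have hc'mem : ∀ i, c' i ∈ a := fun i => ((equivShrink a).symm i).2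
  let y : ι → Shrink.{u} a := fun i =>
    if h : ρ < (c1 i).cof ∧ c1 i < (c i).ord then equivShrink a ⟨(c1 i).cof, hmem i h⟩
    else equivShrink a ⟨(c1 i0).cof, hmem i0 hi0⟩
  refine ⟨Shrink.{u} a, c', D.map y, hc', hc'mem, H2.map y ?_ ?_⟩
  · filter_upwards [hbig] with i hi
    simp [y, hi, c']
  · intro j
    rw [(hareg _ (hc'mem j)).cof_ord]
    have := hc'mem j
    rw [ha] at this
    exact lt_of_le_of_lt hι this.2.1

end Helper23.Pcf
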