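import Pool.Agent.Helper23.Pcf.Clubs

set_option autoImplicit false

open Cardinal Ordinal Set Filter

universe u v

namespace Helper23.Pcf

theorem club_image {Φ : Ordinal.{u} → (Ordinal.{u} → Ordinal.{u}) → Ordinal.{u}}
    {ξ : Ordinal.{u} → Ordinal.{u}} (hξ : IsCont Φ ξ)
    {o : Ordinal.{u}} (ho : Order.IsSuccLimit o) :
    ClubIn {x | ∃ i < o, ξ i = x} (ξ o) := by
  refine ⟨?_, ?_⟩
  · intro x hx
    obtain ⟨j, hj, hxj⟩ := cont_limit hξ ho.isSuccPrelimit hx
    exact ⟨ξ j, ⟨j, hj, rfl⟩, hxj, cont_lt hξ hj⟩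
  · intro δ hδ hδ0 hu
    have hne : {i | δ ≤ ξ i}.Nonempty := ⟨o, hδ.le⟩
    set i := sInf {i | δ ≤ ξ i} with hi
    have h1 : δ ≤ ξ i := csInf_mem hne
    have h2 : ∀ j < i, ξ j < δ := fun j hj => by
      by_contra hcon
      exact absurd (csInf_le' (show j ∈ {i | δ ≤ ξ i} from not_lt.1 hcon)) (not_le.2 hj)
    have hio : i < o := by
      by_contra hcon
      obtain ⟨j, hj, hxj⟩ := cont_limit hξ ho.isSuccPrelimit hδ
      exact absurd (csInf_le' (show j ∈ {i | δ ≤ ξ i} from hxj.le))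
        (not_le.2 (lt_of_lt_of_le hj (not_lt.1 hcon)))
    refine ⟨i, hio, le_antisymm ?_ h1⟩
    by_contra hlt
    push Not at hlt
    by_cases hpre : Order.IsSuccPrelimit i
    · obtain ⟨j, hj, hxj⟩ := cont_limit hξ hpre hlt
      exact absurd (h2 j hj) (not_lt.2 hxj.le)
    · rw [Order.not_isSuccPrelimit_iff_mem_range_succ] at hpre
      obtain ⟨j, hj⟩ := hpre
      have hji : j < i := by rw [← hj]; exact Order.lt_succ j
      obtain ⟨y, ⟨k, _, rfl⟩, h3, h4⟩ := hu (ξ j) (h2 j hji)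
      have hjk : j < k := by
        by_contra hcon
        exact absurd h3 (not_lt.2 (cont_le hξ (not_lt.1 hcon)))
      have hki : i ≤ k := by rw [← hj]; exact Order.succ_le_of_lt hjk
      exact absurd (lt_of_lt_of_le h4 h1) (not_lt.2 (cont_le hξ hki))

theorem exists_small_club {δ : Ordinal.{u}} (hδ : Order.IsSuccLimit δ) :
    ∃ E : Set Ordinal.{u}, ClubIn E δ ∧ E ⊆ Iio δ ∧ #E ≤ Cardinal.lift.{u+1} δ.cof := by
  classical
  obtain ⟨e, he⟩ := Ordinal.exists_isFundamentalSeq (o := δ) rfl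
  obtain ⟨ξ, hξ⟩ := exists_cont (fun j _ => if h : j < δ.cof.ord then (e ⟨j, h⟩).1 else 0)
  have hinf : ℵ₀ ≤ δ.cof := Ordinal.aleph0_le_cof_iff.2 (Ordinal.one_lt_cof_iff.2 hδ)
  have hlim : Order.IsSuccLimit δ.cof.ord := Cardinal.isSuccLimit_ord hinf
  have hbound : ∀ i < δ.cof.ord, ξ i < δ := by
    refine cont_bound hξ hδ ?_ ?_
    · intro i hi ζ _
      rw [dif_pos hi]
      exact (e ⟨i, hi⟩).2
    · intro i hi
      exact Cardinal.lt_ord.1 hi
  have heq : ξ δ.cof.ord = δ := by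
    apply le_antisymm
    · apply le_of_forall_lt
      intro x hx
      obtain ⟨j, hj, hxj⟩ := cont_limit hξ hlim.isSuccPrelimit hx
      exact hxj.trans (hbound j hj)
    · apply le_of_forall_lt
      intro x hx
      obtain ⟨_, ⟨j, rfl⟩, hj⟩ := he.isCofinal_range ⟨x, hx⟩
      have h1 : (e j).1 ≤ ξ (Order.succ j.1) := by
        refine le_trans ?_ (cont_step hξ (Order.lt_succ j.1))
        rw [dif_pos (show j.1 < δ.cof.ord from j.2)]
      exact lt_of_le_of_lt (le_trans hj h1) (cont_lt hξ (hlim.succ_lt j.2))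
  refine ⟨{x | ∃ i < δ.cof.ord, ξ i = x}, ?_, ?_, ?_⟩
  · have := club_image hξ hlim
    rwa [heq] at this
  · rintro x ⟨i, hi, rfl⟩
    exact hbound i hi
  · have : {x | ∃ i < δ.cof.ord, ξ i = x} ⊆ range (fun k : Iio δ.cof.ord => ξ k.1) := by
      rintro x ⟨i, hi, rfl⟩
      exact ⟨⟨i, hi⟩, rfl⟩
    refine (Cardinal.mk_le_mk_of_subset this).trans (Cardinal.mk_range_le.trans ?_)
    rw [Cardinal.mk_Iio_ordinal, Cardinal.card_ord]

theorem ClosedIn.mono {C : Set Ordinal.{u}} {o o' : Ordinal.{u}} (h : ClosedIn C o)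
    (hle : o' ≤ o) : ClosedIn C o' := fun δ hδ => h δ (lt_of_lt_of_le hδ hle)

/-- Club guessing for cofinality `χ > ℵ₀` at regular `lam > χ⁺`. -/
theorem club_guessing {χ : Cardinal.{u}} (hχ : χ.IsRegular) (hχ0 : ℵ₀ < χ) {lam : Cardinal.{u}}
    (hlam : lam.IsRegular) (hlt : Order.succ χ < lam) :
    ∃ C : Ordinal.{u} → Set Ordinal.{u}, (∀ δ, C δ ⊆ Iio δ) ∧ ∀ E, ClubIn E lam.ord →
      ∃ δ < lam.ord, δ.cof = χ ∧ ClubIn (C δ) δ ∧ C δ ⊆ E := by
  classical
  have hsucc : (Order.succ χ).IsRegular := Cardinal.isRegular_succ hχ.1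
  have hχlam : χ < lam := (Order.lt_succ χ).trans hlt
  have hlamcof : ℵ₀ < lam.ord.cof := by rw [hlam.cof_ord]; exact hχ0.trans hχlam
  have hlamlim : Order.IsSuccLimit lam.ord := Cardinal.isSuccLimit_ord hlam.1
  have hC0 : ∀ δ : Ordinal.{u}, ∃ C : Set Ordinal.{u}, C ⊆ Iio δ ∧
      (δ.cof = χ → ClubIn C δ ∧ #C ≤ Cardinal.lift.{u+1} χ) := by
    intro δ
    by_cases h : δ.cof = χ
    · have hlim : Order.IsSuccLimit δ := by
        rw [← Ordinal.one_lt_cof_iff, h]; exact one_lt_aleph0.trans hχ0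
      obtain ⟨E, h1, h2, h3⟩ := exists_small_club hlim
      exact ⟨E, h2, fun _ => ⟨h1, by rwa [h] at h3⟩⟩
    · exact ⟨∅, empty_subset _, fun h' => absurd h' h⟩
  choose C0 hC01 hC02 using hC0
  by_contra hcon
  push Not at hcon
  have hN : ∀ E0 : Set Ordinal.{u}, ∃ E : Set Ordinal.{u}, ClubIn E lam.ord ∧
      ∀ δ < lam.ord, δ.cof = χ → ClubIn (C0 δ ∩ E0) δ → ¬ (C0 δ ∩ E0 ⊆ E) := by
    intro E0
    exact hcon (fun δ => C0 δ ∩ E0) (fun δ => inter_subset_left.trans (hC01 δ))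
  choose Nx hNx1 hNx2 using hN
  obtain ⟨Es, hEs⟩ := exists_rec (X := Set Ordinal.{u}) (fun i ih => ⋂ j : Iio i, Nx (ih j))
  have hanti : ∀ i j, i ≤ j → Es j ⊆ Es i := by
    intro i j h
    rw [hEs i, hEs j]
    intro x hx
    rw [mem_iInter] at hx ⊢
    intro k
    exact hx ⟨k.1, lt_of_lt_of_le k.2 h⟩
  have hclub : ∀ i, i.card < lam → ClubIn (Es i) lam.ord := by
    intro i hi
    rw [hEs i]
    have h1 := club_iInter hlamcof (I := i.ToType) (by rw [hlam.cof_ord]; simpa using hi)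
      (fun k => Nx (Es (Ordinal.ToType.mk.symm k).1)) (fun k => hNx1 _)
    convert h1 using 1
    ext x
    simp only [mem_iInter]
    constructor
    · intro h k
      exact h (Ordinal.ToType.mk.symm k)
    · intro h k
      have := h (Ordinal.ToType.mk k)
      simpa using this
  set S := (Order.succ χ).ord with hS
  have hScard : S.card = Order.succ χ := by rw [hS, Cardinal.card_ord]
  have hSclub : ClubIn (Es S) lam.ord := hclub S (by rw [hScard]; exact hlt)
  -- a limit point of cofinality χ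
  have hy : ∀ x : Ordinal.{u}, ∃ y, x < lam.ord → y ∈ Es S ∧ x < y ∧ y < lam.ord := by
    intro x
    by_cases hx : x < lam.ord
    · obtain ⟨y, h⟩ := hSclub.unb x hx
      exact ⟨y, fun _ => h⟩
    · exact ⟨0, fun h => absurd h hx⟩
  choose y hy using hy
  obtain ⟨ξ, hξ⟩ := exists_cont (fun j ζ => Order.succ (y (ζ j)))
  have hχlim : Order.IsSuccLimit χ.ord := Cardinal.isSuccLimit_ord hχ.1
  have hb : ∀ i < Order.succ χ.ord, ξ i < lam.ord := by
    refine cont_bound hξ hlamlim ?_ ?_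
    · intro i _ ζ hζ
      exact hlamlim.succ_lt (hy _ (hζ i)).2.2
    · intro i hi
      rw [hlam.cof_ord]
      refine lt_of_le_of_lt (Ordinal.card_le_card (Order.le_of_lt_succ hi)) ?_
      rw [Cardinal.card_ord]
      exact hχlam
  set δ := ξ χ.ord with hδ
  have hδlam : δ < lam.ord := hb _ (Order.lt_succ _)
  have hδcof : δ.cof = χ := by rw [hδ, cont_cof hξ hχlim, hχ.cof_ord]
  have hδ0 : 0 < δ := by
    have : δ ≠ 0 := by
      intro h0
      rw [h0, Ordinal.cof_zero] at hδcof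
      exact hχ.ne_zero hδcof.symm
    exact pos_iff_ne_zero.2 this
  have hunb : UnbIn (Es S) δ := by
    intro x hx
    obtain ⟨j, hj, hxj⟩ := cont_limit hξ hχlim.isSuccPrelimit hx
    have h1 := hy (ξ j) (hb j (hj.trans (Order.lt_succ _)))
    refine ⟨y (ξ j), h1.1, hxj.trans h1.2.1, ?_⟩
    have h2 := cont_step hξ (Order.lt_succ j)
    simp only [le_refl, if_true] at h2
    exact lt_of_lt_of_le (Order.lt_succ _) (h2.trans (cont_le hξ (hχlim.succ_lt hj).le))
  have hC0δ := hC02 δ hδcof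
  have hp : ∀ i < S, ∃ p, p ∈ C0 δ ∧ p ∈ Es i ∧ p ∉ Es (Order.succ i) := by
    intro i hi
    have hicard : i.card < lam := (lt_of_lt_of_le (Cardinal.lt_ord.1 hi) le_rfl).trans hlt
    have h1 : ClubIn (Es i) δ :=
      ⟨hunb.mono (hanti _ _ hi.le), (hclub i hicard).cl.mono hδlam.le⟩
    have h2 := club_inter (by rw [hδcof]; exact hχ0) hC0δ.1 h1
    obtain ⟨p, hp1, hp2⟩ := Set.not_subset.1 (hNx2 (Es i) δ hδlam hδcof h2)
    refine ⟨p, hp1.1, hp1.2, fun h3 => hp2 ?_⟩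
    rw [hEs (Order.succ i), mem_iInter] at h3
    exact h3 ⟨i, Order.lt_succ i⟩
  choose! p hp1 hp2 hp3 using hp
  have hinj : Function.Injective (fun k : Iio S => (⟨p k.1, hp1 k.1 k.2⟩ : C0 δ)) := by
    intro k k' h
    have h' : p k.1 = p k'.1 := congrArg Subtype.val h
    apply Subtype.ext
    rcases lt_trichotomy k.1 k'.1 with h2 | h2 | h2
    · exfalso
      apply hp3 k.1 k.2
      rw [h']
      exact hanti _ _ (Order.succ_le_of_lt h2) (hp2 k'.1 k'.2)
    · exact h2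
    · exfalso
      apply hp3 k'.1 k'.2
      rw [← h']
      exact hanti _ _ (Order.succ_le_of_lt h2) (hp2 k.1 k.2)
  have h3 := (Cardinal.mk_le_of_injective hinj).trans hC0δ.2
  rw [Cardinal.mk_Iio_ordinal, hScard, Cardinal.lift_le] at h3
  exact absurd h3 (not_le.2 (Order.lt_succ χ))

end Helper23.Pcf
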