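import Pool.Agent.Helper23.Pcf.Package
import Pool.Agent.Helper23.Pcf.Guess

set_option autoImplicit false

open Cardinal Ordinal Set Filter

universe u v

namespace Helper23.Pcf

section
variable {ι : Type u}

/-- iterate the functions `f` along a list of indices -/
def run (f : ι → Ordinal.{u} → ι → Ordinal.{u}) : ι × Ordinal.{u} → List ι → ι × Ordinal.{u}
  | p, [] => p
  | p, j :: l => run f (j, f p.1 p.2 j) l

theorem run_lt {f : ι → Ordinal.{u} → ι → Ordinal.{u}} {c : ι → Ordinal.{u}}
    (hf : ∀ i ξ j, f i ξ j < c j) (l : List ι) : ∀ p : ι × Ordinal.{u}, p.2 < c p.1 →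
      (run f p l).2 < c (run f p l).1 := by
  induction l with
  | nil => intro p hp; exact hp
  | cons j l ih => intro p hp; exact ih _ (hf _ _ _)

/-- Transitive generators for a progressive set. -/
theorem exists_transitive {a : ι → Cardinal.{u}} (hreg : ∀ i, (a i).IsRegular)
    {ν : Cardinal.{u}} (hν : ν.IsRegular) (hν0 : ℵ₀ < ν) (hι : #ι < ν)
    (hνa : ∀ i, Order.succ (Order.succ ν) < a i) :
    ∃ b : ι → Set ι,
      (∀ i (D : Ultrafilter ι), HasCof D (fun j => (a j).ord) (a i) → b i ∈ D) ∧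
      (∀ i (D : Ultrafilter ι) θ, b i ∈ D → HasCof D (fun j => (a j).ord) θ → θ ≤ a i) ∧
      ∀ i j, j ∈ b i → b j ⊆ b i := by
  classical
  set χ' := Order.succ (Order.succ ν) with hχ'
  set c : ι → Ordinal.{u} := fun j => (a j).ord with hc
  have hcof : ∀ i, (c i).cof = a i := fun i => (hreg i).cof_ord
  have hχ'reg : χ'.IsRegular := Cardinal.isRegular_succ (hν.1.trans (Order.le_succ ν))
  have hνχ' : ν < χ' := (Order.lt_succ ν).trans (Order.lt_succ _)
  have hχ'0 : ℵ₀ < χ' := hν0.trans hνχ'
  have hc2 : ∀ i, χ' < (c i).cof := fun i => by rw [hcof]; exact hνa i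
  have hc' : ∀ i, ν < (c i).cof := fun i => hνχ'.trans (hc2 i)
  have hpos := pos_of_cof' hc'
  have hlimc : ∀ i, Order.IsSuccLimit (c i) := fun i =>
    Ordinal.one_lt_cof_iff.1 (lt_trans (lt_of_lt_of_le one_lt_aleph0 hν.1) (hc' i))
  have hP := fun i => exists_package (c := c) hν hν0 hι hc2 (hreg i) (hνa i)
  choose f hf1 hf2 hf3 using hP
  -- the bounds
  have hlist : #(List ι) < ν := by
    rcases isEmpty_or_nonempty ι with h | h
    · exact lt_of_le_of_lt (Cardinal.mk_list_le_max ι) (max_lt hν0 hι)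
    · exact lt_of_le_of_lt (Cardinal.mk_list_le_max ι) (max_lt hν0 hι)
  let G : ι → Ordinal.{u} → ι → Ordinal.{u} := fun i ξ j =>
    ⨆ l : List ι, if (run f (i, ξ) l).1 = j then (run f (i, ξ) l).2 else 0
  have hG : ∀ i ξ, ξ < c i → ∀ j, G i ξ j < c j := by
    intro i ξ hξ j
    refine Ordinal.iSup_lt_of_lt_cof ?_ ?_
    · exact hlist.trans (hc' j)
    · intro l
      split_ifs with h
      · rw [← h]; exact run_lt hf1 l (i, ξ) hξ
      · exact hpos j
  have hbd : ∀ i, ∃ g : ι → Ordinal.{u}, (∀ j, g j < c j) ∧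
      ∀ D ∈ Ge c (Order.succ (a i)), ∀ k : (a i).ord.ToType,
        dle D (G i (Ordinal.ToType.mk.symm k).1) g := by
    intro i
    refine directed' hν hι hc' (Order.succ (a i)) (a i) (Order.lt_succ _) (a i).ord.ToType
      (fun k => G i (Ordinal.ToType.mk.symm k).1) (by simp) (fun k j => ?_)
    exact hG i _ (Ordinal.ToType.mk.symm k).2 j
  choose hh hh1 hh2 using hbd
  -- thresholds
  have hth : ∀ (i : ι) (x : ι → Ordinal.{u}), ∃ ξ < c i, (∀ j, x j < c j) →
      ∀ η, ξ ≤ η → η < c i → ∀ D, HasCof D c (a i) → dlt D x (f i η) := by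
    intro i x
    by_cases hx : ∀ j, x j < c j
    · obtain ⟨ξ, h1, h2⟩ := hf3 i x hx
      exact ⟨ξ, h1, fun _ => h2⟩
    · exact ⟨0, hpos i, fun h => absurd h hx⟩
  choose th hth1 hth2 using hth
  -- step function
  let Ψ : (ι → Ordinal.{u}) → ι → Ordinal.{u} := fun x j =>
    max (⨆ i, Order.succ (hh i j)) (max (th j x) (⨆ i, Order.succ (f i (x i) j)))
  have hΨ : ∀ x j, Ψ x j < c j := by
    intro x j
    refine max_lt ?_ (max_lt (hth1 j x) ?_)
    · exact Ordinal.iSup_lt_of_lt_cof (hι.trans (hc' j)) fun i => (hlimc j).succ_lt (hh1 i j)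
    · exact Ordinal.iSup_lt_of_lt_cof (hι.trans (hc' j)) fun i => (hlimc j).succ_lt (hf1 _ _ _)
  obtain ⟨s, hs⟩ := exists_rec (X := ι → Ordinal.{u}) (fun k x i =>
    ⨆ j : Iio k, max (Order.succ (x j i)) (Ψ (x j) i))
  have hcont : ∀ i, IsCont (fun j _ => Ψ (s j) i) (fun k => s k i) := by
    intro i k
    show s k i = _
    rw [hs k]
  have hsc : ∀ i, ∀ k < Order.succ χ'.ord, s k i < c i := by
    intro i
    refine cont_bound (hcont i) (hlimc i) (fun j _ ζ _ => hΨ _ _) ?_
    intro k hk
    refine lt_of_le_of_lt ?_ (hc2 i)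
    have := Ordinal.card_le_card (Order.lt_succ_iff.1 hk)
    simpa using this
  have hlim : Order.IsSuccLimit χ'.ord := Cardinal.isSuccLimit_ord hχ'reg.1
  set S : ι → Ordinal.{u} := s χ'.ord with hS
  have hSc : ∀ i, S i < c i := fun i => hsc i _ (Order.lt_succ _)
  have hstep : ∀ k i, Ψ (s k) i ≤ s (Order.succ k) i := fun k i =>
    cont_step (hcont i) (Order.lt_succ k)
  have hmono : ∀ {k k' : Ordinal.{u}}, k ≤ k' → ∀ i, s k i ≤ s k' i := fun h i =>
    cont_le (hcont i) h
  have hScof : ∀ i, (S i).cof = χ' := fun i => by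
    have := cont_cof (hcont i) hlim
    rw [hχ'reg.cof_ord] at this
    exact this
  -- the key inequality
  have hle : ∀ i j, f i (S i) j ≤ S j := by
    intro i j
    have h1 := hf2 i (S i) (hSc i) (hScof i) _ (club_image (hcont i) hlim) j
    refine h1.trans ?_
    refine csSup_le' ?_
    rintro y ⟨ξ, ⟨k, hk, rfl⟩, _, rfl⟩
    have h2 : f i (s k i) j ≤ Ψ (s k) j := by
      refine le_trans ?_ (le_max_right _ _)
      refine le_trans ?_ (le_max_right _ _)
      exact (Order.le_succ _).trans (Ordinal.le_iSup (fun i => Order.succ (f i (s k i) j)) i)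
    exact h2.trans ((hstep k j).trans (hmono (hlim.succ_lt hk).le j))
  let E : ι → ι → Prop := fun i j => f i (S i) j = S j
  have hrun : ∀ i j, Relation.ReflTransGen E i j → ∃ l, run f (i, S i) l = (j, S j) := by
    intro i j h
    induction h using Relation.ReflTransGen.head_induction_on with
    | refl => exact ⟨[], rfl⟩
    | @head x y h1 _ ih =>
      obtain ⟨l, hl⟩ := ih
      refine ⟨y :: l, ?_⟩
      show run f (y, f x (S x) y) l = _
      rw [show f x (S x) y = S y from h1]
      exact hl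
  refine ⟨fun i => {j | Relation.ReflTransGen E i j}, ?_, ?_, ?_⟩
  · intro i D hD
    have h1 : {j | f i (S i) j = S j} ∈ D := by
      by_contra hcon
      have hcon' : ∀ᶠ j in (D : Filter ι), ¬ (f i (S i) j = S j) :=
        Ultrafilter.eventually_not.2 hcon
      have hx : ∀ j, ∃ k, k < χ'.ord ∧ (f i (S i) j < S j → f i (S i) j < s k j) := by
        intro j
        by_cases hj : f i (S i) j < S j
        · obtain ⟨k, hk, hk'⟩ := cont_limit (hcont j) hlim.isSuccPrelimit hj
          exact ⟨k, hk, fun _ => hk'⟩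
        · exact ⟨0, hχ'reg.ord_pos, fun h => absurd h hj⟩
      choose k hk hk' using hx
      set K := ⨆ j, k j with hK
      have hKlt : K < χ'.ord := by
        refine Ordinal.iSup_lt_of_lt_cof ?_ hk
        rw [hχ'reg.cof_ord]
        exact hι.trans hνχ'
      have hlt : dlt D (f i (S i)) (s K) := by
        filter_upwards [hcon'] with j hj
        exact lt_of_lt_of_le (hk' j (lt_of_le_of_ne (hle i j) hj))
          (hmono (Ordinal.le_iSup k j) j)
      have hth' : th i (s K) ≤ S i := by
        refine le_trans ?_ (hmono (hlim.succ_lt hKlt).le i)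
        refine le_trans ?_ (hstep K i)
        exact (le_max_left _ _).trans (le_max_right _ _)
      have hlt' : dlt D (s K) (f i (S i)) :=
        hth2 i (s K) (fun j => hsc j K (hKlt.trans (Order.lt_succ _))) (S i) hth' (hSc i) D hD
      exact dlt_irrefl (hlt.trans hlt')
    filter_upwards [h1] with j hj
    exact Relation.ReflTransGen.single hj
  · intro i D θ hD hθ
    by_contra hcon
    push Not at hcon
    have hDmem : D ∈ Ge c (Order.succ (a i)) := ⟨θ, Order.succ_le_of_lt hcon, hθ⟩
    have h1 := hh2 i D hDmem (Ordinal.ToType.mk ⟨S i, hSc i⟩)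
    rw [OrderIso.symm_apply_apply] at h1
    have h2 : dle D S (G i (S i)) := by
      filter_upwards [hD] with j hj
      obtain ⟨l, hl⟩ := hrun i j hj
      have h3 := Ordinal.le_iSup (fun l : List ι =>
        if (run f (i, S i) l).1 = j then (run f (i, S i) l).2 else 0) l
      simp only [hl, if_true] at h3
      exact h3
    have h3 : ∀ j, hh i j < S j := by
      intro j
      refine lt_of_lt_of_le (lt_of_lt_of_le (Order.lt_succ _) ?_)
        (hmono (hlim.succ_lt hχ'reg.ord_pos).le j)
      refine le_trans ?_ (hstep 0 j)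
      refine le_trans ?_ (le_max_left _ _)
      exact Ordinal.le_iSup (fun i => Order.succ (hh i j)) i
    exact dlt_irrefl ((h2.trans h1).trans_dlt (dlt_of_forall h3))
  · intro i j hj k hk
    exact Relation.ReflTransGen.trans hj hk

end

end Helper23.Pcf
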