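import Pool.Agent.Helper23.Pcf.F5
import Pool.Agent.Helper23.Pcf.NoHole3
import Pool.Agent.Helper23.Pcf.Transit
import Pool.Agent.Helper23.Pcf.Assembly

set_option autoImplicit false

open Cardinal Ordinal Set Filter

universe u v

namespace Helper23.Pcf

theorem pcfS_of_mem {ι : Type u} {c : ι → Cardinal.{u}} {D : Ultrafilter ι} {κ : Cardinal.{u}}
    (h1 : Function.Injective c) (h3 : HasCof D (fun i => (c i).ord) κ) {s : Set Cardinal.{u}}
    (hs : {i | c i ∈ s} ∈ D) : κ ∈ pcfS s := by
  have hinj : Function.Injective (Subtype.val : {i // c i ∈ s} → ι) := Subtype.val_injective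
  have hr : range (Subtype.val : {i // c i ∈ s} → ι) ∈ D := by
    rw [Subtype.range_coe_subtype]; exact hs
  refine ⟨{i // c i ∈ s}, fun i => c i.1, D.comap hinj hr,
    fun i j h => Subtype.ext (h1 h), fun i => i.2, ?_⟩
  rw [← HasCof.map_injective (c := fun i => (c i).ord) hinj]
  have : (D.comap hinj hr).map Subtype.val = D := by
    apply Ultrafilter.coe_injective
    rw [Ultrafilter.coe_map, Ultrafilter.coe_comap, Filter.map_comap_of_mem hr]
  rw [this]; exact h3

/-- compactness of the space of ultrafilters -/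
theorem uf_compact {ι : Type u} {J : Type v} (S : J → Set ι) (Y : Set ι)
    (h : ∀ D : Ultrafilter ι, Y ∈ D → ∃ j, S j ∈ D) : ∃ t : Finset J, Y ⊆ ⋃ j ∈ t, S j := by
  classical
  by_contra hcon
  push Not at hcon
  let G : Finset J → Filter ι := fun t => Filter.principal (Y \ ⋃ j ∈ t, S j)
  have hne : (⨅ t, G t).NeBot := by
    refine Filter.iInf_neBot_of_directed' ?_ ?_
    · intro t t'
      refine ⟨t ∪ t', ?_, ?_⟩
      · refine Filter.principal_mono.2 (Set.diff_subset_diff_right ?_)
        exact Set.biUnion_subset_biUnion_left fun j hj => Finset.mem_union_left _ hj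
      · refine Filter.principal_mono.2 (Set.diff_subset_diff_right ?_)
        exact Set.biUnion_subset_biUnion_left fun j hj => Finset.mem_union_right _ hj
    · intro t
      rw [Filter.principal_neBot_iff]
      exact Set.diff_nonempty.2 (hcon t)
  set D := Ultrafilter.of (⨅ t, G t) with hD
  have hD1 : ∀ t, (Y \ ⋃ j ∈ t, S j) ∈ D := fun t =>
    (Ultrafilter.of_le (⨅ t, G t)) (Filter.mem_iInf_of_mem t (Filter.mem_principal_self _))
  obtain ⟨j, hj⟩ := h D (Filter.mem_of_superset (hD1 ∅) Set.diff_subset)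
  have h2 := Filter.inter_mem hj (hD1 {j})
  have h3 : S j ∩ (Y \ ⋃ j' ∈ ({j} : Finset J), S j') = ∅ := by
    ext x
    simp
  rw [h3] at h2
  exact Ultrafilter.empty_notMem h2

theorem card_lt_of_lt {κ : Cardinal.{u}} {x : Ordinal.{u}} (h : x < (Order.succ κ).ord) :
    x.card ≤ κ := Order.lt_succ_iff.1 (Cardinal.lt_ord.1 h)

/-- a set of infinite cardinals below `ℵ_ x` has size at most `|x|`. -/
theorem mk_le_card {s : Set Cardinal.{u}} {x : Ordinal.{u}} (hs : ∀ κ ∈ s, ℵ₀ ≤ κ ∧ κ < ℵ_ x) :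
    #s ≤ Cardinal.lift.{u+1} x.card := by
  have h1 : s ⊆ (fun y => ℵ_ y) '' Iio x := by
    intro κ hκ
    obtain ⟨y, hy⟩ := Cardinal.mem_range_aleph_iff.2 (hs κ hκ).1
    refine ⟨y, ?_, hy⟩
    have := (hs κ hκ).2
    rw [← hy, Cardinal.aleph_lt_aleph] at this
    exact this
  refine (Cardinal.mk_le_mk_of_subset h1).trans (Cardinal.mk_image_le.trans ?_)
  rw [Cardinal.mk_Iio_ordinal]

end Helper23.Pcf
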