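import Pool.Agent.Helper23.Pcf.Final

set_option autoImplicit false

open Cardinal Ordinal Set Filter

universe u v

namespace Helper23.Pcf

/-- `κ^{+n}` -/
noncomputable def succN (κ : Cardinal.{u}) : ℕ → Cardinal.{u}
  | 0 => κ
  | n + 1 => Order.succ (succN κ n)

theorem succN_succ (κ : Cardinal.{u}) (n : ℕ) : succN κ (n + 1) = Order.succ (succN κ n) := rfl

theorem succN_lt (κ : Cardinal.{u}) (n : ℕ) : succN κ n < succN κ (n + 1) := Order.lt_succ _

theorem le_succN (κ : Cardinal.{u}) (n : ℕ) : κ ≤ succN κ n := by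
  induction n with
  | zero => exact le_rfl
  | succ n ih => exact ih.trans (succN_lt κ n).le

theorem succN_mono (κ : Cardinal.{u}) {m n : ℕ} (h : m ≤ n) : succN κ m ≤ succN κ n := by
  induction h with
  | refl => exact le_rfl
  | step _ ih => exact ih.trans (succN_lt κ _).le

theorem succN_isRegular {κ : Cardinal.{u}} (h : ℵ₀ ≤ κ) (n : ℕ) : (succN κ (n + 1)).IsRegular :=
  Cardinal.isRegular_succ (h.trans (le_succN κ n))

/-- a set of infinite cardinals in `(ℵ_ y, ℵ_ x)` has size at most `|x - y|`. -/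
theorem mk_le_card' {s : Set Cardinal.{u}} {x y : Ordinal.{u}}
    (hs : ∀ κ ∈ s, ℵ_ y < κ ∧ κ < ℵ_ x) :
    #s ≤ Cardinal.lift.{u+1} (x - y).card := by
  have h1 : s ⊆ (fun z => ℵ_ (y + z)) '' Iio (x - y) := by
    intro κ hκ
    obtain ⟨z, hz⟩ := Cardinal.mem_range_aleph_iff.2
      ((Cardinal.aleph0_le_aleph y).trans (hs κ hκ).1.le)
    have h1 := (hs κ hκ).1
    have h2 := (hs κ hκ).2
    rw [← hz, Cardinal.aleph_lt_aleph] at h1 h2
    refine ⟨z - y, ?_, ?_⟩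
    · show z - y < x - y
      rw [Ordinal.lt_sub, Ordinal.add_sub_cancel_of_le h1.le]
      exact h2
    · show ℵ_ (y + (z - y)) = κ
      rw [Ordinal.add_sub_cancel_of_le h1.le]; exact hz
  refine (Cardinal.mk_le_mk_of_subset h1).trans (Cardinal.mk_image_le.trans ?_)
  rw [Cardinal.mk_Iio_ordinal]

theorem card_le_aleph (y : Ordinal.{u}) : y.card ≤ ℵ_ y := by
  have := Ordinal.card_le_card (Ordinal.le_omega_self y)
  rwa [← Cardinal.ord_aleph, Cardinal.card_ord] at this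

/-- Shelah's bound: `|pcf(a)| ≤ κ^{+3}` for the interval `a` of regular cardinals in
`(ℵ_γ₀, ℵ_α)`, if `|α - γ₀| ≤ κ`, `κ^{+6} ≤ ℵ_γ₀`. -/
theorem pcf_le {α γ₀ : Ordinal.{u}} {κ : Cardinal.{u}} (h0 : ℵ₀ ≤ κ)
    (hκ : (α - γ₀).card ≤ κ) (hρ : succN κ 6 ≤ ℵ_ γ₀) (hγα : γ₀ < α) :
    #(pcfS (ival (ℵ_ γ₀) (ℵ_ α))) ≤ Cardinal.lift.{u+1} (succN κ 3) := by
  classical
  set ρ := ℵ_ γ₀ with hρdef
  have hρα : ρ < ℵ_ α := Cardinal.aleph_lt_aleph.2 hγα
  by_contra hcon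
  push Not at hcon
  have hρ0 : ℵ₀ ≤ ρ := (h0.trans (le_succN κ 6)).trans hρ
  have hκρ : κ ≤ ρ := (le_succN κ 6).trans hρ
  have h3reg : (succN κ 3).IsRegular := succN_isRegular h0 2
  have h4reg : (succN κ 4).IsRegular := succN_isRegular h0 3
  have h1reg : (succN κ 1).IsRegular := succN_isRegular h0 0
  have h1ω : ℵ₀ < succN κ 1 := lt_of_le_of_lt h0 (succN_lt κ 0)
  have h3ω : ℵ₀ < succN κ 3 := h1ω.trans_le (succN_mono κ (by norm_num))
  have h4lim : Order.IsSuccLimit (succN κ 4).ord := Cardinal.isSuccLimit_ord h4reg.1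
  have h3lim : Order.IsSuccLimit (succN κ 3).ord := Cardinal.isSuccLimit_ord h3reg.1
  have h3α : succN κ 3 < ℵ_ α := ((succN_mono κ (by norm_num : 3 ≤ 6)).trans hρ).trans_lt hρα
  set Υ := α + (succN κ 4).ord with hΥ
  have hΥlim : Order.IsSuccLimit Υ := Ordinal.isSuccLimit_add α h4lim
  have hΥcof : Υ.cof = succN κ 4 := by
    rw [hΥ, Ordinal.cof_add _ h4reg.ord_pos.ne', h4reg.cof_ord]
  have hκ3 : κ ≤ succN κ 3 := le_succN κ 3
  have h3inf : ℵ₀ ≤ succN κ 3 := h0.trans hκ3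
  have hcard4 : ∀ x < Υ, (x - γ₀).card ≤ succN κ 3 := by
    intro x hx
    rcases le_total x α with h | h
    · have h1 : x - γ₀ ≤ α - γ₀ := Ordinal.sub_le.2 (h.trans
        (Ordinal.add_sub_cancel_of_le hγα.le).ge)
      exact ((Ordinal.card_le_card h1).trans hκ).trans hκ3
    · have h1 : x - γ₀ ≤ (α - γ₀) + (x - α) := by
        rw [Ordinal.sub_le, ← add_assoc, Ordinal.add_sub_cancel_of_le hγα.le,
          Ordinal.add_sub_cancel_of_le h]
      have h2 : x - α < (succN κ 4).ord := (Ordinal.sub_lt_of_le h).2 hx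
      refine (Ordinal.card_le_card h1).trans ?_
      rw [Ordinal.card_add]
      exact Cardinal.add_le_of_le h3inf (hκ.trans hκ3) (card_lt_of_lt h2)
  have hcardα : ∀ x < Υ, x.card < ℵ_ α := by
    intro x hx
    have h1 : x ≤ γ₀ + (x - γ₀) := Ordinal.le_add_sub _ _
    refine lt_of_le_of_lt ((Ordinal.card_le_card h1).trans ?_) hρα
    rw [Ordinal.card_add]
    refine Cardinal.add_le_of_le (Cardinal.aleph0_le_aleph _) (card_le_aleph γ₀) ?_
    exact (hcard4 x hx).trans ((succN_mono κ (by norm_num : 3 ≤ 6)).trans hρ)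
  have hacard : #(ival ρ (ℵ_ α)) ≤ Cardinal.lift.{u+1} ρ := by
    refine (mk_le_card' (x := α) (y := γ₀) fun μ hμ => ⟨hμ.2.1, hμ.2.2⟩).trans
      (Cardinal.lift_le.2 ?_)
    exact hκ.trans hκρ
  -- Step 1
  have hS1 : ∀ ε, α ≤ ε → ε < Υ → ℵ_ (ε + 1) ∈ pcfS (ival ρ (ℵ_ α)) := by
    intro ε hαε hε
    by_contra hno
    refine absurd hcon (not_lt.2 ?_)
    refine (mk_le_card' (x := ε + 1) (y := γ₀) fun l hl =>
      ⟨lt_of_mem_pcfS (fun κ h => h.1) (fun κ h => h.2.1) hl, ?_⟩).trans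
      (Cardinal.lift_le.2 (hcard4 _ ?_))
    · by_contra hle
      push Not at hle
      refine hno (nohole rfl hacard hρ0 hl (isRegular_aleph_add_one _) ?_ hle)
      exact hρα.trans_le (Cardinal.aleph_le_aleph.2 (hαε.trans (Order.lt_add_one_iff.2 le_rfl).le))
    · have := hΥlim.succ_lt hε
      simpa only [Order.succ_eq_add_one] using this
  -- Step 2
  obtain ⟨Cg, hCg1, hCg2⟩ := club_guessing h1reg h1ω h3reg
    (show Order.succ (succN κ 1) < succN κ 3 from succN_lt κ 2)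
  -- Step 3
  let Ys : Ordinal.{u} → Ordinal.{u} → (Ordinal.{u} → Ordinal.{u}) → Set Cardinal.{u} :=
    fun β j ζ => {θ | ∃ x ∈ Cg β, x ≤ j ∧ θ = ℵ_ (ζ x + 1)}
  let ee : Ordinal.{u} → Ordinal.{u} → (Ordinal.{u} → Ordinal.{u}) → Ordinal.{u} :=
    fun β j ζ => sInf {ε | pcfS (Ys β j ζ) ⊆ Iic (ℵ_ (ε + 1))}
  obtain ⟨γ, hγ⟩ := exists_cont (fun j ζ => max (Order.succ α)
    (⨆ β : Iio (succN κ 3).ord, if ee β.1 j ζ < Υ then Order.succ (ee β.1 j ζ) else 0))
  have hα4 : α < Υ := lt_add_of_pos_right _ h4reg.ord_pos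
  have hγ4 : ∀ i < Order.succ (succN κ 3).ord, γ i < Υ := by
    refine cont_bound hγ hΥlim ?_ ?_
    · intro i _ ζ _
      refine max_lt (hΥlim.succ_lt hα4) (iSup_Iio_lt ?_ fun β => ?_)
      · rw [hΥcof, Cardinal.card_ord]; exact succN_lt κ 3
      · split_ifs with h
        · exact hΥlim.succ_lt h
        · exact lt_of_le_of_lt zero_le hα4
    · intro i hi
      have := Ordinal.card_le_card (Order.lt_succ_iff.1 hi)
      rw [Cardinal.card_ord] at this
      rw [hΥcof]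
      exact this.trans_lt (succN_lt κ 3)
  have hγα : ∀ i, 0 < i → α < γ i := fun i hi =>
    lt_of_lt_of_le (lt_of_lt_of_le (Order.lt_succ α) (le_max_left _ _)) (cont_step hγ hi)
  set η := γ (succN κ 3).ord with hη
  have hη4 : η < Υ := hγ4 _ (Order.lt_succ _)
  have hηcof : η.cof = succN κ 3 := by
    rw [hη, cont_cof hγ h3lim, h3reg.cof_ord]
  have hηlim : Order.IsSuccLimit η := by
    rw [← Ordinal.one_lt_cof_iff, hηcof]; exact one_lt_aleph0.trans h3ω
  have hαη : α < η := hγα _ h3reg.ord_pos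
  obtain ⟨C, hC, hC1, _, hC2⟩ := f5 hηlim (by rw [hηcof]; exact h3ω) hαη
    (hcardα η hη4)
  obtain ⟨β, hβ, hβcof, hβclub, hβC⟩ := hCg2 _ (club_preimage hγ
    (by rw [h3reg.cof_ord]; exact h3ω) hC)
  have hβlim : Order.IsSuccLimit β := by
    rw [← Ordinal.one_lt_cof_iff, hβcof]; exact one_lt_aleph0.trans h1ω
  have hβ0 : 0 < β := pos_iff_ne_zero.2 (by
    rintro rfl; rw [Ordinal.cof_zero] at hβcof; exact (aleph0_pos.trans h1ω).ne hβcof)
  have hγβη : γ β < η := cont_lt hγ hβ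
  have hγβcof : (γ β).cof = succN κ 1 := by rw [cont_cof hγ hβlim, hβcof]
  obtain ⟨E2, hE2, _, hE2', _⟩ := f5 (o₀ := α) (o := γ β)
    (by rw [← Ordinal.one_lt_cof_iff, hγβcof]; exact one_lt_aleph0.trans h1ω)
    (by rw [hγβcof]; exact h1ω) (hγα β hβ0) (hcardα _ (hγβη.trans hη4))
  have hQ : ClubIn (Cg β ∩ {i | γ i ∈ E2}) β := club_inter (by rw [hβcof]; exact h1ω) hβclub
    (club_preimage hγ (by rw [hβcof]; exact h1ω) hE2)
  -- index of the guessing set
  have hsm : Small.{u} (Cg β) := small_subset (hCg1 β)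
  let J := Shrink.{u} (Cg β)
  let w : J → Ordinal.{u} := fun j => ((equivShrink (Cg β)).symm j).1
  have hwinj : Function.Injective w := fun i j h => (equivShrink (Cg β)).symm.injective (Subtype.ext h)
  have hwmem : ∀ j, w j ∈ Cg β := fun j => ((equivShrink (Cg β)).symm j).2
  have hwβ : ∀ j, w j < β := fun j => hCg1 β (hwmem j)
  have hwsurj : ∀ x ∈ Cg β, ∃ j, w j = x := fun x hx => ⟨equivShrink (Cg β) ⟨x, hx⟩, by simp [w]⟩
  have hγC : ∀ j, γ (w j) ∈ C := fun j => hβC (hwmem j)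
  have hγinj : Function.Injective γ := by
    intro x y h
    rcases lt_trichotomy x y with h' | h' | h'
    · exact absurd h (cont_lt hγ h').ne
    · exact h'
    · exact absurd h (cont_lt hγ h').ne'
  have hJ : #J ≤ succN κ 3 := by
    have h1 : #J ≤ #β.ToType := Cardinal.mk_le_of_injective
      (f := fun j => Ordinal.ToType.mk ⟨w j, hwβ j⟩)
      (fun i j h => hwinj (Subtype.mk.inj (Ordinal.ToType.mk.injective h)))
    rw [Cardinal.mk_toType] at h1
    exact h1.trans (Cardinal.lt_ord.1 hβ).le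
  have hne : (tailF w β hβ0 ⊓ Filter.principal {j | γ (w j) ∈ E2}).NeBot := by
    rw [Filter.inf_principal_neBot_iff]
    rintro U hU
    obtain ⟨x, hx, hx'⟩ := mem_tailF.1 hU
    obtain ⟨y, ⟨h1, h2⟩, h3, h4⟩ := hQ.unb x hx
    obtain ⟨j, rfl⟩ := hwsurj y h1
    exact ⟨j, hx' j h3, h2⟩
  set E0 := Ultrafilter.of (tailF w β hβ0 ⊓ Filter.principal {j | γ (w j) ∈ E2}) with hE0
  have hE01 : (E0 : Filter J) ≤ _ := Ultrafilter.of_le
    (tailF w β hβ0 ⊓ Filter.principal {j | γ (w j) ∈ E2})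
  have hE0cof : HasCof E0 (fun j => (ℵ_ (γ (w j) + 1)).ord) (ℵ_ (γ β + 1)) := by
    refine hE2' J (fun j => γ (w j)) E0 (hγinj.comp hwinj)
      (fun j => ⟨(hC1 _ (hγC j)).1, cont_lt hγ (hwβ j)⟩) ?_ ?_
    · intro x hx
      obtain ⟨j0, hj0, hj0'⟩ := cont_limit hγ hβlim.isSuccPrelimit hx
      have : {j | j0 < w j} ∈ E0 := (hE01.trans inf_le_left) (mem_tailF.2 ⟨j0, hj0, fun _ h => h⟩)
      filter_upwards [this] with j hj
      exact hj0'.trans (cont_lt hγ hj)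
    · exact (hE01.trans inf_le_right) (Filter.mem_principal_self _)
  -- Step 4
  let R : Set Cardinal.{u} := ival' ρ (ℵ_ (η + 1))
  let ι := Shrink.{u} R
  let a' : ι → Cardinal.{u} := fun i => ((equivShrink R).symm i).1
  have ha'inj : Function.Injective a' := fun i j h => (equivShrink R).symm.injective (Subtype.ext h)
  have ha'mem : ∀ i, a' i ∈ R := fun i => ((equivShrink R).symm i).2
  have ha'surj : ∀ θ ∈ R, ∃ i, a' i = θ := fun θ hθ => ⟨equivShrink R ⟨θ, hθ⟩, by simp [a']⟩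
  have ha'reg : ∀ i, (a' i).IsRegular := fun i => (ha'mem i).1
  have ha'cof : ∀ i, ((a' i).ord).cof = a' i := fun i => (ha'reg i).cof_ord
  have hηlt : ∀ x : Ordinal.{u}, x < Υ → x + 1 < Υ := fun x hx => by
    simpa only [Order.succ_eq_add_one] using hΥlim.succ_lt hx
  have hι : #ι ≤ succN κ 3 := by
    have h1 : #R ≤ Cardinal.lift.{u+1} (η + 1 + 1 - γ₀).card := by
      refine mk_le_card' fun θ hθ => ⟨hθ.2.1, hθ.2.2.trans_lt ?_⟩
      exact Cardinal.aleph_lt_aleph.2 (Order.lt_add_one_iff.2 le_rfl)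
    have h2 : Cardinal.lift.{u+1} #ι ≤ #R := lift_mk_le_of_inj _ (equivShrink R).symm.injective
    exact Cardinal.lift_le.1 (h2.trans (h1.trans (Cardinal.lift_le.2
      (hcard4 _ (hηlt _ (hηlt _ hη4))))))
  obtain ⟨b, hb1, hb2, hb3⟩ := exists_transitive ha'reg h4reg
    (h3ω.trans (succN_lt κ 3)) (hι.trans_lt (succN_lt κ 3))
    (fun i => (show Order.succ (Order.succ (succN κ 4)) = succN κ 6 from rfl) ▸
      hρ.trans_lt (ha'mem i).2.1)
  have hρR : ∀ x, α ≤ x → x < η → ℵ_ (x + 1) ∈ R := by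
    intro x hx hxη
    refine ⟨isRegular_aleph_add_one _, ?_, ?_⟩
    · exact hρα.trans_le (Cardinal.aleph_le_aleph.2 (hx.trans (Order.lt_add_one_iff.2 le_rfl).le))
    · exact Cardinal.aleph_le_aleph.2 (add_le_add_left hxη.le 1)
  have hz : ∀ j, ∃ i, a' i = ℵ_ (γ (w j) + 1) := fun j =>
    ha'surj _ (hρR _ (hC1 _ (hγC j)).1.le (hC1 _ (hγC j)).2)
  choose z hz using hz
  -- Step 5
  have hD : ∀ j, ∃ D : Ultrafilter ι, HasCof D (fun i => (a' i).ord) (ℵ_ (γ (w j) + 1)) ∧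
      {i | a' i < ℵ_ α} ∈ D := by
    intro j
    obtain ⟨ι', c', D', g1, g2, g3⟩ := hS1 (γ (w j)) (hC1 _ (hγC j)).1.le
      ((hC1 _ (hγC j)).2.trans hη4)
    have hmem : ∀ i, c' i ∈ R := fun i => ⟨(g2 i).1, (g2 i).2.1, (g2 i).2.2.le.trans
      (Cardinal.aleph_le_aleph.2 (hαη.le.trans (Order.lt_add_one_iff.2 le_rfl).le))⟩
    let y : ι' → ι := fun i => equivShrink R ⟨c' i, hmem i⟩
    have hy : ∀ i, a' (y i) = c' i := fun i => by simp [y, a']
    have hyinj : Function.Injective y := fun i i' h => g1 (by rw [← hy, ← hy, h])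
    refine ⟨D'.map y, ?_, ?_⟩
    · rw [HasCof.map_injective hyinj]
      simp only [hy]
      exact g3
    · show ∀ᶠ i in D', a' (y i) < ℵ_ α
      refine Filter.Eventually.of_forall fun i => ?_
      rw [hy]
      exact (g2 i).2.2
  choose D hD1 hD2 using hD
  have hDs : HasCof (E0.bind D) (fun i => (a' i).ord) (ℵ_ (γ β + 1)) := by
    refine HasCof.bind (b := fun j => ℵ_ (γ (w j) + 1)) ?_ hD1 hE0cof
    intro i
    rw [ha'cof]
    refine (hJ.trans (succN_mono κ (by norm_num : 3 ≤ 6))).trans_lt ?_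
    exact hρ.trans_lt (ha'mem i).2.1
  -- Step 6
  have hA0 : #{i : ι // a' i < ℵ_ α} ≤ κ := by
    have h1 : #(ival ρ (ℵ_ α)) ≤ Cardinal.lift.{u+1} (α - γ₀).card :=
      mk_le_card' fun θ hθ => ⟨hθ.2.1, hθ.2.2⟩
    have h2 : Cardinal.lift.{u+1} #{i : ι // a' i < ℵ_ α} ≤ #(ival ρ (ℵ_ α)) :=
      lift_mk_le_of_inj (fun i : {i : ι // a' i < ℵ_ α} =>
        (⟨a' i.1, (ha'mem i.1).1, (ha'mem i.1).2.1, i.2⟩ : ival ρ (ℵ_ α)))
        (fun i j h => Subtype.ext (ha'inj (Subtype.mk.inj h)))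
    exact (Cardinal.lift_le.1 (h2.trans h1)).trans hκ
  let t : {i : ι // a' i < ℵ_ α} → Ordinal.{u} := fun i =>
    if h : ∃ j, i.1 ∈ b (z j) then w h.choose else 0
  have ht : ∀ i, t i < β := by
    intro i
    simp only [t]
    split_ifs with h
    · exact hwβ _
    · exact hβ0
  set T := ⨆ i, t i with hT
  have hTβ : T < β := by
    refine Ordinal.iSup_lt_of_lt_cof ?_ ht
    rw [hβcof]
    exact hA0.trans_lt (succN_lt κ 0)
  have hTt : ∀ i : ι, a' i < ℵ_ α → (∃ j, i ∈ b (z j)) → ∃ j, w j ≤ T ∧ i ∈ b (z j) := by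
    intro i hi hj
    refine ⟨hj.choose, ?_, hj.choose_spec⟩
    have h1 := Ordinal.le_iSup t ⟨i, hi⟩
    have h2 : t ⟨i, hi⟩ = w hj.choose := by
      simp only [t]
      rw [dif_pos hj]
    rw [← h2]; exact h1
  let Z : Set ι := {i | ∃ j, w j ≤ T ∧ i ∈ b (z j)}
  have hZ : Z ∈ E0.bind D := by
    have : ∀ j, Z ∈ D j := by
      intro j
      have h1 : b (z j) ∈ D j := hb1 (z j) (D j) (by rw [hz]; exact hD1 j)
      filter_upwards [h1, hD2 j] with i hi hi'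
      exact hTt i hi' ⟨j, hi⟩
    show ∀ᶠ j in E0, Z ∈ D j
    exact Filter.Eventually.of_forall this
  let Y : Set ι := {i | ∃ j, w j ≤ T ∧ z j = i}
  -- Step 7
  have hYs : pcfS (Ys β T γ) ⊆ Iic (ℵ_ (η + 1)) := by
    rintro θ ⟨ι', c', D', g1, g2, g3⟩
    have hx : ∀ i, ∃ x ∈ Cg β, c' i = ℵ_ (γ x + 1) := fun i => by
      obtain ⟨x, h1, _, h3⟩ := g2 i
      exact ⟨x, h1, h3⟩
    choose x hx1 hx2 using hx
    refine hC2 ι' (fun i => γ (x i)) D' ?_ (fun i => hβC (hx1 i)) θ ?_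
    · intro i i' h
      refine g1 ?_
      have h' : γ (x i) = γ (x i') := h
      rw [hx2, hx2, h']
    · simp only [hx2] at g3
      exact g3
  have hYs2 : ∀ θ ∈ pcfS (Ys β T γ), θ ≤ ℵ_ (γ β) := by
    have h1 : Ys β T (fun k => if k ≤ T then γ k else 0) = Ys β T γ := by
      ext θ
      constructor
      · rintro ⟨x, g1, g2, g3⟩
        refine ⟨x, g1, g2, ?_⟩
        rw [g3]; simp [g2]
      · rintro ⟨x, g1, g2, g3⟩
        refine ⟨x, g1, g2, ?_⟩
        rw [g3]; simp [g2]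
    have h2 : ee β T (fun k => if k ≤ T then γ k else 0) ≤ η := by
      refine csInf_le' ?_
      show pcfS (Ys β T (fun k => if k ≤ T then γ k else 0)) ⊆ Iic (ℵ_ (η + 1))
      rw [h1]; exact hYs
    have h3 : pcfS (Ys β T γ) ⊆ Iic (ℵ_ (ee β T (fun k => if k ≤ T then γ k else 0) + 1)) := by
      have h4 := csInf_mem (s := {ε | pcfS (Ys β T (fun k => if k ≤ T then γ k else 0)) ⊆
        Iic (ℵ_ (ε + 1))}) ⟨η, by
          show pcfS (Ys β T (fun k => if k ≤ T then γ k else 0)) ⊆ Iic (ℵ_ (η + 1))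
          rw [h1]; exact hYs⟩
      have h5 : pcfS (Ys β T (fun k => if k ≤ T then γ k else 0)) ⊆
        Iic (ℵ_ (ee β T (fun k => if k ≤ T then γ k else 0) + 1)) := h4
      rw [h1] at h5; exact h5
    have h4 := cont_step hγ (Order.lt_succ T)
    have h5 := (le_max_right _ _).trans h4
    have h6 := (Ordinal.le_iSup (fun β : Iio (succN κ 3).ord =>
      if ee β.1 T (fun k => if k ≤ T then γ k else 0) < Υ then
        Order.succ (ee β.1 T (fun k => if k ≤ T then γ k else 0)) else 0) ⟨β, hβ⟩).trans h5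
    simp only [if_pos (h2.trans_lt hη4)] at h6
    intro θ hθ
    refine le_trans (h3 hθ) (Cardinal.aleph_le_aleph.2 ?_)
    rw [← Order.succ_eq_add_one]
    exact h6.trans (cont_le hγ (Order.succ_le_of_lt hTβ))
  have hS7 : ∀ D' : Ultrafilter ι, Y ∈ D' →
      ∃ i : {i : ι // a' i < ℵ_ (γ β + 1)}, b i.1 ∈ D' := by
    intro D' hYD
    obtain ⟨θ, hθ⟩ := exists_hasCof D' (fun i => (a' i).ord)
      (Filter.Eventually.of_forall fun i => Cardinal.isSuccLimit_ord (ha'reg i).1)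
    have h1 : θ ∈ pcfS (Ys β T γ) := by
      refine pcfS_of_mem ha'inj hθ ?_
      refine Filter.mem_of_superset hYD ?_
      rintro i ⟨j, hj, rfl⟩
      exact ⟨w j, hwmem j, hj, hz j⟩
    have h2 := hYs2 θ h1
    have h3 : θ ∈ R := by
      refine ⟨hθ.isRegular, ?_, h2.trans (Cardinal.aleph_le_aleph.2
        (hγβη.le.trans (Order.lt_add_one_iff.2 le_rfl).le))⟩
      refine hθ.lt_of_cof (Filter.Eventually.of_forall fun i => ?_)
      rw [ha'cof]; exact (ha'mem i).2.1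
    obtain ⟨i, rfl⟩ := ha'surj θ h3
    exact ⟨⟨i, h2.trans_lt (Cardinal.aleph_lt_aleph.2 (Order.lt_add_one_iff.2 le_rfl))⟩,
      hb1 i D' hθ⟩
  obtain ⟨s, hs⟩ := uf_compact (fun i : {i : ι // a' i < ℵ_ (γ β + 1)} => b i.1) Y hS7
  have hZs : Z ⊆ ⋃ i ∈ (s : Set {i : ι // a' i < ℵ_ (γ β + 1)}), b i.1 := by
    rintro k ⟨j, hj, hk⟩
    have h1 := hs (show z j ∈ Y from ⟨j, hj, rfl⟩)
    simp only [mem_iUnion] at h1 ⊢
    obtain ⟨i, hi, hi'⟩ := h1
    exact ⟨i, hi, hb3 i.1 (z j) hi' hk⟩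
  have h1 := Filter.mem_of_superset hZ hZs
  obtain ⟨i, _, hi⟩ := (Ultrafilter.finite_biUnion_mem_iff s.finite_toSet).1 h1
  exact absurd ((hb2 i.1 _ _ hi hDs).trans_lt i.2) (lt_irrefl _)

end Helper23.Pcf
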