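import Pool.Agent.Helper23.Pcf.Guess

set_option autoImplicit false

open Cardinal Ordinal Set Filter

universe u v

namespace Helper23.Pcf

/-- `S` is stationary in `o`. -/
def StatIn (S : Set Ordinal.{u}) (o : Ordinal.{u}) : Prop :=
  ∀ C, ClubIn C o → ∃ x ∈ S, x ∈ C ∧ x < o

theorem StatIn.mono {S S' : Set Ordinal.{u}} {o : Ordinal.{u}} (h : StatIn S o) (hs : S ⊆ S') :
    StatIn S' o := fun C hC => by
  obtain ⟨x, h1, h2⟩ := h C hC
  exact ⟨x, hs h1, h2⟩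

theorem StatIn.inter_club {S C : Set Ordinal.{u}} {o : Ordinal.{u}} (ho : ℵ₀ < o.cof)
    (h : StatIn S o) (hC : ClubIn C o) : StatIn (S ∩ C) o := fun C' hC' => by
  obtain ⟨x, h1, h2, h3⟩ := h _ (club_inter ho hC hC')
  exact ⟨x, ⟨h1, h2.1⟩, h2.2, h3⟩

theorem club_Ioi {o y : Ordinal.{u}} (ho : Order.IsSuccLimit o) (hy : y < o) :
    ClubIn (Ioi y) o := by
  refine ⟨fun x hx => ⟨Order.succ (max x y), ?_, ?_, ?_⟩, ?_⟩
  · exact lt_of_le_of_lt (le_max_right x y) (Order.lt_succ (max x y))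
  · exact lt_of_le_of_lt (le_max_left x y) (Order.lt_succ (max x y))
  · exact ho.succ_lt (max_lt hx hy)
  · intro δ _ hδ0 hu
    obtain ⟨z, h1, _, h3⟩ := hu 0 hδ0
    exact lt_trans h1 h3

theorem StatIn.unb {S : Set Ordinal.{u}} {o : Ordinal.{u}} (ho : Order.IsSuccLimit o)
    (h : StatIn S o) : UnbIn S o := fun x hx => by
  obtain ⟨y, h1, h2, h3⟩ := h _ (club_Ioi ho hx)
  exact ⟨y, h1, h2, h3⟩

theorem StatIn.union {S S' : Set Ordinal.{u}} {o : Ordinal.{u}} (ho : ℵ₀ < o.cof)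
    (h : StatIn (S ∪ S') o) : StatIn S o ∨ StatIn S' o := by
  by_contra hcon
  push Not at hcon
  obtain ⟨h1, h2⟩ := hcon
  simp only [StatIn, not_forall] at h1 h2
  obtain ⟨C, hC, hC'⟩ := h1
  obtain ⟨D, hD, hD'⟩ := h2
  obtain ⟨x, hx, hxC, hxo⟩ := h _ (club_inter ho hC hD)
  rcases hx with hx | hx
  · exact hC' ⟨x, hx, hxC.1, hxo⟩
  · exact hD' ⟨x, hx, hxC.2, hxo⟩

/-- limit ordinals form a club -/
theorem club_limits {o : Ordinal.{u}} (ho : ℵ₀ < o.cof) : ClubIn {i | Order.IsSuccLimit i} o := by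
  have hlim : Order.IsSuccLimit o := Ordinal.one_lt_cof_iff.1 (one_lt_aleph0.trans ho)
  refine ⟨?_, fun δ _ h0 hu => hu.isSuccLimit h0⟩
  intro x hx
  obtain ⟨z, hz, hxz, hz'⟩ := exists_iter ho Order.succ
    (fun x hx => ⟨Order.lt_succ x, hlim.succ_lt hx⟩) x hx
  refine ⟨z, ?_, hxz, hz⟩
  refine UnbIn.isSuccLimit (C := Set.univ) (fun w hw => ?_) (lt_of_le_of_lt zero_le hxz)
  obtain ⟨y, h1, h2, _⟩ := hz' w hw
  exact ⟨y, trivial, h2, h1⟩

/-- diagonal intersections -/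
theorem club_diag {s : Ordinal.{u}} (hs : ℵ₀ < s.cof) (hreg : ∀ x < s, x.card < s.cof)
    (D : Ordinal.{u} → Set Ordinal.{u}) (hD : ∀ j < s, ClubIn (D j) s) :
    ClubIn {i | ∀ j < i, i ∈ D j} s := by
  classical
  have hlim : Order.IsSuccLimit s := Ordinal.one_lt_cof_iff.1 (one_lt_aleph0.trans hs)
  refine ⟨?_, ?_⟩
  · have hy : ∀ x, ∃ y, x < s → x < y ∧ y < s ∧ ∀ j ≤ x, y ∈ D j := by
      intro x
      by_cases hx : x < s
      · let I := (Order.succ x).ToType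
        have hI : #I < s.cof := by
          rw [Cardinal.mk_toType]; exact hreg _ (hlim.succ_lt hx)
        have h1 : ClubIn (⋂ k : I, D (ToType.mk.symm k).1) s :=
          club_iInter hs hI _ fun k => hD _
            (lt_of_lt_of_le (ToType.mk.symm k).2 (Order.succ_le_of_lt hx))
        obtain ⟨y, h2, h3, h4⟩ := h1.unb x hx
        refine ⟨y, fun _ => ⟨h3, h4, fun j hj => ?_⟩⟩
        have h5 := mem_iInter.1 h2 (ToType.mk ⟨j, Order.lt_succ_of_le hj⟩)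
        simpa using h5
      · exact ⟨0, fun h => absurd h hx⟩
    choose y hy using hy
    intro x hx
    obtain ⟨z, hz, hxz, hz'⟩ := exists_iter hs y (fun x hx => ⟨(hy x hx).1, (hy x hx).2.1⟩) x hx
    refine ⟨z, ?_, hxz, hz⟩
    intro j hj
    refine (hD j (hj.trans hz)).cl z hz (lt_of_le_of_lt zero_le hj) ?_
    intro w hw
    obtain ⟨v, h1, h2, h3⟩ := hz' (max w j) (max_lt hw hj)
    obtain ⟨h4, h5, h6⟩ := hy v (h1.trans hz)
    exact ⟨y v, h6 j ((le_max_right _ _).trans h2.le), ((le_max_left _ _).trans_lt h2).trans h4, h3⟩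
  · intro δ hδ hδ0 hu j hj
    refine (hD j (hj.trans hδ)).cl δ hδ hδ0 ?_
    intro w hw
    obtain ⟨v, h1, h2, h3⟩ := hu (max w j) (max_lt hw hj)
    exact ⟨v, h1 j ((le_max_right _ _).trans_lt h2), (le_max_left _ _).trans_lt h2, h3⟩

theorem club_image' {Φ : Ordinal.{u} → (Ordinal.{u} → Ordinal.{u}) → Ordinal.{u}}
    {ξ : Ordinal.{u} → Ordinal.{u}} (hξ : IsCont Φ ξ)
    {o : Ordinal.{u}} (ho : Order.IsSuccLimit o) {D : Set Ordinal.{u}} (hD : ClubIn D o) :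
    ClubIn {x | ∃ i < o, i ∈ D ∧ ξ i = x} (ξ o) := by
  refine ⟨?_, ?_⟩
  · intro x hx
    obtain ⟨j, hj, hxj⟩ := cont_limit hξ ho.isSuccPrelimit hx
    obtain ⟨i, h1, h2, h3⟩ := hD.unb j hj
    exact ⟨ξ i, ⟨i, h3, h1, rfl⟩, hxj.trans (cont_lt hξ h2), cont_lt hξ h3⟩
  · intro δ hδ hδ0 hu
    obtain ⟨i, hi, rfl⟩ := (club_image hξ ho).cl δ hδ hδ0
      (hu.mono (by rintro x ⟨i, h1, _, h3⟩; exact ⟨i, h1, h3⟩))
    refine ⟨i, hi, ?_, rfl⟩
    have hinv : ∀ {a b}, ξ a < ξ b → a < b := by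
      intro a b hab
      by_contra hcon
      exact absurd hab (not_lt.2 (cont_le hξ (not_lt.1 hcon)))
    have hi0 : 0 < i := by
      obtain ⟨y, ⟨k, _, _, rfl⟩, _, h⟩ := hu 0 hδ0
      exact lt_of_le_of_lt zero_le (hinv h)
    refine hD.cl i hi hi0 ?_
    intro w hw
    obtain ⟨y, ⟨k, _, hk, rfl⟩, h1, h2⟩ := hu (ξ w) (cont_lt hξ hw)
    exact ⟨k, hk, hinv h1, hinv h2⟩

theorem exists_cont_cofinal {δ : Ordinal.{u}} (hδ : Order.IsSuccLimit δ) :
    ∃ Φ ξ, IsCont Φ ξ ∧ ξ δ.cof.ord = δ := by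
  classical
  obtain ⟨e, he⟩ := Ordinal.exists_isFundamentalSeq (o := δ) rfl
  obtain ⟨ξ, hξ⟩ := exists_cont (fun j _ => if h : j < δ.cof.ord then (e ⟨j, h⟩).1 else 0)
  have hinf : ℵ₀ ≤ δ.cof := Ordinal.aleph0_le_cof_iff.2 (Ordinal.one_lt_cof_iff.2 hδ)
  have hlim : Order.IsSuccLimit δ.cof.ord := Cardinal.isSuccLimit_ord hinf
  have hbound : ∀ i < δ.cof.ord, ξ i < δ := by
    refine cont_bound hξ hδ ?_ ?_
    · intro i hi ζ _
      rw [dif_pos hi]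
      exact (e ⟨i, hi⟩).2
    · intro i hi
      exact Cardinal.lt_ord.1 hi
  refine ⟨_, ξ, hξ, ?_⟩
  apply le_antisymm
  · apply le_of_forall_lt
    intro x hx
    obtain ⟨j, hj, hxj⟩ := cont_limit hξ hlim.isSuccPrelimit hx
    exact hxj.trans (hbound j hj)
  · apply le_of_forall_lt
    intro x hx
    obtain ⟨_, ⟨j, rfl⟩, hj⟩ := he.isCofinal_range ⟨x, hx⟩
    have h1 : (e j).1 ≤ ξ (Order.succ j.1) := by
      refine le_trans ?_ (cont_step hξ (Order.lt_succ j.1))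
      rw [dif_pos (show j.1 < δ.cof.ord from j.2)]
    exact lt_of_le_of_lt (le_trans hj h1) (cont_lt hξ (hlim.succ_lt j.2))

/-- Fodor's lemma for ordinals of uncountable cofinality. -/
theorem fodor {o : Ordinal.{u}} (ho : ℵ₀ < o.cof) {S : Set Ordinal.{u}} (hS : StatIn S o)
    (g : Ordinal.{u} → Ordinal.{u}) (hg : ∀ i ∈ S, i < o → g i < i) :
    ∃ γ < o, StatIn {i | i ∈ S ∧ g i ≤ γ} o := by
  classical
  have hlim : Order.IsSuccLimit o := Ordinal.one_lt_cof_iff.1 (one_lt_aleph0.trans ho)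
  obtain ⟨Φ, ξ, hξ, hξo⟩ := exists_cont_cofinal hlim
  set s := o.cof.ord with hs
  have hcofreg : o.cof.IsRegular := Cardinal.isRegular_cof hlim
  have hscof : s.cof = o.cof := hcofreg.cof_ord
  have hs0 : ℵ₀ < s.cof := by rw [hscof]; exact ho
  have hslim : Order.IsSuccLimit s := Cardinal.isSuccLimit_ord ho.le
  by_contra hcon
  push Not at hcon
  have hC : ∀ γ, ∃ C, γ < o → ClubIn C o ∧ ∀ x ∈ S, x ∈ C → x < o → γ < g x := by
    intro γ
    by_cases hγ : γ < o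
    · have := hcon γ hγ
      simp only [StatIn, not_forall] at this
      obtain ⟨C, hC, hC'⟩ := this
      refine ⟨C, fun _ => ⟨hC, fun x hx hxC hxo => ?_⟩⟩
      by_contra hle
      exact hC' ⟨x, ⟨hx, not_lt.1 hle⟩, hxC, hxo⟩
    · exact ⟨∅, fun h => absurd h hγ⟩
  choose C hC using hC
  have hξlt : ∀ j < s, ξ j < o := fun j hj => by rw [← hξo]; exact cont_lt hξ hj
  have hD : ClubIn {i | ∀ j < i, i ∈ {i | ξ i ∈ C (ξ j)}} s := by
    refine club_diag hs0 (fun x hx => ?_) _ fun j hj => ?_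
    · rw [hscof]; exact Cardinal.lt_ord.1 hx
    · refine club_preimage hξ hs0 ?_
      rw [hξo]
      exact (hC _ (hξlt j hj)).1
  have hD' := club_image' hξ hslim (club_inter hs0 hD (club_limits hs0))
  rw [hξo] at hD'
  obtain ⟨x, hx, ⟨i, hi, ⟨h1, h2⟩, rfl⟩, hxo⟩ := hS _ hD'
  obtain ⟨j, hj, hgj⟩ := cont_limit hξ (show Order.IsSuccLimit i from h2).isSuccPrelimit
    (hg _ hx hxo)
  exact absurd ((hC _ (hξlt j (hj.trans hi))).2 _ hx (h1 j hj) hxo) (not_lt.2 hgj.le)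

/-- clubs of `o` as club sets of the type `Iio o` -/
theorem ClubIn.isClub {C : Set Ordinal.{u}} {o : Ordinal.{u}} (h : ClubIn C o) :
    IsClub {x : Iio o | x.1 ∈ C} := by
  refine ⟨?_, ?_⟩
  · intro d hd hne _ a ha
    by_cases had : a ∈ d
    · exact hd had
    · refine h.cl a.1 a.2 ?_ ?_
      · obtain ⟨y, hy⟩ := hne
        have h1 : y ≤ a := ha.1 hy
        have h2 : y ≠ a := fun h => had (h ▸ hy)
        exact lt_of_le_of_lt zero_le (lt_of_le_of_ne h1 h2 : y < a)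
      · intro x hx
        have h1 : ¬ a ≤ ⟨x, hx.trans a.2⟩ := not_le.2 hx
        obtain ⟨y, hy, hxy⟩ : ∃ y ∈ d, (⟨x, hx.trans a.2⟩ : Iio o) < y := by
          by_contra hcon
          push Not at hcon
          exact h1 (ha.2 fun y hy => hcon y hy)
        have h2 : y ≤ a := ha.1 hy
        have h3 : y ≠ a := fun h => had (h ▸ hy)
        exact ⟨y.1, hd hy, hxy, (lt_of_le_of_ne h2 h3 : y < a)⟩
  · intro x
    obtain ⟨y, h1, h2, h3⟩ := h.unb x.1 x.2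
    exact ⟨⟨y, h3⟩, h1, h2.le⟩

theorem statIn_of_isStationary {o : Ordinal.{u}} {S : Set (Iio o)} (h : IsStationary S) :
    StatIn {x | ∃ hx : x < o, (⟨x, hx⟩ : Iio o) ∈ S} o := by
  intro C hC
  obtain ⟨x, h1, h2⟩ := h hC.isClub
  exact ⟨x.1, ⟨x.2, h1⟩, h2, x.2⟩

end Helper23.Pcf
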