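import Pool.Agent.Helper23.Pcf.Localize
import Pool.Agent.Helper23.Pcf.Fodor

set_option autoImplicit false

open Cardinal Ordinal Set Filter

universe u v

namespace Helper23.Pcf

/-- `F` codes `lam` on `S` -/
def Codes (F : Ordinal.{u} → Set Cardinal.{u}) (S : Set Ordinal.{u}) (o : Ordinal.{u})
    (lam : Cardinal.{u}) : Prop :=
  ∀ J ⊆ S, UnbIn J o → lam ∈ pcfS (⋃ i ∈ J, F i)

/-- the cardinals coded by finite subsets of the sets `E i` -/
def Zset (S : Set Ordinal.{u}) (o : Ordinal.{u}) (E : Ordinal.{u} → Set Cardinal.{u}) :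
    Set Cardinal.{u} :=
  {lam | ∃ F : Ordinal.{u} → Set Cardinal.{u}, (∀ i ∈ S, (F i).Finite ∧ F i ⊆ E i) ∧
    Codes F S o lam}

theorem set_mapping {X : Type v} {μ : Cardinal.{v}} (hμ : ℵ₀ ≤ μ) (Z : Set X) (K : X → Set X)
    (hK : ∀ z ∈ Z, #(K z) ≤ μ) (h : ∀ z ∈ Z, ∀ z' ∈ Z, z ≠ z' → z ∈ K z' ∨ z' ∈ K z) :
    #Z ≤ Order.succ μ := by
  by_contra hcon
  push Not at hcon
  obtain ⟨X', hX', hX'c⟩ := Cardinal.le_mk_iff_exists_subset.1 hcon.le
  have hμ' : ℵ₀ ≤ Order.succ μ := hμ.trans (Order.le_succ μ)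
  have hY : #(X' ∪ ⋃ x ∈ X', K x : Set X) ≤ Order.succ μ := by
    refine (Cardinal.mk_union_le _ _).trans (Cardinal.add_le_of_le hμ' hX'c.le ?_)
    refine (Cardinal.mk_biUnion_le _ _).trans ?_
    rw [hX'c]
    refine Cardinal.mul_le_of_le hμ' le_rfl ?_
    refine ciSup_le' fun x => (hK x.1 (hX' x.2)).trans (Order.le_succ μ)
  obtain ⟨z, hz, hz'⟩ : ∃ z ∈ Z, z ∉ (X' ∪ ⋃ x ∈ X', K x : Set X) := by
    by_contra hno
    push Not at hno
    exact absurd (hcon.trans_le ((Cardinal.mk_le_mk_of_subset hno).trans hY)) (lt_irrefl _)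
  have hsub : X' ⊆ K z := by
    intro x hx
    have hne : z ≠ x := fun h => hz' (Or.inl (h ▸ hx))
    rcases h z hz x (hX' hx) hne with h1 | h1
    · exact absurd (Or.inr (mem_iUnion₂.2 ⟨x, hx, h1⟩)) hz'
    · exact h1
  have := (Cardinal.mk_le_mk_of_subset hsub).trans (hK z hz)
  rw [hX'c] at this
  exact absurd ((Order.lt_succ μ).trans_le this) (lt_irrefl _)

theorem finite_bound {i : Ordinal.{u}} (hi : Order.IsSuccLimit i) {T : Set Ordinal.{u}}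
    (hT : T.Finite) : (∀ x ∈ T, x < i) → ∃ y < i, ∀ x ∈ T, x < y := by
  refine Set.Finite.induction_on T hT ?_ ?_
  · intro _
    exact ⟨0, hi.bot_lt, fun x hx => absurd hx (Set.notMem_empty x)⟩
  · intro a s _ _ ih h
    obtain ⟨y, hy, hy'⟩ := ih fun x hx => h x (Set.mem_insert_of_mem _ hx)
    refine ⟨max y (Order.succ a), max_lt hy (hi.succ_lt (h a (Set.mem_insert _ _))), ?_⟩
    rintro x (rfl | hx)
    · exact (Order.lt_succ x).trans_le (le_max_right _ _)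
    · exact (hy' x hx).trans_le (le_max_left _ _)

/-- indexing a set of cardinals by ordinals -/
theorem exists_idx {E : Set Cardinal.{u}} {μ : Cardinal.{u}} (h : #E ≤ Cardinal.lift.{u+1} μ) :
    ∃ idx : Cardinal.{u} → Ordinal.{u}, Set.InjOn idx E ∧ ∀ θ ∈ E, idx θ < μ.ord := by
  classical
  have h1 : #E ≤ #(Set.Iio μ.ord) := by
    rw [Cardinal.mk_Iio_ordinal, Cardinal.card_ord]; exact h
  obtain ⟨f⟩ := h1
  refine ⟨fun θ => if h : θ ∈ E then (f ⟨θ, h⟩).1 else 0, ?_, ?_⟩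
  · intro x hx y hy hxy
    simp only [dif_pos hx, dif_pos hy] at hxy
    exact Subtype.mk.inj (f.injective (Subtype.ext hxy))
  · intro θ hθ
    simp only [dif_pos hθ]
    exact (f ⟨θ, hθ⟩).2

theorem mk_idx_lt {E : Set Cardinal.{u}} {idx : Cardinal.{u} → Ordinal.{u}}
    (hidx : Set.InjOn idx E) (y : Ordinal.{u}) :
    #{θ | θ ∈ E ∧ idx θ < y} ≤ Cardinal.lift.{u+1} y.card := by
  rw [← Cardinal.mk_Iio_ordinal]
  refine Cardinal.mk_le_of_injective (f := fun θ : {θ | θ ∈ E ∧ idx θ < y} =>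
    (⟨idx θ.1, θ.2.2⟩ : Set.Iio y)) ?_
  intro a b h
  exact Subtype.ext (hidx a.2.1 b.2.1 (Subtype.mk.inj h))

/-- The case `n = 0`. -/
theorem gh_zero {κ : Cardinal.{u}} (hσ : ℵ₀ < κ.ord.cof) (hcof : κ.ord.cof < κ)
    {R : Set Ordinal.{u}} (hR : UnbIn R κ.ord)
    (hRc : #R ≤ Cardinal.lift.{u+1} κ.ord.cof) (hRs : R ⊆ Iio κ.ord)
    {A : Set Cardinal.{u}} (hA : ∀ P ⊆ A, #P < Cardinal.lift.{u+1} κ →
      #(pcfS P) ≤ Cardinal.lift.{u+1} κ)
    {S : Set Ordinal.{u}} (hSR : S ⊆ R) (hSl : ∀ i ∈ S, Order.IsSuccLimit i)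
    (hS : StatIn S κ.ord) {E : Ordinal.{u} → Set Cardinal.{u}}
    (hE : ∀ i ∈ S, E i ⊆ A ∧ #(E i) ≤ Cardinal.lift.{u+1} i.card) :
    #(Zset S κ.ord E) ≤ Cardinal.lift.{u+1} κ := by
  classical
  have hκ0 : ℵ₀ ≤ κ := (hσ.trans hcof).le
  have hidx : ∀ i, ∃ idx : Cardinal.{u} → Ordinal.{u}, i ∈ S →
      Set.InjOn idx (E i) ∧ ∀ θ ∈ E i, idx θ < i.card.ord := by
    intro i
    by_cases hi : i ∈ S
    · obtain ⟨idx, h1, h2⟩ := exists_idx (hE i hi).2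
      exact ⟨idx, fun _ => ⟨h1, h2⟩⟩
    · exact ⟨fun _ => 0, fun h => absurd h hi⟩
  choose idx hidx using hidx
  let P : Ordinal.{u} → Set Cardinal.{u} := fun γ => ⋃ i ∈ S, {θ | θ ∈ E i ∧ idx i θ < γ}
  have hPA : ∀ γ, P γ ⊆ A := by
    intro γ θ hθ
    obtain ⟨i, hi, hθ'⟩ := mem_iUnion₂.1 hθ
    exact (hE i hi).1 hθ'.1
  have hPc : ∀ γ < κ.ord, #(P γ) < Cardinal.lift.{u+1} κ := by
    intro γ hγ
    have hγ' : γ.card < κ := Cardinal.lt_ord.1 hγ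
    refine lt_of_le_of_lt (Cardinal.mk_biUnion_le _ _) ?_
    refine lt_of_le_of_lt (mul_le_mul' ((Cardinal.mk_le_mk_of_subset hSR).trans hRc)
      (ciSup_le' (a := Cardinal.lift.{u+1} γ.card) fun i => mk_idx_lt (hidx i.1 i.2).1 γ)) ?_
    rw [← Cardinal.lift_mul, Cardinal.lift_lt]
    exact Cardinal.mul_lt_of_lt hκ0 hcof hγ'
  have hsub : Zset S κ.ord E ⊆ ⋃ γ ∈ R, pcfS (P γ) := by
    rintro lam ⟨F, hF, hcode⟩
    have hg : ∀ i, ∃ y, i ∈ S → y < i ∧ ∀ θ ∈ F i, idx i θ < y := by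
      intro i
      by_cases hi : i ∈ S
      · obtain ⟨y, h1, h2⟩ := finite_bound (hSl i hi) ((hF i hi).1.image (idx i)) (by
          rintro _ ⟨θ, hθ, rfl⟩
          exact ((hidx i hi).2 θ ((hF i hi).2 hθ)).trans_le (Cardinal.ord_card_le i))
        exact ⟨y, fun _ => ⟨h1, fun θ hθ => h2 _ ⟨θ, hθ, rfl⟩⟩⟩
      · exact ⟨0, fun h => absurd h hi⟩
    choose g hg using hg
    obtain ⟨γ, hγ, hst⟩ := fodor hσ hS g fun i hi _ => (hg i hi).1
    have hlim : Order.IsSuccLimit κ.ord := Cardinal.isSuccLimit_ord hκ0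
    obtain ⟨γ', h1, h2, h3⟩ := hR γ hγ
    refine mem_iUnion₂.2 ⟨γ', h1, ?_⟩
    refine pcfS_mono ?_ (hcode _ (fun i hi => hi.1) (hst.unb hlim))
    intro θ hθ
    obtain ⟨i, ⟨hi, hi'⟩, hθ'⟩ := mem_iUnion₂.1 hθ
    refine mem_iUnion₂.2 ⟨i, hi, (hF i hi).2 hθ', ?_⟩
    exact ((hg i hi).2 θ hθ').trans (hi'.trans_lt h2)
  refine (Cardinal.mk_le_mk_of_subset hsub).trans ?_
  refine (Cardinal.mk_biUnion_le (fun γ => pcfS (P γ)) R).trans ?_
  refine Cardinal.mul_le_of_le (Cardinal.aleph0_le_lift.2 hκ0)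
    (hRc.trans (Cardinal.lift_le.2 hcof.le)) (ciSup_le' fun γ => ?_)
  exact hA _ (hPA _) (hPc _ (hRs γ.2))

theorem Zset_mono {S J : Set Ordinal.{u}} {o : Ordinal.{u}} {E E' : Ordinal.{u} → Set Cardinal.{u}}
    {lam : Cardinal.{u}} {F : Ordinal.{u} → Set Cardinal.{u}} (hJ : J ⊆ S)
    (hF : ∀ i ∈ S, (F i).Finite ∧ F i ⊆ E i) (hc : Codes F S o lam) (hFE : ∀ i ∈ J, F i ⊆ E' i) :
    lam ∈ Zset J o E' :=
  ⟨F, fun i hi => ⟨(hF i (hJ hi)).1, hFE i hi⟩, fun J' hJ' hu => hc J' (hJ'.trans hJ) hu⟩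

theorem succN_add_le (κ : Cardinal.{u}) (n : ℕ) : succN κ (n + 1) = Order.succ (succN κ n) := rfl

/-- The general case. -/
theorem gh_main {κ : Cardinal.{u}} (hσ : ℵ₀ < κ.ord.cof) (hcof : 2 ^ κ.ord.cof ≤ κ)
    {R : Set Ordinal.{u}} (hR : UnbIn R κ.ord)
    (hRc : #R ≤ Cardinal.lift.{u+1} κ.ord.cof) (hRs : R ⊆ Iio κ.ord)
    {A : Set Cardinal.{u}} (hA : ∀ P ⊆ A, #P < Cardinal.lift.{u+1} κ →
      #(pcfS P) ≤ Cardinal.lift.{u+1} κ) (n : ℕ) :
    ∀ S ⊆ R, (∀ i ∈ S, Order.IsSuccLimit i) → StatIn S κ.ord →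
    ∀ E : Ordinal.{u} → Set Cardinal.{u},
    (∀ i ∈ S, E i ⊆ A ∧ #(E i) ≤ Cardinal.lift.{u+1} (succN i.card n)) →
    #(Zset S κ.ord E) ≤ Cardinal.lift.{u+1} (succN κ n) := by
  classical
  have hcof' : κ.ord.cof < κ := (Cardinal.cantor _).trans_le hcof
  have hκ0 : ℵ₀ ≤ κ := (hσ.trans hcof').le
  induction n with
  | zero =>
    intro S hSR hSl hS E hE
    exact gh_zero hσ hcof' hR hRc hRs hA hSR hSl hS hE
  | succ n ih =>
    intro S hSR hSl hS E hE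
    have hidx : ∀ i, ∃ idx : Cardinal.{u} → Ordinal.{u}, i ∈ S →
        Set.InjOn idx (E i) ∧ ∀ θ ∈ E i, idx θ < (succN i.card (n+1)).ord := by
      intro i
      by_cases hi : i ∈ S
      · obtain ⟨idx, h1, h2⟩ := exists_idx (hE i hi).2
        exact ⟨idx, fun _ => ⟨h1, h2⟩⟩
      · exact ⟨fun _ => 0, fun h => absurd h hi⟩
    choose idx hidx using hidx
    have hF : ∀ lam, ∃ F : Ordinal.{u} → Set Cardinal.{u}, lam ∈ Zset S κ.ord E →
        (∀ i ∈ S, (F i).Finite ∧ F i ⊆ E i) ∧ Codes F S κ.ord lam := by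
      intro lam
      by_cases h : lam ∈ Zset S κ.ord E
      · obtain ⟨F, hF⟩ := h
        exact ⟨F, fun _ => hF⟩
      · exact ⟨fun _ => ∅, fun h' => absurd h' h⟩
    choose F hF using hF
    have hy : ∀ lam i, ∃ y, lam ∈ Zset S κ.ord E → i ∈ S → y < (succN i.card (n+1)).ord ∧
        ∀ θ ∈ F lam i, idx i θ < y := by
      intro lam i
      by_cases h : lam ∈ Zset S κ.ord E ∧ i ∈ S
      · have hi0 : ℵ₀ ≤ i.card := by
          rw [Ordinal.aleph0_le_card]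
          exact Ordinal.omega0_le_of_isSuccLimit (hSl i h.2)
        have hl : Order.IsSuccLimit (succN i.card (n+1)).ord :=
          Cardinal.isSuccLimit_ord (succN_isRegular hi0 n).1
        obtain ⟨y, h1, h2⟩ := finite_bound hl (((hF lam h.1).1 i h.2).1.image (idx i)) (by
          rintro _ ⟨θ, hθ, rfl⟩
          exact (hidx i h.2).2 θ (((hF lam h.1).1 i h.2).2 hθ))
        exact ⟨y, fun _ _ => ⟨h1, fun θ hθ => h2 _ ⟨θ, hθ, rfl⟩⟩⟩
      · exact ⟨0, fun h1 h2 => absurd ⟨h1, h2⟩ h⟩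
    choose y hy using hy
    let E' : Cardinal.{u} → Ordinal.{u} → Set Cardinal.{u} := fun lam i =>
      {θ | θ ∈ E i ∧ idx i θ < y lam i}
    let K : Cardinal.{u} → Set Cardinal.{u} := fun lam =>
      ⋃ J ∈ 𝒫 R, if J ⊆ S ∧ StatIn J κ.ord then Zset J κ.ord (E' lam) else ∅
    have hμ0 : ℵ₀ ≤ succN κ n := hκ0.trans (le_succN κ n)
    rw [succN_succ, Cardinal.lift_succ]
    refine set_mapping (Cardinal.aleph0_le_lift.2 hμ0) _ K ?_ ?_
    · intro lam hlam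
      refine (Cardinal.mk_biUnion_le _ _).trans ?_
      refine Cardinal.mul_le_of_le (Cardinal.aleph0_le_lift.2 hμ0) ?_ (ciSup_le' fun J => ?_)
      · rw [Cardinal.mk_powerset]
        refine (Cardinal.power_le_power_left two_ne_zero hRc).trans ?_
        rw [← Cardinal.lift_two_power, Cardinal.lift_le]
        exact hcof.trans (le_succN κ n)
      · split_ifs with h
        · refine ih _ (h.1.trans hSR) (fun i hi => hSl i (h.1 hi)) h.2 _ fun i hi => ?_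
          refine ⟨fun θ hθ => (hE i (h.1 hi)).1 hθ.1, ?_⟩
          refine (mk_idx_lt (hidx i (h.1 hi)).1 _).trans (Cardinal.lift_le.2 ?_)
          have := (hy lam i hlam (h.1 hi)).1
          rw [Cardinal.lt_ord, succN_succ, Order.lt_succ_iff] at this
          exact this
        · simp
    · intro lam hlam lam' hlam' _
      have key : ∀ lam lam', lam ∈ Zset S κ.ord E → lam' ∈ Zset S κ.ord E →
          StatIn {i | i ∈ S ∧ y lam i ≤ y lam' i} κ.ord → lam ∈ K lam' := by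
        intro lam lam' hlam hlam' hst
        refine mem_iUnion₂.2 ⟨{i | i ∈ S ∧ y lam i ≤ y lam' i}, fun i hi => hSR hi.1, ?_⟩
        rw [if_pos ⟨fun i hi => hi.1, hst⟩]
        refine Zset_mono (fun i hi => hi.1) (hF lam hlam).1 (hF lam hlam).2 ?_
        intro i hi θ hθ
        exact ⟨((hF lam hlam).1 i hi.1).2 hθ, ((hy lam i hlam hi.1).2 θ hθ).trans_le hi.2⟩
      have hun : StatIn ({i | i ∈ S ∧ y lam i ≤ y lam' i} ∪ {i | i ∈ S ∧ y lam' i ≤ y lam i})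
          κ.ord := by
        refine hS.mono fun i hi => ?_
        rcases le_total (y lam i) (y lam' i) with h | h
        · exact Or.inl ⟨hi, h⟩
        · exact Or.inr ⟨hi, h⟩
      rcases StatIn.union hσ hun with h | h
      · exact Or.inl (key _ _ hlam hlam' h)
      · exact Or.inr (key _ _ hlam' hlam h)

end Helper23.Pcf
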