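import Pool.Agent.Helper23.Pcf.GH

set_option autoImplicit false

open Cardinal Ordinal Set Filter

universe u v

namespace Helper23.Pcf

theorem bound_or_contain {γ x : Ordinal.{u}} (ξ : Ordinal.{u})
    (hk : #(ival (ℵ_ γ) (ℵ_ x)) ≤ Cardinal.lift.{u+1} (ℵ_ γ)) :
    (∀ l ∈ pcfS (ival (ℵ_ γ) (ℵ_ x)), l < ℵ_ ξ) ∨
      ival (ℵ_ γ) (ℵ_ ξ) ⊆ pcfS (ival (ℵ_ γ) (ℵ_ x)) := by
  by_cases h : ∀ l ∈ pcfS (ival (ℵ_ γ) (ℵ_ x)), l < ℵ_ ξ
  · exact Or.inl h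
  · right
    push Not at h
    obtain ⟨l, hl, hl'⟩ := h
    intro θ hθ
    have : Small.{u} (ival (ℵ_ γ) (ℵ_ x)) :=
      small_subset (show ival (ℵ_ γ) (ℵ_ x) ⊆ Set.Iio (ℵ_ x) from fun κ h => h.2.2)
    exact nohole rfl hk (Cardinal.aleph0_le_aleph _) hl hθ.1 hθ.2.1 (hθ.2.2.le.trans hl')

theorem isSuccLimit_of_singular {κ : Cardinal.{u}} (hκ : ℵ₀ ≤ κ) (hcof : κ.ord.cof < κ) (n : ℕ)
    {μ : Cardinal.{u}} (hμ : μ < κ) : succN μ n < κ := by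
  have key : ∀ μ < κ, Order.succ μ < κ := by
    intro μ hμ
    refine lt_of_le_of_ne (Order.succ_le_of_lt hμ) ?_
    intro h
    by_cases h0 : ℵ₀ ≤ μ
    · have := (Cardinal.isRegular_succ h0).cof_ord
      rw [h] at this
      exact hcof.ne this
    · push Not at h0
      obtain ⟨m, rfl⟩ := Cardinal.lt_aleph0.1 h0
      refine absurd ?_ (not_lt.2 hκ)
      rw [← h, Cardinal.succ_natCast]
      exact Cardinal.add_lt_aleph0 Cardinal.natCast_lt_aleph0 Cardinal.one_lt_aleph0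
  induction n with
  | zero => exact hμ
  | succ n ih => exact key _ ih

theorem gh_ival {θ : Ordinal.{u}} {κ : Cardinal.{u}} (hσ : ℵ₀ < κ.ord.cof)
    (hcof : κ.ord.cof < κ) (hκθ : κ ≤ ℵ_ θ) (n : ℕ) (hn : n = 0 ∨ 2 ^ κ.ord.cof ≤ κ)
    (H : ∀ P ⊆ ival (ℵ_ θ) (ℵ_ (θ + κ.ord)), #P < Cardinal.lift.{u+1} κ →
      #(pcfS P) ≤ Cardinal.lift.{u+1} κ)
    (hS : StatIn {x | #(pcfS (ival (ℵ_ θ) (ℵ_ (θ + x)))) ≤
      Cardinal.lift.{u+1} (succN x.card n)} κ.ord) :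
    #(pcfS (ival (ℵ_ θ) (ℵ_ (θ + κ.ord)))) ≤ Cardinal.lift.{u+1} (succN κ n) := by
  classical
  have hκ0 : ℵ₀ ≤ κ := (hσ.trans hcof).le
  have hκlim : Order.IsSuccLimit κ.ord := Cardinal.isSuccLimit_ord hκ0
  set α := θ + κ.ord with hα
  have hαlim : Order.IsSuccLimit α := Ordinal.isSuccLimit_add _ hκlim
  have h6κ : θ + (6 : ℕ) < α := by
    rw [hα]
    exact add_lt_add_right ((Ordinal.natCast_lt_omega0 6).trans_le
      (Ordinal.omega0_le_of_isSuccLimit hκlim)) θ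
  have hreg : ∀ {a b : Cardinal.{u}}, ∀ κ ∈ ival a b, κ.IsRegular := fun κ h => h.1
  have hreg' : ∀ {a b : Cardinal.{u}}, ∀ κ ∈ ival' a b, κ.IsRegular := fun κ h => h.1
  set L := ival' (ℵ_ θ) (ℵ_ (θ + (6 : ℕ))) with hL
  have hLfin : L.Finite := finite_ival θ 6
  have hLpcf : pcfS L = L := pcfS_finite hLfin hreg'
  set B := ival (ℵ_ (θ + (6 : ℕ))) (ℵ_ α) with hB
  have hpcfA : pcfS (ival (ℵ_ θ) (ℵ_ α)) = pcfS B ∪ L := by
    rw [ival_split h6κ, pcfS_union, hLpcf]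
  have hμ0 : ℵ₀ ≤ succN κ n := hκ0.trans (le_succN κ n)
  suffices hsuff : #(pcfS B) ≤ Cardinal.lift.{u+1} (succN κ n) by
    rw [hpcfA]
    refine (Cardinal.mk_union_le _ _).trans
      (Cardinal.add_le_of_le (Cardinal.aleph0_le_lift.2 hμ0) hsuff ?_)
    exact (Cardinal.lt_aleph0_iff_set_finite.2 hLfin).le.trans (Cardinal.aleph0_le_lift.2 hμ0)
  obtain ⟨R, hR, hRs, hRc⟩ := exists_small_club hκlim
  set S0 := {x | #(pcfS (ival (ℵ_ θ) (ℵ_ (θ + x)))) ≤ Cardinal.lift.{u+1} (succN x.card n)}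
    with hS0
  set S := S0 ∩ R ∩ {i | Order.IsSuccLimit i} with hSdef
  have hSst : StatIn S κ.ord := (hS.inter_club hσ hR).inter_club hσ (club_limits hσ)
  have hSR : S ⊆ R := fun x hx => hx.1.2
  have hSl : ∀ i ∈ S, Order.IsSuccLimit i := fun x hx => hx.2
  let E : Ordinal.{u} → Set Cardinal.{u} := fun i => pcfS (ival (ℵ_ θ) (ℵ_ (θ + i)))
  have hcardI : ∀ i : Ordinal.{u}, i < κ.ord →
      #(ival (ℵ_ θ) (ℵ_ (θ + i))) ≤ Cardinal.lift.{u+1} i.card := by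
    intro i hi
    refine (mk_le_card' (x := θ + i) (y := θ) fun μ hμ => ⟨hμ.2.1, hμ.2.2⟩).trans ?_
    rw [Ordinal.add_sub_cancel]
  have hEA : ∀ i ∈ S, E i ⊆ ival (ℵ_ θ) (ℵ_ α) ∧
      #(E i) ≤ Cardinal.lift.{u+1} (succN i.card n) := by
    intro i hi
    have hiκ : i < κ.ord := hRs hi.1.2
    have hiκ' : i.card < κ := Cardinal.lt_ord.1 hiκ
    refine ⟨fun l hl => ?_, hi.1.1⟩
    have h1 : ∀ l ∈ E i, l < ℵ_ α := by
      rcases bound_or_contain (γ := θ) (x := θ + i) α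
        ((hcardI i hiκ).trans (Cardinal.lift_le.2 (hiκ'.le.trans hκθ))) with h | h
      · exact h
      · exfalso
        have h2 := (Cardinal.mk_le_mk_of_subset h).trans hi.1.1
        rw [mk_ival hαlim (lt_of_le_of_lt le_self_add h6κ), hα, Ordinal.add_sub_cancel,
          Cardinal.card_ord, Cardinal.lift_le] at h2
        exact absurd (isSuccLimit_of_singular hκ0 hcof n hiκ') (not_lt.2 h2)
    exact ⟨pcfS_isRegular hl, lt_of_mem_pcfS hreg (fun κ h => h.2.1) hl, h1 l hl⟩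
  have hsub : pcfS B ⊆ Zset S κ.ord E := by
    intro lam hlam
    obtain ⟨F, h1, h2, h3⟩ := localize_ival (κ := κ) hκ0 (by
        refine (Ordinal.card_le_card (Ordinal.sub_le.2 ?_)).trans (Cardinal.card_ord κ).le
        calc α = θ + κ.ord := rfl
          _ ≤ θ + (6 : ℕ) + κ.ord := by
            rw [add_assoc]
            exact add_le_add_right le_add_self _) (succN_le_aleph hκθ 6) h6κ hlam
      (I := Ordinal.{u}) (fun i => Iio (ℵ_ (θ + i)))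
    refine ⟨F, fun i _ => ⟨h1 i, (h2 i).trans (pcfS_mono ?_)⟩, fun J hJ hu => h3 J ?_⟩
    · rintro μ ⟨g1, g2⟩
      exact ⟨g2.1, lt_of_le_of_lt (Cardinal.aleph_le_aleph.2 le_self_add) g2.2.1, g1⟩
    · intro μ hμ
      obtain ⟨z, hz⟩ := Cardinal.mem_range_aleph_iff.2 hμ.1.1
      have hzα : z < α := by rw [← Cardinal.aleph_lt_aleph, hz]; exact hμ.2.2
      have hθz : θ ≤ z := by
        rw [← Cardinal.aleph_le_aleph, hz]
        exact (Cardinal.aleph_le_aleph.2 le_self_add).trans hμ.2.1.le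
      have hzκ : z - θ < κ.ord := (Ordinal.sub_lt_of_le hθz).2 hzα
      obtain ⟨i, hi, hzi, _⟩ := hu _ hzκ
      refine mem_iUnion₂.2 ⟨i, hi, ?_⟩
      show μ < ℵ_ (θ + i)
      rw [← hz, Cardinal.aleph_lt_aleph]
      exact (Ordinal.sub_lt_of_le hθz).1 hzi
  refine (Cardinal.mk_le_mk_of_subset hsub).trans ?_
  rcases Nat.eq_zero_or_pos n with h0 | h0
  · subst h0
    exact gh_zero hσ hcof hR.unb hRc hRs H hSR hSl hSst hEA
  · have h2 : 2 ^ κ.ord.cof ≤ κ := by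
      rcases hn with h | h
      · omega
      · exact h
    exact gh_main hσ h2 hR.unb hRc hRs H n S hSR hSl hSst E hEA

/-- the case of `a_κ` -/
theorem gh_aSet {κ : Cardinal.{u}} (hσ : ℵ₀ < κ.ord.cof)
    (hcof : κ.ord.cof < κ) (n : ℕ) (hn : n = 0 ∨ 2 ^ κ.ord.cof ≤ κ)
    (H : ∀ P ⊆ aSet κ.ord, #P < Cardinal.lift.{u+1} κ → #(pcfS P) ≤ Cardinal.lift.{u+1} κ)
    (hS : StatIn {x | #(pcfS (aSet x)) ≤ Cardinal.lift.{u+1} (succN x.card n)} κ.ord) :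
    #(pcfS (aSet κ.ord)) ≤ Cardinal.lift.{u+1} (succN κ n) := by
  have hκ0 : ℵ₀ ≤ κ := (hσ.trans hcof).le
  have hκlim : Order.IsSuccLimit κ.ord := Cardinal.isSuccLimit_ord hκ0
  obtain ⟨γ, hγ⟩ := Cardinal.mem_range_aleph_iff.2 hκ0
  have hA : aSet κ.ord = ival (ℵ_ γ) (ℵ_ κ.ord) := aSet_eq (by rw [Cardinal.card_ord, hγ])
  rcases lt_or_ge γ κ.ord with hlt | hge
  · have hadd : γ + κ.ord = κ.ord := (Ordinal.isPrincipal_add_ord hκ0).add_eq_right hlt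
    have hAe : aSet κ.ord = ival (ℵ_ γ) (ℵ_ (γ + κ.ord)) := by rw [hadd, hA]
    rw [hAe]
    refine gh_ival hσ hcof hγ.ge n hn (by rw [← hAe]; exact H) ?_
    have hγω : γ * ω < κ.ord := by
      rw [Cardinal.lt_ord, Ordinal.card_mul, Ordinal.card_omega0]
      exact Cardinal.mul_lt_of_lt hκ0 (Cardinal.lt_ord.1 hlt) (hσ.trans hcof)
    intro C hC
    obtain ⟨x, hx, hxC, hxκ⟩ := (hS.inter_club hσ (club_Ioi hκlim hγω)) C hC
    refine ⟨x, ?_, hxC, hxκ⟩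
    have hγx : γ + x = x := Ordinal.add_eq_right_iff_mul_omega0_le.2 (le_of_lt hx.2)
    refine le_trans (Cardinal.mk_le_mk_of_subset (pcfS_mono ?_)) hx.1
    rintro μ ⟨g1, g2, g3⟩
    rw [hγx] at g3
    refine ⟨g1, ?_, g3⟩
    rw [hγ] at g2
    exact Order.succ_le_of_lt ((Cardinal.lt_ord.1 hxκ).trans g2)
  · have : aSet κ.ord = ∅ := by
      rw [hA]
      ext μ
      simp only [ival, mem_ofPred_eq, mem_empty_iff_false, iff_false, not_and, not_lt]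
      intro _ h
      exact (Cardinal.aleph_le_aleph.2 hge).trans h.le
    rw [this, pcfS_empty]
    simp

end Helper23.Pcf
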