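import Pool.Agent.Helper23.Pcf.Lub

set_option autoImplicit false

open Cardinal Ordinal Set Filter

universe u v

namespace Helper23.Pcf

variable {ι : Type u}

theorem mk_eta {o : Ordinal.{u}} (k : o.ToType) (h : ((ToType.mk (o := o)).symm k).1 < o) :
    (ToType.mk (o := o)) ⟨((ToType.mk (o := o)).symm k).1, h⟩ = k :=
  (ToType.mk (o := o)).apply_symm_apply k

/-- Chains of bounds by transfinite recursion. -/
theorem exists_chain {P : Type v} (R : P → P → Prop) (μ : Cardinal.{u}) (h0 : ℵ₀ ≤ μ)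
    (hb : ∀ (K : Type u) (G : K → P), #K < μ → ∃ g, ∀ k, R (G k) g) (F : Ordinal.{u} → P) :
    ∃ f : Ordinal.{u} → P, (∀ ξ η, ξ < η → η < μ.ord → R (f ξ) (f η)) ∧
      ∀ ξ < μ.ord, R (F ξ) (f ξ) := by
  classical
  have key : ∀ (η : Ordinal.{u}) (G : Iio η → P), ∃ g, η < μ.ord → (∀ k, R (G k) g) ∧ R (F η) g := by
    intro η G
    by_cases hη : η < μ.ord
    · have hcard : #(Option η.ToType) < μ := by
        rw [mk_option]
        have h1 : #η.ToType < μ := by simpa using Cardinal.lt_ord.1 hη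
        exact Cardinal.add_lt_of_lt h0 h1 (lt_of_lt_of_le one_lt_aleph0 h0)
      obtain ⟨g, hg⟩ := hb (Option η.ToType)
        (fun o => o.elim (F η) (fun x => G ((Ordinal.ToType.mk (o := η)).symm x))) hcard
      refine ⟨g, fun _ => ⟨fun k => ?_, hg none⟩⟩
      have := hg (some (Ordinal.ToType.mk k))
      simpa using this
    · exact ⟨F η, fun h => absurd h hη⟩
  choose B hB using key
  let f : Ordinal.{u} → P :=
    WellFounded.fix (C := fun _ => P) Ordinal.lt_wf (fun η ih => B η (fun k => ih k.1 k.2))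
  have hf : ∀ η, f η = B η (fun k : Iio η => f k.1) := by
    intro η
    exact WellFounded.fix_eq _ _ _
  refine ⟨f, ?_, ?_⟩
  · intro ξ η hξη hη
    rw [hf η]
    exact (hB η (fun k => f k.1) hη).1 ⟨ξ, hξη⟩
  · intro ξ hξ
    rw [hf ξ]
    exact (hB ξ (fun k => f k.1) hξ).2

section
variable {c : ι → Ordinal.{u}}

theorem pos_of_cof (hc : ∀ i, 2 ^ #ι < (c i).cof) (i : ι) : 0 < c i := by
  have : (c i).cof ≠ 0 := (lt_of_le_of_lt zero_le (hc i)).ne'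
  exact pos_iff_ne_zero.2 (fun h0 => this (Ordinal.cof_eq_zero.2 h0))

/-- Truncate a function so that it is everywhere below `c`. -/
theorem exists_trunc (hpos : ∀ i, 0 < c i) (D : Ultrafilter ι) {g : ι → Ordinal.{u}}
    (hg : dlt D g c) : ∃ g' : ι → Ordinal.{u}, (∀ i, g' i < c i) ∧ dle D g g' ∧ dle D g' g := by
  classical
  refine ⟨fun i => if g i < c i then g i else 0, fun i => ?_, ?_, ?_⟩
  · show (if g i < c i then g i else 0) < c i
    split_ifs with h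
    · exact h
    · exact hpos i
  · filter_upwards [hg] with i hi
    simp [hi]
  · filter_upwards [hg] with i hi
    simp [hi]

/-- The main dichotomy. -/
theorem dichotomy (hc : ∀ i, 2 ^ #ι < (c i).cof) (𝒟 : Set (Ultrafilter ι)) {μ : Cardinal.{u}}
    (hμ : μ.IsRegular) (hμ2 : 2 ^ #ι < μ) (f : Ordinal.{u} → ι → Ordinal.{u})
    (hmono : ∀ ξ η, ξ < η → η < μ.ord → ∀ D ∈ 𝒟, dle D (f ξ) (f η)) :
    ∃ (g : ι → Ordinal.{u}) (X : Set ι), (∀ i, g i < c i) ∧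
      (∀ D ∈ 𝒟, X ∈ D → ∀ ξ < μ.ord, dle D (f ξ) g) ∧
      (∀ D ∈ 𝒟, X ∉ D → ¬ ∃ h : ι → Ordinal.{u}, (∀ i, h i < c i) ∧ ∀ ξ < μ.ord, dle D (f ξ) h) := by
  classical
  let Q : Set ι → (ι → Ordinal.{u}) → Prop := fun X g =>
    (∀ i, g i < c i) ∧ ∀ D ∈ 𝒟, X ∈ D → ∀ ξ < μ.ord, dle D (f ξ) g
  have hG : ∀ X, ∃ g : ι → Ordinal.{u}, (∀ i, g i < c i) ∧ ((∃ g, Q X g) → Q X g) := by
    intro X
    by_cases h : ∃ g, Q X g
    · obtain ⟨g, hg⟩ := h
      exact ⟨g, hg.1, fun _ => hg⟩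
    · exact ⟨0, fun i => pos_of_cof hc i, fun h' => absurd h' h⟩
  choose G hG1 hG2 using hG
  let g : ι → Ordinal.{u} := fun i => ⨆ X, G X i
  have hg : ∀ i, g i < c i := fun i =>
    Ordinal.iSup_lt_of_lt_cof (by simpa using hc i) (fun X => hG1 X i)
  have hSet : #(Set ι) < μ := by simpa using hμ2
  obtain ⟨X, hX⟩ := exists_unbounded_fiber hμ hSet (fun ξ => {i | f ξ i ≤ g i})
  refine ⟨g, X, hg, ?_, ?_⟩
  · intro D hD hXD ξ hξ
    obtain ⟨η, h1, h2, h3⟩ := hX ξ hξ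
    refine (hmono ξ η h1 h2 D hD).trans ?_
    rw [← h3] at hXD
    exact hXD
  · rintro D hD hXD ⟨h, hh, hb⟩
    obtain ⟨Z, hZ⟩ := exists_unbounded_fiber hμ hSet (fun ξ => {i | f ξ i ≤ h i})
    have hZD : Z ∈ D := by
      obtain ⟨η, _, h2, h3⟩ := hZ 0 hμ.ord_pos
      rw [← h3]
      exact hb η h2
    have hQ : Q Z h := by
      refine ⟨hh, fun D' hD' hZD' ξ hξ => ?_⟩
      obtain ⟨η, h1, h2, h3⟩ := hZ ξ hξ
      refine (hmono ξ η h1 h2 D' hD').trans ?_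
      rw [← h3] at hZD'
      exact hZD'
    have hQ' := hG2 Z ⟨h, hQ⟩
    obtain ⟨η, _, h2, h3⟩ := hX 0 hμ.ord_pos
    apply hXD
    rw [← h3]
    refine Filter.mem_of_superset (hQ'.2 D hD hZD η h2) ?_
    intro i hi
    exact le_trans hi (Ordinal.le_iSup (fun X => G X i) Z)

/-- Uniform directedness: if all the ultrafilters in `𝒟` have cofinality at least `θ`, then every
family of fewer than `θ` functions has a bound working for all of them. -/
theorem directed (hc : ∀ i, 2 ^ #ι < (c i).cof) (θ : Cardinal.{u}) :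
    ∀ (μ : Cardinal.{u}), μ < θ → ∀ (K : Type u) (F : K → ι → Ordinal.{u}), #K = μ →
      (∀ k i, F k i < c i) → ∃ g : ι → Ordinal.{u}, (∀ i, g i < c i) ∧
        ∀ D : Ultrafilter ι, (∃ θ', θ ≤ θ' ∧ HasCof D c θ') → ∀ k, dle D (F k) g := by
  classical
  intro μ
  induction μ using WellFoundedLT.induction with
  | ind μ ih =>
  intro hμθ K F hK hF
  by_cases hsmall' : ∀ i, μ < (c i).cof
  · refine ⟨fun i => ⨆ k, F k i, fun i => Ordinal.iSup_lt_of_lt_cof ?_ (fun k => hF k i), ?_⟩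
    · rw [hK]; exact hsmall' i
    · intro D _ k
      exact dle_of_forall fun i => Ordinal.le_iSup (fun k => F k i) k
  push Not at hsmall'
  obtain ⟨i0, hi0⟩ := hsmall'
  have hsmall : 2 ^ #ι < μ := lt_of_lt_of_le (hc i0) hi0
  have h0 : ℵ₀ ≤ μ := by
    refine le_trans ?_ hi0
    rw [Ordinal.aleph0_le_cof_iff]
    refine lt_of_le_of_lt ?_ (hc i0)
    rw [← Cardinal.power_zero (a := 2)]
    exact Cardinal.power_le_power_left two_ne_zero zero_le
  let P := {g : ι → Ordinal.{u} // ∀ i, g i < c i}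
  let R : P → P → Prop := fun g h =>
    ∀ D : Ultrafilter ι, (∃ θ', θ ≤ θ' ∧ HasCof D c θ') → dle D g.1 h.1
  have hRtrans : ∀ a b d : P, R a b → R b d → R a d := fun a b d h1 h2 D hD => (h1 D hD).trans (h2 D hD)
  have hb : ∀ (K : Type u) (G : K → P), #K < μ → ∃ g, ∀ k, R (G k) g := by
    intro K' G hK'
    obtain ⟨g, hg, hg'⟩ := ih (#K') hK' (hK'.trans hμθ) K' (fun k => (G k).1) rfl (fun k i => (G k).2 i)
    exact ⟨⟨g, hg⟩, fun k D hD => hg' D hD k⟩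
  have hlim : Order.IsSuccLimit μ.ord := Cardinal.isSuccLimit_ord h0
  -- enumerate K by ordinals below μ.ord
  have he : #(μ.ord.ToType) = #K := by simp [hK]
  obtain ⟨e⟩ := Cardinal.eq.1 he
  let F' : Ordinal.{u} → P := fun ξ =>
    if h : ξ < μ.ord then ⟨F (e (Ordinal.ToType.mk ⟨ξ, h⟩)), hF _⟩ else ⟨0, pos_of_cof hc⟩
  obtain ⟨f, hf1, hf2⟩ := exists_chain R μ h0 hb F'
  have hfF : ∀ k, R ⟨F k, hF k⟩ (f (Ordinal.ToType.mk.symm (e.symm k)).1) := by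
    intro k
    have h1 := hf2 (Ordinal.ToType.mk.symm (e.symm k)).1 (Ordinal.ToType.mk.symm (e.symm k)).2
    have h2 : F' (Ordinal.ToType.mk.symm (e.symm k)).1 = ⟨F k, hF k⟩ := by
      have h3 : ((Ordinal.ToType.mk (o := μ.ord)).symm (e.symm k)).1 < μ.ord :=
        (Ordinal.ToType.mk.symm (e.symm k)).2
      simp only [F', dif_pos h3]
      apply Subtype.ext
      show F (e (ToType.mk ⟨((ToType.mk (o := μ.ord)).symm (e.symm k)).1, h3⟩)) = F k
      exact (congrArg (fun x => F (e x)) (mk_eta _ h3)).trans (by simp)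
    rwa [h2] at h1
  -- it suffices to bound `f`
  suffices hs : ∃ g : P, ∀ ξ < μ.ord, R (f ξ) g by
    obtain ⟨g, hg⟩ := hs
    exact ⟨g.1, g.2, fun D hD k => hRtrans _ _ _ (hfF k) (hg _ (Ordinal.ToType.mk.symm (e.symm k)).2) D hD⟩
  by_cases hreg : μ.IsRegular
  · obtain ⟨g, X, hg, hg1, hg2⟩ := dichotomy hc {D | ∃ θ', θ ≤ θ' ∧ HasCof D c θ'} hreg hsmall
      (fun ξ => (f ξ).1) (fun ξ η h1 h2 D hD => hf1 ξ η h1 h2 D hD)
    refine ⟨⟨g, hg⟩, fun ξ hξ D hD => hg1 D hD ?_ ξ hξ⟩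
    by_contra hX
    refine hg2 D hD hX ?_
    obtain ⟨θ', hθ', hcof⟩ := hD
    obtain ⟨h, hh, hh'⟩ := hcof.bdd μ.ord.ToType (fun k => (f (Ordinal.ToType.mk.symm k).1).1)
      (by simpa using lt_of_lt_of_le hμθ hθ') (fun k => dlt_of_forall (f _).2)
    obtain ⟨h', h1, h2, _⟩ := exists_trunc (pos_of_cof hc) D hh
    refine ⟨h', h1, fun ξ hξ => ?_⟩
    have := (hh' (Ordinal.ToType.mk ⟨ξ, hξ⟩)).le.trans h2
    simpa using this
  · -- singular case
    have hcof : μ.ord.cof < μ := by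
      rcases (Ordinal.cof_ord_le μ).lt_or_eq with h | h
      · exact h
      · exact absurd ⟨h0, h.ge⟩ hreg
    obtain ⟨s, hs, hs'⟩ := Order.exists_cof_eq μ.ord.ToType
    have hscard : #s < μ := by rw [hs', Ordinal.cof_toType]; exact hcof
    obtain ⟨g, hg⟩ := hb s (fun k => f (Ordinal.ToType.mk.symm k.1).1) hscard
    refine ⟨g, fun ξ hξ => ?_⟩
    obtain ⟨k, hk, hk'⟩ := hs (Ordinal.ToType.mk ⟨ξ, hξ⟩)
    have h1 : ξ ≤ (Ordinal.ToType.mk.symm k).1 := by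
      have := (Ordinal.ToType.mk (o := μ.ord)).symm.monotone hk'
      rw [OrderIso.symm_apply_apply] at this
      exact this
    rcases h1.eq_or_lt with h2 | h2
    · rw [h2]; exact hg ⟨k, hk⟩
    · exact hRtrans _ _ _ (hf1 _ _ h2 (Ordinal.ToType.mk.symm k).2) (hg ⟨k, hk⟩)

/-- Generators: a cofinality `θ` of an ultraproduct is witnessed by a set `Y` in the ultrafilter all
of whose ultrafilters have cofinality at most `θ`. -/
theorem exists_generator (hc : ∀ i, 2 ^ #ι < (c i).cof) {θ : Cardinal.{u}} {D₀ : Ultrafilter ι}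
    (H : HasCof D₀ c θ) : ∃ Y : Set ι, Y ∈ D₀ ∧
      ∀ D : Ultrafilter ι, Y ∈ D → ∀ θ', HasCof D c θ' → θ' ≤ θ := by
  classical
  have hreg := H.isRegular
  have hθ : 2 ^ #ι < θ := H.lt_of_cof (Filter.Eventually.of_forall hc)
  let P := {g : ι → Ordinal.{u} // ∀ i, g i < c i}
  let R : P → P → Prop := fun g h =>
    ∀ D : Ultrafilter ι, (∃ θ', θ ≤ θ' ∧ HasCof D c θ') → dle D g.1 h.1
  have hb : ∀ (K : Type u) (G : K → P), #K < θ → ∃ g, ∀ k, R (G k) g := by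
    intro K' G hK'
    obtain ⟨g, hg, hg'⟩ := directed hc θ (#K') hK' K' (fun k => (G k).1) rfl (fun k i => (G k).2 i)
    exact ⟨⟨g, hg⟩, fun k D hD => hg' D hD k⟩
  obtain ⟨F, hF, hd⟩ := H.dom
  choose F' hF1 hF2 hF3 using fun k => exists_trunc (pos_of_cof hc) D₀ (hF k)
  let F'' : Ordinal.{u} → P := fun ξ =>
    if h : ξ < θ.ord then ⟨F' (Ordinal.ToType.mk ⟨ξ, h⟩), hF1 _⟩ else ⟨0, pos_of_cof hc⟩
  obtain ⟨f, hf1, hf2⟩ := exists_chain R θ H.inf hb F''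
  have hmem : ∃ θ', θ ≤ θ' ∧ HasCof D₀ c θ' := ⟨θ, le_rfl, H⟩
  obtain ⟨g, X, hg, hg1, hg2⟩ := dichotomy hc {D | ∃ θ', θ ≤ θ' ∧ HasCof D c θ'} hreg hθ
      (fun ξ => (f ξ).1) (fun ξ η h1 h2 D hD => hf1 ξ η h1 h2 D hD)
  have hX : X ∉ D₀ := by
    intro hX
    obtain ⟨k, hk⟩ := hd g (dlt_of_forall hg)
    have h3 : ((Ordinal.ToType.mk (o := θ.ord)).symm k).1 < θ.ord := (Ordinal.ToType.mk.symm k).2
    have h1 := hf2 (Ordinal.ToType.mk.symm k).1 h3 D₀ hmem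
    have h4 : (F'' ((Ordinal.ToType.mk (o := θ.ord)).symm k).1).1 = F' k := by
      simp only [F'', dif_pos h3]
      exact congrArg (fun x => F' x) (mk_eta _ h3)
    rw [h4] at h1
    exact dlt_irrefl (((hk.trans_dle (hF2 k)).trans_dle h1).trans_dle (hg1 D₀ hmem hX _ h3))
  refine ⟨Xᶜ, Ultrafilter.compl_mem_iff_notMem.2 hX, fun D hD θ' hθ' => ?_⟩
  by_contra hlt
  push Not at hlt
  have hXD : X ∉ D := Ultrafilter.compl_mem_iff_notMem.1 hD
  refine hg2 D ⟨θ', hlt.le, hθ'⟩ hXD ?_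
  obtain ⟨h, hh, hh'⟩ := hθ'.bdd θ.ord.ToType (fun k => (f (Ordinal.ToType.mk.symm k).1).1)
    (by simpa using hlt) (fun k => dlt_of_forall (f _).2)
  obtain ⟨h', h1, h2, _⟩ := exists_trunc (pos_of_cof hc) D hh
  refine ⟨h', h1, fun ξ hξ => ?_⟩
  have := (hh' (Ordinal.ToType.mk ⟨ξ, hξ⟩)).le.trans h2
  simpa using this

/-- `|pcf| ≤ 2 ^ |a|`, as an injection. -/
theorem exists_injOn (hc : ∀ i, 2 ^ #ι < (c i).cof) :
    ∃ Y : Cardinal.{u} → Set ι, Set.InjOn Y {θ | ∃ D, HasCof D c θ} := by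
  classical
  have : ∀ θ : Cardinal.{u}, ∃ Y : Set ι, (∃ D, HasCof D c θ) →
      (∃ D, HasCof D c θ ∧ Y ∈ D) ∧ ∀ D : Ultrafilter ι, Y ∈ D → ∀ θ', HasCof D c θ' → θ' ≤ θ := by
    intro θ
    by_cases h : ∃ D, HasCof D c θ
    · obtain ⟨D, hD⟩ := h
      obtain ⟨Y, hY, hY'⟩ := exists_generator hc hD
      exact ⟨Y, fun _ => ⟨⟨D, hD, hY⟩, hY'⟩⟩
    · exact ⟨∅, fun h' => absurd h' h⟩
  choose Y hY using this
  refine ⟨Y, fun θ hθ θ' hθ' heq => ?_⟩
  obtain ⟨⟨D, hD, hYD⟩, h1⟩ := hY θ hθ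
  obtain ⟨⟨D', hD', hYD'⟩, h1'⟩ := hY θ' hθ'
  apply le_antisymm
  · exact h1' D (by rw [← heq]; exact hYD) θ hD
  · exact h1 D' (by rw [heq]; exact hYD') θ' hD'

end

end Helper23.Pcf
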