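import Pool.Agent.Helper23.Pcf.OrdAux

set_option autoImplicit false

open Cardinal Ordinal Set Filter

universe u v

namespace Helper23.Pcf

/-- Ultrafilters for which the cofinality is at least `θ`. -/
def Ge {ι : Type u} (c : ι → Ordinal.{u}) (θ : Cardinal.{u}) : Set (Ultrafilter ι) :=
  {D | ∃ θ', θ ≤ θ' ∧ HasCof D c θ'}

section
variable {ι : Type u} {c : ι → Ordinal.{u}} {ν : Cardinal.{u}}

theorem bdd_of_ge (hpos : ∀ i, 0 < c i) {θ : Cardinal.{u}} {D : Ultrafilter ι} (hD : D ∈ Ge c θ)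
    {μ : Cardinal.{u}} (hμ : μ < θ) (f : Ordinal.{u} → ι → Ordinal.{u})
    (hf : ∀ ξ < μ.ord, ∀ i, f ξ i < c i) :
    ∃ g : ι → Ordinal.{u}, (∀ i, g i < c i) ∧ ∀ ξ < μ.ord, dle D (f ξ) g := by
  obtain ⟨θ', hθ', hcof⟩ := hD
  obtain ⟨h, hh, hh'⟩ := hcof.bdd μ.ord.ToType (fun k => (f (Ordinal.ToType.mk.symm k).1))
    (by simpa using lt_of_lt_of_le hμ hθ')
    (fun k => dlt_of_forall (hf _ (Ordinal.ToType.mk.symm k).2))
  obtain ⟨h', h1, h2, _⟩ := exists_trunc hpos D hh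
  refine ⟨h', h1, fun ξ hξ => ?_⟩
  have := (hh' (Ordinal.ToType.mk ⟨ξ, hξ⟩)).le.trans h2
  simpa using this

/-- Uniform directedness, general form. -/
theorem directed' (hν : ν.IsRegular) (hι : #ι < ν) (hc : ∀ i, ν < (c i).cof) (θ : Cardinal.{u}) :
    ∀ (μ : Cardinal.{u}), μ < θ → ∀ (K : Type u) (F : K → ι → Ordinal.{u}), #K = μ →
      (∀ k i, F k i < c i) → ∃ g : ι → Ordinal.{u}, (∀ i, g i < c i) ∧
        ∀ D ∈ Ge c θ, ∀ k, dle D (F k) g := by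
  classical
  intro μ
  induction μ using WellFoundedLT.induction with
  | ind μ ih =>
  intro hμθ K F hK hF
  by_cases hsmall' : ∀ i, μ < (c i).cof
  · refine ⟨fun i => ⨆ k, F k i, fun i => Ordinal.iSup_lt_of_lt_cof ?_ (fun k => hF k i), ?_⟩
    · rw [hK]; exact hsmall' i
    · intro D _ k
      exact dle_of_forall fun i => Ordinal.le_iSup (fun k => F k i) k
  push Not at hsmall'
  obtain ⟨i0, hi0⟩ := hsmall'
  have hsmall : ν < μ := lt_of_lt_of_le (hc i0) hi0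
  have h0 : ℵ₀ ≤ μ := hν.1.trans hsmall.le
  have hpos := pos_of_cof' hc
  let P := {g : ι → Ordinal.{u} // ∀ i, g i < c i}
  let R : P → P → Prop := fun g h => ∀ D ∈ Ge c θ, dle D g.1 h.1
  have hRtrans : ∀ a b d : P, R a b → R b d → R a d := fun a b d h1 h2 D hD => (h1 D hD).trans (h2 D hD)
  have hb : ∀ (K : Type u) (G : K → P), #K < μ → ∃ g, ∀ k, R (G k) g := by
    intro K' G hK'
    obtain ⟨g, hg, hg'⟩ := ih (#K') hK' (hK'.trans hμθ) K' (fun k => (G k).1) rfl (fun k i => (G k).2 i)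
    exact ⟨⟨g, hg⟩, fun k D hD => hg' D hD k⟩
  have he : #(μ.ord.ToType) = #K := by simp [hK]
  obtain ⟨e⟩ := Cardinal.eq.1 he
  let F' : Ordinal.{u} → P := fun ξ =>
    if h : ξ < μ.ord then ⟨F (e (Ordinal.ToType.mk ⟨ξ, h⟩)), hF _⟩ else ⟨0, hpos⟩
  obtain ⟨f, hf1, hf2⟩ := exists_chain R μ h0 hb F'
  have hfF : ∀ k, R ⟨F k, hF k⟩ (f (Ordinal.ToType.mk.symm (e.symm k)).1) := by
    intro k
    have h1 := hf2 (Ordinal.ToType.mk.symm (e.symm k)).1 (Ordinal.ToType.mk.symm (e.symm k)).2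
    have h2 : F' (Ordinal.ToType.mk.symm (e.symm k)).1 = ⟨F k, hF k⟩ := by
      have h3 : ((Ordinal.ToType.mk (o := μ.ord)).symm (e.symm k)).1 < μ.ord :=
        (Ordinal.ToType.mk.symm (e.symm k)).2
      simp only [F', dif_pos h3]
      apply Subtype.ext
      show F (e (ToType.mk ⟨((ToType.mk (o := μ.ord)).symm (e.symm k)).1, h3⟩)) = F k
      exact (congrArg (fun x => F (e x)) (mk_eta _ h3)).trans (by simp)
    rwa [h2] at h1
  suffices hs : ∃ g : P, ∀ ξ < μ.ord, R (f ξ) g by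
    obtain ⟨g, hg⟩ := hs
    exact ⟨g.1, g.2, fun D hD k => hRtrans _ _ _ (hfF k) (hg _ (Ordinal.ToType.mk.symm (e.symm k)).2) D hD⟩
  by_cases hreg : μ.IsRegular
  · by_contra hcon
    push Not at hcon
    refine no_steps hν hι hc hreg hsmall (fun ξ => (f ξ).1) ?_
    intro g hg
    obtain ⟨ξ₀, hξ₀, hnR⟩ := hcon ⟨g, hg⟩
    simp only [R] at hnR
    push Not at hnR
    obtain ⟨D, hD, hnle⟩ := hnR
    rw [not_dle] at hnle
    obtain ⟨g', hg', hb'⟩ := bdd_of_ge hpos hD hμθ (fun ξ => (f ξ).1) (fun ξ _ => (f ξ).2)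
    refine ⟨g', D, ξ₀, hg', hξ₀, fun ξ h1 h2 => ?_, hb'⟩
    rcases h1.eq_or_lt with h3 | h3
    · rw [← h3]; exact hnle
    · exact hnle.trans_dle (hf1 ξ₀ ξ h3 h2 D hD)
  · have hcof : μ.ord.cof < μ := by
      rcases (Ordinal.cof_ord_le μ).lt_or_eq with h | h
      · exact h
      · exact absurd ⟨h0, h.ge⟩ hreg
    obtain ⟨s, hs, hs'⟩ := Order.exists_cof_eq μ.ord.ToType
    have hscard : #s < μ := by rw [hs', Ordinal.cof_toType]; exact hcof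
    obtain ⟨g, hg⟩ := hb s (fun k => f (Ordinal.ToType.mk.symm k.1).1) hscard
    refine ⟨g, fun ξ hξ => ?_⟩
    obtain ⟨k, hk, hk'⟩ := hs (Ordinal.ToType.mk ⟨ξ, hξ⟩)
    have h1 : ξ ≤ (Ordinal.ToType.mk.symm k).1 := by
      have := (Ordinal.ToType.mk (o := μ.ord)).symm.monotone hk'
      rw [OrderIso.symm_apply_apply] at this
      exact this
    rcases h1.eq_or_lt with h2 | h2
    · rw [h2]; exact hg ⟨k, hk⟩
    · exact hRtrans _ _ _ (hf1 _ _ h2 (Ordinal.ToType.mk.symm k).2) (hg ⟨k, hk⟩)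

/-- Chains in `∏ c` that are increasing modulo all `D ∈ Ge c θ` and dominate a given family
pointwise. -/
theorem exists_chain_ge (hν : ν.IsRegular) (hι : #ι < ν) (hc : ∀ i, ν < (c i).cof)
    {θ : Cardinal.{u}} (hθ : ℵ₀ ≤ θ) (F : Ordinal.{u} → ι → Ordinal.{u})
    (hF : ∀ ξ i, F ξ i < c i) :
    ∃ f : Ordinal.{u} → ι → Ordinal.{u}, (∀ ξ i, f ξ i < c i) ∧ (∀ ξ i, F ξ i ≤ f ξ i) ∧
      ∀ ξ η, ξ < η → η < θ.ord → ∀ D ∈ Ge c θ, dlt D (f ξ) (f η) := by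
  classical
  have hlimc : ∀ i, Order.IsSuccLimit (c i) := fun i =>
    Ordinal.one_lt_cof_iff.1 (lt_trans (lt_of_lt_of_le one_lt_aleph0 hν.1) (hc i))
  let P := {g : ι → Ordinal.{u} // ∀ i, g i < c i}
  let R : P → P → Prop := fun g h => ∀ D ∈ Ge c θ, dlt D g.1 h.1
  have hb : ∀ (K : Type u) (G : K → P), #K < θ → ∃ g, ∀ k, R (G k) g := by
    intro K' G hK'
    obtain ⟨g, hg, hg'⟩ := directed' hν hι hc θ (#K') hK' K' (fun k => (G k).1) rfl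
      (fun k i => (G k).2 i)
    refine ⟨⟨fun i => Order.succ (g i), fun i => (hlimc i).succ_lt (hg i)⟩, fun k D hD => ?_⟩
    exact (hg' D hD k).trans_dlt (dlt_of_forall fun i => Order.lt_succ _)
  obtain ⟨f, hf1, hf2⟩ := exists_chain R θ hθ hb (fun ξ => ⟨F ξ, hF ξ⟩)
  refine ⟨fun ξ i => max ((f ξ).1 i) (F ξ i), fun ξ i => max_lt ((f ξ).2 i) (hF ξ i),
    fun ξ i => le_max_right _ _, ?_⟩
  intro ξ η h hη D hD
  have h1 := hf1 ξ η h hη D hD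
  have h2 := hf2 ξ (h.trans hη) D hD
  filter_upwards [h1, h2] with i h3 h4
  exact lt_of_lt_of_le (max_lt h3 (h4.trans h3)) (le_max_left _ _)

theorem exists_generator' (hν : ν.IsRegular) (hι : #ι < ν) (hc : ∀ i, ν < (c i).cof)
    {θ : Cardinal.{u}} {D₀ : Ultrafilter ι} (H : HasCof D₀ c θ) : ∃ Y : Set ι, Y ∈ D₀ ∧
      ∀ D : Ultrafilter ι, Y ∈ D → ∀ θ', HasCof D c θ' → θ' ≤ θ := by
  classical
  have hreg := H.isRegular
  have hθ : ν < θ := H.lt_of_cof (Filter.Eventually.of_forall hc)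
  have hpos := pos_of_cof' hc
  have hD₀ : D₀ ∈ Ge c θ := ⟨θ, le_rfl, H⟩
  obtain ⟨u, hu1, hu2, hu3⟩ := H.exists_scale
  have htr : ∀ ξ, ∃ g : ι → Ordinal.{u}, (∀ i, g i < c i) ∧ (ξ < θ.ord → dle D₀ (u ξ) g) := by
    intro ξ
    by_cases hξ : ξ < θ.ord
    · obtain ⟨g, h1, h2, _⟩ := exists_trunc hpos D₀ (hu1 ξ hξ)
      exact ⟨g, h1, fun _ => h2⟩
    · exact ⟨0, hpos, fun h => absurd h hξ⟩
  choose u' hu'1 hu'2 using htr
  obtain ⟨f, hf1, hf2, hf3⟩ := exists_chain_ge hν hι hc hreg.1 u' hu'1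
  by_contra hcon
  push Not at hcon
  refine no_steps hν hι hc hreg hθ f ?_
  intro g hg
  obtain ⟨ξ₀, hξ₀, hgξ⟩ := hu3 g (dlt_of_forall hg)
  have h1 : dlt D₀ g (f ξ₀) := (hgξ.trans_dle (hu'2 ξ₀ hξ₀)).trans_dle (dle_of_forall (hf2 ξ₀))
  obtain ⟨D, hYD, θ', hθ', hlt⟩ := hcon {i | g i < f ξ₀ i} h1
  have hD : D ∈ Ge c θ := ⟨θ', hlt.le, hθ'⟩
  have hD' : D ∈ Ge c θ' := ⟨θ', le_rfl, hθ'⟩
  obtain ⟨g', hg', hb'⟩ := bdd_of_ge hpos hD' hlt f (fun ξ _ => hf1 ξ)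
  refine ⟨g', D, ξ₀, hg', hξ₀, fun ξ h2 h3 => ?_, hb'⟩
  have h4 : dlt D g (f ξ₀) := hYD
  rcases h2.eq_or_lt with h5 | h5
  · rw [← h5]; exact h4
  · exact h4.trans (hf3 ξ₀ ξ h5 h3 D hD)

end

end Helper23.Pcf
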