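import Pool.Agent.Helper23.Pcf.Least

set_option autoImplicit false

open Cardinal Ordinal Set Filter

universe u v

namespace Helper23.Pcf

/-- Closed transitive generators on a set that contains its pcf. -/
theorem exists_closed_generators {A : Set Cardinal.{u}} [Small.{u} A]
    (hreg : ∀ κ ∈ A, κ.IsRegular)
    (hcl : pcfS A ⊆ A) {ν : Cardinal.{u}} (hν : ν.IsRegular) (hν0 : ℵ₀ < ν)
    (hA : #A < Cardinal.lift.{u+1} ν) (hνA : ∀ κ ∈ A, Order.succ (Order.succ ν) < κ) :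
    ∃ B : Cardinal.{u} → Set Cardinal.{u},
      (∀ κ ∈ A, B κ ⊆ A ∧ pcfS (B κ) ⊆ B κ ∧ (∀ θ ∈ B κ, θ ≤ κ) ∧ ∀ θ ∈ B κ, B θ ⊆ B κ) ∧
      (∀ Z ⊆ A, ∀ κ ∈ pcfS Z, κ ∈ pcfS (Z ∩ B κ)) ∧
      (∀ Z ⊆ A, ∃ F : Set Cardinal.{u}, F.Finite ∧ F ⊆ pcfS Z ∧ Z ⊆ ⋃ θ ∈ F, B θ) := by
  classical
  have hνpos : ∀ κ ∈ A, ν < κ := fun κ h =>
    ((Order.lt_succ ν).trans (Order.lt_succ _)).trans (hνA κ h)
  obtain ⟨ι, x, hx, hxA⟩ := exists_index A
  have hxmem : ∀ i, x i ∈ A := fun i => by rw [← hxA]; exact ⟨i, rfl⟩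
  have hιν : #ι < ν := by
    have : Cardinal.lift.{u+1} #ι ≤ #A :=
      lift_mk_le_of_inj (fun i : ι => (⟨x i, hxmem i⟩ : A)) (fun i j h => hx (Subtype.mk.inj h))
    exact Cardinal.lift_lt.1 (this.trans_lt hA)
  obtain ⟨b, hb1, hb2, hb3⟩ := exists_transitive (a := x) (fun i => hreg _ (hxmem i)) hν hν0
    hιν (fun i => hνA _ (hxmem i))
  obtain ⟨k, hk⟩ : ∃ k : Cardinal.{u}, Cardinal.lift.{u+1} k = #A :=
    Cardinal.mem_range_lift_of_le hA.le
  have hkν : k < ν := by rw [← hk] at hA; exact Cardinal.lift_lt.1 hA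
  -- every ultrafilter has its cofinality in `A`
  have hex : ∀ E : Ultrafilter ι, ∃ j, HasCof E (fun i => (x i).ord) (x j) := by
    intro E
    obtain ⟨θ, hθ⟩ := exists_hasCof E (fun i => (x i).ord)
      (Filter.Eventually.of_forall fun i =>
        Cardinal.isSuccLimit_ord (hreg _ (hxmem i)).1)
    have h1 : θ ∈ A := hcl ⟨ι, x, E, hx, hxmem, hθ⟩
    rw [← hxA] at h1
    obtain ⟨j, rfl⟩ := h1
    exact ⟨j, hθ⟩
  -- the pcf of a generator
  have himA : ∀ s : Set ι, x '' s ⊆ A := by rintro s _ ⟨i, _, rfl⟩; exact hxmem i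
  have hmemim : ∀ (s : Set ι) (E : Ultrafilter ι), {i | x i ∈ x '' s} ∈ E → s ∈ E := by
    intro s E h
    refine Filter.mem_of_superset h ?_
    rintro i ⟨j, hj, hji⟩
    rw [← hx hji]; exact hj
  have hle : ∀ i, ∀ θ ∈ pcfS (x '' b i), θ ≤ x i := by
    intro i θ hθ
    obtain ⟨E, hE1, hE2⟩ := exists_uf_on hx ((himA _).trans hxA.ge) hθ
    exact hb2 i E θ (hmemim _ _ hE2) hE1
  have hble : ∀ i, ∀ j ∈ b i, x j ≤ x i := fun i j hj =>
    hle i _ (self_subset_pcfS (fun κ h => hreg _ (himA _ h)) ⟨j, hj, rfl⟩)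
  -- the finite sets `N i`
  have hN : ∀ i, ∃ t : Finset {j : ι // x j ∈ pcfS (x '' b i) ∧ x j < x i},
      {m | x m ∈ pcfS (x '' b i)} \ b i ⊆ ⋃ j ∈ t, b j.1 := by
    intro i
    refine uf_compact (fun j : {j : ι // x j ∈ pcfS (x '' b i) ∧ x j < x i} => b j.1) _ ?_
    intro E hE
    have hE1 : {m | x m ∈ pcfS (x '' b i)} ∈ E := Filter.mem_of_superset hE fun _ h => h.1
    have hE2 : b i ∉ E := by
      intro h
      have := Filter.inter_mem hE h
      refine E.empty_notMem (Filter.mem_of_superset this ?_)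
      rintro m ⟨⟨_, h1⟩, h2⟩
      exact h1 h2
    obtain ⟨j, hj⟩ := hex E
    have hsm : Small.{u} (x '' b i) := small_subset (himA _)
    have h1 : x j ∈ pcfS (x '' b i) := by
      have h2 : x j ∈ pcfS (x '' {m | x m ∈ pcfS (x '' b i)}) :=
        pcfS_of_mem hx hj (Filter.mem_of_superset hE1 fun m hm => ⟨m, hm, rfl⟩)
      refine pcfS_pcfS (k := k) (fun κ h => hreg _ (himA _ h)) ?_ ?_ ?_ h2
      · rintro _ ⟨m, hm, rfl⟩
        exact hm
      · rw [hk]; exact Cardinal.mk_le_mk_of_subset (himA _)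
      · intro κ h; exact hkν.trans (hνpos _ (himA _ h))
    have h3 : x j < x i := by
      refine lt_of_le_of_ne (hle i _ h1) ?_
      intro h
      rw [hx h] at hj
      exact hE2 (hb1 i E hj)
    exact ⟨⟨j, h1, h3⟩, hb1 j E hj⟩
  choose t ht using hN
  let N : ι → Set ι := fun i => (fun j : {j : ι // x j ∈ pcfS (x '' b i) ∧ x j < x i} => j.1) '' (t i)
  have hNfin : ∀ i, (N i).Finite := fun i => (t i).finite_toSet.image _
  have hN1 : ∀ i, ∀ j ∈ N i, x j ∈ pcfS (x '' b i) ∧ x j < x i := by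
    rintro i _ ⟨j, _, rfl⟩
    exact j.2
  have hN2 : ∀ i m, x m ∈ pcfS (x '' b i) → m ∈ b i ∨ ∃ j ∈ N i, m ∈ b j := by
    intro i m hm
    by_cases h : m ∈ b i
    · exact Or.inl h
    · right
      obtain ⟨j, hj, hj'⟩ := mem_iUnion₂.1 (ht i ⟨hm, h⟩)
      exact ⟨j.1, ⟨j, hj, rfl⟩, hj'⟩
  let r : ι → ι → Prop := fun i j => j ∈ N i
  let R : ι → Set ι := fun i => {j | Relation.ReflTransGen r i j}
  have hRfin : ∀ i, (R i).Finite := by
    intro i
    induction h : x i using WellFoundedLT.induction generalizing i with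
    | ind κ ih =>
      have h1 : R i ⊆ {i} ∪ ⋃ j ∈ N i, R j := by
        intro m hm
        rcases Relation.ReflTransGen.cases_head hm with h2 | ⟨j, h2, h3⟩
        · exact Or.inl h2.symm
        · exact Or.inr (mem_iUnion₂.2 ⟨j, h2, h3⟩)
      refine Set.Finite.subset ((Set.finite_singleton i).union ?_) h1
      refine (hNfin i).biUnion fun j hj => ?_
      exact ih (x j) (by rw [← h]; exact (hN1 i j hj).2) j rfl
  have hRle : ∀ i, ∀ j ∈ R i, x j ≤ x i := by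
    intro i j hj
    induction hj with
    | refl => exact le_rfl
    | tail _ h1 h2 => exact (hN1 _ _ h1).2.le.trans h2
  let bs : ι → Set ι := fun i => ⋃ j ∈ R i, b j
  have hRself : ∀ i, i ∈ R i := fun i => Relation.ReflTransGen.refl
  have hbbs : ∀ i, ∀ j ∈ R i, b j ⊆ bs i := fun i j hj m hm => mem_iUnion₂.2 ⟨j, hj, hm⟩
  -- closedness
  have hclosed : ∀ i m, x m ∈ pcfS (x '' bs i) → m ∈ bs i := by
    intro i m hm
    obtain ⟨E, hE1, hE2⟩ := exists_uf_on hx ((himA _).trans hxA.ge) hm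
    have hE3 : bs i ∈ E := hmemim _ _ hE2
    obtain ⟨j, hj, hjE⟩ := (Ultrafilter.finite_biUnion_mem_iff (hRfin i)).1 hE3
    have h1 : x m ∈ pcfS (x '' b j) :=
      pcfS_of_mem hx hE1 (Filter.mem_of_superset hjE fun m hm => ⟨m, hm, rfl⟩)
    rcases hN2 j m h1 with h2 | ⟨j', h2, h3⟩
    · exact hbbs i j hj h2
    · exact hbbs i j' (Relation.ReflTransGen.tail hj h2) h3
  -- transitivity
  have htrans : ∀ i, ∀ m ∈ bs i, bs m ⊆ bs i := by
    intro i m hm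
    obtain ⟨j, hj, hmj⟩ := mem_iUnion₂.1 hm
    have key : ∀ m', Relation.ReflTransGen r m m' → b m' ⊆ bs i := by
      intro m' hm'
      induction hm' with
      | refl => exact (hb3 j m hmj).trans (hbbs i j hj)
      | tail _ h1 h2 =>
        rename_i n n' _
        have h3 : x n' ∈ pcfS (x '' bs i) := pcfS_mono (image_mono h2) (hN1 n n' h1).1
        obtain ⟨j', hj', h4⟩ := mem_iUnion₂.1 (hclosed i n' h3)
        exact (hb3 j' n' h4).trans (hbbs i j' hj')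
    exact iUnion₂_subset fun m' hm' => key m' hm'
  let B : Cardinal.{u} → Set Cardinal.{u} := fun κ => {θ | ∃ i, x i = κ ∧ θ ∈ x '' bs i}
  have hBx : ∀ i, B (x i) = x '' bs i := by
    intro i
    ext θ
    constructor
    · rintro ⟨j, hj, h⟩
      rw [hx hj] at h; exact h
    · intro h
      exact ⟨i, rfl, h⟩
  have hAx : ∀ κ ∈ A, ∃ i, x i = κ := fun κ h => by rw [← hxA] at h; exact h
  refine ⟨B, ?_, ?_, ?_⟩
  · intro κ hκ
    obtain ⟨i, rfl⟩ := hAx κ hκ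
    rw [hBx]
    refine ⟨himA _, ?_, ?_, ?_⟩
    · intro θ hθ
      obtain ⟨m, rfl⟩ := hAx θ (hcl (pcfS_mono (himA _) hθ))
      exact ⟨m, hclosed i m hθ, rfl⟩
    · rintro _ ⟨m, hm, rfl⟩
      obtain ⟨j, hj, hmj⟩ := mem_iUnion₂.1 hm
      exact (hble j m hmj).trans (hRle i j hj)
    · rintro _ ⟨m, hm, rfl⟩
      rw [hBx]
      exact image_mono (htrans i m hm)
  · intro Z hZ κ hκ
    obtain ⟨D, hD1, hD2⟩ := exists_uf_on hx (hZ.trans hxA.ge) hκ
    obtain ⟨i, rfl⟩ := hAx κ (hcl (pcfS_mono hZ hκ))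
    refine pcfS_of_mem hx hD1 ?_
    filter_upwards [hD2, hb1 i D hD1] with m h1 h2
    refine ⟨h1, ?_⟩
    rw [hBx]
    exact ⟨m, hbbs i i (hRself i) h2, rfl⟩
  · intro Z hZ
    obtain ⟨s, hs⟩ := uf_compact (fun j : {j : ι // x j ∈ pcfS Z} => b j.1) {m | x m ∈ Z} (by
      intro E hE
      obtain ⟨j, hj⟩ := hex E
      exact ⟨⟨j, pcfS_of_mem hx hj hE⟩, hb1 j E hj⟩)
    refine ⟨(fun j : {j : ι // x j ∈ pcfS Z} => x j.1) '' s, s.finite_toSet.image _, ?_, ?_⟩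
    · rintro _ ⟨j, _, rfl⟩
      exact j.2
    · intro θ hθ
      obtain ⟨m, rfl⟩ := hAx θ (hZ hθ)
      obtain ⟨j, hj, hj'⟩ := mem_iUnion₂.1 (hs hθ)
      refine mem_iUnion₂.2 ⟨x j.1, ⟨j, hj, rfl⟩, ?_⟩
      rw [hBx]
      exact ⟨m, hbbs _ _ (hRself _) hj', rfl⟩

theorem mk_finite_subsets (E : Set Cardinal.{u}) :
    #{F : Set Cardinal.{u} | F.Finite ∧ F ⊆ E} ≤ max ℵ₀ #E := by
  classical
  have h1 : {F : Set Cardinal.{u} | F.Finite ∧ F ⊆ E} ⊆
      range (fun t : Finset E => (Subtype.val '' (t : Set E) : Set Cardinal.{u})) := by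
    rintro F ⟨hF, hFE⟩
    refine ⟨(hF.preimage Subtype.val_injective.injOn).toFinset, ?_⟩
    simp only [Set.Finite.coe_toFinset]
    rw [Subtype.image_preimage_coe, inter_eq_right.2 hFE]
  refine (Cardinal.mk_le_mk_of_subset h1).trans (Cardinal.mk_range_le.trans ?_)
  rcases finite_or_infinite E with h | h
  · exact (Cardinal.lt_aleph0_of_finite _).le.trans (le_max_left _ _)
  · rw [Cardinal.mk_finset_of_infinite]
    exact le_max_right _ _

/-- Representation of the pcf of an interval by sets with few traces. -/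
theorem trace_family {α γ : Ordinal.{u}} {κ : Cardinal.{u}} (h0 : ℵ₀ ≤ κ)
    (hκ : (α - γ).card ≤ κ) (hκγ : κ ≤ ℵ_ γ) (hα : Order.IsSuccLimit α) (hγα : γ < α) :
    ∃ B : Cardinal.{u} → Set Cardinal.{u},
      (∀ l ∈ pcfS (ival (ℵ_ γ) (ℵ_ α)), B l ⊆ ival (ℵ_ γ) (ℵ_ α) ∧ l ∈ pcfS (B l) ∧
        ∀ m ∈ pcfS (B l), m ≤ l) ∧
      ∀ W ⊆ ival (ℵ_ γ) (ℵ_ α),
        #((fun l => B l ∩ W) '' pcfS (ival (ℵ_ γ) (ℵ_ α))) ≤ max ℵ₀ #(pcfS W) := by
  classical
  have h6α : γ + (6 : ℕ) < α := by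
    have h1 : ((6 : ℕ) : Ordinal.{u}) < α - γ :=
      (Ordinal.natCast_lt_omega0 6).trans_le
        (Ordinal.omega0_le_of_isSuccLimit (sub_isSuccLimit hα hγα))
    exact Ordinal.lt_sub.1 h1
  set Y := ival (ℵ_ (γ + (6 : ℕ))) (ℵ_ α) with hY
  set L := ival' (ℵ_ γ) (ℵ_ (γ + (6 : ℕ))) with hL
  have hLfin : L.Finite := finite_ival γ 6
  have hLreg : ∀ κ ∈ L, κ.IsRegular := fun κ h => h.1
  have hYreg : ∀ κ ∈ Y, κ.IsRegular := fun κ h => h.1
  have hsplit : ival (ℵ_ γ) (ℵ_ α) = Y ∪ L := ival_split h6α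
  have hpcf : pcfS (ival (ℵ_ γ) (ℵ_ α)) = pcfS Y ∪ L := by
    rw [hsplit, pcfS_union, pcfS_finite hLfin hLreg]
  have hκ' : (α - (γ + (6 : ℕ))).card ≤ κ := by
    refine (Ordinal.card_le_card (Ordinal.sub_le.2 ?_)).trans hκ
    calc α ≤ γ + (α - γ) := Ordinal.le_add_sub _ _
      _ ≤ γ + (6 : ℕ) + (α - γ) := by
        rw [add_assoc]
        exact add_le_add_right le_add_self _
  have hρ := succN_le_aleph hκγ 6
  have hYsmall : Small.{u} Y := small_subset (show Y ⊆ Set.Iio (ℵ_ α) from fun κ h => h.2.2)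
  have hle : #(pcfS Y) ≤ Cardinal.lift.{u+1} (succN κ 3) := pcf_le h0 hκ' hρ h6α
  have hκa : ∀ θ ∈ Y, succN κ 3 < θ := fun θ h =>
    ((succN_mono κ (by norm_num : 3 ≤ 6)).trans hρ).trans_lt h.2.1
  have hAsmall : Small.{u} (pcfS Y) := Cardinal.small_iff_lift_mk_lt_univ.2 (by
    refine lt_of_le_of_lt ?_ (Cardinal.lift_lt_univ (succN κ 3))
    simpa using hle)
  have hYA : Y ⊆ pcfS Y := self_subset_pcfS hYreg
  obtain ⟨G, hG1, hG2, hG3⟩ := exists_closed_generators (A := pcfS Y)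
    (fun κ h => pcfS_isRegular h) (pcfS_pcfS hYreg subset_rfl hle hκa) (ν := succN κ 4)
    (succN_isRegular h0 3) ((h0.trans (le_succN κ 3)).trans_lt (succN_lt κ 3))
    (hle.trans_lt (Cardinal.lift_lt.2 (succN_lt κ 3)))
    (fun θ hθ => lt_of_mem_pcfS hYreg (fun κ' h => hρ.trans_lt h.2.1) hθ)
  refine ⟨fun l => if l ∈ L then {l} else G l ∩ Y, ?_, ?_⟩
  · intro l hl
    by_cases hlL : l ∈ L
    · have h1 : ({l} : Set Cardinal.{u}) ⊆ L := by rintro _ rfl; exact hlL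
      have h2 : pcfS ({l} : Set Cardinal.{u}) = {l} :=
        pcfS_finite (Set.finite_singleton l) fun κ h => hLreg _ (h1 h)
      simp only [if_pos hlL]
      rw [h2]
      exact ⟨h1.trans (by rw [hsplit]; exact subset_union_right), rfl, fun m hm => le_of_eq hm⟩
    · simp only [if_neg hlL]
      rw [hpcf] at hl
      have hlA : l ∈ pcfS Y := hl.resolve_right hlL
      refine ⟨inter_subset_right.trans (by rw [hsplit]; exact subset_union_left), ?_, ?_⟩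
      · rw [inter_comm]; exact hG2 Y hYA l hlA
      · intro m hm
        exact (hG1 l hlA).2.2.1 m ((hG1 l hlA).2.1 (pcfS_mono inter_subset_left hm))
  · intro W hW
    have hsub : (fun l => (if l ∈ L then ({l} : Set Cardinal.{u}) else G l ∩ Y) ∩ W) ''
        pcfS (ival (ℵ_ γ) (ℵ_ α)) ⊆
        ((fun l => ({l} : Set Cardinal.{u}) ∩ W) '' L) ∪
        ((fun F : Set Cardinal.{u} => (⋃ θ ∈ F, G θ) ∩ (Y ∩ W)) ''
          {F : Set Cardinal.{u} | F.Finite ∧ F ⊆ pcfS W}) := by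
      rintro _ ⟨l, hl, rfl⟩
      by_cases hlL : l ∈ L
      · left
        exact ⟨l, hlL, by simp only [if_pos hlL]⟩
      · right
        rw [hpcf] at hl
        have hlA : l ∈ pcfS Y := hl.resolve_right hlL
        obtain ⟨_, g2, _, g4⟩ := hG1 l hlA
        obtain ⟨F, hF1, hF2, hF3⟩ := hG3 (G l ∩ (Y ∩ W)) (fun θ h => hYA h.2.1)
        refine ⟨F, ⟨hF1, hF2.trans (pcfS_mono fun θ h => h.2.2)⟩, ?_⟩
        simp only [if_neg hlL]
        apply subset_antisymm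
        · rintro θ ⟨h1, h2, h3⟩
          obtain ⟨θ', h4, h5⟩ := mem_iUnion₂.1 h1
          have h6 : θ' ∈ G l := g2 (pcfS_mono inter_subset_left (hF2 h4))
          exact ⟨⟨g4 θ' h6 h5, h2⟩, h3⟩
        · rintro θ ⟨⟨h1, h2⟩, h3⟩
          exact ⟨hF3 ⟨h1, h2, h3⟩, h2, h3⟩
    refine (Cardinal.mk_le_mk_of_subset hsub).trans ((Cardinal.mk_union_le _ _).trans ?_)
    refine Cardinal.add_le_of_le (le_max_left _ _) ?_ ?_
    · refine (Cardinal.lt_aleph0_iff_set_finite.2 (hLfin.image _)).le.trans (le_max_left _ _)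
    · exact Cardinal.mk_image_le.trans (mk_finite_subsets _)

end Helper23.Pcf
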