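import Pool.Agent.Helper23.Pcf.GH2

set_option autoImplicit false

open Cardinal Ordinal Set Filter

universe u v

namespace Helper23.Pcf

theorem ival_mono {a b c d : Cardinal.{u}} (h : c ≤ a) (h' : b ≤ d) : ival a b ⊆ ival c d :=
  fun _ g => ⟨g.1, h.trans_lt g.2.1, g.2.2.trans_le h'⟩

theorem finite_pcf_le {s : Set Cardinal.{u}} (hs : s.Finite) (hreg : ∀ μ ∈ s, μ.IsRegular)
    {κ : Cardinal.{u}} (h0 : ℵ₀ ≤ κ) : #(pcfS s) ≤ Cardinal.lift.{u+1} κ := by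
  rw [pcfS_finite hs hreg]
  exact (Cardinal.lt_aleph0_iff_set_finite.2 hs).le.trans (Cardinal.aleph0_le_lift.2 h0)

/-- the pcf of a short interval is small below a limit cardinal -/
theorem small_pcf {κ : Cardinal.{u}} (h0 : ℵ₀ ≤ κ) (hlim : ∀ μ < κ, Order.succ μ < κ)
    {δ x : Ordinal.{u}} (hδ : κ ≤ ℵ_ δ) (hx : (x - δ).card < κ) :
    #(pcfS (ival (ℵ_ δ) (ℵ_ x))) ≤ Cardinal.lift.{u+1} κ := by
  have hreg : ∀ μ ∈ ival (ℵ_ δ) (ℵ_ x), μ.IsRegular := fun μ h => h.1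
  rcases lt_or_ge (x - δ).card ℵ₀ with hf | hf
  · refine finite_pcf_le ?_ hreg h0
    rw [← Cardinal.lt_aleph0_iff_set_finite]
    refine lt_of_le_of_lt (mk_le_card' (x := x) (y := δ) fun μ h => ⟨h.2.1, h.2.2⟩) ?_
    rw [Cardinal.lift_lt_aleph0]; exact hf
  · rcases lt_or_ge (δ + (6 : ℕ)) x with h6 | h6
    · have hfin : (ival' (ℵ_ δ) (ℵ_ (δ + (6 : ℕ)))).Finite := finite_ival δ 6
      rw [ival_split h6, pcfS_union]
      refine (Cardinal.mk_union_le _ _).trans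
        (Cardinal.add_le_of_le (Cardinal.aleph0_le_lift.2 h0) ?_
          (finite_pcf_le hfin (fun μ h => h.1) h0))
      have hmono : ∀ n : ℕ, succN (x - δ).card n < κ := by
        intro n
        induction n with
        | zero => exact hx
        | succ n ih => exact hlim _ ih
      refine (pcf_le (κ := (x - δ).card) hf ?_ ?_ h6).trans (Cardinal.lift_le.2 (hmono 3).le)
      · refine Ordinal.card_le_card (Ordinal.sub_le.2 ?_)
        calc x ≤ δ + (x - δ) := Ordinal.le_add_sub _ _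
          _ ≤ δ + (6 : ℕ) + (x - δ) := by
            rw [add_assoc]
            exact add_le_add_right le_add_self _
      · exact ((hmono 6).le.trans hδ).trans (Cardinal.aleph_le_aleph.2 le_self_add)
    · refine finite_pcf_le ((finite_ival δ 6).subset ?_) hreg h0
      exact fun μ h => ⟨h.1, h.2.1, h.2.2.le.trans (Cardinal.aleph_le_aleph.2 h6)⟩

theorem card_decomp {γ β : Ordinal.{u}} (h : γ ≤ β) : β.card = γ.card + (β - γ).card := by
  rw [← Ordinal.card_add, Ordinal.add_sub_cancel_of_le h]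

theorem aleph_eq_self_aux {α γ : Ordinal.{u}} {κ : Cardinal.{u}} (hγ : α.card = ℵ_ γ)
    (hγα : γ < α) (hκ : κ = (α - γ).card) {β : Ordinal.{u}} (hβ : γ + κ.ord ≤ β) (hβα : β ≤ α) :
    (β - γ).card = κ ∧ β.card = ℵ_ γ ∧ γ < β ∨ κ = 0 := by
  rcases eq_or_ne κ 0 with h0 | h0
  · exact Or.inr h0
  left
  have hγβ : γ < β := lt_of_lt_of_le (lt_add_of_pos_right _ (by
    rw [pos_iff_ne_zero]
    intro h
    rw [Cardinal.ord_eq_zero] at h
    exact h0 h)) hβ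
  have h1 : (β - γ).card = κ := by
    apply le_antisymm
    · rw [hκ]
      exact Ordinal.card_le_card (Ordinal.sub_le.2 (hβα.trans
        (Ordinal.add_sub_cancel_of_le hγα.le).ge))
    · have h2 : κ.ord ≤ β - γ := by
        by_contra hcon
        push Not at hcon
        rw [Ordinal.sub_lt_of_le hγβ.le] at hcon
        exact absurd hβ (not_le.2 hcon)
      have := Ordinal.card_le_card h2
      rwa [Cardinal.card_ord] at this
  refine ⟨h1, ?_, hγβ⟩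
  rw [card_decomp hγβ.le, h1, hκ, ← card_decomp hγα.le, hγ]

section least
variable {α γ : Ordinal.{u}} {κ : Cardinal.{u}} (hα : Order.IsSuccLimit α)
  (hγα : γ < α) (hκ : κ = (α - γ).card) (h0 : ℵ₀ ≤ κ) (hκγ : κ ≤ ℵ_ γ)
  (hbig : Cardinal.lift.{u+1} κ < #(pcfS (ival (ℵ_ γ) (ℵ_ α))))

include hκ hκγ hbig in
/-- small initial segments have bounded pcf -/
theorem least_closed {β : Ordinal.{u}} (hβα : β < α)
    (hβ : #(pcfS (ival (ℵ_ γ) (ℵ_ β))) ≤ Cardinal.lift.{u+1} κ) :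
    ∃ ξ < α, ∀ l ∈ pcfS (ival (ℵ_ γ) (ℵ_ β)), l < ℵ_ ξ := by
  by_contra hcon
  push Not at hcon
  have hcard : #(ival (ℵ_ γ) (ℵ_ β)) ≤ Cardinal.lift.{u+1} κ := by
    refine (mk_le_card' (x := β) (y := γ) fun μ h => ⟨h.2.1, h.2.2⟩).trans
      (Cardinal.lift_le.2 ?_)
    rw [hκ]
    exact Ordinal.card_le_card (Ordinal.sub_le.2 (hβα.le.trans (Ordinal.le_add_sub _ _)))
  have hsmall : Small.{u} (ival (ℵ_ γ) (ℵ_ β)) :=
    small_subset (show ival (ℵ_ γ) (ℵ_ β) ⊆ Set.Iio (ℵ_ β) from fun κ h => h.2.2)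
  have hsub : ival (ℵ_ γ) (ℵ_ α) ⊆ pcfS (ival (ℵ_ γ) (ℵ_ β)) := by
    intro μ hμ
    obtain ⟨z, hz⟩ := Cardinal.mem_range_aleph_iff.2 hμ.1.1
    have hzα : z < α := by rw [← Cardinal.aleph_lt_aleph, hz]; exact hμ.2.2
    obtain ⟨l, hl, hl'⟩ := hcon z hzα
    rw [hz] at hl'
    exact nohole rfl (hcard.trans (Cardinal.lift_le.2 hκγ)) (Cardinal.aleph0_le_aleph _) hl
      hμ.1 hμ.2.1 hl'
  have h1 : pcfS (ival (ℵ_ γ) (ℵ_ α)) ⊆ pcfS (ival (ℵ_ γ) (ℵ_ β)) := by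
    refine pcfS_pcfS (k := κ) (fun μ h => h.1) hsub ?_ fun μ h => hκγ.trans_lt h.2.1
    refine (mk_le_card' (x := α) (y := γ) fun μ h => ⟨h.2.1, h.2.2⟩).trans
      (Cardinal.lift_le.2 hκ.ge)
  exact absurd ((Cardinal.mk_le_mk_of_subset h1).trans hβ) (not_le.2 hbig)

include hα hγα hκ h0 hκγ in
/-- Covering of the members of the pcf -/
theorem least_cover (hcl : ∀ β < α, ∀ l ∈ pcfS (ival (ℵ_ γ) (ℵ_ β)), l < ℵ_ α)
    {lam : Cardinal.{u}} (hlam : lam ∈ pcfS (ival (ℵ_ (γ + (6 : ℕ))) (ℵ_ α))) :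
    ∃ F : Ordinal.{u} → Set Cardinal.{u}, (∀ i, (F i).Finite) ∧
      (∀ i < α, F i ⊆ ival (ℵ_ (γ + (6 : ℕ))) (ℵ_ α)) ∧
      ∀ J : Set Ordinal.{u}, UnbIn J α → lam ∈ pcfS (⋃ i ∈ J, F i) := by
  have h6α : γ + (6 : ℕ) < α := by
    have h1 : ((6 : ℕ) : Ordinal.{u}) < α - γ :=
      (Ordinal.natCast_lt_omega0 6).trans_le
        (Ordinal.omega0_le_of_isSuccLimit (sub_isSuccLimit hα hγα))
    exact Ordinal.lt_sub.1 h1
  obtain ⟨F, h1, h2, h3⟩ := localize_ival (κ := κ) h0 (by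
    rw [hκ]
    refine Ordinal.card_le_card (Ordinal.sub_le.2 ?_)
    calc α ≤ γ + (α - γ) := Ordinal.le_add_sub _ _
      _ ≤ γ + (6 : ℕ) + (α - γ) := by
        rw [add_assoc]
        exact add_le_add_right le_add_self _) (succN_le_aleph hκγ 6) h6α hlam
    (I := Ordinal.{u}) (fun i => Iio (ℵ_ i))
  refine ⟨F, h1, fun i hi l hl => ?_, fun J hJ => h3 J ?_⟩
  · have h4 := h2 i hl
    have h5 : Iio (ℵ_ i) ∩ ival (ℵ_ (γ + (6 : ℕ))) (ℵ_ α) ⊆ ival (ℵ_ γ) (ℵ_ i) := by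
      rintro μ ⟨g1, g2⟩
      exact ⟨g2.1, lt_of_le_of_lt (Cardinal.aleph_le_aleph.2 le_self_add) g2.2.1, g1⟩
    refine ⟨pcfS_isRegular h4, ?_, hcl i hi l (pcfS_mono h5 h4)⟩
    exact lt_of_mem_pcfS (fun μ h => h.2.1) (fun μ h => h.2.2.1) h4
  · intro μ hμ
    obtain ⟨z, hz⟩ := Cardinal.mem_range_aleph_iff.2 hμ.1.1
    have hzα : z < α := by rw [← Cardinal.aleph_lt_aleph, hz]; exact hμ.2.2
    obtain ⟨i, hi, hzi, _⟩ := hJ z hzα
    refine mem_iUnion₂.2 ⟨i, hi, ?_⟩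
    show μ < ℵ_ i
    rw [← hz, Cardinal.aleph_lt_aleph]; exact hzi

include hα hγα h0 hbig in
theorem least_big6 : Cardinal.lift.{u+1} κ < #(pcfS (ival (ℵ_ (γ + (6 : ℕ))) (ℵ_ α))) := by
  have h6α : γ + (6 : ℕ) < α := by
    have h1 : ((6 : ℕ) : Ordinal.{u}) < α - γ :=
      (Ordinal.natCast_lt_omega0 6).trans_le
        (Ordinal.omega0_le_of_isSuccLimit (sub_isSuccLimit hα hγα))
    exact Ordinal.lt_sub.1 h1
  by_contra hcon
  push Not at hcon
  rw [ival_split h6α, pcfS_union] at hbig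
  refine absurd ((Cardinal.mk_union_le _ _).trans
    (Cardinal.add_le_of_le (Cardinal.aleph0_le_lift.2 h0) hcon
      (finite_pcf_le (finite_ival γ 6) (fun μ h => h.1) h0))) (not_le.2 hbig)

/-- an unbounded set of size `cf α` on which `f` is bounded -/
theorem unb_bound {R : Set Ordinal.{u}} (hR : UnbIn R α) (hRα : R ⊆ Iio α)
    (hRc : #R ≤ Cardinal.lift.{u+1} α.cof)
    (h0 : ℵ₀ ≤ κ) (hne : α.cof ≠ κ.ord.cof) (f : Ordinal.{u} → Ordinal.{u})
    (hf : ∀ i ∈ R, f i < κ.ord) : ∃ y < κ.ord, UnbIn {i | i ∈ R ∧ f i ≤ y} α := by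
  classical
  have hκlim : Order.IsSuccLimit κ.ord := Cardinal.isSuccLimit_ord h0
  have hRsm : Small.{u} R := small_subset hRα
  rcases lt_or_gt_of_ne hne with hlt | hgt
  · refine ⟨⨆ i : Shrink.{u} R, f ((equivShrink R).symm i).1, ?_, ?_⟩
    · refine Ordinal.iSup_lt_of_lt_cof ?_ fun i => hf _ ((equivShrink R).symm i).2
      refine lt_of_le_of_lt ?_ hlt
      have : Cardinal.lift.{u+1} #(Shrink.{u} R) ≤ #R :=
        lift_mk_le_of_inj _ (equivShrink R).symm.injective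
      exact Cardinal.lift_le.1 (this.trans hRc)
    · refine hR.mono fun i hi => ⟨hi, ?_⟩
      have := Ordinal.le_iSup (fun i : Shrink.{u} R => f ((equivShrink R).symm i).1)
        (equivShrink R ⟨i, hi⟩)
      simpa using this
  · obtain ⟨R', hR', hR's, hR'c⟩ := exists_small_club hκlim
    have hR'sm : Small.{u} R' := small_subset hR's
    by_contra hcon
    push Not at hcon
    have hb : ∀ r : Shrink.{u} R', ∃ x < α, ∀ i ∈ R, f i ≤ ((equivShrink R').symm r).1 → i ≤ x := by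
      intro r
      have h1 := hcon ((equivShrink R').symm r).1 (hR's ((equivShrink R').symm r).2)
      simp only [UnbIn, not_forall] at h1
      obtain ⟨x, hx, hx'⟩ := h1
      refine ⟨x, hx, fun i hi hfi => ?_⟩
      by_contra hlt
      exact hx' ⟨i, ⟨hi, hfi⟩, not_le.1 hlt, hRα hi⟩
    choose b hb1 hb2 using hb
    have hsup : (⨆ r, b r) < α := by
      refine Ordinal.iSup_lt_of_lt_cof ?_ hb1
      refine lt_of_le_of_lt ?_ hgt
      have : Cardinal.lift.{u+1} #(Shrink.{u} R') ≤ #R' :=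
        lift_mk_le_of_inj _ (equivShrink R').symm.injective
      exact Cardinal.lift_le.1 (this.trans hR'c)
    obtain ⟨i, hi, hi1, _⟩ := hR _ hsup
    obtain ⟨r, hr, hr1, _⟩ := hR'.unb _ (hf i hi)
    have h2 := hb2 (equivShrink R' ⟨r, hr⟩) i hi (by simpa using hr1.le)
    exact absurd (h2.trans (Ordinal.le_iSup b _)) (not_le.2 hi1)

include h0 hκγ in
/-- bounded parts have small pcf -/
theorem least_small (hL : ∀ β < α, Order.IsSuccLimit β → γ + κ.ord ≤ β →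
      #(pcfS (ival (ℵ_ γ) (ℵ_ β))) ≤ Cardinal.lift.{u+1} κ)
    (h1 : κ.ord < α - γ ∨ ∀ μ < κ, Order.succ μ < κ) (β : Ordinal.{u}) (hβ : β < α) :
    #(pcfS (ival (ℵ_ γ) (ℵ_ β))) ≤ Cardinal.lift.{u+1} κ := by
  have hκlim : Order.IsSuccLimit κ.ord := Cardinal.isSuccLimit_ord h0
  induction β using Ordinal.limitRecOn with
  | zero =>
    have : ival (ℵ_ γ) (ℵ_ (0 : Ordinal.{u})) = ∅ := by
      ext μ
      simp only [ival, mem_ofPred_eq, mem_empty_iff_false, iff_false, not_and, not_lt]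
      intro _ h
      exact (Cardinal.aleph_le_aleph.2 zero_le).trans h.le
    rw [this, pcfS_empty]; simp
  | add_one β ih =>
    have h2 : ival (ℵ_ γ) (ℵ_ (β + 1)) ⊆ ival (ℵ_ γ) (ℵ_ β) ∪ {μ | μ.IsRegular ∧ μ = ℵ_ β} := by
      rintro μ ⟨g1, g2, g3⟩
      rw [← Cardinal.succ_aleph, Order.lt_succ_iff] at g3
      rcases g3.eq_or_lt with h | h
      · exact Or.inr ⟨g1, h⟩
      · exact Or.inl ⟨g1, g2, h⟩
    refine (Cardinal.mk_le_mk_of_subset (pcfS_mono h2)).trans ?_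
    rw [pcfS_union]
    refine (Cardinal.mk_union_le _ _).trans
      (Cardinal.add_le_of_le (Cardinal.aleph0_le_lift.2 h0)
        (ih ((Order.lt_add_one_iff.2 le_rfl).trans hβ)) (finite_pcf_le ?_ (fun μ h => h.1) h0))
    exact (Set.finite_singleton (ℵ_ β)).subset fun μ h => h.2
  | limit β hβlim _ =>
    rcases le_or_gt (γ + κ.ord) β with h | h
    · exact hL β hβ hβlim h
    · rcases h1 with h1 | h1
      · have h3 : γ + κ.ord < α := Ordinal.lt_sub.1 h1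
        refine (Cardinal.mk_le_mk_of_subset (pcfS_mono (ival_mono le_rfl
          (Cardinal.aleph_le_aleph.2 h.le)))).trans ?_
        exact hL _ h3 (Ordinal.isSuccLimit_add _ hκlim) le_rfl
      · refine small_pcf h0 h1 hκγ ?_
        rcases le_total β γ with h4 | h4
        · rw [Ordinal.sub_eq_zero_iff_le.2 h4, Ordinal.card_zero]
          exact lt_of_lt_of_le aleph0_pos h0
        · exact Cardinal.lt_ord.1 ((Ordinal.sub_lt_of_le h4).2 h)

include hα hγα hκ h0 hκγ hbig in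
/-- `κ < κ ^ cf(α)` -/
theorem least_pow (hL : ∀ β < α, Order.IsSuccLimit β → γ + κ.ord ≤ β →
      #(pcfS (ival (ℵ_ γ) (ℵ_ β))) ≤ Cardinal.lift.{u+1} κ) : κ < κ ^ α.cof := by
  have hle : κ.ord ≤ α - γ := by rw [Cardinal.ord_le, hκ]
  have hκ0 : κ.ord ≠ 0 := by
    rw [Ne, Cardinal.ord_eq_zero]
    exact (aleph0_pos.trans_le h0).ne'
  rcases hle.eq_or_lt with heq | hlt
  · have h1 : α.cof = κ.ord.cof := by
      rw [← Ordinal.add_sub_cancel_of_le hγα.le, ← heq, Ordinal.cof_add _ hκ0]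
    rw [h1]
    exact Cardinal.lt_power_cof_ord h0
  · by_contra hcon
    push Not at hcon
    have hcof0 : ℵ₀ ≤ α.cof := Ordinal.aleph0_le_cof_iff.2 (Ordinal.one_lt_cof_iff.2 hα)
    have hsmall := least_small h0 hκγ hL (Or.inl hlt)
    have hcl : ∀ β < α, ∀ l ∈ pcfS (ival (ℵ_ γ) (ℵ_ β)), l < ℵ_ α := by
      intro β hβ l hl
      obtain ⟨ξ, hξ, h⟩ := least_closed hκ hκγ hbig hβ (hsmall β hβ)
      exact (h l hl).trans (Cardinal.aleph_lt_aleph.2 hξ)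
    obtain ⟨R, hR, hRα, hRc⟩ := exists_small_club hα
    set B := ival (ℵ_ (γ + (6 : ℕ))) (ℵ_ α) with hB
    have hBc : #B ≤ Cardinal.lift.{u+1} κ := by
      refine (Cardinal.mk_le_mk_of_subset (ival_mono (Cardinal.aleph_le_aleph.2 le_self_add)
        le_rfl)).trans ((mk_le_card' (x := α) (y := γ) fun μ h => ⟨h.2.1, h.2.2⟩).trans
        (Cardinal.lift_le.2 hκ.ge))
    set T : Set (Set Cardinal.{u}) := {t | t ⊆ B ∧ #t ≤ Cardinal.lift.{u+1} α.cof} with hT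
    have hTc : #T ≤ Cardinal.lift.{u+1} κ := by
      refine (Cardinal.mk_bounded_subset_le B _).trans ?_
      refine (Cardinal.power_le_power_right (max_le hBc (Cardinal.aleph0_le_lift.2 h0))).trans ?_
      rw [← Cardinal.lift_power]
      exact Cardinal.lift_le.2 hcon
    have h2le : (2 : Cardinal.{u}) ≤ κ := by
      have : ((2 : ℕ) : Cardinal.{u}) < ℵ₀ := Cardinal.natCast_lt_aleph0
      exact_mod_cast this.le.trans h0
    have h2κ : 2 ^ α.cof ≤ κ := (Cardinal.power_le_power_right h2le).trans hcon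
    have hsub : pcfS B ⊆ ⋃ t ∈ T, pcfS t := by
      intro lam hlam
      obtain ⟨F, h1, h2, h3⟩ := least_cover hα hγα hκ h0 hκγ hcl hlam
      refine mem_iUnion₂.2 ⟨⋃ i ∈ R, F i, ⟨?_, ?_⟩, h3 R hR.unb⟩
      · exact iUnion₂_subset fun i hi => h2 i (hRα hi)
      · refine (Cardinal.mk_biUnion_le _ _).trans ?_
        refine Cardinal.mul_le_of_le (Cardinal.aleph0_le_lift.2 hcof0) hRc (ciSup_le' fun i => ?_)
        exact (Cardinal.lt_aleph0_iff_set_finite.2 (h1 i.1)).le.trans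
          (Cardinal.aleph0_le_lift.2 hcof0)
    refine absurd (least_big6 hα hγα h0 hbig) (not_lt.2 ?_)
    refine (Cardinal.mk_le_mk_of_subset hsub).trans ((Cardinal.mk_biUnion_le _ _).trans ?_)
    refine Cardinal.mul_le_of_le (Cardinal.aleph0_le_lift.2 h0) hTc (ciSup_le' fun t => ?_)
    obtain ⟨k, hk⟩ := Cardinal.mem_range_lift_of_le t.2.2
    have hkc : k ≤ α.cof := by
      have := t.2.2
      rw [← hk] at this
      exact Cardinal.lift_le.1 this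
    have h2k : 2 ^ k ≤ κ := (Cardinal.power_le_power_left two_ne_zero hkc).trans h2κ
    refine (mk_pcfS_le (fun μ h => (t.2.1 h).1) hk.symm fun μ h => ?_).trans
      (Cardinal.lift_le.2 h2k)
    exact (h2k.trans (hκγ.trans (Cardinal.aleph_le_aleph.2 le_self_add))).trans_lt (t.2.1 h).2.1

include hγα hκ h0 hbig in
/-- divisibility -/
theorem least_dvd (hL : ∀ β < α, Order.IsSuccLimit β → γ + κ.ord ≤ β →
      #(pcfS (ival (ℵ_ γ) (ℵ_ β))) ≤ Cardinal.lift.{u+1} κ)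
    (H : ∀ δ, γ ≤ δ → (α - δ).card < κ →
      #(pcfS (ival (ℵ_ δ) (ℵ_ α))) ≤ Cardinal.lift.{u+1} κ) : κ.ord ∣ α - γ := by
  have hκlim : Order.IsSuccLimit κ.ord := Cardinal.isSuccLimit_ord h0
  have hκ0 : κ.ord ≠ 0 := hκlim.bot_lt.ne'
  have hle : κ.ord ≤ α - γ := by rw [Cardinal.ord_le, hκ]
  set q := (α - γ) / κ.ord with hq
  set r := (α - γ) % κ.ord with hr
  have hqr : κ.ord * q + r = α - γ := Ordinal.div_add_mod _ _
  have hrκ : r < κ.ord := Ordinal.mod_lt _ hκ0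
  by_cases hr0 : r = 0
  · exact ⟨q, by rw [← hqr, hr0, add_zero]⟩
  exfalso
  have hq0 : 0 < q := by
    rw [pos_iff_ne_zero]
    intro h
    rw [h, mul_zero, zero_add] at hqr
    rw [← hqr] at hle
    exact absurd hrκ (not_lt.2 hle)
  set β := γ + κ.ord * q with hβ
  have hβr : β + r = α := by
    rw [hβ, add_assoc, hqr, Ordinal.add_sub_cancel_of_le hγα.le]
  have hβα : β < α := by
    rw [← hβr]
    exact lt_add_of_pos_right _ (pos_iff_ne_zero.2 hr0)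
  have hβlim : Order.IsSuccLimit β :=
    Ordinal.isSuccLimit_add _ (Ordinal.isSuccLimit_mul_left hκlim hq0)
  have hκβ : γ + κ.ord ≤ β := by
    rw [hβ]
    exact add_le_add_right (Ordinal.le_mul_left _ hq0) γ
  have h1 := hL β hβα hβlim hκβ
  have h2 := H β le_self_add (by
    rw [← hβr, Ordinal.add_sub_cancel]
    exact Cardinal.lt_ord.1 hrκ)
  have h3 : ival (ℵ_ γ) (ℵ_ α) ⊆ (ival (ℵ_ γ) (ℵ_ β) ∪ {μ | μ.IsRegular ∧ μ = ℵ_ β}) ∪
      ival (ℵ_ β) (ℵ_ α) := by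
    rintro μ ⟨g1, g2, g3⟩
    rcases lt_trichotomy μ (ℵ_ β) with h | h | h
    · exact Or.inl (Or.inl ⟨g1, g2, h⟩)
    · exact Or.inl (Or.inr ⟨g1, h⟩)
    · exact Or.inr ⟨g1, h, g3⟩
  refine absurd hbig (not_lt.2 ((Cardinal.mk_le_mk_of_subset (pcfS_mono h3)).trans ?_))
  rw [pcfS_union, pcfS_union]
  have hinf := Cardinal.aleph0_le_lift.2 h0
  refine (Cardinal.mk_union_le _ _).trans (Cardinal.add_le_of_le hinf
    ((Cardinal.mk_union_le _ _).trans (Cardinal.add_le_of_le hinf h1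
      (finite_pcf_le ?_ (fun μ h => h.1) h0))) h2)
  exact (Set.finite_singleton (ℵ_ β)).subset fun μ h => h.2

include hα hγα hκ h0 hκγ hbig in
/-- cofinality -/
theorem least_cof (hL : ∀ β < α, Order.IsSuccLimit β → γ + κ.ord ≤ β →
      #(pcfS (ival (ℵ_ γ) (ℵ_ β))) ≤ Cardinal.lift.{u+1} κ)
    (H : ∀ P ⊆ ival (ℵ_ γ) (ℵ_ α), #P < Cardinal.lift.{u+1} κ →
      #(pcfS P) ≤ Cardinal.lift.{u+1} κ) : α.cof = κ.ord.cof := by
  have hκlim : Order.IsSuccLimit κ.ord := Cardinal.isSuccLimit_ord h0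
  have hκ0 : κ.ord ≠ 0 := hκlim.bot_lt.ne'
  have hle : κ.ord ≤ α - γ := by rw [Cardinal.ord_le, hκ]
  rcases hle.eq_or_lt with heq | hlt
  · rw [← Ordinal.add_sub_cancel_of_le hγα.le, ← heq, Ordinal.cof_add _ hκ0]
  by_contra hne
  have hsmall := least_small h0 hκγ hL (Or.inl hlt)
  have hcl : ∀ β < α, ∀ l ∈ pcfS (ival (ℵ_ γ) (ℵ_ β)), l < ℵ_ α := by
    intro β hβ l hl
    obtain ⟨ξ, hξ, h⟩ := least_closed hκ hκγ hbig hβ (hsmall β hβ)
    exact (h l hl).trans (Cardinal.aleph_lt_aleph.2 hξ)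
  obtain ⟨R, hR, hRα, hRc⟩ := exists_small_club hα
  obtain ⟨R', hR', hR's, hR'c⟩ := exists_small_club hκlim
  set B := ival (ℵ_ (γ + (6 : ℕ))) (ℵ_ α) with hB
  have hBA : B ⊆ ival (ℵ_ γ) (ℵ_ α) := ival_mono (Cardinal.aleph_le_aleph.2 le_self_add) le_rfl
  have hBc : #B ≤ Cardinal.lift.{u+1} κ :=
    (Cardinal.mk_le_mk_of_subset hBA).trans ((mk_le_card' (x := α) (y := γ)
      fun μ h => ⟨h.2.1, h.2.2⟩).trans (Cardinal.lift_le.2 hκ.ge))
  obtain ⟨idx, hidx, hidx'⟩ := exists_idx hBc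
  have hsub : pcfS B ⊆ ⋃ y ∈ R', pcfS {θ | θ ∈ B ∧ idx θ < y} := by
    intro lam hlam
    obtain ⟨F, h1, h2, h3⟩ := least_cover hα hγα hκ h0 hκγ hcl hlam
    have hf : ∀ i, ∃ y, i < α → y < κ.ord ∧ ∀ θ ∈ F i, idx θ < y := by
      intro i
      by_cases hi : i < α
      · obtain ⟨y, h4, h5⟩ := finite_bound hκlim ((h1 i).image idx) (by
          rintro _ ⟨θ, hθ, rfl⟩
          exact hidx' θ (h2 i hi hθ))
        exact ⟨y, fun _ => ⟨h4, fun θ hθ => h5 _ ⟨θ, hθ, rfl⟩⟩⟩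
      · exact ⟨0, fun h => absurd h hi⟩
    choose f hf using hf
    obtain ⟨y, hy, hunb⟩ := unb_bound hR.unb hRα hRc h0 hne f fun i hi => (hf i (hRα hi)).1
    obtain ⟨y', hy', hyy', _⟩ := hR'.unb y hy
    refine mem_iUnion₂.2 ⟨y', hy', pcfS_mono ?_ (h3 _ hunb)⟩
    intro θ hθ
    obtain ⟨i, ⟨hi, hi'⟩, hθ'⟩ := mem_iUnion₂.1 hθ
    exact ⟨h2 i (hRα hi) hθ', ((hf i (hRα hi)).2 θ hθ').trans (hi'.trans_lt hyy')⟩
  refine absurd (least_big6 hα hγα h0 hbig) (not_lt.2 ?_)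
  refine (Cardinal.mk_le_mk_of_subset hsub).trans ((Cardinal.mk_biUnion_le _ _).trans ?_)
  refine Cardinal.mul_le_of_le (Cardinal.aleph0_le_lift.2 h0)
    (hR'c.trans (Cardinal.lift_le.2 (Ordinal.cof_ord_le κ))) (ciSup_le' fun y => ?_)
  refine H _ (fun θ hθ => hBA hθ.1) ((mk_idx_lt hidx y.1).trans_lt ?_)
  exact Cardinal.lift_lt.2 (Cardinal.lt_ord.1 (hR's y.2))

end least

end Helper23.Pcf
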