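import Pool.Agent.Helper23.Pcf.Trans

set_option autoImplicit false

open Cardinal Ordinal Set Filter

universe u

namespace Helper23.Pcf

variable {ι : Type u}

/-- arities of the closure operations -/
def arity (ι : Type u) : ι ⊕ ι → Type u := Sum.elim (fun _ => PEmpty) (fun _ => ι)

/-- evaluation of terms -/
noncomputable def evalW (c0 : ι → Ordinal.{u}) (H : (ι → Ordinal.{u}) → ι → Ordinal.{u}) :
    WType (arity ι) → Ordinal.{u}
  | ⟨Sum.inl x, _⟩ => c0 x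
  | ⟨Sum.inr x, s⟩ => H (fun y => evalW c0 H (s y)) x

theorem mk_wtype_le {κ : Cardinal.{u}} (h0 : ℵ₀ ≤ κ) (h1 : #ι ≤ κ) (h2 : κ ^ #ι ≤ κ) :
    #(WType (arity ι)) ≤ κ := by
  apply WType.cardinalMk_le_of_le
  have hle : (Cardinal.sum fun a => κ ^ #(arity ι a)) ≤ Cardinal.sum fun _ : ι ⊕ ι => κ := by
    apply Cardinal.sum_le_sum
    rintro (i | i)
    · show κ ^ #(PEmpty : Type u) ≤ κ
      simp only [Cardinal.mk_pempty, Cardinal.power_zero]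
      exact one_le_aleph0.trans h0
    · exact h2
  refine hle.trans ?_
  rw [Cardinal.sum_const', Cardinal.mk_sum]
  simp only [Cardinal.lift_id]
  refine (mul_le_mul' (add_le_add h1 h1) le_rfl).trans ?_
  rw [Cardinal.add_eq_self h0, Cardinal.mul_eq_self h0]

/-- Increasing sequences of regular length `θ > κ = κ ^ #ι` have least upper bounds. -/
theorem exists_lub (D : Ultrafilter ι) (c0 : ι → Ordinal.{u}) {θ κ : Cardinal.{u}}
    (hθ : θ.IsRegular) (h0 : ℵ₀ ≤ κ) (h1 : #ι ≤ κ) (h2 : κ ^ #ι ≤ κ) (hκθ : κ < θ)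
    (f : Ordinal.{u} → ι → Ordinal.{u}) (hf : ∀ ξ < θ.ord, ∀ i, f ξ i < c0 i)
    (hmono : ∀ ξ η, ξ < η → η < θ.ord → dlt D (f ξ) (f η)) :
    ∃ c : ι → Ordinal.{u}, (∀ i, c i ≤ c0 i) ∧ (∀ ξ < θ.ord, dlt D (f ξ) c) ∧
      ∀ g, dlt D g c → ∃ ξ < θ.ord, dlt D g (f ξ) := by
  classical
  let P : (ι → Ordinal.{u}) → (ι → Ordinal.{u}) → Prop := fun c h =>
    dlt D h c ∧ ∀ ξ < θ.ord, dle D (f ξ) h
  let H : (ι → Ordinal.{u}) → ι → Ordinal.{u} := fun c =>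
    if h : ∃ h, P c h then Classical.choose h else 0
  have hH : ∀ c, (∃ h, P c h) → P c (H c) := by
    intro c h
    simp only [H, dif_pos h]
    exact Classical.choose_spec h
  let W := WType (arity ι)
  let ev : W → Ordinal.{u} := evalW c0 H
  have hW : #W ≤ κ := mk_wtype_le h0 h1 h2
  -- projections
  have hleaf : ∀ i, ∃ w : W, ev w = c0 i := fun i => ⟨⟨Sum.inl i, PEmpty.elim⟩, by simp [ev, evalW]⟩
  have hnode : ∀ (s : ι → W) (i : ι), ∃ w : W, ev w = H (fun y => ev (s y)) i := fun s i =>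
    ⟨⟨Sum.inr i, s⟩, by simp [ev, evalW]⟩
  have hw : ∀ ξ i, ∃ w : W, ξ < θ.ord → (f ξ i ≤ ev w ∧ ∀ w', f ξ i ≤ ev w' → ev w ≤ ev w') := by
    intro ξ i
    by_cases hξ : ξ < θ.ord
    · obtain ⟨w0, hw0⟩ := hleaf i
      have hmem := csInf_mem (s := {ν | ∃ w : W, ev w = ν ∧ f ξ i ≤ ν})
        ⟨c0 i, w0, hw0, (hf ξ hξ i).le⟩
      obtain ⟨w, hw, hw'⟩ := hmem
      refine ⟨w, fun _ => ⟨by rw [hw]; exact hw', fun w' hw'' => ?_⟩⟩
      rw [hw]
      exact csInf_le' ⟨w', rfl, hw''⟩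
    · obtain ⟨w0, hw0⟩ := hleaf i
      exact ⟨w0, fun h => absurd h hξ⟩
  choose w hw using hw
  have hcard : #(ι → W) < θ := by
    refine lt_of_le_of_lt ?_ hκθ
    rw [← Cardinal.power_def]
    exact (Cardinal.power_le_power_right hW).trans h2
  obtain ⟨s, hs⟩ := exists_unbounded_fiber hθ hcard w
  have hsF : ∀ ξ < θ.ord, ∃ η, ξ < η ∧ η < θ.ord ∧ ∀ i, f η i ≤ ev (s i) ∧
      ∀ w', f η i ≤ ev w' → ev (s i) ≤ ev w' := by
    intro ξ hξ
    obtain ⟨η, h1, h2, h3⟩ := hs ξ hξ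
    refine ⟨η, h1, h2, fun i => ?_⟩
    rw [← h3]
    exact hw η i h2
  refine ⟨fun i => ev (s i), ?_, ?_, ?_⟩
  · intro i
    obtain ⟨η, _, h4, h5⟩ := hsF 0 (hθ.ord_pos)
    obtain ⟨w0, hw0⟩ := hleaf i
    rw [← hw0]
    exact (h5 i).2 w0 (by rw [hw0]; exact (hf η h4 i).le)
  · intro ξ hξ
    obtain ⟨η, h3, h4, h5⟩ := hsF ξ hξ
    exact (hmono ξ η h3 h4).trans_dle (dle_of_forall fun i => (h5 i).1)
  · intro g hg
    by_contra hcon
    push Not at hcon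
    have hP : P (fun i => ev (s i)) (H (fun i => ev (s i))) :=
      hH _ ⟨g, hg, fun ξ hξ => not_dlt.1 (hcon ξ hξ)⟩
    obtain ⟨η, _, h4, h5⟩ := hsF 0 (hθ.ord_pos)
    obtain ⟨i, hi1, hi2⟩ := ((hP.1).and (hP.2 η h4)).exists
    obtain ⟨w', hw'⟩ := hnode s i
    have := (h5 i).2 w' (by rw [hw']; exact hi2)
    rw [hw'] at this
    exact absurd hi1 (not_lt.2 this)

end Helper23.Pcf
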