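import Pool.Agent.Helper23.Pcf.Sets

set_option autoImplicit false

open Cardinal Ordinal Set Filter

universe u

namespace Helper23.Pcf

/-- Absence of holes, in the regime `ρ ^ |a| = ρ < min a`. -/
theorem nohole_elem {a : Set Cardinal.{u}} [Small.{u} a] {k ρ σ l θ : Cardinal.{u}}
    (ha : a = {κ | κ.IsRegular ∧ ρ < κ ∧ κ < σ}) (hk : #a ≤ Cardinal.lift.{u+1} k)
    (hρ0 : ℵ₀ ≤ ρ) (hρk : ρ ^ k ≤ ρ) (hkρ : k ≤ ρ) (hl : l ∈ pcfS a) (hθ : θ.IsRegular)
    (hρθ : ρ < θ) (hθl : θ ≤ l) : θ ∈ pcfS a := by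
  classical
  have hareg : ∀ κ ∈ a, κ.IsRegular := by rw [ha]; exact fun κ h => h.1
  by_cases hθσ : θ < σ
  · apply self_subset_pcfS hareg
    rw [ha]; exact ⟨hθ, hρθ, hθσ⟩
  obtain ⟨ι, c, D, g1, g2, H⟩ := hl
  have hι : #ι ≤ k := Cardinal.lift_le.1
    ((lift_mk_le_of_inj (fun i : ι => (⟨c i, g2 i⟩ : a))
      (fun i j h => g1 (congrArg Subtype.val h))).trans hk)
  have hρι : ρ ^ #ι ≤ ρ :=
    (Cardinal.power_le_power_left (lt_of_lt_of_le aleph0_pos hρ0).ne' hι).trans hρk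
  have hcpos : ∀ i, 0 < (c i).ord := fun i => (hareg _ (g2 i)).ord_pos
  obtain ⟨f, hf1, hf2, hf3⟩ := H.exists_scale
  have htr : ∀ ξ, ∃ g : ι → Ordinal.{u}, ξ < l.ord → (∀ i, g i < (c i).ord) ∧
      dle D (f ξ) g ∧ dle D g (f ξ) := by
    intro ξ
    by_cases hξ : ξ < l.ord
    · obtain ⟨g, h⟩ := exists_trunc hcpos D (hf1 ξ hξ)
      exact ⟨g, fun _ => h⟩
    · exact ⟨0, fun h => absurd h hξ⟩
  choose f' hf' using htr
  have hθl' : θ.ord ≤ l.ord := Cardinal.ord_le_ord.2 hθl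
  obtain ⟨c1, hc1, hc2, hc3⟩ := exists_lub D (fun i => (c i).ord) hθ hρ0 (hι.trans hkρ) hρι hρθ
    f' (fun ξ hξ i => (hf' ξ (lt_of_lt_of_le hξ hθl')).1 i)
    (fun ξ η h hη => by
      have h1 := (hf' ξ (lt_of_lt_of_le (h.trans hη) hθl')).2.2
      have h2 := (hf' η (lt_of_lt_of_le hη hθl')).2.1
      exact (h1.trans_dlt (hf2 ξ η h (lt_of_lt_of_le hη hθl'))).trans_dle h2)
  have H1 : HasCof D c1 θ := by
    refine hasCof_of_scale hθ f' hc2 ?_ hc3
    intro ξ η h hη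
    have h1 := (hf' ξ (lt_of_lt_of_le (h.trans hη) hθl')).2.2
    have h2 := (hf' η (lt_of_lt_of_le hη hθl')).2.1
    exact (h1.trans_dlt (hf2 ξ η h (lt_of_lt_of_le hη hθl'))).trans_dle h2
  have H2 := H1.cof_values
  have hbig : ∀ᶠ i in D, ρ < (c1 i).cof := by
    by_contra hcon
    rw [← Ultrafilter.eventually_not] at hcon
    have : θ ≤ ρ ^ #ι := H2.le_power (hcon.mono fun i hi => Cardinal.ord_le_ord.2 (not_lt.1 hi))
    exact absurd (lt_of_le_of_lt (this.trans hρι) hρθ) (lt_irrefl _)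
  have hmem : ∀ i, ρ < (c1 i).cof → (c1 i).cof ∈ a := by
    intro i hi
    have h1 : ℵ₀ ≤ (c1 i).cof := hρ0.trans hi.le
    have h2 : (c1 i).cof ≤ c i := by
      refine (Ordinal.cof_le_card _).trans ?_
      have := Ordinal.card_le_card (hc1 i)
      simpa using this
    have h3 : c i < σ := by
      have := g2 i
      rw [ha] at this
      exact this.2.2
    rw [ha]
    exact ⟨Cardinal.isRegular_cof (Ordinal.one_lt_cof_iff.1 (Ordinal.aleph0_le_cof_iff.1 h1)), hi, lt_of_le_of_lt h2 h3⟩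
  obtain ⟨i0, hi0⟩ := hbig.exists
  let c' : Shrink.{u} a → Cardinal.{u} := fun i => ((equivShrink a).symm i).1
  have hc' : Function.Injective c' := fun i j h =>
    (equivShrink a).symm.injective (Subtype.ext h)
  have hc'mem : ∀ i, c' i ∈ a := fun i => ((equivShrink a).symm i).2
  let y : ι → Shrink.{u} a := fun i =>
    if h : ρ < (c1 i).cof then equivShrink a ⟨(c1 i).cof, hmem i h⟩
    else equivShrink a ⟨(c1 i0).cof, hmem i0 hi0⟩
  refine ⟨Shrink.{u} a, c', D.map y, hc', hc'mem, H2.map y ?_ ?_⟩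
  · filter_upwards [hbig] with i hi
    simp [y, hi, c']
  · intro j
    rw [(hareg _ (hc'mem j)).cof_ord]
    have := hc'mem j
    rw [ha] at this
    exact lt_of_le_of_lt (hι.trans hkρ) this.2.1

end Helper23.Pcf
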