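import Pool.Agent.Helper23.Pcf.Package
import Pool.Agent.Helper23.Pcf.Guess

set_option autoImplicit false

open Cardinal Ordinal Set Filter

universe u v

namespace Helper23.Pcf

section
variable {ι : Type u}

/-- Pointwise supremum of a sequence over a small club. -/
theorem exists_ctrl (F : Filter ι) {c : ι → Ordinal.{u}} (hpos : ∀ i, 0 < c i)
    (hlimc : ∀ i, Order.IsSuccLimit (c i)) (θ : Cardinal.{u}) (hθ : ℵ₀ ≤ θ)
    (hdir : ∀ (K : Type u) (G : K → ι → Ordinal.{u}), #K < θ → (∀ k i, G k i < c i) →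
      ∃ g : ι → Ordinal.{u}, (∀ i, g i < c i) ∧ ∀ k, fle F (G k) g) :
    ∃ f : Ordinal.{u} → ι → Ordinal.{u}, (∀ ξ i, f ξ i < c i) ∧
      (∀ ξ η, ξ < η → η < θ.ord → flt F (f ξ) (f η)) ∧
      ∀ δ < θ.ord, Order.IsSuccLimit δ → ∃ E, ClubIn E δ ∧
        ∃ h : ι → Ordinal.{u}, (∀ ξ ∈ E, ξ < δ → ∀ i, f ξ i ≤ h i) ∧
          ∀ i, δ.cof < (c i).cof → h i ≤ f δ i := by
  classical
  let P := {g : ι → Ordinal.{u} // ∀ i, g i < c i}
  have hE : ∀ δ : Ordinal.{u}, ∃ E : Set Ordinal.{u}, Order.IsSuccLimit δ →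
      ClubIn E δ ∧ E ⊆ Iio δ ∧ #E ≤ Cardinal.lift.{u+1} δ.cof := by
    intro δ
    by_cases h : Order.IsSuccLimit δ
    · obtain ⟨E, hE⟩ := exists_small_club h
      exact ⟨E, fun _ => hE⟩
    · exact ⟨∅, fun h' => absurd h' h⟩
  choose E hE using hE
  have hstep : ∀ (δ : Ordinal.{u}) (G : Iio δ → P), ∃ g : P, δ < θ.ord →
      (∀ ξ : Iio δ, flt F (G ξ).1 g.1) ∧
      ∀ i, Order.IsSuccLimit δ → δ.cof < (c i).cof →
        supOn (E δ) δ (fun ξ => if h : ξ < δ then (G ⟨ξ, h⟩).1 i else 0) ≤ g.1 i := by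
    intro δ G
    by_cases hδ : δ < θ.ord
    · obtain ⟨g, hg1, hg2⟩ := hdir δ.ToType
          (fun k => (G (Ordinal.ToType.mk.symm k)).1) (by simpa using Cardinal.lt_ord.1 hδ)
          (fun k => (G _).2)
      refine ⟨⟨fun i => max (Order.succ (g i)) (if Order.IsSuccLimit δ ∧ δ.cof < (c i).cof then
        supOn (E δ) δ (fun ξ => if h : ξ < δ then (G ⟨ξ, h⟩).1 i else 0) else 0), fun i => ?_⟩,
        fun _ => ⟨fun ξ => ?_, fun i h1 h2 => ?_⟩⟩
      · refine max_lt ((hlimc i).succ_lt (hg1 i)) ?_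
        split_ifs with h
        · refine supOn_lt ?_ ?_
          · exact lt_of_le_of_lt (hE δ h.1).2.2 (Cardinal.lift_lt.2 h.2)
          · intro ξ _ hξ
            rw [dif_pos hξ]
            exact (G ⟨ξ, hξ⟩).2 i
        · exact hpos i
      · have h1 := hg2 (Ordinal.ToType.mk ξ)
        rw [OrderIso.symm_apply_apply] at h1
        filter_upwards [h1] with i hi
        exact lt_of_lt_of_le (Order.lt_succ_of_le hi) (le_max_left _ _)
      · refine le_trans ?_ (le_max_right _ _)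
        rw [if_pos ⟨h1, h2⟩]
    · exact ⟨⟨0, hpos⟩, fun h => absurd h hδ⟩
  choose B hB using hstep
  obtain ⟨f, hf⟩ := exists_rec (X := P) B
  refine ⟨fun ξ => (f ξ).1, fun ξ => (f ξ).2, ?_, ?_⟩
  · intro ξ η hξη hη
    show flt F (f ξ).1 (f η).1
    rw [hf η]
    exact (hB η _ hη).1 ⟨ξ, hξη⟩
  · intro δ hδ hlim
    refine ⟨E δ, (hE δ hlim).1, fun i => supOn (E δ) δ (fun ξ => (f ξ).1 i), ?_, ?_⟩
    · intro ξ h1 h2 i
      exact le_supOn (G := fun ξ => (f ξ).1 i) h1 h2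
    · intro i hi
      show supOn (E δ) δ (fun ξ => (f ξ).1 i) ≤ (f δ).1 i
      rw [hf δ]
      refine le_trans ?_ ((hB δ _ hδ).2 i hlim hi)
      refine csSup_le' ?_
      rintro y ⟨ξ, h1, h2, rfl⟩
      have := le_supOn (δ := δ) (G := fun ξ => if h : ξ < δ then (f ξ).1 i else 0) h1 h2
      simp only [dif_pos h2] at this
      exact this

/-- General no-holes. -/
theorem exists_mid {D : Ultrafilter ι} {c : ι → Ordinal.{u}} {l θ χ : Cardinal.{u}}
    (H : HasCof D c l) (hχ : χ.IsRegular) (hχ0 : ℵ₀ < χ) (hι : #ι < χ)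
    (hc : ∀ i, Order.succ (Order.succ χ) < (c i).cof) (hθ : θ.IsRegular)
    (hχθ : Order.succ (Order.succ χ) < θ) (hθl : θ < l) :
    ∃ g : ι → Ordinal.{u}, (∀ᶠ i in D, g i < c i) ∧ (∀ᶠ i in D, χ ≤ (g i).cof) ∧
      HasCof D g θ := by
  classical
  have hχ2 : χ < Order.succ (Order.succ χ) := (Order.lt_succ χ).trans (Order.lt_succ _)
  have hc' : ∀ i, χ < (c i).cof := fun i => hχ2.trans (hc i)
  have hpos := pos_of_cof' hc'
  have hlimc : ∀ i, Order.IsSuccLimit (c i) := fun i =>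
    Ordinal.one_lt_cof_iff.1 (lt_trans (lt_of_lt_of_le one_lt_aleph0 hχ.1) (hc' i))
  have hdir : ∀ (K : Type u) (G : K → ι → Ordinal.{u}), #K < l → (∀ k i, G k i < c i) →
      ∃ g : ι → Ordinal.{u}, (∀ i, g i < c i) ∧ ∀ k, fle (D : Filter ι) (G k) g := by
    intro K G hK hG
    obtain ⟨h, hh, hh'⟩ := H.bdd K G hK (fun k => dlt_of_forall (hG k))
    obtain ⟨h', h1, h2, _⟩ := exists_trunc hpos D hh
    exact ⟨h', h1, fun k => ((hh' k).le.trans h2 : dle D (G k) h')⟩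
  obtain ⟨f, hf1, hf2, hf3⟩ := exists_ctrl (D : Filter ι) hpos hlimc θ hθ.1
    (fun K G hK => hdir K G (hK.trans hθl))
  have hBPP : BPP (D : Filter ι) f θ χ := by
    refine bpp_of_club _ hχ hχ0 hι hθ hχθ f hf2 ?_
    intro δ hδ hcof
    have hlim : Order.IsSuccLimit δ := by
      rw [← Ordinal.one_lt_cof_iff, hcof]; exact one_lt_aleph0.trans (hχ0.trans hχ2)
    obtain ⟨E, hE, h, h1, h2⟩ := hf3 δ hδ hlim
    refine ⟨E, hE, δ, hδ, h, h1, Filter.Eventually.of_forall fun i => h2 i ?_⟩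
    rw [hcof]; exact hc i
  obtain ⟨g, hg1, hg2, hg3, hg4⟩ := exists_eub (D : Filter ι) hχ hι le_rfl hθ (hχ2.trans hχθ) f hf2
    hBPP c (fun ξ _ i => hf1 ξ i)
  have hcofg := eub_cof (D : Filter ι) hχ0.le f hBPP c g (fun ξ _ i => hf1 ξ i) hg2 hg4
  refine ⟨g, ?_, hcofg, hasCof_of_scale hθ f (fun ξ hξ => hg2 ξ hξ) hf2 hg3⟩
  obtain ⟨u, hu1, hu2⟩ := hdir θ.ord.ToType (fun k => f (Ordinal.ToType.mk.symm k).1)
    (by simpa using hθl) (fun k => hf1 _)
  have h4 := hg4 (fun i => min (u i) (g i)) ?_ (fun i => min_le_right _ _)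
  · filter_upwards [h4] with i hi
    exact lt_of_le_of_lt (hi.trans (min_le_left _ _)) (hu1 i)
  · intro η hη
    have h5 := hu2 (Ordinal.ToType.mk ⟨η, hη⟩)
    rw [OrderIso.symm_apply_apply] at h5
    filter_upwards [h5, hg2 η hη] with i h6 h7
    exact le_min h6 h7.le

end

end Helper23.Pcf
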