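import Pool.Agent.Helper23.Pcf.Kurepa

set_option autoImplicit false

open Cardinal Ordinal Set Filter

universe u v

namespace Helper23.Pcf

/-- For a set `c` of regular cardinals: if every cardinal that is in the pcf of all cofinite subsets
of `c` equals `l`, then all nonprincipal ultraproducts of `c` have cofinality `l`. -/
theorem cof_of_pcf_infty {c : Set Cardinal.{u}} [Small.{u} c] (hreg : ∀ κ ∈ c, κ.IsRegular)
    {l : Cardinal.{u}} (h : ∀ m, (∀ s : Set Cardinal.{u}, s.Finite → m ∈ pcfS (c \ s)) → m = l)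
    (D : Ultrafilter c) (hD : ∀ x : c, {x} ∉ D) :
    Order.cof (UProd D (fun x : c => x.1.ord)) = Cardinal.lift.{u + 1} l := by
  obtain ⟨θ, hθ⟩ := exists_hasCof (D.map (equivShrink.{u} c))
    (fun i => (((equivShrink.{u} c).symm i).1 : Cardinal.{u}).ord)
    (Filter.Eventually.of_forall fun i => Cardinal.isSuccLimit_ord
      (hreg _ ((equivShrink.{u} c).symm i).2).1)
  rw [cof_uprod_eq hreg D hθ]
  congr 1
  refine h θ fun s hs => ?_
  have hc : Function.Injective (fun i : Shrink.{u} c => ((equivShrink.{u} c).symm i).1) :=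
    fun i j h => (equivShrink c).symm.injective (Subtype.ext h)
  refine pcfS_of_mem hc hθ ?_
  have h1 : ∀ᶠ x : c in (D : Filter c), x.1 ∉ s := by
    have h2 : {x : c | x.1 ∈ s}.Finite := hs.preimage Subtype.val_injective.injOn
    have h3 : {x : c | x.1 ∈ s} ∉ D := by
      intro h4
      have h5 : (⋃ x ∈ {x : c | x.1 ∈ s}, ({x} : Set c)) ∈ D := by
        rw [Set.biUnion_of_singleton]; exact h4
      obtain ⟨x, _, hx⟩ := (Ultrafilter.finite_biUnion_mem_iff h2).1 h5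
      exact hD x hx
    exact (Ultrafilter.compl_mem_iff_notMem.2 h3)
  show ∀ᶠ x : c in (D : Filter c), ((equivShrink.{u} c).symm (equivShrink.{u} c x)).1 ∈ c \ s
  filter_upwards [h1] with x hx
  rw [Equiv.symm_apply_apply]
  exact ⟨x.2, hx⟩

/-- Sequences of type `ω` with prescribed true cofinality. -/
theorem omega_seq {α γ : Ordinal.{u}} {κ : Cardinal.{u}} (h0 : ℵ₀ ≤ κ)
    (hκ : (α - γ).card ≤ κ) (hκγ : κ ≤ ℵ_ γ) (hα : Order.IsSuccLimit α) (hγα : γ < α)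
    (hcof : α.cof = ℵ₀)
    (hcl : ∀ β < α, ∀ l ∈ pcfS (ival (ℵ_ γ) (ℵ_ β)), l < ℵ_ α)
    {ξ : Ordinal.{u}} (hξ : ξ.card ≤ ℵ₀)
    (hl : ℵ_ (α + ξ + 1) ∈ pcfS (ival (ℵ_ γ) (ℵ_ α))) :
    ∃ c ⊆ ival (ℵ_ γ) (ℵ_ α), c.Infinite ∧
      ∀ m, (∀ s : Set Cardinal.{u}, s.Finite → m ∈ pcfS (c \ s)) → m = ℵ_ (α + ξ + 1) := by
  classical
  have h6α : γ + (6 : ℕ) < α := by
    have h1 : ((6 : ℕ) : Ordinal.{u}) < α - γ :=
      (Ordinal.natCast_lt_omega0 6).trans_le
        (Ordinal.omega0_le_of_isSuccLimit (sub_isSuccLimit hα hγα))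
    exact Ordinal.lt_sub.1 h1
  set lam := ℵ_ (α + ξ + 1) with hlam
  set Y := ival (ℵ_ (γ + (6 : ℕ))) (ℵ_ α) with hY
  set L := ival' (ℵ_ γ) (ℵ_ (γ + (6 : ℕ))) with hL
  have hLfin : L.Finite := finite_ival γ 6
  have hLreg : ∀ κ ∈ L, κ.IsRegular := fun κ h => h.1
  have hYreg : ∀ κ ∈ Y, κ.IsRegular := fun κ h => h.1
  have hsplit : ival (ℵ_ γ) (ℵ_ α) = Y ∪ L := ival_split h6α
  have hpcf : pcfS (ival (ℵ_ γ) (ℵ_ α)) = pcfS Y ∪ L := by
    rw [hsplit, pcfS_union, pcfS_finite hLfin hLreg]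
  have hαlam : ℵ_ α < lam := Cardinal.aleph_lt_aleph.2 (by
    refine lt_of_le_of_lt (le_self_add (b := ξ)) ?_
    exact Order.lt_add_one_iff.2 le_rfl)
  have hlY : lam ∈ pcfS Y := by
    rw [hpcf] at hl
    refine hl.resolve_right fun h => ?_
    exact absurd (hαlam.trans_le h.2.2) (not_lt.2 (Cardinal.aleph_le_aleph.2 h6α.le))
  have hκ' : (α - (γ + (6 : ℕ))).card ≤ κ := by
    refine (Ordinal.card_le_card (Ordinal.sub_le.2 ?_)).trans hκ
    calc α ≤ γ + (α - γ) := Ordinal.le_add_sub _ _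
      _ ≤ γ + (6 : ℕ) + (α - γ) := by
        rw [add_assoc]
        exact add_le_add_right le_add_self _
  have hρ := succN_le_aleph hκγ 6
  have hYsmall : Small.{u} Y := small_subset (show Y ⊆ Set.Iio (ℵ_ α) from fun κ h => h.2.2)
  have hle : #(pcfS Y) ≤ Cardinal.lift.{u+1} (succN κ 3) := pcf_le h0 hκ' hρ h6α
  have hκa : ∀ θ ∈ Y, succN κ 3 < θ := fun θ h =>
    ((succN_mono κ (by norm_num : 3 ≤ 6)).trans hρ).trans_lt h.2.1
  have hAsmall : Small.{u} (pcfS Y) := Cardinal.small_iff_lift_mk_lt_univ.2 (by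
    refine lt_of_le_of_lt ?_ (Cardinal.lift_lt_univ (succN κ 3))
    simpa using hle)
  have hYA : Y ⊆ pcfS Y := self_subset_pcfS hYreg
  obtain ⟨G, hG1, hG2, _⟩ := exists_closed_generators (A := pcfS Y)
    (fun κ h => pcfS_isRegular h) (pcfS_pcfS hYreg subset_rfl hle hκa) (ν := succN κ 4)
    (succN_isRegular h0 3) ((h0.trans (le_succN κ 3)).trans_lt (succN_lt κ 3))
    (hle.trans_lt (Cardinal.lift_lt.2 (succN_lt κ 3)))
    (fun θ hθ => lt_of_mem_pcfS hYreg (fun κ' h => hρ.trans_lt h.2.1) hθ)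
  -- the countable set of indices of the smaller cardinals
  have hcount : #(Iio (ξ + 1)) ≤ ℵ₀ := by
    rw [Cardinal.mk_Iio_ordinal, Ordinal.card_add, Ordinal.card_one]
    rw [← Cardinal.lift_aleph0.{u+1, u}, Cardinal.lift_le]
    exact Cardinal.add_le_of_le le_rfl hξ one_lt_aleph0.le
  have hcountS : (Iio (ξ + 1)).Countable := Cardinal.le_aleph0_iff_set_countable.1 hcount
  have hne : (Iio (ξ + 1)).Nonempty := ⟨0, by
    show (0 : Ordinal.{u}) < ξ + 1
    exact lt_of_le_of_lt zero_le (Order.lt_add_one_iff.2 le_rfl)⟩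
  obtain ⟨e, he⟩ := hcountS.exists_eq_range hne
  let θ : ℕ → Cardinal.{u} := fun n => ℵ_ (α + e n)
  have hθlam : ∀ n, θ n < lam := by
    intro n
    have h1 : e n < ξ + 1 := by
      have : e n ∈ Iio (ξ + 1) := by rw [he]; exact ⟨n, rfl⟩
      exact this
    refine Cardinal.aleph_lt_aleph.2 ?_
    rw [add_assoc]
    exact add_lt_add_right h1 α
  have hθsurj : ∀ m : Cardinal.{u}, m.IsRegular → ℵ_ α ≤ m → m < lam → ∃ n, θ n = m := by
    intro m hm h1 h2
    obtain ⟨z, rfl⟩ := Cardinal.mem_range_aleph_iff.2 hm.1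
    rw [Cardinal.aleph_le_aleph] at h1
    rw [hlam, Cardinal.aleph_lt_aleph, add_assoc] at h2
    have h3 : z - α ∈ Iio (ξ + 1) := (Ordinal.sub_lt_of_le h1).2 h2
    rw [he] at h3
    obtain ⟨n, hn⟩ := h3
    refine ⟨n, ?_⟩
    show ℵ_ (α + e n) = ℵ_ z
    rw [hn, Ordinal.add_sub_cancel_of_le h1]
  -- a cofinal sequence
  obtain ⟨R, hR, hRα, hRc⟩ := exists_small_club hα
  have hRcount : R.Countable := by
    rw [← Cardinal.le_aleph0_iff_set_countable]
    refine hRc.trans ?_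
    rw [hcof, Cardinal.lift_aleph0]
  have hRne : R.Nonempty := by
    obtain ⟨r, hr, _⟩ := hR.unb 0 hα.bot_lt
    exact ⟨r, hr⟩
  obtain ⟨a, ha⟩ := hRcount.exists_eq_range hRne
  have haα : ∀ n, a n < α := fun n => hRα (by rw [ha]; exact ⟨n, rfl⟩)
  -- the nonempty sets
  have hU : ∀ n : ℕ, ∃ μ, μ ∈ Y ∩ G lam ∧ (∀ k < n, θ k ∈ pcfS Y → μ ∉ G (θ k)) ∧
      ∀ k < n, ℵ_ (a k) ≤ μ := by
    intro n
    by_contra hcon
    push Not at hcon
    have hcover : Y ∩ G lam ⊆ (⋃ k ∈ Finset.range n,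
          {μ | μ ∈ Y ∩ G lam ∧ θ k ∈ pcfS Y ∧ μ ∈ G (θ k)}) ∪
        ⋃ k ∈ Finset.range n, (Y ∩ G lam) ∩ Iio (ℵ_ (a k)) := by
      intro μ hμ
      by_cases h1 : ∀ k < n, θ k ∈ pcfS Y → μ ∉ G (θ k)
      · obtain ⟨k, hk, hk'⟩ := hcon μ hμ h1
        exact Or.inr (mem_iUnion₂.2 ⟨k, Finset.mem_range.2 hk, hμ, hk'⟩)
      · push Not at h1
        obtain ⟨k, hk, hk', hk''⟩ := h1
        exact Or.inl (mem_iUnion₂.2 ⟨k, Finset.mem_range.2 hk, hμ, hk', hk''⟩)
    have hmem : lam ∈ pcfS (Y ∩ G lam) := hG2 Y hYA lam hlY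
    have hfin : ∀ (t : Finset ℕ) (Z : ℕ → Set Cardinal.{u}), lam ∈ pcfS (⋃ k ∈ t, Z k) →
        ∃ k ∈ t, lam ∈ pcfS (Z k) := by
      intro t Z
      induction t using Finset.induction_on with
      | empty =>
        intro h
        simp only [Finset.notMem_empty, iUnion_of_empty, iUnion_empty, pcfS_empty] at h
        exact absurd h (Set.notMem_empty _)
      | insert k t _ ih =>
        intro h
        rw [Finset.set_biUnion_insert, pcfS_union] at h
        rcases h with h | h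
        · exact ⟨k, Finset.mem_insert_self k t, h⟩
        · obtain ⟨k', hk', h'⟩ := ih h
          exact ⟨k', Finset.mem_insert_of_mem hk', h'⟩
    have h1 := pcfS_mono hcover hmem
    rw [pcfS_union] at h1
    rcases h1 with h1 | h1
    · obtain ⟨k, _, h2⟩ := hfin _ _ h1
      by_cases hθA : θ k ∈ pcfS Y
      · have h3 : lam ∈ G (θ k) := (hG1 _ hθA).2.1 (pcfS_mono (fun μ h => h.2.2) h2)
        exact absurd ((hG1 _ hθA).2.2.1 lam h3) (not_le.2 (hθlam k))
      · have h3 : {μ | μ ∈ Y ∩ G lam ∧ θ k ∈ pcfS Y ∧ μ ∈ G (θ k)} = ∅ := by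
          ext μ
          simp only [mem_ofPred_eq, mem_empty_iff_false, iff_false, not_and]
          intro _ h
          exact absurd h hθA
        rw [h3, pcfS_empty] at h2
        exact absurd h2 (Set.notMem_empty _)
    · obtain ⟨k, _, h2⟩ := hfin _ _ h1
      have h3 : (Y ∩ G lam) ∩ Iio (ℵ_ (a k)) ⊆ ival (ℵ_ γ) (ℵ_ (a k)) := by
        rintro μ ⟨⟨g1, _⟩, g2⟩
        exact ⟨g1.1, lt_of_le_of_lt (Cardinal.aleph_le_aleph.2 le_self_add) g1.2.1, g2⟩
      exact absurd (hcl (a k) (haα k) lam (pcfS_mono h3 h2)) (not_lt.2 hαlam.le)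
  choose μ hμ1 hμ2 hμ3 using hU
  have hcY : range μ ⊆ Y := by rintro _ ⟨n, rfl⟩; exact (hμ1 n).1
  have hcG : range μ ⊆ G lam := by rintro _ ⟨n, rfl⟩; exact (hμ1 n).2
  -- only finitely many members are below `ℵ_β`
  have hsmall : ∀ β < α, (range μ ∩ Iio (ℵ_ β)).Finite := by
    intro β hβ
    obtain ⟨r, hr, hβr, _⟩ := hR.unb β hβ
    rw [ha] at hr
    obtain ⟨k, rfl⟩ := hr
    refine Set.Finite.subset ((Set.finite_Iic k).image μ) ?_
    rintro _ ⟨⟨n, rfl⟩, h⟩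
    refine ⟨n, ?_, rfl⟩
    by_contra hn
    have h1 := hμ3 n k (not_le.1 hn)
    exact absurd (h.trans (Cardinal.aleph_lt_aleph.2 hβr)) (not_lt.2 h1)
  refine ⟨range μ, hcY.trans (by rw [hsplit]; exact subset_union_left), ?_, ?_⟩
  · intro hfin
    -- a finite set of cardinals below `ℵ_α` is bounded
    have hb : ∃ β < α, ∀ x ∈ range μ, x < ℵ_ β := by
      have h1 : ∀ x ∈ range μ, ∃ z < α, x = ℵ_ z := by
        intro x hx
        obtain ⟨z, rfl⟩ := Cardinal.mem_range_aleph_iff.2 (hcY hx).1.1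
        exact ⟨z, Cardinal.aleph_lt_aleph.1 (hcY hx).2.2, rfl⟩
      obtain ⟨y, hy, hy'⟩ := finite_bound hα (T := {z | z < α ∧ ℵ_ z ∈ range μ}) (by
        refine Set.Finite.of_finite_image (f := Cardinal.aleph) (hfin.subset ?_) ?_
        · rintro _ ⟨z, hz, rfl⟩
          exact hz.2
        · intro z _ z' _ h
          exact Cardinal.aleph.injective h) fun z hz => hz.1
      refine ⟨y, hy, fun x hx => ?_⟩
      obtain ⟨z, hz, rfl⟩ := h1 x hx
      exact Cardinal.aleph_lt_aleph.2 (hy' z ⟨hz, hx⟩)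
    obtain ⟨β, hβ, hβ'⟩ := hb
    obtain ⟨r, hr, hβr, _⟩ := hR.unb β hβ
    rw [ha] at hr
    obtain ⟨k, rfl⟩ := hr
    have h1 := hμ3 (k + 1) k (Nat.lt_succ_self k)
    have h2 := hβ' (μ (k + 1)) ⟨k + 1, rfl⟩
    exact absurd (h2.trans (Cardinal.aleph_lt_aleph.2 hβr)) (not_lt.2 h1)
  · intro m hm
    have hmreg : m.IsRegular := pcfS_isRegular (hm ∅ Set.finite_empty)
    have hm1 : m ≤ lam := (hG1 _ hlY).2.2.1 m ((hG1 _ hlY).2.1
      (pcfS_mono (sdiff_subset.trans hcG) (hm ∅ Set.finite_empty)))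
    have hm2 : ℵ_ α ≤ m := by
      by_contra hlt
      push Not at hlt
      obtain ⟨z, rfl⟩ := Cardinal.mem_range_aleph_iff.2 hmreg.1
      have hz : z < α := Cardinal.aleph_lt_aleph.1 hlt
      have hz1 : z + 1 < α := hα.add_one_lt hz
      have h1 := hm _ (hsmall (z + 1) hz1)
      have h2 : ℵ_ z < ℵ_ z := lt_of_mem_pcfS (fun x h => hYreg x (hcY h.1)) (fun x h => ?_) h1
      · exact lt_irrefl _ h2
      · have h3 : ¬ x < ℵ_ (z + 1) := fun h4 => h.2 ⟨h.1, h4⟩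
        push Not at h3
        exact (Cardinal.aleph_lt_aleph.2 (Order.lt_add_one_iff.2 le_rfl)).trans_le h3
    by_contra hne
    obtain ⟨k, hk⟩ := hθsurj m hmreg hm2 (lt_of_le_of_ne hm1 hne)
    have hmA : θ k ∈ pcfS Y := by
      rw [hk]
      exact pcfS_mono (sdiff_subset.trans hcY) (hm ∅ Set.finite_empty)
    have h1 := hm (μ '' Iic k) ((Set.finite_Iic k).image μ)
    rw [← hk] at h1
    have h2 := hG2 (range μ \ μ '' Iic k) (sdiff_subset.trans (hcY.trans hYA)) _ h1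
    have h3 : (range μ \ μ '' Iic k) ∩ G (θ k) = ∅ := by
      ext x
      simp only [mem_inter_iff, mem_empty_iff_false, iff_false, not_and]
      rintro ⟨⟨n, rfl⟩, h4⟩ h5
      have h6 : k < n := by
        by_contra h7
        exact h4 ⟨n, not_lt.1 h7, rfl⟩
      exact hμ2 n k h6 hmA h5
    rw [h3, pcfS_empty] at h2
    exact absurd h2 (Set.notMem_empty _)

end Helper23.Pcf
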