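import Pool.Agent.Helper23.Pcf.Gen

set_option autoImplicit false

open Cardinal Ordinal Set Filter

universe u v

namespace Helper23.Pcf

theorem exists_rec {X : Type v} (Φ : (α : Ordinal.{u}) → (Iio α → X) → X) :
    ∃ f : Ordinal.{u} → X, ∀ α, f α = Φ α (fun β => f β.1) := by
  refine ⟨WellFounded.fix (C := fun _ => X) Ordinal.lt_wf (fun α ih => Φ α (fun β => ih β.1 β.2)), ?_⟩
  intro α
  exact WellFounded.fix_eq _ _ _

theorem iSup_Iio_lt {α a : Ordinal.{u}} {f : Iio α → Ordinal.{u}} (h : α.card < a.cof)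
    (hf : ∀ x, f x < a) : ⨆ x, f x < a := by
  refine Ordinal.lift_iSup_lt_of_lt_cof ?_ hf
  rw [Cardinal.mk_Iio_ordinal, Cardinal.lift_lift, ← Ordinal.lift_cof, Cardinal.lift_lt]
  exact h

/-- A monotone family of sets of length `ν > |ι|` regular stabilizes. -/
theorem stabilise {ι : Type u} {ν : Cardinal.{u}} (hν : ν.IsRegular) (hι : #ι < ν)
    (B : Ordinal.{u} → Set ι) (hB : ∀ α β, α ≤ β → β < ν.ord → B β ⊆ B α) :
    ∃ α < ν.ord, B α ⊆ B (Order.succ α) := by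
  by_contra hcon
  push Not at hcon
  have hlim : Order.IsSuccLimit ν.ord := Cardinal.isSuccLimit_ord hν.1
  have h1 : ∀ α : Iio ν.ord, ∃ x, x ∈ B α.1 ∧ x ∉ B (Order.succ α.1) := fun α =>
    Set.not_subset.1 (hcon α.1 α.2)
  choose x hx hx' using h1
  have hinj : Function.Injective (fun k : ν.ord.ToType => x (Ordinal.ToType.mk.symm k)) := by
    intro k k' h
    simp only at h
    apply (Ordinal.ToType.mk (o := ν.ord)).symm.injective
    apply Subtype.ext
    rcases lt_trichotomy (Ordinal.ToType.mk.symm k).1 (Ordinal.ToType.mk.symm k').1 with h2 | h2 | h2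
    · exfalso
      apply hx' (Ordinal.ToType.mk.symm k)
      rw [h]
      exact hB _ _ (Order.succ_le_of_lt h2) (Ordinal.ToType.mk.symm k').2 (hx _)
    · exact h2
    · exfalso
      apply hx' (Ordinal.ToType.mk.symm k')
      rw [← h]
      exact hB _ _ (Order.succ_le_of_lt h2) (Ordinal.ToType.mk.symm k).2 (hx _)
  have := Cardinal.mk_le_of_injective hinj
  rw [Cardinal.mk_ord_toType] at this
  exact absurd this (not_le.2 hι)

section
variable {ι : Type u} {c : ι → Ordinal.{u}} {ν : Cardinal.{u}}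

theorem pos_of_cof' (hc : ∀ i, ν < (c i).cof) (i : ι) : 0 < c i := by
  have : (c i).cof ≠ 0 := (lt_of_le_of_lt zero_le (hc i)).ne'
  exact pos_iff_ne_zero.2 (fun h0 => this (Ordinal.cof_eq_zero.2 h0))

/-- The basic `ν`-step argument. -/
theorem no_steps (hν : ν.IsRegular) (hι : #ι < ν) (hc : ∀ i, ν < (c i).cof) {μ : Cardinal.{u}}
    (hμ : μ.IsRegular) (hνμ : ν < μ) (f : Ordinal.{u} → ι → Ordinal.{u})
    (H : ∀ g : ι → Ordinal.{u}, (∀ i, g i < c i) → ∃ (g' : ι → Ordinal.{u}) (D : Ultrafilter ι)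
      (ξ₀ : Ordinal.{u}), (∀ i, g' i < c i) ∧ ξ₀ < μ.ord ∧
        (∀ ξ, ξ₀ ≤ ξ → ξ < μ.ord → dlt D g (f ξ)) ∧ ∀ ξ < μ.ord, dle D (f ξ) g') : False := by
  classical
  have H' : ∀ g : ι → Ordinal.{u}, ∃ (g' : ι → Ordinal.{u}) (D : Ultrafilter ι)
      (ξ₀ : Ordinal.{u}), (∀ i, g i < c i) → ((∀ i, g' i < c i) ∧ ξ₀ < μ.ord ∧
        (∀ ξ, ξ₀ ≤ ξ → ξ < μ.ord → dlt D g (f ξ)) ∧ ∀ ξ < μ.ord, dle D (f ξ) g') := by
    intro g
    by_cases hg : ∀ i, g i < c i
    · obtain ⟨g', D, ξ₀, h⟩ := H g hg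
      exact ⟨g', D, ξ₀, fun _ => h⟩
    · by_cases hne : Nonempty (Ultrafilter ι)
      · obtain ⟨D⟩ := hne
        exact ⟨g, D, 0, fun h => absurd h hg⟩
      · exfalso
        apply hne
        obtain ⟨_, D, _⟩ := H (fun _ => 0) (pos_of_cof' hc)
        exact ⟨D⟩
  choose N Dg Ξ hN using H'
  obtain ⟨g, hg⟩ := exists_rec (X := ι → Ordinal.{u})
    (fun α ih i => ⨆ β : Iio α, N (ih β) i)
  have hgc : ∀ α < ν.ord, ∀ i, g α i < c i := by
    intro α
    induction α using WellFoundedLT.induction with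
    | ind α ih =>
      intro hα i
      rw [hg]
      refine iSup_Iio_lt ((Cardinal.lt_ord.1 hα).trans (hc i)) ?_
      intro β
      exact (hN _ (ih β.1 β.2 (lt_trans β.2 hα))).1 i
  have hmono : ∀ α β, α ≤ β → ∀ i, g α i ≤ g β i := by
    intro α β h i
    rw [hg α, hg β]
    apply Ordinal.iSup_le
    intro x
    exact Ordinal.le_iSup (fun y : Iio β => N (g y.1) i) ⟨x.1, lt_of_lt_of_le x.2 h⟩
  have hstep : ∀ α, ∀ i, N (g α) i ≤ g (Order.succ α) i := by
    intro α i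
    rw [hg (Order.succ α)]
    exact Ordinal.le_iSup (fun y : Iio (Order.succ α) => N (g y.1) i) ⟨α, Order.lt_succ α⟩
  let ξs : Ordinal.{u} := ⨆ α : Iio ν.ord, Ξ (g α.1)
  have hξs : ξs < μ.ord := by
    refine iSup_Iio_lt ?_ ?_
    · rw [Cardinal.card_ord, hμ.cof_ord]; exact hνμ
    · intro α
      exact (hN _ (hgc α.1 α.2)).2.1
  have hlim : Order.IsSuccLimit ν.ord := Cardinal.isSuccLimit_ord hν.1
  obtain ⟨α, hα, hsub⟩ := stabilise hν hι (fun α => {i | g α i < f ξs i})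
    (fun α β h _ i hi => lt_of_le_of_lt (hmono α β h i) hi)
  have h1 := hN _ (hgc α hα)
  have h2 : dlt (Dg (g α)) (g α) (f ξs) :=
    h1.2.2.1 ξs (Ordinal.le_iSup (fun α : Iio ν.ord => Ξ (g α.1)) ⟨α, hα⟩) hξs
  have h3 : dlt (Dg (g α)) (g (Order.succ α)) (f ξs) := by
    refine h2.mono fun i hi => hsub hi
  have h4 : dle (Dg (g α)) (f ξs) (g (Order.succ α)) :=
    (h1.2.2.2 ξs hξs).trans (dle_of_forall (hstep α))
  exact dlt_irrefl (h3.trans_dle h4)

end

end Helper23.Pcf
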