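import Pool.Agent.Helper23.Pcf.General

set_option autoImplicit false

open Cardinal Ordinal Set Filter

universe u v

namespace Helper23.Pcf

section
variable {ι : Type u} {c : ι → Ordinal.{u}} {ν : Cardinal.{u}}

/-- Universal sequences. -/
theorem exists_universal (hν : ν.IsRegular) (hι : #ι < ν) (hc : ∀ i, ν < (c i).cof)
    {θ : Cardinal.{u}} (hθ : θ.IsRegular) :
    ∃ f : Ordinal.{u} → ι → Ordinal.{u}, (∀ ξ i, f ξ i < c i) ∧
      (∀ ξ η, ξ < η → η < θ.ord → ∀ D ∈ Ge c θ, dlt D (f ξ) (f η)) ∧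
      ∀ D, HasCof D c θ → ∀ g : ι → Ordinal.{u}, (∀ i, g i < c i) →
        ∃ ξ < θ.ord, dlt D g (f ξ) := by
  classical
  have hpos := pos_of_cof' hc
  by_cases hνθ : ν < θ
  swap
  · obtain ⟨f, hf1, hf2, hf3⟩ := exists_chain_ge hν hι hc hθ.1 (fun _ _ => 0) (fun _ => hpos)
    refine ⟨f, hf1, hf3, fun D hD => ?_⟩
    exact absurd (hD.lt_of_cof (Filter.Eventually.of_forall hc)) hνθ
  by_contra hcon
  push Not at hcon
  -- the chain operator
  have hCh : ∀ F : Ordinal.{u} → ι → Ordinal.{u}, ∃ f : Ordinal.{u} → ι → Ordinal.{u},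
      (∀ ξ i, F ξ i < c i) → ((∀ ξ i, f ξ i < c i) ∧ (∀ ξ i, F ξ i ≤ f ξ i) ∧
      ∀ ξ η, ξ < η → η < θ.ord → ∀ D ∈ Ge c θ, dlt D (f ξ) (f η)) := by
    intro F
    by_cases hF : ∀ ξ i, F ξ i < c i
    · obtain ⟨f, hf⟩ := exists_chain_ge hν hι hc hθ.1 F hF
      exact ⟨f, fun _ => hf⟩
    · exact ⟨F, fun h => absurd h hF⟩
  choose Ch hCh using hCh
  let Good : (Ordinal.{u} → ι → Ordinal.{u}) → Prop := fun f => (∀ ξ i, f ξ i < c i) ∧
      (∀ ξ η, ξ < η → η < θ.ord → ∀ D ∈ Ge c θ, dlt D (f ξ) (f η))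
  have hN : ∀ f : Ordinal.{u} → ι → Ordinal.{u}, ∃ (D : Ultrafilter ι) (b : ι → Ordinal.{u})
      (w : Ordinal.{u} → ι → Ordinal.{u}), Good f → (HasCof D c θ ∧ (∀ i, b i < c i) ∧
        (∀ ξ < θ.ord, dle D (f ξ) b) ∧ (∀ ξ i, w ξ i < c i) ∧
        ∀ g : ι → Ordinal.{u}, (∀ i, g i < c i) → ∃ ξ < θ.ord, dlt D g (w ξ)) := by
    intro f
    by_cases hf : Good f
    · obtain ⟨D, hD, g, hg, hb⟩ := hcon f hf.1 hf.2
      obtain ⟨u, hu1, hu2, hu3⟩ := hD.exists_scale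
      have htr : ∀ ξ, ∃ g : ι → Ordinal.{u}, (∀ i, g i < c i) ∧ (ξ < θ.ord → dle D (u ξ) g) := by
        intro ξ
        by_cases hξ : ξ < θ.ord
        · obtain ⟨g, h1, h2, _⟩ := exists_trunc hpos D (hu1 ξ hξ)
          exact ⟨g, h1, fun _ => h2⟩
        · exact ⟨0, hpos, fun h => absurd h hξ⟩
      choose u' hu'1 hu'2 using htr
      refine ⟨D, g, u', fun _ => ⟨hD, hg, fun ξ hξ => not_dlt.1 (hb ξ hξ), hu'1, ?_⟩⟩
      intro g hg
      obtain ⟨ξ, hξ, h⟩ := hu3 g (dlt_of_forall hg)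
      exact ⟨ξ, hξ, h.trans_dle (hu'2 ξ hξ)⟩
    · obtain ⟨f0, h01, h02, h03⟩ := exists_chain_ge hν hι hc hθ.1 (fun _ _ => 0) (fun _ => hpos)
      obtain ⟨D, _⟩ := hcon f0 h01 h03
      exact ⟨D, 0, f, fun h => absurd h hf⟩
  choose Df b w hDf using hN
  let N : (Ordinal.{u} → ι → Ordinal.{u}) → Ordinal.{u} → ι → Ordinal.{u} := fun f ξ i =>
    max (f ξ i) (max (w f ξ i) (b f i))
  obtain ⟨g, hg⟩ := exists_rec (X := Ordinal.{u} → ι → Ordinal.{u})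
    (fun α ih => Ch (fun ξ i => ⨆ β : Iio α, N (ih β) ξ i))
  have hlim : Order.IsSuccLimit ν.ord := Cardinal.isSuccLimit_ord hν.1
  have hNc : ∀ f, Good f → ∀ ξ i, N f ξ i < c i := by
    intro f hf ξ i
    exact max_lt (hf.1 ξ i) (max_lt ((hDf f hf).2.2.2.1 ξ i) ((hDf f hf).2.1 i))
  have hgood : ∀ α < ν.ord, Good (g α) ∧ ∀ ξ i, (⨆ β : Iio α, N (g β.1) ξ i) ≤ g α ξ i := by
    intro α
    induction α using WellFoundedLT.induction with
    | ind α ih =>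
      intro hα
      have h1 : ∀ ξ i, (⨆ β : Iio α, N (g β.1) ξ i) < c i := by
        intro ξ i
        refine iSup_Iio_lt ((Cardinal.lt_ord.1 hα).trans (hc i)) ?_
        intro β
        exact hNc _ (ih β.1 β.2 (lt_trans β.2 hα)).1 ξ i
      have h2 := hCh _ h1
      rw [hg]
      exact ⟨⟨h2.1, h2.2.2⟩, h2.2.1⟩
  have hle : ∀ α β, α < β → β < ν.ord → ∀ ξ i, N (g α) ξ i ≤ g β ξ i := by
    intro α β h hβ ξ i
    refine le_trans ?_ ((hgood β hβ).2 ξ i)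
    exact Ordinal.le_iSup (fun y : Iio β => N (g y.1) ξ i) ⟨α, h⟩
  have hmono : ∀ α β, α ≤ β → β < ν.ord → ∀ ξ i, g α ξ i ≤ g β ξ i := by
    intro α β h hβ ξ i
    rcases h.eq_or_lt with h1 | h1
    · rw [h1]
    · exact (le_max_left _ _).trans (hle α β h1 hβ ξ i)
  let h : ι → Ordinal.{u} := fun i => ⨆ α : Iio ν.ord, g α.1 0 i
  have hh : ∀ i, h i < c i := by
    intro i
    refine iSup_Iio_lt (by rw [Cardinal.card_ord]; exact hc i) ?_
    intro α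
    exact (hgood α.1 α.2).1.1 0 i
  have hΞ : ∀ α : Ordinal.{u}, ∃ ξ < θ.ord, α < ν.ord → dlt (Df (g α)) h (w (g α) ξ) := by
    intro α
    by_cases hα : α < ν.ord
    · obtain ⟨ξ, hξ, h3⟩ := (hDf _ (hgood α hα).1).2.2.2.2 h hh
      exact ⟨ξ, hξ, fun _ => h3⟩
    · exact ⟨0, hθ.ord_pos, fun h => absurd h hα⟩
  choose Ξ hΞ1 hΞ2 using hΞ
  let ξs : Ordinal.{u} := ⨆ α : Iio ν.ord, Ξ α.1
  have hξs : ξs < θ.ord := by
    refine iSup_Iio_lt ?_ (fun α => hΞ1 α.1)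
    rw [Cardinal.card_ord, hθ.cof_ord]; exact hνθ
  obtain ⟨α, hα, hsub⟩ := stabilise hν hι (fun α => {i | g α ξs i ≤ h i})
    (fun α β h1 h2 i hi => le_trans (hmono α β h1 h2 ξs i) hi)
  have hα' : Order.succ α < ν.ord := hlim.succ_lt hα
  have hD := hDf _ (hgood α hα).1
  have hmemGe : Df (g α) ∈ Ge c θ := ⟨θ, le_rfl, hD.1⟩
  have h1 : dlt (Df (g α)) h (g (Order.succ α) ξs) := by
    have h2 : dlt (Df (g α)) h (g (Order.succ α) (Ξ α)) := by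
      refine (hΞ2 α hα).trans_dle (dle_of_forall fun i => ?_)
      refine le_trans ?_ (hle α (Order.succ α) (Order.lt_succ α) hα' (Ξ α) i)
      exact (le_max_left _ _).trans (le_max_right _ _)
    have h3 : Ξ α ≤ ξs := Ordinal.le_iSup (fun α : Iio ν.ord => Ξ α.1) ⟨α, hα⟩
    rcases h3.eq_or_lt with h4 | h4
    · rw [← h4]; exact h2
    · exact h2.trans ((hgood _ hα').1.2 _ _ h4 hξs _ hmemGe)
  have h2 : dle (Df (g α)) (g α ξs) h := by
    refine (hD.2.2.1 ξs hξs).trans (dle_of_forall fun i => ?_)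
    have h3 : b (g α) i ≤ g (Order.succ α) 0 i := by
      refine le_trans ?_ (hle α (Order.succ α) (Order.lt_succ α) hα' 0 i)
      exact (le_max_right _ _).trans (le_max_right _ _)
    exact h3.trans (Ordinal.le_iSup (fun α : Iio ν.ord => g α.1 0 i) ⟨Order.succ α, hα'⟩)
  have h3 : dle (Df (g α)) (g (Order.succ α) ξs) h := h2.mono fun i hi => hsub hi
  exact dlt_irrefl (h1.trans_dle h3)

end

end Helper23.Pcf
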