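import Pool.Agent.Helper23.Pcf.Eub2
import Pool.Agent.Helper23.Pcf.Universal

set_option autoImplicit false

open Cardinal Ordinal Set Filter

universe u v

namespace Helper23.Pcf

/-- supremum of the values `G ξ` for `ξ ∈ E`, `ξ < δ` -/
noncomputable def supOn (E : Set Ordinal.{u}) (δ : Ordinal.{u}) (G : Ordinal.{u} → Ordinal.{u}) :
    Ordinal.{u} := sSup {y | ∃ ξ ∈ E, ξ < δ ∧ G ξ = y}

theorem supOn_bdd (E : Set Ordinal.{u}) (δ : Ordinal.{u}) (G : Ordinal.{u} → Ordinal.{u}) :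
    BddAbove {y | ∃ ξ ∈ E, ξ < δ ∧ G ξ = y} := by
  have : {y | ∃ ξ ∈ E, ξ < δ ∧ G ξ = y} ⊆ range (fun ξ : Iio δ => G ξ.1) := by
    rintro y ⟨ξ, _, h, rfl⟩
    exact ⟨⟨ξ, h⟩, rfl⟩
  exact (Ordinal.bddAbove_of_small (s := range (fun ξ : Iio δ => G ξ.1))).mono this

theorem le_supOn {E : Set Ordinal.{u}} {δ : Ordinal.{u}} {G : Ordinal.{u} → Ordinal.{u}}
    {ξ : Ordinal.{u}} (h : ξ ∈ E) (h' : ξ < δ) : G ξ ≤ supOn E δ G :=
  le_csSup (supOn_bdd E δ G) ⟨ξ, h, h', rfl⟩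

theorem supOn_lt {E : Set Ordinal.{u}} {δ : Ordinal.{u}} {G : Ordinal.{u} → Ordinal.{u}}
    {a : Ordinal.{u}} (hE : #E < Cardinal.lift.{u+1} a.cof) (hG : ∀ ξ ∈ E, ξ < δ → G ξ < a) :
    supOn E δ G < a := by
  refine Ordinal.sSup_lt_of_lt_cof ?_ ?_
  · rw [← Ordinal.lift_cof]
    refine lt_of_le_of_lt ?_ hE
    have : {y | ∃ ξ ∈ E, ξ < δ ∧ G ξ = y} ⊆ range (fun ξ : E => G ξ.1) := by
      rintro y ⟨ξ, h, _, rfl⟩
      exact ⟨⟨ξ, h⟩, rfl⟩
    exact (Cardinal.mk_le_mk_of_subset this).trans Cardinal.mk_range_le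
  · rintro y ⟨ξ, h1, h2, rfl⟩
    exact hG ξ h1 h2

theorem supOn_mono {E E' : Set Ordinal.{u}} {δ : Ordinal.{u}} {G : Ordinal.{u} → Ordinal.{u}}
    (h : E ⊆ E') : supOn E δ G ≤ supOn E' δ G := by
  refine csSup_le' ?_
  rintro y ⟨ξ, h1, h2, rfl⟩
  exact le_supOn (h h1) h2

section
variable {ι : Type u} {c : ι → Ordinal.{u}} {ν : Cardinal.{u}}

/-- Obedient universal sequences. -/
theorem exists_package (hν : ν.IsRegular) (hν0 : ℵ₀ < ν) (hι : #ι < ν)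
    (hc : ∀ i, Order.succ (Order.succ ν) < (c i).cof) {ρ : Cardinal.{u}} (hρ : ρ.IsRegular)
    (hνρ : Order.succ (Order.succ ν) < ρ) :
    ∃ f : Ordinal.{u} → ι → Ordinal.{u}, (∀ ξ i, f ξ i < c i) ∧
      (∀ δ < ρ.ord, δ.cof = Order.succ (Order.succ ν) → ∀ E, ClubIn E δ → ∀ i,
        f δ i ≤ supOn E δ (fun ξ => f ξ i)) ∧
      ∀ h : ι → Ordinal.{u}, (∀ i, h i < c i) → ∃ ξ < ρ.ord, ∀ η, ξ ≤ η → η < ρ.ord →
        ∀ D, HasCof D c ρ → dlt D h (f η) := by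
  classical
  set χ' := Order.succ (Order.succ ν) with hχ'
  have hχ'reg : χ'.IsRegular := Cardinal.isRegular_succ (hν.1.trans (Order.le_succ ν))
  have hνχ' : ν < χ' := (Order.lt_succ ν).trans (Order.lt_succ _)
  have hχ'0 : ℵ₀ < χ' := hν0.trans hνχ'
  have hc' : ∀ i, ν < (c i).cof := fun i => hνχ'.trans (hc i)
  have hpos := pos_of_cof' hc'
  have hlimc : ∀ i, Order.IsSuccLimit (c i) := fun i =>
    Ordinal.one_lt_cof_iff.1 (lt_trans (lt_of_lt_of_le one_lt_aleph0 hν.1) (hc' i))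
  obtain ⟨U, hU1, hU2, hU3⟩ := exists_universal hν hι hc' hρ
  have hρlim : Order.IsSuccLimit ρ.ord := Cardinal.isSuccLimit_ord hρ.1
  let P := {g : ι → Ordinal.{u} // ∀ i, g i < c i}
  have hlimδ : ∀ δ : Ordinal.{u}, δ.cof = χ' → Order.IsSuccLimit δ := fun δ h => by
    rw [← Ordinal.one_lt_cof_iff, h]; exact one_lt_aleph0.trans hχ'0
  -- the step
  have hstep : ∀ (δ : Ordinal.{u}) (G : Iio δ → P), ∃ g : P,
      (δ.cof = χ' → ∀ i, g.1 i = sInf {x | ∃ E, ClubIn E δ ∧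
        x = supOn E δ (fun ξ => if h : ξ < δ then (G ⟨ξ, h⟩).1 i else 0)}) ∧
      (δ.cof ≠ χ' → δ < ρ.ord → (∀ ξ : Iio δ, ∀ D ∈ Ge c ρ, dlt D (G ξ).1 g.1) ∧
        ∀ i, U δ i ≤ g.1 i) := by
    intro δ G
    by_cases hδ : δ.cof = χ'
    · obtain ⟨E, hE1, hE2, hE3⟩ := exists_small_club (hlimδ δ hδ)
      refine ⟨⟨fun i => sInf {x | ∃ E, ClubIn E δ ∧
        x = supOn E δ (fun ξ => if h : ξ < δ then (G ⟨ξ, h⟩).1 i else 0)}, fun i => ?_⟩,
        fun _ i => rfl, fun h => absurd hδ h⟩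
      refine lt_of_le_of_lt (csInf_le' ⟨E, hE1, rfl⟩) (supOn_lt ?_ ?_)
      · refine lt_of_le_of_lt hE3 (Cardinal.lift_lt.2 ?_)
        rw [hδ]; exact hc i
      · intro ξ _ hξ
        rw [dif_pos hξ]
        exact (G ⟨ξ, hξ⟩).2 i
    · by_cases hδρ : δ < ρ.ord
      · obtain ⟨g, hg1, hg2⟩ := directed' hν hι hc' ρ (#δ.ToType)
          (by simpa using Cardinal.lt_ord.1 hδρ) δ.ToType
          (fun k => (G (Ordinal.ToType.mk.symm k)).1) rfl (fun k => (G _).2)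
        refine ⟨⟨fun i => max (Order.succ (g i)) (U δ i), fun i =>
          max_lt ((hlimc i).succ_lt (hg1 i)) (hU1 δ i)⟩, fun h => absurd h hδ,
          fun _ _ => ⟨fun ξ D hD => ?_, fun i => le_max_right _ _⟩⟩
        have h1 := hg2 D hD (Ordinal.ToType.mk ξ)
        rw [OrderIso.symm_apply_apply] at h1
        exact h1.trans_dlt (dlt_of_forall fun i =>
          lt_of_lt_of_le (Order.lt_succ _) (le_max_left _ _))
      · exact ⟨⟨0, hpos⟩, fun h => absurd h hδ, fun _ h => absurd h hδρ⟩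
  choose B hB1 hB2 using hstep
  obtain ⟨f, hf⟩ := exists_rec (X := P) B
  have hfOB : ∀ δ, δ.cof = χ' → ∀ i, (f δ).1 i = sInf {x | ∃ E, ClubIn E δ ∧
      x = supOn E δ (fun ξ => (f ξ).1 i)} := by
    intro δ hδ i
    rw [hf δ, hB1 δ _ hδ i]
    congr 1
    ext x
    constructor
    · rintro ⟨E, hE, rfl⟩
      refine ⟨E, hE, ?_⟩
      unfold supOn
      congr 1
      ext y
      constructor
      · rintro ⟨ξ, h1, h2, rfl⟩
        exact ⟨ξ, h1, h2, by simp [h2]⟩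
      · rintro ⟨ξ, h1, h2, rfl⟩
        exact ⟨ξ, h1, h2, by simp [h2]⟩
    · rintro ⟨E, hE, rfl⟩
      refine ⟨E, hE, ?_⟩
      unfold supOn
      congr 1
      ext y
      constructor
      · rintro ⟨ξ, h1, h2, rfl⟩
        exact ⟨ξ, h1, h2, by simp [h2]⟩
      · rintro ⟨ξ, h1, h2, rfl⟩
        exact ⟨ξ, h1, h2, by simp [h2]⟩
  -- a club below whose elements the values are small
  have hstar : ∀ δ, δ.cof = χ' → ∃ E, ClubIn E δ ∧ ∀ ξ ∈ E, ξ < δ → ∀ i, (f ξ).1 i ≤ (f δ).1 i := by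
    intro δ hδ
    have h1 : ∀ i, ∃ E, ClubIn E δ ∧ (f δ).1 i = supOn E δ (fun ξ => (f ξ).1 i) := by
      intro i
      have hne : {x | ∃ E, ClubIn E δ ∧ x = supOn E δ (fun ξ => (f ξ).1 i)}.Nonempty := by
        obtain ⟨E, hE1, _⟩ := exists_small_club (hlimδ δ hδ)
        exact ⟨_, E, hE1, rfl⟩
      have h2 := csInf_mem hne
      rw [← hfOB δ hδ i] at h2
      exact h2
    choose E hE1 hE2 using h1
    refine ⟨⋂ i, E i, club_iInter (by rw [hδ]; exact hχ'0) (by rw [hδ]; exact hι.trans hνχ') E hE1, ?_⟩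
    intro ξ hξ hξδ i
    rw [hE2 i]
    exact le_supOn (G := fun ξ => (f ξ).1 i) (mem_iInter.1 hξ i) hξδ
  have hmono : ∀ η ξ, ξ < η → η < ρ.ord → ∀ D ∈ Ge c ρ, dlt D (f ξ).1 (f η).1 := by
    intro η
    induction η using WellFoundedLT.induction with
    | ind η ih =>
      intro ξ hξη hη D hD
      by_cases hcof : η.cof = χ'
      · obtain ⟨E, hE, hEle⟩ := hstar η hcof
        obtain ⟨ξ', h1, h2, h3⟩ := hE.unb ξ hξη
        exact (ih ξ' h3 ξ h2 (h3.trans hη) D hD).trans_dle (dle_of_forall (hEle ξ' h1 h3))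
      · rw [hf η]
        exact (hB2 η _ hcof hη).1 ⟨ξ, hξη⟩ D hD
  have hdomU : ∀ ξ, (Order.succ ξ) < ρ.ord → ∀ i, U (Order.succ ξ) i ≤ (f (Order.succ ξ)).1 i := by
    intro ξ hξ i
    rw [hf (Order.succ ξ)]
    refine (hB2 _ _ ?_ hξ).2 i
    rw [Ordinal.cof_succ]
    exact (one_lt_aleph0.trans hχ'0).ne
  refine ⟨fun ξ => (f ξ).1, fun ξ => (f ξ).2, ?_, ?_⟩
  · intro δ _ hδ E hE i
    show (f δ).1 i ≤ supOn E δ (fun ξ => (f ξ).1 i)
    rw [hfOB δ hδ i]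
    exact csInf_le' ⟨E, hE, rfl⟩
  -- uniform cofinality
  · let F : Filter ι := ⨆ D : Ge c ρ, (D.1 : Filter ι)
    have hF : ∀ p : ι → Prop, (∀ᶠ i in F, p i) ↔ ∀ D ∈ Ge c ρ, ∀ᶠ i in (D : Filter ι), p i := by
      intro p
      simp only [F, Filter.eventually_iSup, Subtype.forall]
    have hFmono : ∀ ξ η, ξ < η → η < ρ.ord → flt F (f ξ).1 (f η).1 := by
      intro ξ η h hη
      exact (hF _).2 fun D hD => hmono η ξ h hη D hD
    have hBPP : BPP F (fun ξ => (f ξ).1) ρ ν := by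
      refine bpp_of_club F hν hν0 hι hρ hνρ _ hFmono ?_
      intro δ hδ hcof
      obtain ⟨E, hE, hEle⟩ := hstar δ hcof
      exact ⟨E, hE, δ, hδ, (f δ).1, hEle, Filter.Eventually.of_forall fun _ => le_rfl⟩
    obtain ⟨g, hg1, hg2, hg3, hg4⟩ := exists_eub F hν hι le_rfl hρ (hνχ'.trans hνρ) _ hFmono hBPP c
      (fun ξ _ i => (f ξ).2 i)
    have hb : ∀ D, HasCof D c ρ → ∀ᶠ i in (D : Filter ι), g i = c i := by
      intro D hD
      have hDmem : D ∈ Ge c ρ := ⟨ρ, le_rfl, hD⟩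
      by_contra hcon
      rw [← Ultrafilter.eventually_not] at hcon
      have hlt : dlt D g c := hcon.mono fun i hi => lt_of_le_of_ne (hg1 i) hi
      obtain ⟨g', h1, h2, _⟩ := exists_trunc hpos D hlt
      obtain ⟨ξ, hξ, h3⟩ := hU3 D hD g' h1
      have hsξ : Order.succ ξ < ρ.ord := hρlim.succ_lt hξ
      have h4 : dlt D g' (f (Order.succ ξ)).1 :=
        (h3.trans (hU2 ξ _ (Order.lt_succ ξ) hsξ D hDmem)).trans_dle (dle_of_forall (hdomU ξ hsξ))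
      have h5 : dlt D (f (Order.succ ξ)).1 g := (hF _).1 (hg2 _ hsξ) D hDmem
      exact dlt_irrefl (h5.trans_dle (h2.trans h4.le))
    intro h hh
    let h' : ι → Ordinal.{u} := fun i => if g i = c i then h i else 0
    have hlt : flt F h' g := by
      filter_upwards [hg2 0 hρ.ord_pos] with i hi
      by_cases hgi : g i = c i
      · simp only [h', if_pos hgi]; rw [hgi]; exact hh i
      · simp only [h', if_neg hgi]
        exact lt_of_le_of_lt zero_le hi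
    obtain ⟨ξ, hξ, hlt'⟩ := hg3 h' hlt
    refine ⟨ξ, hξ, fun η hξη hη D hD => ?_⟩
    have hDmem : D ∈ Ge c ρ := ⟨ρ, le_rfl, hD⟩
    have h1 : dlt D h (f ξ).1 := by
      filter_upwards [hb D hD, (hF _).1 hlt' D hDmem] with i h2 h3
      simp only [h', if_pos h2] at h3
      exact h3
    rcases hξη.eq_or_lt with h2 | h2
    · rw [← h2]; exact h1
    · exact h1.trans (hmono η ξ h2 hη D hDmem)

end

end Helper23.Pcf
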