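import Pool.Agent.Helper23.Pcf.Core

set_option autoImplicit false

open Cardinal Ordinal Set Filter

universe u

namespace Helper23.Pcf

variable {ι ι' : Type u}

/-- Composition of cofinalities (the `E`-sum of the ultrafilters `Dj`). -/
theorem HasCof.bind {J : Type u} {E : Ultrafilter J} {Dj : J → Ultrafilter ι}
    {c : ι → Ordinal.{u}} {b : J → Cardinal.{u}} {θ : Cardinal.{u}}
    (hJ : ∀ i, #J < (c i).cof) (hb : ∀ j, HasCof (Dj j) c (b j))
    (H : HasCof E (fun j => (b j).ord) θ) : HasCof (E.bind Dj) c θ := by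
  classical
  choose g hg1 hg2 hg3 using fun j => (hb j).exists_scale
  have hpos : ∀ i, 0 < c i := fun i => by
    have : (c i).cof ≠ 0 := (lt_of_le_of_lt zero_le (hJ i)).ne'
    exact pos_iff_ne_zero.2 (fun h0 => this (Ordinal.cof_eq_zero.2 h0))
  have hev : ∀ p : ι → Prop, (∀ᶠ i in (E.bind Dj : Ultrafilter ι), p i) ↔
      ∀ᶠ j in E, ∀ᶠ i in Dj j, p i := fun p => Iff.rfl
  refine H.transfer (fun h i => ⨆ j, if g j (h j) i < c i then g j (h j) i else 0)
    (fun f j => sInf {ζ | ζ < (b j).ord ∧ dlt (Dj j) f (g j ζ)}) ?_ ?_ ?_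
  · intro h _
    refine dlt_of_forall fun i => Ordinal.iSup_lt_of_lt_cof (hJ i) fun j => ?_
    split_ifs with h'
    · exact h'
    · exact hpos i
  · intro f hf
    have hf' := (hev _).1 hf
    filter_upwards [hf'] with j hj
    obtain ⟨ζ, hζ, hζ'⟩ := hg3 j f hj
    exact lt_of_le_of_lt (csInf_le' ⟨hζ, hζ'⟩) hζ
  · intro f h hf hh hfh
    refine (hev _).2 ?_
    filter_upwards [(hev _).1 hf, hh, hfh] with j hj hhj hlt
    obtain ⟨ζ, hζ, hζ'⟩ := hg3 j f hj
    have hmem := csInf_mem (s := {ζ | ζ < (b j).ord ∧ dlt (Dj j) f (g j ζ)}) ⟨ζ, hζ, hζ'⟩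
    have h1 : dlt (Dj j) f (g j (h j)) := hmem.2.trans (hg2 j _ _ hlt hhj)
    have h2 : dlt (Dj j) (g j (h j)) c := hg1 j _ hhj
    filter_upwards [h1, h2] with i hi hi'
    refine lt_of_lt_of_le hi ?_
    have := Ordinal.le_iSup (fun j => if g j (h j) i < c i then g j (h j) i else 0) j
    simpa [hi'] using this

/-- Passing to the cofinalities of the values. -/
theorem HasCof.cof_values {D : Ultrafilter ι} {c : ι → Ordinal.{u}} {θ : Cardinal.{u}}
    (H : HasCof D c θ) : HasCof D (fun i => (c i).cof.ord) θ := by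
  classical
  have hfs : ∀ i, ∃ e : Iio (c i).cof.ord → Iio (c i), Ordinal.IsFundamentalSeq e := fun i =>
    Ordinal.exists_isFundamentalSeq rfl
  choose e he using hfs
  refine H.transfer (fun f i => sInf {ζ | ∃ h : ζ < (c i).cof.ord, f i ≤ (e i ⟨ζ, h⟩).1})
    (fun h i => if h' : h i < (c i).cof.ord then (e i ⟨h i, h'⟩).1 else 0) ?_ ?_ ?_
  · intro f hf
    filter_upwards [hf] with i hi
    obtain ⟨_, ⟨ζ, rfl⟩, hζ⟩ := (he i).isCofinal_range ⟨f i, hi⟩
    exact lt_of_le_of_lt (csInf_le' ⟨ζ.2, hζ⟩) ζ.2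
  · intro h hh
    filter_upwards [hh] with i hi
    rw [dif_pos hi]
    exact (e i ⟨h i, hi⟩).2
  · intro h f hh hf hlt
    filter_upwards [hh, hf, hlt] with i hi hfi hli
    rw [dif_pos hi] at hli
    obtain ⟨_, ⟨ζ, rfl⟩, hζ⟩ := (he i).isCofinal_range ⟨f i, hfi⟩
    obtain ⟨h1, h2⟩ := csInf_mem
      (s := {ζ | ∃ h : ζ < (c i).cof.ord, f i ≤ (e i ⟨ζ, h⟩).1}) ⟨ζ.1, ζ.2, hζ⟩
    have h3 := lt_of_lt_of_le hli h2
    exact (he i).strictMono.lt_iff_lt.1 h3

/-- Image of an ultrafilter. -/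
theorem HasCof.map {D : Ultrafilter ι} {d : ι → Ordinal.{u}} {θ : Cardinal.{u}}
    (H : HasCof D d θ) (y : ι → ι') {c' : ι' → Ordinal.{u}} (hdc : ∀ᶠ i in D, d i = c' (y i))
    (hι : ∀ j, #ι < (c' j).cof) : HasCof (D.map y) c' θ := by
  classical
  have hpos : ∀ i, 0 < c' i := fun i => by
    have : (c' i).cof ≠ 0 := (lt_of_le_of_lt zero_le (hι i)).ne'
    exact pos_iff_ne_zero.2 (fun h0 => this (Ordinal.cof_eq_zero.2 h0))
  have hev : ∀ p : ι' → Prop, (∀ᶠ j in (D.map y : Ultrafilter ι'), p j) ↔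
      ∀ᶠ i in D, p (y i) := fun p => Iff.rfl
  refine H.transfer (fun f j => ⨆ i, if y i = j ∧ f i < c' j then f i else 0)
    (fun h i => h (y i)) ?_ ?_ ?_
  · intro f _
    refine dlt_of_forall fun j => Ordinal.iSup_lt_of_lt_cof (hι j) fun i => ?_
    split_ifs with h'
    · exact h'.2
    · exact hpos j
  · intro h hh
    filter_upwards [(hev _).1 hh, hdc] with i hi hi'
    rw [hi']; exact hi
  · intro h f hh hf hlt
    refine (hev _).2 ?_
    filter_upwards [hlt, hf, hdc] with i hi hfi hi'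
    refine lt_of_lt_of_le hi ?_
    have := Ordinal.le_iSup (fun k => if y k = y i ∧ f k < c' (y i) then f k else 0) i
    have h2 : f i < c' (y i) := by rwa [← hi']
    simpa [h2] using this

/-- Unbounded fibres: pigeonhole for maps from a regular cardinal. -/
theorem exists_unbounded_fiber {θ : Cardinal.{u}} (hθ : θ.IsRegular) {α : Type u} (hα : #α < θ)
    (w : Ordinal.{u} → α) : ∃ a, ∀ ξ < θ.ord, ∃ η, ξ < η ∧ η < θ.ord ∧ w η = a := by
  have h1 : ℵ₀ ≤ #θ.ord.ToType := by simpa using hθ.1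
  have h2 : #α < (#θ.ord.ToType).ord.cof := by simpa [hθ.cof_ord] using hα
  obtain ⟨a, ha⟩ := Cardinal.infinite_pigeonhole
    (fun k : θ.ord.ToType => w (Ordinal.ToType.mk.symm k).1) h1 h2
  refine ⟨a, fun ξ hξ => ?_⟩
  by_contra hcon
  push Not at hcon
  have hlim : Order.IsSuccLimit θ.ord := Cardinal.isSuccLimit_ord hθ.1
  have hsucc : Order.succ ξ < θ.ord := hlim.succ_lt hξ
  have hle : #((fun k : θ.ord.ToType => w (Ordinal.ToType.mk.symm k).1) ⁻¹' {a}) ≤
      #((Order.succ ξ).ToType) := by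
    refine Cardinal.mk_le_of_injective
      (f := fun k => Ordinal.ToType.mk ⟨(Ordinal.ToType.mk.symm k.1).1, ?_⟩) ?_
    · rw [mem_Iio, Order.lt_succ_iff]
      by_contra hlt
      push Not at hlt
      exact hcon _ hlt (Ordinal.ToType.mk.symm k.1).2 k.2
    · intro k k' hkk
      have := Ordinal.ToType.mk.injective hkk
      have h3 := congrArg Subtype.val this
      simp only at h3
      have h4 := Subtype.ext h3
      exact Subtype.ext ((Ordinal.ToType.mk (o := θ.ord)).symm.injective h4)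
  rw [ha] at hle
  have : #((Order.succ ξ).ToType) < θ := by simpa using Cardinal.lt_ord.1 hsucc
  simp at hle
  exact absurd (lt_of_le_of_lt hle (by simpa using this)) (lt_irrefl _)

end Helper23.Pcf
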